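import Pool.Agent.T2H98.EGZ.Trans
import Pool.Agent.T2H98.EGZ.C.G

set_option autoImplicit false
set_option linter.unusedVariables false

namespace Pool.Agent.T2H98.EGZ

open K

theorem gsok (Gs : List GDat) (h1 : Gs.all gcheck = true) (h2 : Gs.all (gck codes45) = true) :
    ∀ G ∈ Gs, GOK G := fun G hG =>
  gok_of G (List.all_eq_true.1 h1 G hG) (List.all_eq_true.1 h2 G hG)

theorem gs0_ok : ∀ G ∈ Gs0, GOK G := gsok _ (by decide +kernel) (by decide +kernel)

theorem gs1_ok : ∀ G ∈ Gs1, GOK G := gsok _ (by decide +kernel) (by decide +kernel)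

theorem gs2_ok : ∀ G ∈ Gs2, GOK G := gsok _ (by decide +kernel) (by decide +kernel)

theorem gs3_ok : ∀ G ∈ Gs3, GOK G := gsok _ (by decide +kernel) (by decide +kernel)

theorem gs4_ok : ∀ G ∈ Gs4, GOK G := gsok _ (by decide +kernel) (by decide +kernel)

theorem gs5_ok : ∀ G ∈ Gs5, GOK G := gsok _ (by decide +kernel) (by decide +kernel)

theorem gs6_ok : ∀ G ∈ Gs6, GOK G := gsok _ (by decide +kernel) (by decide +kernel)

end Pool.Agent.T2H98.EGZ
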