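import Pool.Agent.T2H98.EGZ.C.D07

set_option autoImplicit false
set_option linter.unusedVariables false

namespace Pool.Agent.T2H98.EGZ.K.C07

open K

noncomputable def O3 : Nat → Nat := orc 60425 53 235 0x3000200000000000c0000000b000000050005000200010000000000000001000300000000000100000005000100020002000100010005000000000003000100100004000000070000000000060001000200000003000e000000000000000700010000000700050004
  0xe4900e7c00481002f30003d004dd000000000000941000000114700d5400ff6008ef001980041b000000058000033001f40000000e160000000000003630094b0015b00000010d700ad90000000000000000097400000005f10000000f9a0068a0000000000000000000a0000000000000000051a00000011a3000000000000000000000000000eb90000000000000000000000000009bb000000000000000009ee0000000d4a0000000f1f008e50044e000000000000b7d01085003260035900ded0000000000000000000000eec00000002c0005fb0054d00e8600cc5007bc007ef00d21002310011e009b101071001c10000001170010ae000000097e010e10072300b2b0025a003c900c7300fec000000000000789000000000000d8700bc501048000000000000756006fa008600000000c17004aa00f480107b00000000c20008f00694007600110a00f5200db0004b400e5300a36000850033000dba00a6900a7300227006f000818007c6002ca0000000893008f900ccf0066100000009e4000f500f150000000d170072d000000079300000001650065700c2b0103e00fa4001fe00de30000000000009a7006c700e200039600aa6000000000000b020026400bcf000000054300000005a9005760018e00000000000000000ee200b7300c7d00297000000038c0062e000b80000000477004e700000002fd0000001114001280113d0000000000000000000000acf0028d00000011ad00eaf001cb00a40006240086a000eb005100000000c210117a0013200a9c00d7d00444006bd00000003bf0089d00411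
  0x541000004600a288c206084004510c100108001864881021009018600004400fe88c285084f34610004002007fa02820424004f3c41031e78c10010003fcc2420a38e4820040009040c0810e3a0100108014512c50011001f986221422003f451144844002238c10208800fd13471e1100038e88200220011347080042007e88e20508400041404001100282038e2024007f443080842000411e386fcf3460a2100610480e31018600008400a07963801c7402002100600fe78e1013cd181002200649268e0091c6100086011249a38024940300218e3a0100089034c1c0044008412038c08801fd11c40a1080038e482002000830d01020e3a010010801fcf1820a1200600fe88e205084000412450c1000438e78a1030d01020840180210480e3030d010208400fe492183090020413870049238e2046fd034916120e3a0100088011c74461011000104482002400830d1101044001a612302080022491c5001280449268e0023009134c181044000821218208c02fd1182021180038e7881bf28708288bf9a6941c23018c3101c604000a06960800880124934700118048a230a0821003f4040c084800a0696080088011c7402001100210480e31040c08108400848a2082084000c3405001100289a2881821001040c18504400820a020008801fd11c50210801f8a2a004230042091346042000e3a230808800446102041300080c3000022007f40408184800924a02840900200514471c0046001238c20008c02082241001200480e20400209004008c00a081838808801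
noncomputable def S3 : Nat := 0x42000000000000000000
theorem k3 : loop (f1 (tail O3 (outl outs) (mkE0 264243 290) 3 7 2 13 12 17 16 9 15 14 8 10)
    Q2 Q3 Q4 Q5 Q6 Q7 Q8 Q9 Q10 Q11 Q12) S3 = true := by decide +kernel
noncomputable def O4 : Nat → Nat := orc 47735 1 6 0x0
  0xa0003d00000000000000000033
  0x11443040042002080e28008001
noncomputable def S4 : Nat := 0x2000000000000000000000000000000000000000000000000000000
theorem k4 : loop (f1 (tail O4 (outl outs) (mkE0 264243 290) 3 7 2 13 12 17 16 9 15 14 8 10)
    Q2 Q3 Q4 Q5 Q6 Q7 Q8 Q9 Q10 Q11 Q12) S4 = true := by decide +kernel

end Pool.Agent.T2H98.EGZ.K.C07
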