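import Pool.Agent.T2H98.EGZ.C.D07

set_option autoImplicit false
set_option linter.unusedVariables false

namespace Pool.Agent.T2H98.EGZ.K.C07

open K

noncomputable def O27 : Nat → Nat := orc 47595 10 51 0x5000200020005000d00010001000100020000
  0x70001320000000000000000000000000002080033b0013c0006600033002640023b00165001a200109002b60000a002e900198000a3000cc0000000000002310000000000000ff001cb000d600099002df00000002ac00000000000016f0003d00000000000033100000001fe00000000000000000000001d500000
  0x4511c4041080010440a2071c814108602820a238c09400fc41110e00089a0843fd01840e10003fa21840421003f44608084600061a02040880144718300110006228841022003f44710284200020a02000880140d1440c10003fa230a14210011443040042002288608008400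
noncomputable def S27 : Nat := 0x1002000000000000000000000000000000004000000000000000000000000000000000000000000000000000000000000000000000000000000000000000000000000000000000000000000000000000000000000000000000000000000000000000000000000000000000000000000000000000000000000000000000000000000000000000000000000000000000000000000000000000000000000000000000000000000000000000000000000000000000000000000000000000000000000000000000000000000000000000000000000000000000000000
theorem k27 : loop (f1 (tail O27 (outl outs) (mkE0 264243 290) 3 7 2 13 12 17 16 9 15 14 8 10)
    Q2 Q3 Q4 Q5 Q6 Q7 Q8 Q9 Q10 Q11 Q12) S27 = true := by decide +kernel
noncomputable def O28 : Nat → Nat := orc 61837 4 20 0x1000b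
  0xd600070000000000000000000ff000330003d000000010900000000cc0000000066000000000000099000a3000000000a
  0x3f443080842002080c184090010003c40413007fa218404210000009183046017e88c28508400
noncomputable def S28 : Nat := 0x42000002000000000000000000000000000000000000000000000000000000000000000000000000000000000000000000000000000000000000000000000000000000000000000000000000000000000000000000000000000000000000000000000000000000000000000000000000000000000000000000000000000000000000000000000000000000000000000000000000000000000000000000000000000000000000000000000000000000000000000000000000000000000000000000000000000000000000000000000000000000000000000000000000000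
theorem k28 : loop (f1 (tail O28 (outl outs) (mkE0 264243 290) 3 7 2 13 12 17 16 9 15 14 8 10)
    Q2 Q3 Q4 Q5 Q6 Q7 Q8 Q9 Q10 Q11 Q12) S28 = true := by decide +kernel

end Pool.Agent.T2H98.EGZ.K.C07
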