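import Pool.Agent.T2H98.EGZ.C.D07

set_option autoImplicit false
set_option linter.unusedVariables false

namespace Pool.Agent.T2H98.EGZ.K.C07

open K

noncomputable def O29 : Nat → Nat := orc 47515 11 49 0x1200010003000600020007000a000000040002
  0x326000ff001ea001f4000990031c0003300132002f30022700000000d6000660028300359000a30000a0003d0000000000000000034f002e90013c00070001090028d0025a0021d002b6001a200250000000016f00000001980000000000001650000000000002c00000000000000000000000000000cc00000
  0x209134604200048a208208400fd040602110021868880822001040b10104400820a22860880045118504108008a258a0022003f406103fe806081100010c340408110028205880822004f3cd34304c019e68c080090034103030011003fa238a0421003f082441842002069608008801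
noncomputable def S29 : Nat := 0x6000000000000000000000000000000000000000000000000000000000000000000000000000000000000000000000000000000000000000000000000000000000000000000000000000000000000000000000000000000000000000000000000000000000000000000000000000000000000000000000000000000000000000000000000000000000000000000000000000000000000000000000000000000000000000000000000000000000000000000000000000000000000000000000000000000000000000000000000000000000000000000000000000000000000
theorem k29 : loop (f1 (tail O29 (outl outs) (mkE0 264243 290) 3 7 2 13 12 17 16 9 15 14 8 10)
    Q2 Q3 Q4 Q5 Q6 Q7 Q8 Q9 Q10 Q11 Q12) S29 = true := by decide +kernel
noncomputable def O30 : Nat → Nat := orc 44739 10 44 0x30000000c000000100000000600010002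
  0x1fe0003300066000ff001d5002080016f000a30000a000cc001cb002d5002a2001090034500165000000009900312001a2000000000000000002310000000000002df001980000000000000700033b000d6001320013c002ac003080000000000000000003d0023b00000
  0x11444101048007e8a2587084001864430811001fa21840421000f3c51407e7881010003cd0830806082612002600bf443080842002080e18009001000445081100081a60c1022007f4070c184600861922800840224718400118048a21820021003f443080842002289628008800
noncomputable def S30 : Nat := 0x5000000000000000000000000000000000000000000000000000000000000000000000000000000000000000000000000000000000000000000000000000000000000000000000000000000000000000000000000000000000000000000000000000000000000000000000000000000000000000000000000000000000000000000000000000000000000000000000000000000000000000000000000000000000000000000000000000000000000000000000000000000000000000000000000000000000000000000000000000000000000000000000000000000000000000000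
theorem k30 : loop (f1 (tail O30 (outl outs) (mkE0 264243 290) 3 7 2 13 12 17 16 9 15 14 8 10)
    Q2 Q3 Q4 Q5 Q6 Q7 Q8 Q9 Q10 Q11 Q12) S30 = true := by decide +kernel
noncomputable def O31 : Nat → Nat := orc 57041 14 59 0xf0005000600090000000800000004000100110000000000010000
  0x40700000003ab00128001f4000000000a0033b002270046d000000028300000002c0003d4000000025000000002b6003de001ea0021d0003d0000000411003780000000000002f300000000cc0043a0044400000000000015b001b70018e000000028d00477000000000000184000330007000151000660036e0011e00099000a300345000000025a001c1003a1000d6002e9
  0x44d1c20010801fa218404210011347080042007e61230108c024510c1001080028a89a0821003f447102842007e30c78730c3c6002080648e30600200091443040042002080c184090014510c1001080038e882002200071d008004400fe88e281084001c74410011000820386002400504070c07e80a081110014511430411801fa2388142100041111c004a002080810008c01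
noncomputable def S31 : Nat := 0x40000000000000000000000000000000000000000000000000000000000000000000000000000000000000000000000000000000000000000000000000000000000000000000000000000000000000000000000000000000000000000000000000000000000000000000000000000000000000000000000000000000000000000000000000000000000000000000000000000000000000000000000000000000000000000000000000000000000000000000000000000000000000000000000000000000000000000000000000000000000000000000000000000000000000000000
theorem k31 : loop (f1 (tail O31 (outl outs) (mkE0 264243 290) 3 7 2 13 12 17 16 9 15 14 8 10)
    Q2 Q3 Q4 Q5 Q6 Q7 Q8 Q9 Q10 Q11 Q12) S31 = true := by decide +kernel

end Pool.Agent.T2H98.EGZ.K.C07
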