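import Pool.Agent.T2H98.EGZ.C.D07

set_option autoImplicit false
set_option linter.unusedVariables false

namespace Pool.Agent.T2H98.EGZ.K.C07

open K

noncomputable def O6 : Nat → Nat := orc 44943 2 11 0x0
  0xb80003d00066000000003300000000700000a00000
  0x4511040461888200444511c405fa2184044100112cb0c3042007e80c28909001
noncomputable def S6 : Nat := 0x1000000000000000000000000000000000000000000000000000000000000000
theorem k6 : loop (f1 (tail O6 (outl outs) (mkE0 264243 290) 3 7 2 13 12 17 16 9 15 14 8 10)
    Q2 Q3 Q4 Q5 Q6 Q7 Q8 Q9 Q10 Q11 Q12) S6 = true := by decide +kernel
noncomputable def O7 : Nat → Nat := orc 60869 53 230 0x3000a0015001f000300080003000300000000000100000006000100010004000100120012000000230001000300120000000200000000000000060002000300030003001300010005000400000000000500000005000a000200000000000900090002000200120001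
  0xf1e0000000e5c00fea000000000000000000000108e0000000000000000000000000000000000000c7c0000000f280038300db90072e00ec2000eb00000000000094c000000011e00f5100eb80006600511006be0000000ef50047800000002ea000000000000d530000000000002b700d2a0000000000000700000000000007fb00eeb0000000000010c100bb00086100fc100c160053a0105b00bba00e8f0000000d90000000065800a8800e8501127004ab0066200228009b20056d00abb00dc3001b7000000000000fb7009e500ab1010cb007c8000000097f0000000000002f4000000015100184010980080500c4900ff400b5400894005d3002510021e00b7d00f8e0011400cce0069500f5b000000035000000009bc003c000000004de004d40083800e29005770028e00aee00ae400a4b0078000be300c53003e90098900b4a00a7e00610000000086b000b80032700000005aa0046e0003300b2100000007d20115a00d5d000e100000011310000000a18008c7006c800284009ef0000000000008fa000000000000000000000082e00e1f00f8400956004a1006fb0041c0000a000000017a00b17000000068b0035a008d1010f400c20000000025b0042600a5500000000000077600904006f10054400d8600dec00724002c1005a000000003f3003b600cd80000000bed0060600000000000000000d2000a220038d00507000000003d010fe00147001ad000000031d0116400000000000000000000000000000000c860000000e5200df6005dd00b870089e01065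
  0x80e3040825007f3c7080848018001e684084034471820411001fa018204200045151341042002028a208fcc310066208020865007f4470008460022896204088004510c100108008985860823001034b040044008a2a038208801fd10c2021080030c48a002300871d008004400a268e10008400fd144b0e108001868880822001040208104000a259630c08c004510c1008a26963841003f4060c3fe28a80110c010c34040412803f841220c21003f40b34d84400848a208208400fcc24602118048a23081821003f082441842002238c180088001c74020011003fa218404210011446103042007e618885088004511c4041080048e308002300861910c2044002081818008801fc81c40bf841100c42017f30c44284400206983040880145134b1c10801fa080c0422007f446142842002289a58e0840045134d1c1868880842000d2491c70e392080100021043c304110068a238808210000011341046002081818008801104447188a269a2046001040c0c0044008e3a0100088011454060c11003f841220c21003f446080846000c32238a08800fd11c0021180049268e0023008000f1c10821e18210803247183001000448e3040820009034b04004400a268c20008c00fc92430612005f9a6941c230182451041042002080e2800800109144104108008861841026000a34d1451451a5840c330a083100c8a2182002100061911c5044002238c18008800fd01840e100028a26040825fd10c203f841220c41003f447140842002288608008400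
noncomputable def S7 : Nat := 0x2000000000000000000000000000000000000000000000000000000000000000
theorem k7 : loop (f1 (tail O7 (outl outs) (mkE0 264243 290) 3 7 2 13 12 17 16 9 15 14 8 10)
    Q2 Q3 Q4 Q5 Q6 Q7 Q8 Q9 Q10 Q11 Q12) S7 = true := by decide +kernel
noncomputable def O8 : Nat → Nat := orc 48381 4 28 0x200070000
  0x3d0000000099000ff00000000d6000cc00000000000000000033000000010900070000660000000132000000013c0000a000a30000000000
  0x8205966822007f445101846002288c282084003cf34d141280669a40c1026014438e041040022288608008400
noncomputable def S8 : Nat := 0x2100000000000000000000000000000000000000000000000000000000000000000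
theorem k8 : loop (f1 (tail O8 (outl outs) (mkE0 264243 290) 3 7 2 13 12 17 16 9 15 14 8 10)
    Q2 Q3 Q4 Q5 Q6 Q7 Q8 Q9 Q10 Q11 Q12) S8 = true := by decide +kernel

end Pool.Agent.T2H98.EGZ.K.C07
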