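import Pool.Agent.T2H98.EGZ.C.D07

set_option autoImplicit false
set_option linter.unusedVariables false

namespace Pool.Agent.T2H98.EGZ.K.C07

open K

noncomputable def O15 : Nat → Nat := orc 53701 25 111 0x10000000000010008000b0007001b0000000200010002000000030008000100000005000000040000000d000200010000
  0x84d000f6000000046f000000000a00000000000053b00000006e8004d500409000000029a00678006120010000370000000074e0000000597005ca006ab003a3000000020b0043c007dd00465002670064f0056e000000000000000003000000000498000000061c00167007aa00682002a40039900000007b40000000000004320081a00000002d700876000000000000271006b5000a4005640000000000007e7000000000000777004a20023400201001b9003ff0000000366000000000000645004fe00000000000030a00781000ae00810000000000000000007440033d00000003d600333002cd0023e005a10071b001af0053100711000330003d0000000880006de005080000000000004cb00843003cc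
  0x1f921020c25008245104104200048a20820840040d2c10011003fa218404210002089040048010e3a2080088004061800011003fa080c0422005144304004200188a21040880030c407181000288e3060022000f1820401e38c20010bf1c73c084001fe82018309801082407181100281a582002200471d008004400fe10488308400fd11850a1080038e88200220011444101048007e88e20508400fd11c5021080028a89a08210011443040042007e88e28108400fcd30a0a1280c8a23880821003f4071048480098622080090004511c4041080081858c0bf407101880008a29c6963830c104217e71858338614201f9c684146201104071027e80c2831000140d2c61020880c0901860000c400fe8a228908800
noncomputable def S15 : Nat := 0x45000000000000000000000000000000000000000000000000000000000000000000000000000000000000000000000000000000000000000000000000000000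
theorem k15 : loop (f1 (tail O15 (outl outs) (mkE0 264243 290) 3 7 2 13 12 17 16 9 15 14 8 10)
    Q2 Q3 Q4 Q5 Q6 Q7 Q8 Q9 Q10 Q11 Q12) S15 = true := by decide +kernel
noncomputable def O16 : Nat → Nat := orc 59097 8 34 0x70000000100020002000300000000
  0x265002980000000000000000025b00114000a40000a0000000000000e1001c200199001f5000000028e0010a001ff0013d002280000000000000d70018f000000023200147001cc0007b0000000071000ae
  0x82059668220051443040042000412268c08400fd11c40a1080088e304082200071d104004400186223864511c6082180069a898282300064510000480012498588080020412450c10005fa289637f447000fe88c10118c00
noncomputable def S16 : Nat := 0x100000000000000000000000000000000000000000000000000000000000000000000000000000000000000000000000000000000000000000000000000000000000000000000000000000000000000000000000000000000000000000000000000000100000000000000000000000000000000000000000000000000000000000000000000000000000000000000000000000000000000000000000000000000000000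
theorem k16 : loop (f1 (tail O16 (outl outs) (mkE0 264243 290) 3 7 2 13 12 17 16 9 15 14 8 10)
    Q2 Q3 Q4 Q5 Q6 Q7 Q8 Q9 Q10 Q11 Q12) S16 = true := by decide +kernel

end Pool.Agent.T2H98.EGZ.K.C07
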