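import Pool.Agent.T2H98.EGZ.C.D07

set_option autoImplicit false
set_option linter.unusedVariables false

namespace Pool.Agent.T2H98.EGZ.K.C07

open K

noncomputable def O17 : Nat → Nat := orc 55521 18 77 0x600000009000300000000000000020011000100010001000a0000000a00070001
  0x3070039600561000a300000002640016f00462000000000000000003fc001cb004fb002a10036300000002080023b0042f0033a00000000d600439000ff00000002ca0023100000003d30036d00000000700013c00132003c9000990052e002d400000004d2003300000000000000000003300000002fd0000000495001d50026e0049f005380000000000001650000a00000001fe0046c000cc003a00000000198000000000000505000660056b001a20003d0040600109004c80000000297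
  0x4471830011001fa28961c210011345103042007e81a20308801fd10c20210801fa238a0421003f447102842007e592281080024512c40811001fa230a1421000538e0c3040022238c10208800fd01c4061000218680a002200471d1040044002238c10208800fd01c4061000281a58200220044110345046008a2a03820880114544d041080080c30000220050345103040008411208009002fd01c4121200270618208220111443040042002288608008400
noncomputable def S17 : Nat := 0x3000000000000000000000000000000000000000000000000000000000000000000000000000000000000000000000000000000000000000000000000000000000000000000000000000000000000000000000000000000000000000000000000000000000000000000000000000000000000000000000000000000000000000000000000000000000000000000000000000000000000000000000000000000000000000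
theorem k17 : loop (f1 (tail O17 (outl outs) (mkE0 264243 290) 3 7 2 13 12 17 16 9 15 14 8 10)
    Q2 Q3 Q4 Q5 Q6 Q7 Q8 Q9 Q10 Q11 Q12) S17 = true := by decide +kernel
noncomputable def O18 : Nat → Nat := orc 55027 13 53 0x400080001000000030003000000030002000a00020002
  0x363002ca00000001a200000002640000000000001cb00000003a000066002d40020800231000cc0033a0000a00099000a30013c001320036d00396003c90016f0019800000002970023b000ff000000000000000002fd001d500070000330003d000000000000330000000026e002a1003d300307001fe0010900000000d60000000165
  0x1c744100110001048880022001144b102044001a49238e080021c744100110001868880822003f4060c3846009228a2080800234d44c001080049268e00230089185080048017e88e281084001c74410011001fa288e1c25000d249082048012288e202084004511c404108008a258810220001051143044002081818008801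
noncomputable def S18 : Nat := 0x43000000000000000000000000000000000000000000000000000000000000000000000000000000000000000000000000000000000000000000000000000000000000000000000000000000000000000000000000000000000000000000000000000000000000000000000000000000000000000000000000000000000000000000000000000000000000000000000000000000000000000000000000000000000000000000000
theorem k18 : loop (f1 (tail O18 (outl outs) (mkE0 264243 290) 3 7 2 13 12 17 16 9 15 14 8 10)
    Q2 Q3 Q4 Q5 Q6 Q7 Q8 Q9 Q10 Q11 Q12) S18 = true := by decide +kernel
noncomputable def O19 : Nat → Nat := orc 48431 10 47 0x300010000000400040004000000030001
  0x1cb002080000000000000000000a00000000d6000cc000000016500000000990000000000001a2000000000000000001320000000070001fe0026e00264001090000000000001d5002310023b00066000ff000a30000000000001980003d000000013c002ca002a10016f002d4000330000000297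
  0x1fa238a042100030d010204400fe59218508c02fc9102061300448e308002300bf446080846000c322184088000004450811000104482002400891c6100046012238c180088004512c50011000622884102200112cb0c3042007e88e28108400
noncomputable def S19 : Nat := 0x1000000000000000000000000000000000000000000000000000000000000000000000000000000000000000000000000000000000000000000000000000000000000000000000000000000000000000000000000000000000000000000000000000000000000000000000000000000000000000000000000000000000000000000000000000000000000000000000000000000000000000000000000000000000000000000000000
theorem k19 : loop (f1 (tail O19 (outl outs) (mkE0 264243 290) 3 7 2 13 12 17 16 9 15 14 8 10)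
    Q2 Q3 Q4 Q5 Q6 Q7 Q8 Q9 Q10 Q11 Q12) S19 = true := by decide +kernel

end Pool.Agent.T2H98.EGZ.K.C07
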