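import Pool.Agent.T2H98.EGZ.C.D07

set_option autoImplicit false
set_option linter.unusedVariables false

namespace Pool.Agent.T2H98.EGZ.K.C07

open K

noncomputable def O20 : Nat → Nat := orc 42575 12 51 0x6001e000000020006000000090001000200000005
  0x23b002a10036d000ff0029700000001d50026e0010900099003300033a0000a001a2001980013c00307001cb000000000000000000d6000330016f002fd00165001fe0000000070002ca00000000000013200000000cc0020800000002d40000000000000000003d000000023100000002640036300066000a30000000000
  0x3f44d1c7844002068a182090014510c100108008a230a0821003f082441842002288c206084004510c10010800122882082100061910c2044002228a2080880044b2c30c1080008261200260091447101042007e820301088014511c40410801fa0282042400451501c104400fe88c28508400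
noncomputable def S20 : Nat := 0x1080000000000000000000000000000000000000000000000000000000000000000000000000000000000000000000000000000000000000000000000000000000000000000000000000000000000000000000000000000000000000000000000000000000000000000000000000000000000000000000000000000000000000000000000000000000000000000000000000000000000000000000000000000000000000000000000000000000
theorem k20 : loop (f1 (tail O20 (outl outs) (mkE0 264243 290) 3 7 2 13 12 17 16 9 15 14 8 10)
    Q2 Q3 Q4 Q5 Q6 Q7 Q8 Q9 Q10 Q11 Q12) S20 = true := by decide +kernel
noncomputable def O21 : Nat → Nat := orc 64711 29 126 0x100010008000d0000000400010000000000190002000500020001000000000004000100080005000700010005000400030011000500000000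
  0x82d000000000000000000000046d004dd008230079e0007000860008c600000000000000000000005a900000002270000000099005430000000000000000000000000000000066b00000007db00378001c100000000cc00444002df00411002500036e00000006db0000000000000660043a006a8004770070400308002a200000000f5000000056c001f40012800345001840015b00000007a8003a100510004d30073700033003de0089300000000000025a001ea000000011e003ab0000000000006420003d00576008bc005dc0000000000004a000000008f9000000050600638008560070e005390094b000000033b00889001b70059f006d10060f000000060500312003d40018e00000005d20069e002d5008ef000a30000a000000021d0015100941002ac0000000407004aa0067500000007d100000
  0x451104041200010481a33f406103880008e39210008402fd0141021200208280800220050186000044009a6a060040d1c200200028a23880821000f3461001e78c100fcf3cb1a301e30c082098033cf1c30410807f841220c2100112cb0c304200202861020880104140d0c1180229e782082400ff3c7080848018412068c080010c344404110008a2182002100030d1101044002289628008800405144101280248c102002300844510c304600225961860840044d1c20010800104888002200030d014004400a28860800840008224718108043228800024003f406144fe80a08111001fd034b1e100028203061024004d3513000420022896204088001043c304110068206040822007f2440c084c80c30000220c34040412803f98622142200111c70c304a000002228408800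
noncomputable def S21 : Nat := 0x4002000000000000000000000000000000004000000000000000000000000000000000000000000000000000000000000000000000000000000000000000000000000000000000000000000000000000000000000000000000000000000000000000000000000000000000000000000000000000000000000000000000000000000000000000000000000000000000000000000000000000000000000000000000000000000000000000000000000000000000000000000000000000000000
theorem k21 : loop (f1 (tail O21 (outl outs) (mkE0 264243 290) 3 7 2 13 12 17 16 9 15 14 8 10)
    Q2 Q3 Q4 Q5 Q6 Q7 Q8 Q9 Q10 Q11 Q12) S21 = true := by decide +kernel

end Pool.Agent.T2H98.EGZ.K.C07
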