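import Pool.Agent.T2H98.EGZ.C.D08

set_option autoImplicit false
set_option linter.unusedVariables false

namespace Pool.Agent.T2H98.EGZ.K.C08

open K

noncomputable def O26 : Nat → Nat := orc 40819 14 57 0x1001000000001000c000600040002000000080000000000030004
  0x3300000000363002640000a00000000000040600132003c900000001cb0013c00231001a2000000003d000000016f000000020800000000990000000396003fc000000000000066000ff0000000297000700010900000001d5000cc002ca0033a00198001fe002a10026e002fd0000000000001650023b003a0002d400033000d60000000307000a3003d30036d
  0x1a69e60a08002fce38b021100271c28a0822004e385040046008c32268608400191440001080089658c3022000d34e306046008871c08208001fc61910210801f9c3840c230051445143042000c71c1040880138e102041180279e3860823008e38d300044009c3881000900145110404108003228800021003f44308084600165a238008400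
noncomputable def S26 : Nat := 0x40000004000000000000000000000000000000000000000000000000000000000000000000000000000000000000000000000000000000000000000000000000000000000000000000000000000000000000000000000000000000000000000000000000000000000000000000000000000000000000000000000000000000000000000000000000000000000000000000000000000000000000000000000000000000000000000000000000000000000000000000000000000000000000000000000
theorem k26 : loop (f1 (tail O26 (outl outs) (mkE0 270387 505) 7 3 2 11 12 17 14 15 16 9 8 10)
    Q2 Q3 Q4 Q5 Q6 Q7 Q8 Q9 Q10 Q11 Q12) S26 = true := by decide +kernel
noncomputable def O27 : Nat → Nat := orc 42049 15 63 0x200020000000400020000000000080001000100010000000400080007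
  0x3b60045900000000000021e0032700000000ec001eb0000000000004b5000000044f0048c004bf004e8000000035000000000f600129001850025b00000000000000000085003830028e00426003c000284002510035a002b70041c0018f001b8003e9003f30011f000000031d0022800152004820000000000002c1002f4000000015c0000a0003d000000038d00033001c2002ea004f200000001f5
  0x7e8880830840014e3830c10003f8c3220421000c451082048000e39210008c0438e1c20011003fa22020c210006451000042007e30c881084004440810012801f841220c23000410f18004c017e78a00108c0219144000108008a258a002400071cf14104a011c7182800940144d1c200118003228800021003f38718084400fe88c10108800fc41110e8a238e03f4460808c488e3040911c60c0088002268810008400
noncomputable def S27 : Nat := 0x6000000000000000000000000000000000000000000000000000000000000000000000000000000000000000000000000000000000000000000000000000000000000000000000000000000000000000000000000000000000000000000000000000000000000000000000000000000000000000000000000000000000000000000000000000000000000000000000000000000000000000000000000000000000000000000000000000000000000000000000000000000000000000000000000000000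
theorem k27 : loop (f1 (tail O27 (outl outs) (mkE0 270387 505) 7 3 2 11 12 17 14 15 16 9 8 10)
    Q2 Q3 Q4 Q5 Q6 Q7 Q8 Q9 Q10 Q11 Q12) S27 = true := by decide +kernel

end Pool.Agent.T2H98.EGZ.K.C08
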