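import Pool.Agent.T2H98.EGZ.C.D08

set_option autoImplicit false
set_option linter.unusedVariables false

namespace Pool.Agent.T2H98.EGZ.K.C08

open K

noncomputable def O28 : Nat → Nat := orc 50609 23 93 0x7000600000000000600000008000d0001000900190002001200000006000000010002001100000007
  0x525001ea002df00132004bf004f2003e9004e80028d00345002270061a00184000ff000d6003080042600000007230048200378003f300756004b5005f10055800000000a3000660025a001f40033b0048c00000000cc00000007190003300000001c10000000312000000000a0036e00283001b70058b0000000000000000051b0074c0054e00624006e6003a100680005be0068a0041c000000058100000005b4000000000000000006f000070005e7000000003d0000000099006bd0000000250006b30064d000000018e000000013c0045900657001090021d0044f0000000000002d500000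
  0x3f407104a080e18010403451104041080089858a1821001144b140048000c31e20409002fd11c00211001f9c38c0422004e387080044009861c10008c01082247181180871c28200230051447101046000e3a2080090001454070412007f9c3000420004f34c0c2048012288e380088000c338d101180238e70a18410e08008c38e70c08240046451000042000c8a2000084003cf1450011805fa23040444510c3084002268e30208400fd1101061080030c88e282400111c6081048007e88e00108800fca2830a00050608400191444101042007e208703080011914400010801fa26983c210006451000042007e88808308400
noncomputable def S28 : Nat := 0x85000000000000000000000000000000000000000000000000000000000000000000000000000000000000000000000000000000000000000000000000000000000000000000000000000000000000000000000000000000000000000000000000000000000000000000000000000000000000000000000000000000000000000000000000000000000000000000000000000000000000000000000000000000000000000000000000000000000000000000000000000000000000000000000000000000000000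
theorem k28 : loop (f1 (tail O28 (outl outs) (mkE0 270387 505) 7 3 2 11 12 17 14 15 16 9 8 10)
    Q2 Q3 Q4 Q5 Q6 Q7 Q8 Q9 Q10 Q11 Q12) S28 = true := by decide +kernel
noncomputable def O29 : Nat → Nat := orc 45279 31 143 0x100050000000000110001000200030000000300000002000000000012000000000000000b000200000001000200000008000000040003
  0x66b00250002b600000000c200444004770074c00047001b7005c800719006bd00000007bc008ee0000000000000000094a0000000000004b400000007560034f004aa00000005430084b0000000000000000087e0000000000005950003d000000000000000002e90031c0021d0063800000008bb0000000382001ea000000000000000004dd006610021300184000ff006f0008b1007ef0000000000000f50041b000000095400888005d20028300000003e8001ad0034500000000000077f004e7000000054d0000000000005fb000000000000411003de007e500000001e0000000097d00312002df0078900033007b2009170051a0017a0000000000000cc00605000000062e00000006e600099002790092100000002ac00246007230000000000003b5008550000000510000000059f008e400147003780082200481003ab0000a00987008180008f001510000000000006b3000000000000000000000044e00000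
  0x34d44c001180071a38c08200051347181042001c70810208c0145114304110004106880820014104f18004a012289a688098002cb4470010801f8821c0c200040011341044007e78810108c024471820412001f8c3220421000104f144048012228a2081c7441002200059688e002100111c60c0048007e88808308400fd134b0610801f9a6923ff2c9140880027e208703080012cb44608108008a22080821000b2d1182042002288e3800880010438200130028a22080821003f387180844008871c08208001451104041080071c3840022004b2d11c0042002059628a0840344d102001080038e882002400071d1040048002288820208400fc71d10a10801fa22020c21000c38e1c7048009e7882063cf1820020005fa26960c21000c31104004200020a2590fd1101062080a00165a238008400
noncomputable def S29 : Nat := 0x5000000000000000000000000000000000000000000000000000000000000000000000000000000000000000000000000000000000000000000000000000000000000000000000000000000000000000000000000000000000000000000000000000000000000000000000000000000000000000000000000000000000000000000000000000000000000000000000000000000000000000000000000000000000000000000000000000000000000000000000000000000000000000000000000000000000000000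
theorem k29 : loop (f1 (tail O29 (outl outs) (mkE0 270387 505) 7 3 2 11 12 17 14 15 16 9 8 10)
    Q2 Q3 Q4 Q5 Q6 Q7 Q8 Q9 Q10 Q11 Q12) S29 = true := by decide +kernel

end Pool.Agent.T2H98.EGZ.K.C08
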