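import Pool.Agent.T2H98.EGZ.C.D08

set_option autoImplicit false
set_option linter.unusedVariables false

namespace Pool.Agent.T2H98.EGZ.K.C08

open K

noncomputable def O33 : Nat → Nat := orc 52267 24 110 0x10003000000010000000100010001000e00010000000000060002000300020000000000020000000000090001
  0x66a005d10052e00000006c6000000053800000004c8000cc002ca001cb00000005c70049500000000000063700604000000042f0043900000006f90026e0016f00000003300019800000002310000000264001650036300000002970007000000000000010900000003fc0062d0049f000d60006600132001a2005940000000000000000036d000000000000693001fe003a00069d007030000000000003c90023b006d00039600000001d5004d2000330056100000000000059e0056b0003d002d400099005fa00000000a3003d3004fb00000000000000000000000000046200660003070000a005050000000000000000013c000000033a002fd000ff000000000000208000000046c00406002a100000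
  0x45114304110008a21820023000f3c5102046017e88c1010880044d102001080061888200210011446103046001c308102094013cd1840010005f8c322042100114471c0044000c8a20000840038e1c200110028a2698102100071cb24004c027e38e885084003c718400120047165800022004c3111840420018622308084001114430c1100071a3020022007f444041842001861e30008c0230c4410010801fa22020c21000c311040042007e88808308400fc6191021080021c7020820007f444041842002268810008400fce14106110023228800021003f447000844001862230808400
noncomputable def S33 : Nat := 0xc0000000000000000000000000000000000000000000000000000000000000000000000000000000000000000000000000000000000000000000000000000000000000000000000000000000000000000000000000000000000000000000000000000000000000000000000000000000000000000000000000000000000000000000000000000000000000000000000000000000000000000000000000000000000000000000000000000000000000000000000000000000000000000000000000000000000000000000000000000000000000000000000000000000000000000000000000000000000000000000000000000000000000000000000000000000000000000000000000000000000000000000000000000000000000000000000000000000000000000000000000000000000000000000000000000000000000000000000000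
theorem k33 : loop (f1 (tail O33 (outl outs) (mkE0 270387 505) 7 3 2 11 12 17 14 15 16 9 8 10)
    Q2 Q3 Q4 Q5 Q6 Q7 Q8 Q9 Q10 Q11 Q12) S33 = true := by decide +kernel
noncomputable def O34 : Nat → Nat := orc 49763 18 77 0x1000100000002000200000002000c0000000100060000000000010007000600030003
  0x510003de000990034f0028d004aa0040700543001cb004770000a0038c004dd001a20000000326000cc00000000000013200000002e9001650000000506000000031c000000003d00000003d400070002c00041100359000d6004d3001090013c00000001fe002f30044400382002080016f0000000000000000056c0000000000001d5000000025a00000005390000000000000000043a00000005760046d002b6000330000000283001980025000000000a3000ff004a00006600000
  0x7e8880830840044d1c2001180032288000210000011345042001c59600008801fd1101061080028a89a08230011444101042007e89a60908c003cc2c51061878a104100bf444041842000871c08208001fd11010610801f8e3a214210006451000042007e88808308400104447008881020045003f447000844001c70e10008801fc618e0a11003fa22020c21003f387180844008c8a200008400fd11010610801fa22020c21003f3840c184400965a260009000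
noncomputable def S34 : Nat := 0x1000004000000000000000000000000000000000000000000000000000000000000000000000000000000000000000000000000000000000000000000000000000000000000000000000000000000000000000000000000000000000000000000000000000000000000000000000000000000000000000000000000000000000000000000000000000000000000000000000000000000000000000000000000000000000000000000000000000000000000000000000000000000000000000000000000000000000000000000000000000000000000000000000000000000000000000000000000000000000000000000000000000000000000000000000000000000000000000000000000000000000000000000000000000000000000000000000000000000000000000000000000000000000000000000000000000000000000000000000000000
theorem k34 : loop (f1 (tail O34 (outl outs) (mkE0 270387 505) 7 3 2 11 12 17 14 15 16 9 8 10)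
    Q2 Q3 Q4 Q5 Q6 Q7 Q8 Q9 Q10 Q11 Q12) S34 = true := by decide +kernel

end Pool.Agent.T2H98.EGZ.K.C08
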