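import Pool.Agent.T2H98.EGZ.C.D08

set_option autoImplicit false
set_option linter.unusedVariables false

namespace Pool.Agent.T2H98.EGZ.K.C08

open K

noncomputable def O46 : Nat → Nat := orc 40773 7 31 0x3000200000003000000000000
  0xff000000016f000000003d00000000000013c0003300000001d5001cb000cc00000002080007000165001a20000a001fe0010900198001320000000000000660000000000000d600099000a3
  0x3228800021003f38718084400fe30c881084001d1442081080032288000210011445143042007e49268709404145384041200271c2040823004c311040042001c70a28208801
noncomputable def S46 : Nat := 0x3000000000000000000000000000000000000000000000000000000000000000000000000000000000000000000000000000000000000000000000000000000000000000000000000000000000000000000000000000000000000000000000000000000000000000000000000000000000000000000000000000000000000000000000000000000000000000000000000000000000000000000000000000000000000000000000000000000000000000000000000000000000000000000000000000000000000000000000000000000000000000000000000000000000000000000000000000000000000000000000000000000000000000000000000000000000000000000000000000000000000000000000000000000000000000000000000000000000000000000000000000000000000000000000000000000000000000000000000000000000000000000000000000000000000000000000000000000000000000000000000000000000000000000000000000000000000000000000000000000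
theorem k46 : loop (f1 (tail O46 (outl outs) (mkE0 270387 505) 7 3 2 11 12 17 14 15 16 9 8 10)
    Q2 Q3 Q4 Q5 Q6 Q7 Q8 Q9 Q10 Q11 Q12) S46 = true := by decide +kernel
noncomputable def O47 : Nat → Nat := orc 55281 22 91 0x2000500110000000400050008000600050003000a000000070000001100020004000e000200080002
  0x4120018e000000028400070000330064e0064400000007580046e0038d002b700681000000000000000000000015b002f4003c0006aa00445004ab0031d00327005110000000795000000000000000007620015100066006be0003d001840000a003830053a005bf0023c000b800000004de000000061100000000f5007250072f006b4001ea0028e00677003b6001f4001c100544004080061b001280035a00000002c100000005070078b0011e000eb001b700577002ea004a1004d4004780043b00000005c9000000000000350000c200000000000056d00000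
  0xb2d11c0042007e70e30108801fcf1430610005f9018407f38d082fe410701190050047451082042001659c380080012cb44700108008a22080bf186440882007e70a083fce1030621003f9c38c0422007f446080844002289a604084001c73c5081200489a204002100000100c204c01fe88c101088002cb387006187020040004b2d1182042007e70c001080010823810012003f8c31e1c230091344080042001e38c200090021d144209f8c3220441fd1101063228800041000c311040042007e88a1870840030c441001080061888c2021003f186440842000e8a210408400451303008a260e20450006451000042002288a28608400
noncomputable def S47 : Nat := 0x80000000000000000000000000000000000000000000000000000000000000000000000000000000000000000000000000000000000000000000000000000000000000000000000000000000000000000000000000000000000000000000000000000000000000000000000000000000000000000000000000000000000000000000000000000000000000000000000000000000000000000000000000000000000000000000000000000000000000000000000000000000000000000000000000000000000000000000000000000000000000000000000000000000000000000000000000000000000000000000000000000000000000000000000000000000000000000000000000000000000000000000000000000000000000000000000000000000000000000000000000000000000000000000000000000000000000000000000000000000000000000000000000000000000000000000000000000000000000000000000000000000000000000000000000000000000000000000000000000000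
theorem k47 : loop (f1 (tail O47 (outl outs) (mkE0 270387 505) 7 3 2 11 12 17 14 15 16 9 8 10)
    Q2 Q3 Q4 Q5 Q6 Q7 Q8 Q9 Q10 Q11 Q12) S47 = true := by decide +kernel

end Pool.Agent.T2H98.EGZ.K.C08
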