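import Pool.Agent.T2H98.EGZ.C.D08

set_option autoImplicit false
set_option linter.unusedVariables false

namespace Pool.Agent.T2H98.EGZ.K.C08

open K

noncomputable def O9 : Nat → Nat := orc 56455 24 99 0x50000001b0000000400010002000000310020000000000003000f000500010000000f0000000000000000000d
  0x6e6002f3000990068a00000000330043a0025a003d40061a0028d003a1004fc004300016f006570034f0052f000000058b000000013c00463005b400000000ff0000a005f1003fd001980003d0000000000001a2000000053900000005e700132002e90046d0074c00000000000016500000004a000000006240064d00000005be0000000000001cb001d50000000496004c9000d6004d300000000000006600109000000021d0000000000000cc0000000283006bd00000000a3000000077f0000000407002270058100000006f000506003ca00719003590031c00250002b60072300070002c000326006b300756006800078900000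
  0x11341044007e8a258d0880044d10200108002228861822000000e1c5048008c32268608400fd0406021200600089a0822000b2d1182042001c70e10008801fc618e0a11003f9e2061c73cf000080011c70a08008c011ce384101180231c7041022007f186440842000c8a20000840038b2c000110023228800021001144d3470481868880871d104008800226881000840030c44100108008a22080821001040c0c004801fe88c10108800191440001080079e38c03f3c708088201000226820880044d102001080070e2040024007f186440842000e79e000080021c7246041080888c20408260011344080042002268810008400
noncomputable def S9 : Nat := 0x1000000000000000000000000000000000000000000000000000000000000000
theorem k9 : loop (f1 (tail O9 (outl outs) (mkE0 270387 505) 7 3 2 11 12 17 14 15 16 9 8 10)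
    Q2 Q3 Q4 Q5 Q6 Q7 Q8 Q9 Q10 Q11 Q12) S9 = true := by decide +kernel
noncomputable def O10 : Nat → Nat := orc 45783 12 55 0x20002000b00000011001d00000003000400000000
  0x2d4000cc000000000000198002640000000165000000000000000000660036d00000000000000a003630033a00000001cb0013c0000000000002a10026e000a30030700330001d500070001090009900231000330003d000000023b0000000297002ca0016f001fe001320000000208000d6002fd000ff0000000000001a200000
  0xb2d11c00420020818102090032cb447001080038e71a0023004e34604004400fe8880830840008244400120003228800021000e0c3041048008c8a2000084001c744100120003228800021000438e041040009e7983000900238b2c00011003f9e788042500bf4511c384a00048a208208c00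
noncomputable def S10 : Nat := 0x1140000000000000000000000000000000000000000000000000000000000000000
theorem k10 : loop (f1 (tail O10 (outl outs) (mkE0 270387 505) 7 3 2 11 12 17 14 15 16 9 8 10)
    Q2 Q3 Q4 Q5 Q6 Q7 Q8 Q9 Q10 Q11 Q12) S10 = true := by decide +kernel
noncomputable def O11 : Nat → Nat := orc 46329 2 15 0x0
  0x52000c20000000000000000008f000850000a0000000000000b80005c0000000000
  0x2288a182088001114430c11001f8e3a21421000d2c91410821218210804
noncomputable def S11 : Nat := 0x2000000000000000000000000000000000000000000000000000000000000000000000000
theorem k11 : loop (f1 (tail O11 (outl outs) (mkE0 270387 505) 7 3 2 11 12 17 14 15 16 9 8 10)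
    Q2 Q3 Q4 Q5 Q6 Q7 Q8 Q9 Q10 Q11 Q12) S11 = true := by decide +kernel

end Pool.Agent.T2H98.EGZ.K.C08
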