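import Pool.Agent.T2H98.EGZ.C.D08

set_option autoImplicit false
set_option linter.unusedVariables false

namespace Pool.Agent.T2H98.EGZ.K.C08

open K

noncomputable def O15 : Nat → Nat := orc 44763 26 103 0x70001000a000000000000000100000003000100110000000000050001000200130000000c00000000000300090000000e0000
  0xcc0000000000005b300000005100013c00411001fe000000074b00444007da002e9001a20000000477003ab0060f001790031c0028d00000006e50070e003de0007000000007180000000033007e4001d5000000054d002b6002c00000000109004aa00000001130009900619001460000000000005760064200000002f3000e00032600481007410000000000006db00000000000000000000004e7003e8006a8005800054300000005e6001cb00382006b2007a700675003590051a000660000a000a3004b4002500064c007b1007740034f003b50044e0000000208005dc0016f0077e000000003d0067f00283004dd000d6005a90041b00000000000025a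
  0x1fa22020c21003f4450c3842000412268c08c00fcf1c6061180479e38c002100bf444041842007e88c101088001d144208108008a269620210011347181042000c8a200008400fd11820211001f9c38c0422007f444041842007e71a589080010003cd0811804820606002400ce3871c2040009a69e6060840208244400120008a238e0022003f186440842001e28a186093f3cd182848011a69c6060880138c2c51011003f9e68e042400830d1101048007e78810108c0218f3c30df9e280044300bf3c7181846017e78e30308ff3c6082842012238c1800900038d1c30811002796488002101002fd1182021100089a2040021000c30e142044008e3a208009000
noncomputable def S15 : Nat := 0x3000000000000000000000000000000000000000000000000000000000000000000000000000000000000000000000000000000000000000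
theorem k15 : loop (f1 (tail O15 (outl outs) (mkE0 270387 505) 7 3 2 11 12 17 14 15 16 9 8 10)
    Q2 Q3 Q4 Q5 Q6 Q7 Q8 Q9 Q10 Q11 Q12) S15 = true := by decide +kernel
noncomputable def O16 : Nat → Nat := orc 43881 23 92 0x50027000000000000000100000002000200000009002300000000000000010008000000000003000d00060000
  0x19800033003e8000660064c000000000000099006b200000003bf006230000000000000000000000557002b6000000023b0031c003260000000359002f3006e5004580048100689000000003d0013c00580004b400524003820048b00070005e60000000000000a3001fe005f00013200000000cc0067f006bc001d5000000041b00000004be0051a0034f006ef0065600000001cb000000023100109000ff005bd004e700000000d60026400000002e9002c0001a2003b5004f1006190000a0000000000002080054d0042500165003f20038c000000026e000000016f005b30044e0058a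
  0x1c7441001200030c89a18210000011345042002289a60408400fd11c002110005a080e382500ce38618004000fe888083084002cb3c5041180479e208182000bf38e2c0844008c31e280090021c74410012000514696082501871ce34004600a288608008c0030c44100108003228800021003f3c5000846012268c2000880038e1020411803f8c322042100114471c07e88c1011080018644304128000825040020018c30e04004000fe80c18708803fd134c1211800618882002100101c60c004a019862208008400fd114406110008a22860822003f186440842007e30c88108400
noncomputable def S16 : Nat := 0x86000000000000000000000000000000000000000000000000000000000000000000000000000000000000000000000000000000000000000000000
theorem k16 : loop (f1 (tail O16 (outl outs) (mkE0 270387 505) 7 3 2 11 12 17 14 15 16 9 8 10)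
    Q2 Q3 Q4 Q5 Q6 Q7 Q8 Q9 Q10 Q11 Q12) S16 = true := by decide +kernel
noncomputable def O17 : Nat → Nat := orc 44025 6 25 0x30015000500000004
  0xa300198000cc000000016f000000013200000000d6000ff0000a000700000000000001a20013c0000000033001090003d0016500000000000009900066
  0x1c38e28a094011914400010801f9c6980c23005144d2c7046000e3a010009003fce1c602110021047020024004b2ce18204000a289628009000
noncomputable def S17 : Nat := 0x100000000000000000000000000000000000000000000000000000000000000000000000000000000000000000000000000000000000000000000000
theorem k17 : loop (f1 (tail O17 (outl outs) (mkE0 270387 505) 7 3 2 11 12 17 14 15 16 9 8 10)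
    Q2 Q3 Q4 Q5 Q6 Q7 Q8 Q9 Q10 Q11 Q12) S17 = true := by decide +kernel

end Pool.Agent.T2H98.EGZ.K.C08
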