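import Pool.Agent.T2H98.EGZ.C.D08

set_option autoImplicit false
set_option linter.unusedVariables false

namespace Pool.Agent.T2H98.EGZ.K.C08

open K

noncomputable def O18 : Nat → Nat := orc 59205 43 168 0x700040006000100080005000c00040002000900020006000300020006000400010006000d000100050000000e0003000800000000000200000000000b00000000000000060001000000080000000000000002
  0xd0c0014700781000000081a001700000000000003090003d003b700cb000a370000a009db00a9d005e90097f008b300ad0000000064500000006e8000000071b00000001a300000000b8008dc007b400af90023c003460053b0000000c8700c7d0000000c17000c200000009e5007aa00d3f00b69007e7000000090f0013d00be4005310061c006de0074e00c2100711000330084d003c1005c000ac6006820021300da500b92001d6000eb008e6006ab006b5009a800d1600000008760084300b36009b2005640038e000000000000744000000000000daf00e0b0033c00000005b600e150000000000000000000000a930000000b030000000777004270000000a2d001e000d7200246003f400000003ea00bee0026f000000000000313000f500b9c00000008a900c5400a6000cc40094c0000000d49004c000a6a001ad00d7c00dd8004e9004500048d00085006120041d00b2c006780008f002c100de20020900cba0064f004b600000009190000000000007dd00880009750094200000008100045a00000000000017a00483002790056e0000000b5f00c4a00000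
  0x11344080042007e71c58108801fd11c0021100030c89a182100030d014004801a28882020840000020305fa22861c41014001453840412003f8e39c242300511c60c0048000821c286090014100c201fa0182044000c30ce344046008619840209805fce1c616118028a22860822000e38504004600fe81a203090031d14420810801fa038827f4040c088201fe28a801088031043c3041200481a582002400d144c18304c00228981800940038d3040012003fa22020c2100111c60c0048000619e3800940234b202001000bf8e39c242300514450c1044002268c200088002cb4470010801f9c38c0422007f104443844002288e38008800fd11440611001fa23800422003f444041842820184002000c30c91010e39208010004451104041080038e78a0830cf1c008a00078e082400bf447000844000e3a2080090000413cd0c118042087860824008105010004801a288608008c20913437e88a20310800104447001280049238a00b24708008bf9a6923cd309181080020001e6820800234d44c1411001f904080422017f447140846000e3a20800900018e382081100200078e08410f0c1088017e8880830840038e34c00110028a22080bf1c7442882007e61888509000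
noncomputable def S18 : Nat := 0x4000000000000000000000000000000000000000000000000000000000000000000000000000000000000000000000000000000000000000000000000
theorem k18 : loop (f1 (tail O18 (outl outs) (mkE0 270387 505) 7 3 2 11 12 17 14 15 16 9 8 10)
    Q2 Q3 Q4 Q5 Q6 Q7 Q8 Q9 Q10 Q11 Q12) S18 = true := by decide +kernel

end Pool.Agent.T2H98.EGZ.K.C08
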