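import Pool.Agent.T2H98.EGZ.C.D09

set_option autoImplicit false
set_option linter.unusedVariables false

namespace Pool.Agent.T2H98.EGZ.K.C09

open K

noncomputable def O2 : Nat → Nat := orc 61395 11 62 0x2000100000001000800030000000100010003
  0x109000ff0030800000003c00013c0000000000001ea00265001f4001a200099000000000a0007000000000000026f002980036e000000036400000002cb0033b0003d002a20016f00000000cc000660000000000003b600000000000021d000a3002d50013200000000000000000198000000000000000000000000000000000000016500000000000000000000000d60003300000002fe00331
  0x1945000022004104a1c31452038211401fd040a1e10003f9438a0c2200430ce1c2042020e39e18208400145286081000281a50600104d1c508c61a680002101451492017e40a1031080628a18408110025061841023007f30a081848008619438c0800140f143081180079e484002100071ca0c1040008e39448008801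
noncomputable def S2 : Nat := 0x2000
theorem k2 : loop (f1 (tail O2 (outl outs) (mkE0 262803 3109) 2 3 5 16 12 15 10 11 17 14 13 8)
    Q2 Q3 Q4 Q5 Q6 Q7 Q8 Q9 Q10 Q11 Q12) S2 = true := by decide +kernel

end Pool.Agent.T2H98.EGZ.K.C09
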