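import Pool.Agent.T2H98.EGZ.C.D09

set_option autoImplicit false
set_option linter.unusedVariables false

namespace Pool.Agent.T2H98.EGZ.K.C09

open K

noncomputable def O24 : Nat → Nat := orc 41787 17 70 0x200000015000000000000000e00080010000b00130000000000010003000d0000
  0x4f1002c0001b70041b000000000000000000000000000000000000016f0000a0003d00524002e90028d000a30000000066001650051a004be0044e000000013c003f2000000000000000002270000000000004e70000000425003bf001c1001f400099004b40038200033000cc003b50032600000000700038c000000045800359002b6001ea00250002830025a000000048b0021d0034f000ff003e800132002f300481000d600109000000031c
  0x70a2040822010f186041042001e78c10008c00fcc2c302128047881820022001030a1c204600fe616181094023c7144081080020878c0021003f3cf10084c000619438c080010ca2800011003f9e78c0c2100030ca18104a00fe81648b084022c208000118046143020022004b10404104a010c31a20034d303002100a0827881022000a18604104000a078808008c000c33c7181080050a1840020005028a1c7040009e79210008400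
noncomputable def S24 : Nat := 0x3000000000000000000000000000000000000000000000000000000000000000000000000000000000000000000000000000000000000000000000000000000000000000000000000000000000000000000000000000000000000000000000000000000000000000000000000000000000000000000000000000000000000000000000000000000000000000000000000000000000000000000000000000000000000000000000
theorem k24 : loop (f1 (tail O24 (outl outs) (mkE0 262803 3109) 2 3 5 16 12 15 10 11 17 14 13 8)
    Q2 Q3 Q4 Q5 Q6 Q7 Q8 Q9 Q10 Q11 Q12) S24 = true := by decide +kernel
noncomputable def O25 : Nat → Nat := orc 42575 12 51 0xb0000000900020000000300030000000000000011
  0x312000660000000250001320037800070001b70003d002d5002ac00000002270010900000000000000000308003ab002a20033b003a1000000021d000cc0025a001c1001ea000000000a003450000000000001f4000000018400000000ff002df0018e000990013c0036e0000000033000d60000000000000a3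
  0x1453c7001080010478a0821000f1851010440000020784094002c70c2001280458c2860823008410b1c17e61620310002fca1c5061100281e606102200071d030a048009e2861000840040e3040010470c00420102090389044021610400008c0228a1c4001100278a1840021000a185040046009e20608008800
noncomputable def S25 : Nat := 0x1080000000000000000000000000000000000000000000000000000000000000000000000000000000000000000000000000000000000000000000000000000000000000000000000000000000000000000000000000000000000000000000000000000000000000000000000000000000000000000000000000000000000000000000000000000000000000000000000000000000000000000000000000000000000000000000000000000000
theorem k25 : loop (f1 (tail O25 (outl outs) (mkE0 262803 3109) 2 3 5 16 12 15 10 11 17 14 13 8)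
    Q2 Q3 Q4 Q5 Q6 Q7 Q8 Q9 Q10 Q11 Q12) S25 = true := by decide +kernel
noncomputable def O26 : Nat → Nat := orc 55893 2 10 0x0
  0x700000000066000000000000000000000003d000330000a
  0x10478a0821003f28a14284800fe50e20708801
noncomputable def S26 : Nat := 0x2000000000000000000000000000000000000000000000000000000000000000000000000000000000000000000000000000000000000000000000000000000000000000000000000000000000000000000000000000000000000000000000000000000000000000000000000000000000000000000000000000000000000000000000000000000000000000000000000000000000000000000000000000000000000000000000000000000000
theorem k26 : loop (f1 (tail O26 (outl outs) (mkE0 262803 3109) 2 3 5 16 12 15 10 11 17 14 13 8)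
    Q2 Q3 Q4 Q5 Q6 Q7 Q8 Q9 Q10 Q11 Q12) S26 = true := by decide +kernel

end Pool.Agent.T2H98.EGZ.K.C09
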