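import Pool.Agent.T2H98.EGZ.C.D09

set_option autoImplicit false
set_option linter.unusedVariables false

namespace Pool.Agent.T2H98.EGZ.K.C09

open K

noncomputable def O30 : Nat → Nat := orc 42641 2 9 0x40000
  0x66000000000000070000330000a0003d
  0x30c7840022000f185101044007e78c10509000
noncomputable def S30 : Nat := 0x4000000000000000000000000000000000000000000000000000000000000000000000000000000000000000000000000000000000000000000000000000000000000000000000000000000000000000000000000000000000000000000000000000000000000000000000000000000000000000000000000000000000000000000000000000000000000000000000000000000000000000000000000000000000000000000000000000000000000000000000000000000000000000000000000000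
theorem k30 : loop (f1 (tail O30 (outl outs) (mkE0 262803 3109) 2 3 5 16 12 15 10 11 17 14 13 8)
    Q2 Q3 Q4 Q5 Q6 Q7 Q8 Q9 Q10 Q11 Q12) S30 = true := by decide +kernel
noncomputable def O31 : Nat → Nat := orc 42171 12 56 0x50003001a000300000000000000050001000700000000
  0x99000000000000000000cc001320000000396000d600307001a2001fe0003d001980036d0000000000000000000000070003630000a0010900000002640023b002d400297002310000000000000330000000165000ff00208002ca00000000000013c000a3001d50000000000001cb002a100330002fd000000033a0026e0016f00066003a00000000000
  0x39e780002300073cf000046001e30c082084001043c6001080078c3020821000a286102044008a29e380084003cf1420012801f8e39e0423000a28610204400861a0784090001c73c3041080079e60a1021003f1c73c084600142881800940128a0810011003f9e6122421003f30a1c184600fe88a10309403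
noncomputable def S31 : Nat := 0xc0000000000000000000000000000000000000000000000000000000000000000000000000000000000000000000000000000000000000000000000000000000000000000000000000000000000000000000000000000000000000000000000000000000000000000000000000000000000000000000000000000000000000000000000000000000000000000000000000000000000000000000000000000000000000000000000000000000000000000000000000000000000000000000000000000
theorem k31 : loop (f1 (tail O31 (outl outs) (mkE0 262803 3109) 2 3 5 16 12 15 10 11 17 14 13 8)
    Q2 Q3 Q4 Q5 Q6 Q7 Q8 Q9 Q10 Q11 Q12) S31 = true := by decide +kernel

end Pool.Agent.T2H98.EGZ.K.C09
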