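import Pool.Agent.T2H98.EGZ.C.D09

set_option autoImplicit false
set_option linter.unusedVariables false

namespace Pool.Agent.T2H98.EGZ.K.C09

open K

noncomputable def O32 : Nat → Nat := orc 45781 40 173 0x10002001b00030000000e0001000000000003000200000006000900000003000500000004000200030000000200000000000000020002000300030002000100120000000000040005000200010008
  0xa63001c10098100000007dc00297009c90000000c2e00000005760000000b6c000000038c000000000000c9e0073900000007a900000000330000000000001f40000000dc6008e70069f00d930000000000000000006600bd20025a000cc00a1100b6200000007060076c000000000000cfa00462005e600000004c8003300082400cc700109000a30077600000000000003d00743002310000a00c6b00c0500000001cb00000000700079f003260000000ad300aa000bc800000003960000000d6a00000002ca00b3900b2f00d60002fd003c900ac900b9f00bfb0000000d04000000045800cd1007d20000000000005a9000d60000000000000ff0000000a1b0000000099000000051000000000000000000c94003f20000000dd0001fe00880003fc003630028d0062e0054300000000000000000b0600e03009770026400d370085700000000000058000df9004be0048b0054d000000071000000004250051a00afc000000000000000000000092f005dc0035900d9d0000000d2d0042f0065700a9600c380022700a6d0082e00c610000000b950018e00198001320013c00495002c0003bf00165005b3002f3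
  0xfcf309121080020850c0020007f287103844009438e30c094011453c7001080079e48e3026000c286040044009e79218408800fca2900a11003fa078e3c21000618f080044007e78a207090003cf304041100081e6040021000a0c3082046008001e2020840030a181001100281e2020023000410f180042001e30a20240f247002100079e30c13f1453c1889f9e79227f3c7080888007e7881873cf18200219e6143082871010021882141844103ca05f9e7941c651043c60010a081e78e084000412c70c58e38c3044008924f1c004a000e39e182084003c40c100110008a0384002500ce1c71860411c3003cf38e00310411c300fcf38002211e78c30409010503c07e78c10511000290402081100220878c0021000410f180042002079838a0880040a2871c28a50e0040004208a18004a009249c60208804fcf3091210800492798382100071ca24004400a0792380088001043c60010801f9850c1c23004514f182042007e79848908400fca2850a1200281e6040021000f185101044000209e20408800fca2900a110021945000022007f38308184bf904061424018328a000044008a29618209402186344001100a51430a0022004f3c71c104a000821418409401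
noncomputable def S32 : Nat := 0x4000000000000000000000000000000000000000000000000000000000000000000000000000000000000000000000000000000000000000000000000000000000000000000000000000000000000000000000000000000000000000000000000000000000000000000000000000000000000000000000000000000000000000000000000000000000000000000000000000000000000000000000000000000000000000000000000000000000000000000000000000000000000000000000000000000
theorem k32 : loop (f1 (tail O32 (outl outs) (mkE0 262803 3109) 2 3 5 16 12 15 10 11 17 14 13 8)
    Q2 Q3 Q4 Q5 Q6 Q7 Q8 Q9 Q10 Q11 Q12) S32 = true := by decide +kernel
noncomputable def O33 : Nat → Nat := orc 48109 2 20 0x0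
  0xa0000000000000000000000033000000007000099000a30003d00000000000000000000000660000000000
  0xfd03c71e1080081e38a1824000104a080046009e28610008400
noncomputable def S33 : Nat := 0x44000000000000000000000000000000000000000000000000000000000000000000000000000000000000000000000000000000000000000000000000000000000000000000000000000000000000000000000000000000000000000000000000000000000000000000000000000000000000000000000000000000000000000000000000000000000000000000000000000000000000000000000000000000000000000000000000000000000000000000000000000000000000000000000000000000000000
theorem k33 : loop (f1 (tail O33 (outl outs) (mkE0 262803 3109) 2 3 5 16 12 15 10 11 17 14 13 8)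
    Q2 Q3 Q4 Q5 Q6 Q7 Q8 Q9 Q10 Q11 Q12) S33 = true := by decide +kernel

end Pool.Agent.T2H98.EGZ.K.C09
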