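import Pool.Agent.T2H98.EGZ.C.D09

set_option autoImplicit false
set_option linter.unusedVariables false

namespace Pool.Agent.T2H98.EGZ.K.C09

open K

noncomputable def O58 : Nat → Nat := orc 52157 17 78 0x40008000900000002000000000001000000030002000200060000000000010000
  0xcc00000005390000000506000000036e002e90013c00000000000007000000000000028d0013200000003ab0000000227000000016f0051000000005430009900000000000000000407001980000000165001f40000a0000000000002c00000000000003de004a000411004dd000a3000ff0000000000000330046d003d4001a20000000250004d3002b60025a001090028300000000d6003a10037800000004aa0003d00066001ea004770031c003260043a00000004440021d002f3
  0x3c404108006143020022004000f1010420020798100084003cf1820011801f8e3a2142400cf3c90800420008216306080023cf1c70412801f9648e2c20008e38c0c01c28a104104043c50c2001080079e4840021000f3cc101044001e798202088003cf2420010801f8e39e0423001030b1c57e59238b100023cf2430811001fa07881c22000f143080042000e79e00008c00fc71cf0211801f8e39e0423003f1c73c0846000c31e10008800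
noncomputable def S58 : Nat := 0x4000000000000000000000000000000000000000000000000000000000000000000000000000000000000000000000000000000000000000000000000000000000000000000000000000000000000000000000000000000000000000000000000000000000000000000000000000000000000000000000000000000000000000000000000000000000000000000000000000000000000000000000000000000000000000000000000000000000000000000000000000000000000000000000000000000000000000000000000000000000000000000000000000000000000000000000000000000000000000000000000000000000000000000000000000000000000000000000000000000000000000000000000000000000000000000000000000000000000000000000000000000000000000000000000000000000000000000000000000000000000000000000000000000000000000000000000000000000000000000000000000000000000000000000000000000000000000000000000000000000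
theorem k58 : loop (f1 (tail O58 (outl outs) (mkE0 262803 3109) 2 3 5 16 12 15 10 11 17 14 13 8)
    Q2 Q3 Q4 Q5 Q6 Q7 Q8 Q9 Q10 Q11 Q12) S58 = true := by decide +kernel

end Pool.Agent.T2H98.EGZ.K.C09
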