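import Pool.Agent.T2H98.EGZ.C.D09

set_option autoImplicit false
set_option linter.unusedVariables false

namespace Pool.Agent.T2H98.EGZ.K.C09

open K

noncomputable def O4 : Nat → Nat := orc 63439 36 144 0x50002000100000000002e0016001a00000013000800340001003000000003000000230009000700000003000000010000000a0008003700010001000b000d0000002c00150002
  0x53900396007d00000000132008b10023b0033a006560079d004810016500099004580097d004be0041b008030072d00ab9004b40044e008bb006a800a2000a53000a30069e005d200642000000098700000000000033000704004e7002a1000000000000737000ff00000009ed0000000000000000000000000000000063800954000000000000aec00a5d00a4900000000000023100000000000026e0000000070002fd0006600a86003630013c000cc005c80000000a160000a007c600000008ee0059f00760009b000000003d300000006fa001fe001a200000009170079300869000000094a009ba00000002d4000000020800264000d6001d5002ca0000000af60082c00000000000000000000000000048b003c900000002970003d0056c0000000562009e300000006050060f0036d00ac3005fb00307007f9008e4004250085f00198003a0009210016f001090052f008360059500033006b20064c001cb0076a00a90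
  0xe39e1820840030a1c3081100229e7820824000000b1c60400100228a78e0021000f186041042000a29e100098003cf182001180079e3040023000328a000044008209e280088000413c500110001045081bf28a181880009e38a204084003c92410411801f9648a0423008c286040044008e3941820800114f3c1041200028a78e0021000820d1017e68e08110c060147208082165861021040601402fd140c0212806011e28610008400fd03c5061100028a5020025004f3cc101044002281a488fd11c002201a49238e08c053c40c1001100081e6061022003f40f1c7842000a29e3803cf2420020801f9e78e1422003f10428184c008e39e182084000003c4041080010440a202001bf40f103844002288e38008003fcc2c516118041045081820004a282040044009e38a2040840028714408100020007880821003f0c3280844008c31428808c012c208000118045841000023008410b142046011e28610008400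
noncomputable def S4 : Nat := 0x6000000000
theorem k4 : loop (f1 (tail O4 (outl outs) (mkE0 262803 3109) 2 3 5 16 12 15 10 11 17 14 13 8)
    Q2 Q3 Q4 Q5 Q6 Q7 Q8 Q9 Q10 Q11 Q12) S4 = true := by decide +kernel
noncomputable def O5 : Nat → Nat := orc 56899 15 67 0x40005000000060001000c000000010000000a00000000000100010000
  0x406000000007000066002fd00396000000036d0016500000001fe001d5002640003300000001a2000000000000000000d60000000109002ca003c9000000000000000001cb00439000000023b000000019800000003a0002310030700297003d30042f00000002a10000000363000ff001320000000000000a30003d000cc0013c0046c0016f0033a002d4004620000000208000000026e0033000000003fc0000a0000000099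
  0x82079e3821000f3c51010460008514082098010c3287181000208278a0022000000f1c6044001418610408c011c8202081080df9e612242100041103c6046000209410008c0128a184081100281e6040021000f1430800420004114206080013cf24308110001045081820004f186041042001850c08008801fd14430a10807f9438a0c22007f30a0c0848008001e20208400
noncomputable def S5 : Nat := 0x40000000000
theorem k5 : loop (f1 (tail O5 (outl outs) (mkE0 262803 3109) 2 3 5 16 12 15 10 11 17 14 13 8)
    Q2 Q3 Q4 Q5 Q6 Q7 Q8 Q9 Q10 Q11 Q12) S5 = true := by decide +kernel
noncomputable def O6 : Nat → Nat := orc 45251 3 25 0x2
  0x66000000003d000000000000000000000003300000000a300000000700000a000990000000000000cc000000000000000000d6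
  0x103c50c20e79e00010c001c73c3041080079e812382400071cf0c1042001e28610008400
noncomputable def S6 : Nat := 0x2000000000000000000
theorem k6 : loop (f1 (tail O6 (outl outs) (mkE0 262803 3109) 2 3 5 16 12 15 10 11 17 14 13 8)
    Q2 Q3 Q4 Q5 Q6 Q7 Q8 Q9 Q10 Q11 Q12) S6 = true := by decide +kernel

end Pool.Agent.T2H98.EGZ.K.C09
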