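import Pool.Agent.T2H98.EGZ.C.D09

set_option autoImplicit false
set_option linter.unusedVariables false

namespace Pool.Agent.T2H98.EGZ.K.C09

open K

noncomputable def O14 : Nat → Nat := orc 51819 17 85 0x2000400030000000000070002000100000002000900010001000100040002000e
  0x53a0000000000000eb0000000033000000000000000000b8001990017000000005a0000000051100000004300000a002650043a000000000000128003080056d000000050700298005440000000000000000057700070000000000000000002d5000000026f00000000000036e002a2000000048c00000004b50000000482000f5002cb003fd004bf001cc00364002fe003d40000000331001d6001a300407003ca0003d005aa00209000c20023c0000000000001ff003a10033b0006600000003970000000000000000011e002320000000000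
  0x7e28a507098013cf3040411000614386102200430cf1c6042000209a38640d304002080a10478a0821000745108222612384110033c50c200108000825123826004410f180042001249e60e084001c7289001100278a1840021000f3c90c2044000821e300084000c330a041300228a78e002100103cc0c2044000c31e100088001c72890011003f9858604251862c201f9658e144000bf4102c3846010619448808801fd11c003fa2304044000c104f102044000e39e28209800
noncomputable def S14 : Nat := 0x4000000000000000000000000000000000000000000000000000000000000000000
theorem k14 : loop (f1 (tail O14 (outl outs) (mkE0 262803 3109) 2 3 5 16 12 15 10 11 17 14 13 8)
    Q2 Q3 Q4 Q5 Q6 Q7 Q8 Q9 Q10 Q11 Q12) S14 = true := by decide +kernel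
noncomputable def O15 : Nat → Nat := orc 44743 27 107 0x100000000b001f000f002000010001000100010000000d00000000000000090000000600020000000500000000000200000004
  0x5e60028d007ee003bf00481003820077e0074b004be005f000817007b10038c0067f0016500000000000000000000000000048b000330072200000006b200326002f30055700000004f1000a300283002310064c001d500458007550000000000000000000000000000660058a000000044e00524000000000000821004b4000000020800000003590013c0000000000001320041b002c0006bc000700034f006ef000cc00000003e80051a00000000ff0000000718001fe0016f00623001a2002b600198006e5001cb0003d00000000000054d005bd00689002e9004e7000d60010900000003b50065600425007bb003f20000a0031c000000023b005b30078800580007e40061900099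
  0xf3c9080042001e30c082084000002c70812005fa08140423004a287100044008e39e18208400444081001300679e20818230010386101040020411e206084000003c4041080079e60a1021003f40f141844002081e78e084000823460c1100bf945201422004f3cc101044000619e38c08400fcb2c40612804788182002200071cf0c1042000821e300084001c72c5001280478a184002100071ca240044009249e60e08400fcc2800212803f9e78e1422000f1030400440008216382fcb2430a2000479e4861022000618f080044007e50e207088012cb143001300438e7860821000f143080042001e79218408800fcc280021280251430c0026007f40d1c1842029e79210008400
noncomputable def S15 : Nat := 0x80000000000000000000000000000000004000000000000000000000000000000000000000000000000000000000000000000000000000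
theorem k15 : loop (f1 (tail O15 (outl outs) (mkE0 262803 3109) 2 3 5 16 12 15 10 11 17 14 13 8)
    Q2 Q3 Q4 Q5 Q6 Q7 Q8 Q9 Q10 Q11 Q12) S15 = true := by decide +kernel

end Pool.Agent.T2H98.EGZ.K.C09
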