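import Pool.Agent.T2H98.EGZ.C.D10

set_option autoImplicit false
set_option linter.unusedVariables false

namespace Pool.Agent.T2H98.EGZ.K.C10

open K

noncomputable def O0 : Nat → Nat := orc 49731 25 107 0x30005000000000002000800040008000000130004000a00180001000300010000000000020000000f00050002
  0x151002ff00497000000074e0000000000003cb0000000332006f2000ff005d400000002700060700876000000033c000000000000000002330003300309000000009900000003980053a000000040800000007e70026600507000d6005ab004fd0000000000005a100725004d40003d00000006a0004310006600000002d60000000000006960000000000003a20066300880000a3000000000000000000000023d0071b005de001090043b0036f0046e0029900000000000036500464000000075800000000000078b0066d00530000000000000781003d50063a000cc0084d0000a003fe006e80020a0081a0007000843001b8007b400630004ca00200007dd002cc004a1002a300810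
  0x104a243826010565908204c00fe98e10108400fd31c20210801fa62881c214d31c71811801fa62882423001918308104400820a890408c04fd51c002b2a182004100ff4c5104846002698e284090001c75130812ac98e28009400199642081000200128e1bf9641c1ca28a082194021045930011801fa63840421003f0c34c2848000e3a898608400fd31820a10800b263040024003f4c5103842003230610208801fd91030610002cac3081823007f4c60c284a002638e186088001864c3041100030c9860822003f4c7080842002638e186088001049164c28a98e1042fd64c61a10498a1851531c20c49a722c09392400008c000002628208800fd31c61a11801fb22040c2400414d3000048000412628608800
noncomputable def S0 : Nat := 0x80
theorem k0 : loop (f1 (tail O0 (outl outs) (mkE0 4194707 2629) 5 2 3 36 20 19 25 37 21 18 24 23)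
    Q2 Q3 Q4 Q5 Q6 Q7 Q8 Q9 Q10 Q11 Q12) S0 = true := by decide +kernel
noncomputable def O1 : Nat → Nat := orc 40985 10 43 0x2000a000b0002000300080000000000000000
  0x66000ff000a300231002ca00297001650013c000330003d00198000000000000000000000026400000000990026e001a200000000000000a002d40020800070001fe000d6000000023b001d500132000cc00000002a1001cb00000000000016f00000001090000000000
  0x1fa63840c2500010544c404a002cb2698c088005931850c10801fa63840421000549200004a0226988182084006451400011003fcb288142100934c2080046002724820808400fe45930a10800186b260021003f4c510384200061ac98008400
noncomputable def S1 : Nat := 0x2000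
theorem k1 : loop (f1 (tail O1 (outl outs) (mkE0 4194707 2629) 5 2 3 36 20 19 25 37 21 18 24 23)
    Q2 Q3 Q4 Q5 Q6 Q7 Q8 Q9 Q10 Q11 Q12) S1 = true := by decide +kernel
noncomputable def O2 : Nat → Nat := orc 57601 28 139 0x100010002000000000001000100020001000100010000000000040000000300000000000000000001000200010004000000140005
  0x5060000000543000000000000070007890000000539000d6004d30000000000008740000000000000000000000000007230000000000000000003d00624001d600000000000000000000000000000a00000004dd002ac004a0003ab008180023c00000003de00719006e600000008da0000000000003d4008220089d007560000000411006b30059f006f0005e7005f1003a1000000036e00000000000051000000002460056c0033b0037800000006570000000000000000077f002df00151001e00026f000990015b00000006bd007ef00595000cc00680000ff000000046d007bc00000008a70064d0074c002d50000000000002a20000000000004440000000000007b20018e00000000a3000000006600000000000068a004aa000000000000345000000000000000003120047700000008d000407002090086a0043a001840003300279000000000000213007e5000000061a0030800109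
  0x185871027ec0a08110005082945041180400098a0822003f604081fec0a08110005fd31c20210800c8c184082200534c7180042004a30a200080021534c10410800186b263823003f9164c284200020aca8c080035e4902081180ccac3880823005554508104a01ff2c83059655860820805f8a2a60c211534c1041080018728a102400a49151c304a01b0b0408008c054d31c60010801fc9226142200134c7180042000822638008800fc51530610801fcb20c1c2500bf65914084400861ac980084000534c0001200038ec88082200564c308004a000a9a6082084001c7513081280038ec88082200564c7140020a8988114009645061410005fa61820d34c30c1086007ec86105094010414c71811000a28b260022003f4c718584a000a9a608208400
noncomputable def S2 : Nat := 0x1000001000000000000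
theorem k2 : loop (f1 (tail O2 (outl outs) (mkE0 4194707 2629) 5 2 3 36 20 19 25 37 21 18 24 23)
    Q2 Q3 Q4 Q5 Q6 Q7 Q8 Q9 Q10 Q11 Q12) S2 = true := by decide +kernel

end Pool.Agent.T2H98.EGZ.K.C10
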