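import Pool.Agent.T2H98.EGZ.C.D10

set_option autoImplicit false
set_option linter.unusedVariables false

namespace Pool.Agent.T2H98.EGZ.K.C10

open K

noncomputable def O3 : Nat → Nat := orc 44943 2 11 0x70000
  0xae0007b00000000000000000033000b8000000000a0000000085
  0x124b2acb02100830d4480040027e104a810d554104207e186a8308003
noncomputable def S3 : Nat := 0x6000000000000000000000000000000000000000000000000000000
theorem k3 : loop (f1 (tail O3 (outl outs) (mkE0 4194707 2629) 5 2 3 36 20 19 25 37 21 18 24 23)
    Q2 Q3 Q4 Q5 Q6 Q7 Q8 Q9 Q10 Q11 Q12) S3 = true := by decide +kernel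
noncomputable def O4 : Nat → Nat := orc 51333 9 40 0x500020004000400040000000600080000
  0x28e001cc000d600232002b70017a00000002090000000000001d60000000151000cc0023c001ff001090000000000002840003d000ff000000000000070000a30000000327002f4000000000a00000002ea0006600000002c1001840031d0003300099
  0x1869450812804cb238e2024007f659140844008a9a608208400fd34e41e9a638a104400030d64c0042007e98c28b09800fd95030ffb2b0c1442006518604104630d2840030e5142088017e98608308c009144c300110002a69820821003f4c508184c007e9a638708800
noncomputable def S4 : Nat := 0x1180000000000000000000000000000000000000000000000000000000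
theorem k4 : loop (f1 (tail O4 (outl outs) (mkE0 4194707 2629) 5 2 3 36 20 19 25 37 21 18 24 23)
    Q2 Q3 Q4 Q5 Q6 Q7 Q8 Q9 Q10 Q11 Q12) S4 = true := by decide +kernel

end Pool.Agent.T2H98.EGZ.K.C10
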