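import Pool.Agent.T2H98.EGZ.C.D10

set_option autoImplicit false
set_option linter.unusedVariables false

namespace Pool.Agent.T2H98.EGZ.K.C10

open K

noncomputable def O22 : Nat → Nat := orc 43001 1 4 0x0
  0xa000000000000000
  0x2698e30008400
noncomputable def S22 : Nat := 0x1040000000000000000000000000000000000000000000000000000000000000000000000000000000000000000000000000000000000000000000000000000000000000000000000000000000000000000000000000000000000000000000000000000000000000000000000000000000000000000000000000000000000000000000000000000000000000000000000000000000000000000000000000000000000000000000000000000000000000000000000000000000000000000000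
theorem k22 : loop (f1 (tail O22 (outl outs) (mkE0 4194707 2629) 5 2 3 36 20 19 25 37 21 18 24 23)
    Q2 Q3 Q4 Q5 Q6 Q7 Q8 Q9 Q10 Q11 Q12) S22 = true := by decide +kernel
noncomputable def O23 : Nat → Nat := orc 40985 10 43 0x10000000b000200000007000a000000080004
  0x11e001ea0022700000001b700000000000008500000000000015b000000000000151000000000000184002f30021d000c20000a000000005c0025a002c00018e0008f00000000520028d002e90012800283001c1000b8000f500250002b6001f4000eb0000000000
  0x41947181000420898e0022001958304004600ac986102084001455950c12006a26388002300191c610304400ca28a00008402fc1053021200020898c10220019144080044008002a202088034c71c30c110009492082025013f915503fea8810311803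
noncomputable def S23 : Nat := 0x2000000000000000000000000000000000000000000000000000000000000000000000000000000000000000000000000000000000000000000000000000000000000000000000000000000000000000000000000000000000000000000000000000000000000000000000000000000000000000000000000000000000000000000000000000000000000000000000000000000000000000000000000000000000000000000000000000000000000000000000000000000000000000000000
theorem k23 : loop (f1 (tail O23 (outl outs) (mkE0 4194707 2629) 5 2 3 36 20 19 25 37 21 18 24 23)
    Q2 Q3 Q4 Q5 Q6 Q7 Q8 Q9 Q10 Q11 Q12) S23 = true := by decide +kernel
noncomputable def O24 : Nat → Nat := orc 49731 25 107 0x3000000090001000300020000000300050000001300040001002900000002000100080000000000000001000900050000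
  0x724000000000000246006e70043000582000000026f000a30000000000000000068b00000005f20011e00331003f300426000000009900000004d40000000000000000064e0080f00000000000058c005b50084200000000000000000070008380078a0000a0068100000005260021300151004630048c000000071a0051c002fe003c0007d200066005bf00757001c100625000d600184006b4008050078000364001b700000007dc000000023c003ca000000015b006f100000000000003300000002f4000000074d0038d002090000000397000cc0000000327005e80003d005590018e0000000000006580054f00459002c10000000128002cb00000003fd006be0061b002790035a
  0x7e98c185094001534c104108000a6980002400175c50817eb8e081100060005131010800c8a2800022007f0414c0848000c3289820840018651304108012caa0a202000a59140c0040010c328982084000004c5041100000098a0822003f4c60c284a000412628608800fe59450728a282084500094504208b241840fe59030e12005232b060822004106514004801029a600009000618143081300ac3028610260146192080044027ea2628908800fe59000211804082c8e11914408008400861ac980084001534c1041080000098a0a45130c00840026988182084004d31c60010800b242880820013f6440c1b324820810001fd34c70e110002a69820821003f0c34c2848007e9a720908400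
noncomputable def S24 : Nat := 0x5000000000000000000000000000000000000000000000000000000000000000000000000000000000000000000000000000000000000000000000000000000000000000000000000000000000000000000000000000000000000000000000000000000000000000000000000000000000000000000000000000000000000000000000000000000000000000000000000000000000000000000000000000000000000000000000000000000000000000000000000000000000000000000000000000
theorem k24 : loop (f1 (tail O24 (outl outs) (mkE0 4194707 2629) 5 2 3 36 20 19 25 37 21 18 24 23)
    Q2 Q3 Q4 Q5 Q6 Q7 Q8 Q9 Q10 Q11 Q12) S24 = true := by decide +kernel

end Pool.Agent.T2H98.EGZ.K.C10
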