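import Pool.Agent.T2H98.EGZ.C.D10

set_option autoImplicit false
set_option linter.unusedVariables false

namespace Pool.Agent.T2H98.EGZ.K.C10

open K

noncomputable def O31 : Nat → Nat := orc 47429 2 11 0x50000
  0x330007000066000a300000000000000a000000003d0009900000
  0x4d31c600108000a6980002400145244c0042007ea2928908c02
noncomputable def S31 : Nat := 0x42000000000000000000000000000000000000000000000000000000000000000000000000000000000000000000000000000000000000000000000000000000000000000000000000000000000000000000000000000000000000000000000000000000000000000000000000000000000000000000000000000000000000000000000000000000000000000000000000000000000000000000000000000000000000000000000000000000000000000000000000000000000000000000000000000000000000000000000000000000000000000000000000000000000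
theorem k31 : loop (f1 (tail O31 (outl outs) (mkE0 4194707 2629) 5 2 3 36 20 19 25 37 21 18 24 23)
    Q2 Q3 Q4 Q5 Q6 Q7 Q8 Q9 Q10 Q11 Q12) S31 = true := by decide +kernel
noncomputable def O32 : Nat → Nat := orc 44025 6 25 0x100090000000000040000
  0xa000990016f000d6000a300070000330013c00198001a2000cc00000000000000000109001650003d00066000000000000132000ff0000000000
  0x28a2c9800880051459204110089a62060821003f4c70808420048a26180088009450c200118049a638c0021003f4c7080842007ecb320908001
noncomputable def S32 : Nat := 0x2080000000000000000000000000000000000000000000000000000000000000000000000000000000000000000000000000000000000000000000000000000000000000000000000000000000000000000000000000000000000000000000000000000000000000000000000000000000000000000000000000000000000000000000000000000000000000000000000000000000000000000000000000000000000000000000000000000000000000000000000000000000000000000000000000000000000000000000000000000000000000000000000000000000000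
theorem k32 : loop (f1 (tail O32 (outl outs) (mkE0 4194707 2629) 5 2 3 36 20 19 25 37 21 18 24 23)
    Q2 Q3 Q4 Q5 Q6 Q7 Q8 Q9 Q10 Q11 Q12) S32 = true := by decide +kernel
noncomputable def O33 : Nat → Nat := orc 53131 2 23 0x20000
  0x700000000000000a3000330000a0000000000000000003d00000000000000000000000990000000000000000000000000000000000000066
  0x4c61440011000000a262021003f4c7080842002c98610208400
noncomputable def S33 : Nat := 0x84000000000000000000000000000000000000000000000000000000000000000000000000000000000000000000000000000000000000000000000000000000000000000000000000000000000000000000000000000000000000000000000000000000000000000000000000000000000000000000000000000000000000000000000000000000000000000000000000000000000000000000000000000000000000000000000000000000000000000000000000000000000000000000000000000000000000000000000000000000000000000000000000000000000000000000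
theorem k33 : loop (f1 (tail O33 (outl outs) (mkE0 4194707 2629) 5 2 3 36 20 19 25 37 21 18 24 23)
    Q2 Q3 Q4 Q5 Q6 Q7 Q8 Q9 Q10 Q11 Q12) S33 = true := by decide +kernel

end Pool.Agent.T2H98.EGZ.K.C10
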