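import Pool.Agent.T2H98.EGZ.C.D10

set_option autoImplicit false
set_option linter.unusedVariables false

namespace Pool.Agent.T2H98.EGZ.K.C10

open K

noncomputable def O36 : Nat → Nat := orc 48745 22 98 0x20003000c000d00000000000e0000000000010002000000010000000d001000200000000100000005
  0x6c20065c00832003a60000000000005f600600000330075b00000005150043f000d6000cc000000000000798000a30000000000007cb0059000000006f500000001510000a00000000000000000000006330037d000000083c00000005c30068f000660040c0000000000001990066600000000000000000449004e2007c10086f0078e00699006ff004af00000002ce0010900416004a5000700059a000ff001e10053e006cc0003d00865007650037300898004d800248000000050b0000000472005cd0073200000000000000000099003e3008a2003b00062900000000000047c00000000000072800548003d900000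
  0x2698e30008400fd910302120020832881024008001858330c0c1806181c6103180ab2638a0025003f9651c2848017ec8c0830980151491300108002a6982082100134c718004200489a610408800fd50c20612006c8a280002200461944c104200029a60000900061818300c30304084301534c40c1042007e186a81090035e4900001000c000a24202501245130c0044007e98e101084001d248000130089a630c102100144c3081048000e9a6208fd31830b24898c0934c40810c328980297f4c2000a6906100fc71d712c3030408834921c60438ea261139650000cb28410003f4c614588dfa690a2c00131410841a69841014d3000088000a2ac98408c006541420011802a24182002301134e4586042002c98610009400
noncomputable def S36 : Nat := 0x2000000040000000000000000000000000000000000000000000000000000000000000000000000000000000000000000000000000000000000000000000000000000000000000000000000000000000000000000000000000000000000000000000000000000000000000000000000000000000000000000000000000000000000000000000000000000000000000000000000000000000000000000000000000000000000000000000000000000000000000000000000000000000000000000000000000000000000000000000000000000000000000000000000000000000000000000000000000000000000000000000000000000000000000000000000000000000000000000000000000000000000000000000000000000000000000000000000000000000000000000000000000000000000000000000000000000000000000000000000000000000000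
theorem k36 : loop (f1 (tail O36 (outl outs) (mkE0 4194707 2629) 5 2 3 36 20 19 25 37 21 18 24 23)
    Q2 Q3 Q4 Q5 Q6 Q7 Q8 Q9 Q10 Q11 Q12) S36 = true := by decide +kernel
noncomputable def O37 : Nat → Nat := orc 43701 9 37 0xb000800010000000e0002
  0x9900000000ff000cc0003d00000000000028d00066000a3000000000000070001b70018e0000a000000013200227001ea00000002c000033000d6001f4001c1000000000000250002b6000000021d001090013c002830025a00184
  0xcac1820023007f96508084c010a2aa380088035149131c118009a61040023003f64504084800fe38e989094001044860ca28b2408420113185100044002698e300084004d31030410800a292260021003f4c60828420032c8208009401
noncomputable def S37 : Nat := 0x1040000000000000000000000000000000000000000000000000000000000000000000000000000000000000000000000000000000000000000000000000000000000000000000000000000000000000000000000000000000000000000000000000000000000000000000000000000000000000000000000000000000000000000000000000000000000000000000000000000000000000000000000000000000000000000000000000000000000000000000000000000000000000000000000000000000000000000000000000000000000000000000000000000000000000000000000000000000000000000000000000000000000000000000000000000000000000000000000000000000000000000000000000000000000000000000000000000000000000000000000000000000000000000000000000000000000000000000000000000000000000000000000000000000000000000000000000000000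
theorem k37 : loop (f1 (tail O37 (outl outs) (mkE0 4194707 2629) 5 2 3 36 20 19 25 37 21 18 24 23)
    Q2 Q3 Q4 Q5 Q6 Q7 Q8 Q9 Q10 Q11 Q12) S37 = true := by decide +kernel

end Pool.Agent.T2H98.EGZ.K.C10
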