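import Pool.Agent.T2H98.EGZ.C.D10

set_option autoImplicit false
set_option linter.unusedVariables false

namespace Pool.Agent.T2H98.EGZ.K.C10

open K

noncomputable def O38 : Nat → Nat := orc 60377 10 44 0x6000000010004000000000000000a0004
  0x1c1001b70000a00283000000018e001ea00000000d6000990003d00000002b600250000cc0007000000001f4000000000000000000000000000000002c000000000000028d0025a000a30003300184002f3002e90015b0000000066002270021d0015100000000000011e00128
  0xfd31c20210801fb22820c2000430d64c004200061ac980084000005131010800b261840821000411318204400000289880840064410208110022a6982082100010531c62638e186108001534c10410801fc9226142200030d64c0042000e3b0b0608405
noncomputable def S38 : Nat := 0x4000002000000000000000000000000000000000000000000000000000000000000000000000000000000000000000000000000000000000000000000000000000000000000000000000000000000000000000000000000000000000000000000000000000000000000000000000000000000000000000000000000000000000000000000000000000000000000000000000000000000000000000000000000000000000000000000000000000000000000000000000000000000000000000000000000000000000000000000000000000000000000000000000000000000000000000000000000000000000000000000000000000000000000000000000000000000000000000000000000000000000000000000000000000000000000000000000000000000000000000000000000000000000000000000000000000000000000000000000000000000000000000000000000000000000000000000000000000000000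
theorem k38 : loop (f1 (tail O38 (outl outs) (mkE0 4194707 2629) 5 2 3 36 20 19 25 37 21 18 24 23)
    Q2 Q3 Q4 Q5 Q6 Q7 Q8 Q9 Q10 Q11 Q12) S38 = true := by decide +kernel
noncomputable def O39 : Nat → Nat := orc 63343 8 32 0x30003001a0000000c000000020001
  0x660016f000000000000000000000007000109001fe000cc0000000000000ff00000001650000000132000990000a0013c001d50003d001cb000a30023b000d600000001a200231002080003300198
  0xfd31441211800b2630a102500051564c2046002c98e206084004d31020412801fa63840c2500259140c00400148a2618008800fd34c70e11000c30386002001534c20800460028a4898008400
noncomputable def S39 : Nat := 0x1100000000000000000000000000000000000000000000000000000000000000000000000000000000000000000000000000000000000000000000000000000000000000000000000000000000000000000000000000000000000000000000000000000000000000000000000000000000000000000000000000000000000000000000000000000000000000000000000000000000000000000000000000000000000000000000000000000000000000000000000000000000000000000000000000000000000000000000000000000000000000000000000000000000000000000000000000000000000000000000000000000000000000000000000000000000000000000000000000000000000000000000000000000000000000000000000000000000000000000000000000000000000000000000000000000000000000000000000000000000000000000000000000000000000000000000000000000000000000000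
theorem k39 : loop (f1 (tail O39 (outl outs) (mkE0 4194707 2629) 5 2 3 36 20 19 25 37 21 18 24 23)
    Q2 Q3 Q4 Q5 Q6 Q7 Q8 Q9 Q10 Q11 Q12) S39 = true := by decide +kernel
noncomputable def O40 : Nat → Nat := orc 1 1 1 0x0
  0x0
  0x0
noncomputable def S40 : Nat := 0x4000000000000000000000000000000000000000000000000000000000000000000000000000000000000000000000000000000000000000000000000000000000000000000000000000000000000000000000000000000000000000000000000000000000000000000000000000000000000000000000000000000000000000000000000000000000000000000000000000000000000000000000000000000000000000000000000000000000000000000000000000000000000000000000000000000000000000000000000000000000000000000000000000000000000000000000000000000000000000000000000000000000000000000000000000000000000000000000000000000000000000000000000000000000000000000000000000000000000000000000000000000000000000000000000000000000000000000000000000000000000000000000000000000000000000000000000000000000000000000000000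
theorem k40 : loop (f1 (tail O40 (outl outs) (mkE0 4194707 2629) 5 2 3 36 20 19 25 37 21 18 24 23)
    Q2 Q3 Q4 Q5 Q6 Q7 Q8 Q9 Q10 Q11 Q12) S40 = true := by decide +kernel

end Pool.Agent.T2H98.EGZ.K.C10
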