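import Pool.Agent.T2H98.EGZ.C.D10

set_option autoImplicit false
set_option linter.unusedVariables false

namespace Pool.Agent.T2H98.EGZ.K.C10

open K

noncomputable def O5 : Nat → Nat := orc 56579 27 106 0x3c000c000b000a000300000000000100090001000f0002000000000001000000000002000800000000000000000002000000000000
  0x3d500582007a9001ea00644000000021d00265000cc005450033c00000005b50000a001b70000000000000000054f00842008a80015b00332004080051c00431006aa001c1000000061100000000000074d0000000000007800064e004e900099000a3002ad006e700819000000000000000007dc003cb007100003d005ab000000018400677007e6004ac003980000000000007b300681000d600578008b20071a004b6000000000000479002b70018e0077600000005120036f001f4006dd002e0005e80084c0000000000002ea000000006600000005de0010900483006b4000ff004df0080f0000000000000000087f0007000151003fe00365003a20074300875000330061b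
  0x3230610208801fd91c60a11802cac18408200059144080044008e9a6208094000c35930010800186a26002400164c3081042002c98c28409400fd3144121180032eb8a282001bf18664284000a698e300084001869420012005fa6100042300164c3081042002c98c10009000104616001300aa2630a00230000025101046012698a28808c004d30c3041180038ecac319647081089fb230a242400534e4586042002c986102084000825131410800186b26002100175c40c27eb8e08110006fd34c70e11001fcb28a0659561c008328e30811964104008b28a280002100934c6182042007f2c83050840214559308118003a4908212485040082027e98e101084000c35930010801fa638404210025914040046012898c20408c00
noncomputable def S5 : Nat := 0x2080000000000000000000000000000000000000000000000000000000000000000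
theorem k5 : loop (f1 (tail O5 (outl outs) (mkE0 4194707 2629) 5 2 3 36 20 19 25 37 21 18 24 23)
    Q2 Q3 Q4 Q5 Q6 Q7 Q8 Q9 Q10 Q11 Q12) S5 = true := by decide +kernel
noncomputable def O6 : Nat → Nat := orc 57339 4 19 0x6
  0xa30000000099000000003d000ff0000000000000000006600000001090000a000000007000033000cc000d6
  0x134c40c1042002630a200088006451020011003fb2c8a0422007f4c7080842002698e30008400
noncomputable def S6 : Nat := 0x2000000000000000000000000000000000000000000000000000000000000000000000000
theorem k6 : loop (f1 (tail O6 (outl outs) (mkE0 4194707 2629) 5 2 3 36 20 19 25 37 21 18 24 23)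
    Q2 Q3 Q4 Q5 Q6 Q7 Q8 Q9 Q10 Q11 Q12) S6 = true := by decide +kernel

end Pool.Agent.T2H98.EGZ.K.C10
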