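import Pool.Agent.T2H98.EGZ.C.D10

set_option autoImplicit false
set_option linter.unusedVariables false

namespace Pool.Agent.T2H98.EGZ.K.C10

open K

noncomputable def O7 : Nat → Nat := orc 61401 18 79 0x10003000f000000030000000100090000002000010003000000020001000000000017
  0x2b600000003f200000000c20018e0048b0008f002c0001c10028d003bf0000000481001280044e00033000000038c00000000f5000000034f0025a00227001b700510003260000a00000005390041b005a9002830042500000002e9003e8002500031c000000054300576000000015b0000000000003b500000002f3004dd000b80011e0056c0000000382000000008500000000000045800151000000000000000000eb004d300000005060059f000000021d001ea000000035900000001f4001840003d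
  0x196470c004800a69c8a0c0900018651304108009a6282002500134c7180042007e98c20359318200220012289860022003f9164c2842002698e30008400fd90c20a1280208328a002400949650c3042012698e30008400965503081280528e102002500871d44c30420004126286088000004c5041100030ca2608210000013141044007e98e101084000004c40c110012269841022003f4c718584a004b22830808c029461810411804b4b28c3020a5143080010822ca8209003
noncomputable def S7 : Nat := 0x4080000000000000000000000000000000000000000000000000000000000000000000000000
theorem k7 : loop (f1 (tail O7 (outl outs) (mkE0 4194707 2629) 5 2 3 36 20 19 25 37 21 18 24 23)
    Q2 Q3 Q4 Q5 Q6 Q7 Q8 Q9 Q10 Q11 Q12) S7 = true := by decide +kernel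
noncomputable def O8 : Nat → Nat := orc 55171 3 12 0x90001
  0xa0007000066000000000000000000eb000b8000e10003d0000000033
  0x4d31410012801fa638c2c259244c604b2618400450001059582046008822638008800
noncomputable def S8 : Nat := 0x84000000000000000000000000000000000000000000000000000000000000000000000000000000000000000000000000000000000000
theorem k8 : loop (f1 (tail O8 (outl outs) (mkE0 4194707 2629) 5 2 3 36 20 19 25 37 21 18 24 23)
    Q2 Q3 Q4 Q5 Q6 Q7 Q8 Q9 Q10 Q11 Q12) S8 = true := by decide +kernel

end Pool.Agent.T2H98.EGZ.K.C10
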