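import Pool.Agent.T2H98.EGZ.C.D10

set_option autoImplicit false
set_option linter.unusedVariables false

namespace Pool.Agent.T2H98.EGZ.K.C10

open K

noncomputable def O9 : Nat → Nat := orc 53387 14 58 0x100000002000000010011001e00100008000a00020002
  0x45800000000330034f00000003e8002270015b001c1000700000000151003260038c000000018e0000a00000002f300250000a3000ff0000000109003bf000cc0021d001f40000000000004250000000184001ea0044e00283000d60025a00000001b7003b50003d003820028d0031c002b60009900359003f2002c00041b00000002e90000000000000000000000066
  0x9a6206082100134c408104a0028a2c980088009659240810005fac98c3422000515654304801a698e300084004d31c60010800ca83040025007f5951c784401ff22c98508400fd91430611803fa490e14220119144080044008c328982084004921820013009fa638407f4c6082882000c34a100090021996420810003fa630414210000025103040012698e30008400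
noncomputable def S9 : Nat := 0x80000004000000000000000000000000000000000000000000000000000000000000000000000000000000000000000000000000000000000000000
theorem k9 : loop (f1 (tail O9 (outl outs) (mkE0 4194707 2629) 5 2 3 36 20 19 25 37 21 18 24 23)
    Q2 Q3 Q4 Q5 Q6 Q7 Q8 Q9 Q10 Q11 Q12) S9 = true := by decide +kernel
noncomputable def O10 : Nat → Nat := orc 54651 7 33 0x4000200010001000200000003
  0x1d50016f00132001cb00000000a30000000198000000013c000000000a000ff001fe000000003d001090003300066000000000000208000d600099000700016500000000000000000000001a2000cc00000
  0x9a62820025003f4c508184c007e9a720908400fd64840211009fcb288142100bf59210084402061ac980084009655051010004b2618408210002099505040008c32898208400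
noncomputable def S10 : Nat := 0x2100000000000000000000000000000000000000000000000000000000000000000000000000000000000000000000000000000000000000000000000
theorem k10 : loop (f1 (tail O10 (outl outs) (mkE0 4194707 2629) 5 2 3 36 20 19 25 37 21 18 24 23)
    Q2 Q3 Q4 Q5 Q6 Q7 Q8 Q9 Q10 Q11 Q12) S10 = true := by decide +kernel
noncomputable def O11 : Nat → Nat := orc 54959 17 73 0x100030000000b000000010000000200010006000b000500310004000000090000
  0x4e8001d50003d003ca00397000cc001090038d0000000033000d600000005440009900000001cb0019800000003f3005810000000000003270000000000000000058b00000000000035a00000003fd004de000000044f00364000000020800165004b50054e004ab0023b0013c0044500066002d50000a000000051b004820000000000000a300000005110023100478003310000000132003c00026e00000001fe000ff0016f002640000000070001a200558002df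
  0x2c98e2064d31030420801fb230a2424004005541c60812807fa62840c260013102040044002cb32a02088016541440412803f8e3a62534c40c008a000a2a6384088009450c200118049a6282002500134c504004a002aa8e3885551c20423006c3038a1185060807e082c01184055149130010801faa2040c2600d554204004801b228a000088011454c70811001fa6304142100020a5141046017eaab20b08403fd31830a12801fa6100042300134c704004c003238608008801
noncomputable def S11 : Nat := 0x44000000000000000000000000000000000000000000000000000000000000000000000000000000000000000000000000000000000000000000000000000000
theorem k11 : loop (f1 (tail O11 (outl outs) (mkE0 4194707 2629) 5 2 3 36 20 19 25 37 21 18 24 23)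
    Q2 Q3 Q4 Q5 Q6 Q7 Q8 Q9 Q10 Q11 Q12) S11 = true := by decide +kernel

end Pool.Agent.T2H98.EGZ.K.C10
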