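import Pool.Agent.T2H98.EGZ.C.D10

set_option autoImplicit false
set_option linter.unusedVariables false

namespace Pool.Agent.T2H98.EGZ.K.C10

open K

noncomputable def O15 : Nat → Nat := orc 54639 5 27 0x100040008
  0x700000a000d6001650003d00000000000016f000660013200109000000000000099000cc000330013c000a3000ff0000000000000000000000000000000000000000
  0x5931c40c1080010528a182000964c7141042000412890a09404fd31820a10801fcb200042300830d64c0042007ecb220508801
noncomputable def S15 : Nat := 0x6000000000000000000000000000000000000000000000000000000000000000000000000000000000000000000000000000000000000000000000000000000000000000000000000000000000000000000000000000000000000000000000000000000000000000000000000000000000000000000000000000000000000000000000000000000000000000000000000000000000000000000000000000000000000000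
theorem k15 : loop (f1 (tail O15 (outl outs) (mkE0 4194707 2629) 5 2 3 36 20 19 25 37 21 18 24 23)
    Q2 Q3 Q4 Q5 Q6 Q7 Q8 Q9 Q10 Q11 Q12) S15 = true := by decide +kernel
noncomputable def O16 : Nat → Nat := orc 40417 8 49 0x400020000000c00000000
  0x70000000000000066002500000000000001b70000000000001c10000000000000000021d0013c00000000000000000000000000016f00165001320003d000d600000000a3000ff001090000a001f4001ea00033000000009900000000cc00000000000000000000000000000000227000000025a
  0x32288100088016451400011002b2630a18210013185100044000ecb20006591820021802186b260021003f1454c1842002698e38c08c004d31c600108009a6206082100054d3041042002490820609804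
noncomputable def S16 : Nat := 0x3000000000000000000000000000000000000000000000000000000000000000000000000000000000000000000000000000000000000000000000000000000000000000000000000000000000000000000000000000000000000000000000000000000000000000000000000000000000000000000000000000000000000000000000000000000000000000000000000000000000000000000000000000000000000000000000
theorem k16 : loop (f1 (tail O16 (outl outs) (mkE0 4194707 2629) 5 2 3 36 20 19 25 37 21 18 24 23)
    Q2 Q3 Q4 Q5 Q6 Q7 Q8 Q9 Q10 Q11 Q12) S16 = true := by decide +kernel

end Pool.Agent.T2H98.EGZ.K.C10
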