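import Pool.Agent.T2H98.EGZ.C.D10

set_option autoImplicit false
set_option linter.unusedVariables false

namespace Pool.Agent.T2H98.EGZ.K.C10

open K

noncomputable def O17 : Nat → Nat := orc 46723 8 37 0x20003000800000000000400040000
  0x2080006600000000d600000000000026e001d5000cc0023b00000001650013c0000a00000000a300000002640003d00033000ff000700000000000001cb00099001090000000231001980016f0000000132001fe0000000000001a2
  0x29a6000090009144c30011000186b26002100259141850400128a48980084004c61440011001fa62881c210016514492042027e98e10108400fd51c10212807288102002000830d64c0042002698818208400
noncomputable def S17 : Nat := 0x140000000000000000000000000000000000000000000000000000000000000000000000000000000000000000000000000000000000000000000000000000000000000000000000000000000000000000000000000000000000000000000000000000000000000000000000000000000000000000000000000000000000000000000000000000000000000000000000000000000000000000000000000000000000000000000000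
theorem k17 : loop (f1 (tail O17 (outl outs) (mkE0 4194707 2629) 5 2 3 36 20 19 25 37 21 18 24 23)
    Q2 Q3 Q4 Q5 Q6 Q7 Q8 Q9 Q10 Q11 Q12) S17 = true := by decide +kernel
noncomputable def O18 : Nat → Nat := orc 44191 8 42 0x700080003000300040001
  0x16500264001cb000000000000000000cc0000a000000006600000000000026e0003d0016f00070002310000000033000d6000990020800000001fe001a2000000013c00000000a3001d5001090023b00132001980000000000000ff0000000000000000000000000
  0x26988182084005149130010801fa6384042100164c30810420030c48b0608005fd30800211800ca8284002300471d8583042028ecb200008c014c40810011000c8e30a082200534c71c6046000822630408800
noncomputable def S18 : Nat := 0x5000000000000000000000000000000000000000000000000000000000000000000000000000000000000000000000000000000000000000000000000000000000000000000000000000000000000000000000000000000000000000000000000000000000000000000000000000000000000000000000000000000000000000000000000000000000000000000000000000000000000000000000000000000000000000000000000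
theorem k18 : loop (f1 (tail O18 (outl outs) (mkE0 4194707 2629) 5 2 3 36 20 19 25 37 21 18 24 23)
    Q2 Q3 Q4 Q5 Q6 Q7 Q8 Q9 Q10 Q11 Q12) S18 = true := by decide +kernel

end Pool.Agent.T2H98.EGZ.K.C10
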