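import Pool.Agent.T2H98.EGZ.C.D11

set_option autoImplicit false
set_option linter.unusedVariables false

namespace Pool.Agent.T2H98.EGZ.K.C11

open K

noncomputable def O0 : Nat → Nat := orc 42451 22 88 0x1000d00040009000200030000000d0009000300020001000000030005000000080002001100000000
  0x35a000000000000000005a0000330000000000004ab0067600000005d300000002b700383002f4001e000000001ad0045900639002510070f000000025b0006600284005aa005770000000209006430007000705002ea003c0000c2006dc00327005dd0012800000003b60038d0069f0011e0017a000000000a000000035000000006d20053a0044f000eb006a90000000000000000000000000003e9005070000000606005110041c004a10028e0056d002c100544004d40003d003f3001a3001d6004de000f5000990066c00610000000031d0017000426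
  0x1cd341041100069a2880022000410d1c1042001249a38008800fce3451210801f9440a0c26010104d140042007e61820108c0134d14400110000826881021000410d1c1042007e79e48308c024511c6081100600061213f30510088a009a692206084004511c1001000660e2060022007f30c1c484400fe61838908801fcc307121100260c2840822004000d18104a001469a000084003cf182001180459668e18514b10008658e30a1020014618d080042001830a1800880108230a003986000044007f1043c2840017e61428508bf1c73c084660c2860022004d185101042001820800008c01
noncomputable def S0 : Nat := 0x1040
theorem k0 : loop (f1 (tail O0 (outl outs) (mkE0 263219 2894) 7 3 2 14 9 13 12 15 17 8 11 16)
    Q2 Q3 Q4 Q5 Q6 Q7 Q8 Q9 Q10 Q11 Q12) S0 = true := by decide +kernel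
noncomputable def O1 : Nat → Nat := orc 46877 13 51 0x1000d00020006000000000001000100080009000000000002
  0x35100128002e10040900000000000000a0000000000001a3001eb002a400000000f5004320000000000004a2003d600000003a30000000314002ae0006600498003cc0030a0046f0003300070002d700000001510027b003ff0039900099003470043c000eb000a3002710003d0011e0033d004650000000000000000015b
  0x18184080088010c3307001180260e3882022004c1c7104044009838e2080880130c3861011802608182011384080080018026122020024007f1043c2840012030c2080940630c1820012003f9848417f30c1009861c0803041000041a0614200fd038c1a200c318204fcc243022300230c684002100071cd10204a007e60c18330c38a00228020826081020004618d080042000209a20408400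
noncomputable def S1 : Nat := 0x42000000000
theorem k1 : loop (f1 (tail O1 (outl outs) (mkE0 263219 2894) 7 3 2 14 9 13 12 15 17 8 11 16)
    Q2 Q3 Q4 Q5 Q6 Q7 Q8 Q9 Q10 Q11 Q12) S1 = true := by decide +kernel
noncomputable def O2 : Nat → Nat := orc 45339 26 111 0x200020000000100000005000c0000000000030001000a000100040000000e00000008000900030000000e0004000000030003
  0x1ea00000002fe0000000000006de000000000000000001c10072600430000000021d006d40000000463005e8003c0000ff0018e005590076300830006300013c0033100066005de007590093b000a3005b500327008e900663007ab00000009df00000000000000000000008f300000000d600000002a20000000000002500066d00a310083a0003d007de000000098d0000000000000000010900496003ca000000000000364004590000a00070001840038d0048c0063a0000000807001f4001b700132002f400000003fd00730005ab000000035a009d50022700426002ac00279005630000000a27008a10039700033003f3000990094500000007b500000004c900000000cc00000004bf00511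
  0xf3c6080046012220800014544200208068a238e00209138008489c50810515108008201a289438228a4490c208068944840914460810808a238c2114460817e88818518003fc71cf021198104082088c10400004600fe88a181fd11030a2000660e2060022004c0c30001838818010801fd1143028a238c23f4440c28c0019e78820608c02fd11820228a89c204200ff347184846007e208785fcf144022000430c6123bf38c24688bf9860604c0c2040084009818408008801186342001080028a6040023004d3460c1044001838a0800880138d102001180030c6840021000d34914104200228942840900328a4060c82028a1040018c104000047f9e7122c23fcc303021100221a680002600071cc10304600861a238008403fc9206024081020043010924d1c0044001861c08008c013440c100108006187140025004104d140042001c68e18408800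
noncomputable def S2 : Nat := 0x40000001000000000000
theorem k2 : loop (f1 (tail O2 (outl outs) (mkE0 263219 2894) 7 3 2 14 9 13 12 15 17 8 11 16)
    Q2 Q3 Q4 Q5 Q6 Q7 Q8 Q9 Q10 Q11 Q12) S2 = true := by decide +kernel

end Pool.Agent.T2H98.EGZ.K.C11
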