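import Pool.Agent.T2H98.EGZ.C.D11

set_option autoImplicit false
set_option linter.unusedVariables false

namespace Pool.Agent.T2H98.EGZ.K.C11

open K

noncomputable def O3 : Nat → Nat := orc 53423 50 201 0x80007000100020004000000050002000d000400020000000100070000000000000000000c0000000c00080000000900030002000500070035001200000007000500000000000000010004000100020007000200000000000600220000000000000000
  0x72300c34002df0000000000000000099c001cb00c5d004aa000000021d007db0021300378000000027900d0000b72007a800deb01027000000000a00250004e700b49000000041b006050044e00f8400936009400054d007d100f8e006fa0000000a9100638005760006600382000000007000000000000028300f5100cc3000000066b00000008a7001650016f009730003d00c67000000034f000000000000000003e80000000bf70101d002e900132000000000000a5e003de003b5000a30062e000ff00ccd00ea3008d0000000000000b0c006c7000000069e00ed60048100bce00ecc00c010079e00000000000089d00033000d600661009f8000000054300de1002b60000000f5b00e1e00969000cc0086a0041100e5100fea0000000d5c005b300d990077500000002ac00099000000080e006940000000f1e00ad90019800fc100477001a200a210090300246000000084100874009ee00d330051a0010900e1400cf600000000000000000a8700c9000b7c0031c00e99003450031200a2b0076b000000000000000004b400c2a0051000fb70080400000005a9005fb003ab000000000000d8f00a540000000444000000000000b3f00000008da00f2800000004dd00ae300d2900b1600837006d100e47000000000000000000000090d0013c00bc400580009a60000000ff400d6600c9a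
  0x30610308110026945082023000d344102044000821c69409000342080001200021e7841020008820e1421020408010c0434d144001100041070a1041081c0086020c318100080011453470c1080068e38410d103040082000e69a0820880024934a04108001866140824007f346081846000821a2840900034d245041080030c6081026004514d1c3042002238e186090033c6185147841020841008000d18104a000e39a2800940038d181001100058820208b1c3080080029a68c18208800186344001280030c6840021000618f3841e78a10010002fcd3491e11801f8e39e042300bf3cf185842011a30a202084000c3341001200079e3040023008a34d000042000001a38c0840038d181001100021e7841020008d185101042007e6140013040c100207e208681098618c080040008c31a100084003440c10010801f9e7122c23008f3c5101046011040e3801042481820809f902061425013f2050c084a021469a00008400fc71cd061100069a2880022000410d1c104200181040820880128d340001080020868e0821000f3c90c204a011a1040000900030c3850811003f9451a0421000c30e142044008821a382084000c338d28108006187020023004e346040044000a69a10428a34704230c31c68608c0030c386101180271a3861022000d103040042000209a2800840034d389181100079c302002000bf38d144842000c31810008001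
noncomputable def S3 : Nat := 0x2000000000000000000000000000000001000000000000000000000
theorem k3 : loop (f1 (tail O3 (outl outs) (mkE0 263219 2894) 7 3 2 14 9 13 12 15 17 8 11 16)
    Q2 Q3 Q4 Q5 Q6 Q7 Q8 Q9 Q10 Q11 Q12) S3 = true := by decide +kernel
noncomputable def O4 : Nat → Nat := orc 51847 5 21 0x3000a0006
  0x66000000003300000001650016f00109000a300070000cc000ff0000a00132000990003d00000000000013c00000000d600000
  0x344101041280038e4081822010e347181046001a38e10408400fcc1c60a12003f986060422004d349141042001a68a20008800
noncomputable def S4 : Nat := 0x141000000000000000000000000000000000000000000000000000000000000000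
theorem k4 : loop (f1 (tail O4 (outl outs) (mkE0 263219 2894) 7 3 2 14 9 13 12 15 17 8 11 16)
    Q2 Q3 Q4 Q5 Q6 Q7 Q8 Q9 Q10 Q11 Q12) S4 = true := by decide +kernel

end Pool.Agent.T2H98.EGZ.K.C11
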