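import Pool.Agent.T2H98.EGZ.C.D11

set_option autoImplicit false
set_option linter.unusedVariables false

namespace Pool.Agent.T2H98.EGZ.K.C11

open K

noncomputable def O26 : Nat → Nat := orc 40683 12 49 0x200060008001a0000001400000007000500000001
  0x2ca00132003300000000000000000007000000000000000000208001fe001cb00066003630036d00231000ff002d40013c0003d002fd0000000109000d6002970033a0000a000a3001a2000000023b00033002640016f00000001d500165002a10000000000000000026e000cc000990030700198
  0xe346040044007e61810308801304100001180230c6840021000734d041044007e71a289084004511c6101000669a2081022000e30a24304800981860000880134d1440011001f9a2840422003f3c40c384601020982040800134d183041100071a3020022000104d140042000e69a08208800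
noncomputable def S26 : Nat := 0x4000004000000000000000000000000000000000000000000000000000000000000000000000000000000000000000000000000000000000000000000000000000000000000000000000000000000000000000000000000000000000000000000000000000000000000000000000000000000000000000000000000000000000000000000000000000000000000000000000000000000000000000000000000000000000000000000000000000000000000000000000000000000000000000000000000000000000000000000000000000000000000000000000000000000000000000000000000000000000000000000000000000000000000000000000000000000000000000000000000000000000000000000000000000000000000000000000000000000000000000000000000000000000000000000000000000000000000000000000000000000000000000000000000000000000000000000000000000000000000000000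
theorem k26 : loop (f1 (tail O26 (outl outs) (mkE0 263219 2894) 7 3 2 14 9 13 12 15 17 8 11 16)
    Q2 Q3 Q4 Q5 Q6 Q7 Q8 Q9 Q10 Q11 Q12) S26 = true := by decide +kernel
noncomputable def O27 : Nat → Nat := orc 43501 4 19 0x400000004
  0xcc00109000ff000330000000000000a3001320000a000990013c0000000066000000003d000d600070
  0x6881820021000d10404104a001830a10208801fcd1c1021180068c2880821000618f384040010411850009001
noncomputable def S27 : Nat := 0x3100000000000000000000000000000000000000000000000000000000000000000000000000000000000000000000000000000000000000000000000000000000000000000000000000000000000000000000000000000000000000000000000000000000000000000000000000000000000000000000000000000000000000000000000000000000000000000000000000000000000000000000000000000000000000000000000000000000000000000000000000000000000000000000000000000000000000000000000000000000000000000000000000000000000000000000000000000000000000000000000000000000000000000000000000000000000000000000000000000000000000000000000000000000000000000000000000000000000000000000000000000000000000000000000000000000000000000000000000000000000000000000000000000000000000000000000000000000000000000000000000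
theorem k27 : loop (f1 (tail O27 (outl outs) (mkE0 263219 2894) 7 3 2 14 9 13 12 15 17 8 11 16)
    Q2 Q3 Q4 Q5 Q6 Q7 Q8 Q9 Q10 Q11 Q12) S27 = true := by decide +kernel

end Pool.Agent.T2H98.EGZ.K.C11
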