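import Pool.Agent.T2H98.EGZ.C.D11

set_option autoImplicit false
set_option linter.unusedVariables false

namespace Pool.Agent.T2H98.EGZ.K.C11

open K

noncomputable def O28 : Nat → Nat := orc 59035 51 202 0x3000400020006000300000000000100060005000000040007000a001e0000000800030004000b000000000000000b000100020000000000000005000c000100010004000700030000000000060003000c000400010003000700010001000100060000
  0x81000198006aa00b8800e33008dc00307000000000000af900070001d500ecc008d20000000b5f0067700d34000000000000f3c00fd50023b00e700003300aef002de000000053b0000000e3d00905000000016500e9900d2a00fa200c2100a560089f003110100800ea300000009a80038c0097500b220064400245004fe005d4001a20099e00066000000073a000000056e00bc500d71007dd00ed6000a300c5400cce00f0900d3e00f32000000041c00f6f005ab00bf80000000b550090f004640013200000005970063a007a000777009db00e660000000b2c0000000a600026e003d4000990094200e0a004cb002a10103b00000000cc00d670000000cc4005a1007d300f6500000001090000a0000000c2b00bbb009d100eff000000000000000000000076d000000000000806000000000000208000000000000abc007aa0000000a890056400000008390066d004d500f98010640096b0021200531000000000000c9100ffe000000033a008760074400000002ab008a900dcd006f2006a00106e00000001df00ac60000000cba000d6000000000000d0100d9a00dd70013c0003d00a9300a230016f006070061100b9200c8700000002d400000000000000001031000000000000a2d00e00000ff00bee00344001ac005de00000005080000000da400fcb00278009380086c0084300cf700c5e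
  0x104d1020c31a1001040004134408108006182840025004734d041044000c31a1000840028d34000108000826881021000d344102044001838a080088013040c1001000218660e0023007f3460c0846001469a0000840034d2440c1080071a4880021003f309180844009810408208801000c1c40c004400fe8a210109403004d103040042000e69a08208800041304081000251a6800021003f346081846000c31a1000840034d1440011001f9648c0420014000d1c6042001e308184084020413450010800688182002100071d0380040031a68a200fcd142022100040e306002601030cd040048007e68e08108c001cd341041100079e502002400bf344082844001a68818408c00306103081100239a6820822003f34d1c2842001a38e1040840038c24200110026082000023005034d2492069230811503871820e3a070010006fca28d021080030c6840021000d103040042000c31a10008400fd14420212806011469a00008400fce34a02110006944880022000c30e14204400fe71a0831cc3000069859200643071c209f9c5945440fc410c0a61828400453091010020888c1044041306006082000043004d345081046007e88818508003fcc303021100279e71c0025008618d080042007e38e683088003020810411002490384002501001fcc2420a1180271a38c0823000d349141042000209a20408400307184001300269a2840823003f30c1c2840009a30a20208400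
noncomputable def S28 : Nat := 0x4000000000000000000000000000000000000000000000000000000000000000000000000000000000000000000000000000000000000000000000000000000000000000000000000000000000000000000000000000000000000000000000000000000000000000000000000000000000000000000000000000000000000000000000000000000000000000000000000000000000000000000000000000000000000000000000000000000000000000000000000000000000000000000000000000000000000000000000000000000000000000000000000000000000000000000000000000000000000000000000000000000000000000000000000000000000000000000000000000000000000000000000000000000000000000000000000000000000000000000000000000000000000000000000000000000000000000000000000000000000000000000000000000000000000000000000000000000000000000000000000000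
theorem k28 : loop (f1 (tail O28 (outl outs) (mkE0 263219 2894) 7 3 2 14 9 13 12 15 17 8 11 16)
    Q2 Q3 Q4 Q5 Q6 Q7 Q8 Q9 Q10 Q11 Q12) S28 = true := by decide +kernel

end Pool.Agent.T2H98.EGZ.K.C11
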