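import Pool.Agent.T2H98.EGZ.C.D11

set_option autoImplicit false
set_option linter.unusedVariables false

namespace Pool.Agent.T2H98.EGZ.K.C11

open K

noncomputable def O32 : Nat → Nat := orc 44025 6 25 0x600060000000200030000
  0x11e00000001b70015b00066000000000000000000000000a00070001280018400000000cc000330018e0003d00000001510009900000001c1000d6000a3
  0x104d140042001a38e1040840024938c041280220868c1821000000c2427e60a20111401186342001080008268a0021000d28a104046007e8a220108403
noncomputable def S32 : Nat := 0x40000004000000000000000000000000000000000000000000000000000000000000000000000000000000000000000000000000000000000000000000000000000000000000000000000000000000000000000000000000000000000000000000000000000000000000000000000000000000000000000000000000000000000000000000000000000000000000000000000000000000000000000000000000000000000000000000000000000000000000000000000000000000000000000000000000000000000000000000000000000000000000000000000000000000000000000000000000000000000000000000000000000000000000000000000000000000000000000000000000000000000000000000000000000000000000000000000000000000000000000000000000000000000000000000000000000000000000000000000000000000000000000000000000000000000000000000000000000000000000000000000000000000000000000000000000000000000000000000000000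
theorem k32 : loop (f1 (tail O32 (outl outs) (mkE0 263219 2894) 7 3 2 14 9 13 12 15 17 8 11 16)
    Q2 Q3 Q4 Q5 Q6 Q7 Q8 Q9 Q10 Q11 Q12) S32 = true := by decide +kernel
noncomputable def O33 : Nat → Nat := orc 45293 20 103 0x20004000000090000000d00020000000000010002000300040000000c0000000000000007000d
  0x53a00530000000024600033004fd00113000000064e005f2004640000000000000000058c001ad001b70000000000001ea000000000000350000000068b006b4006250015b00000002d50043b00000004d400066004ca0028300250000000021d000cc005b500582006be00408005bf003d50003d00681003fe00497000e000070000d60000a00279001090000000000002fe000000000000000000000000000000002cb0000000000004a10000000165000000061b005e8000000021300000000000000000000000000030800000000a3003a2004310009900000003cb00000003980065800000000000000000000001e0000000000000000000000046e00507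
  0xe39820608c0134d1830411001f9a3820423000c0c2040044009820800008c0138d102001180051a6800021000c0820411838818010801fcc144021280218668a1021000d345100044007e69a38508400fcd34a1211801f9a2840422000c1c4081044009a206080084003cf1040c39e7800043fcf3c90610479c004300914471c004401962080822c70c2002000a60c2860022007f30c081844009a206080084001043460c108008a230409144704008001fe88e205fd144a0223007f9848c04220040034d2450410800684100002400043cf082040017e79e50708002
noncomputable def S33 : Nat := 0x4180000000000000000000000000000000000000000000000000000000000000000000000000000000000000000000000000000000000000000000000000000000000000000000000000000000000000000000000000000000000000000000000000000000000000000000000000000000000000000000000000000000000000000000000000000000000000000000000000000000000000000000000000000000000000000000000000000000000000000000000000000000000000000000000000000000000000000000000000000000000000000000000000000000000000000000000000000000000000000000000000000000000000000000000000000000000000000000000000000000000000000000000000000000000000000000000000000000000000000000000000000000000000000000000000000000000000000000000000000000000000000000000000000000000000000000000000000000000000000000000000000000000000000000000000000000000000000000000000000000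
theorem k33 : loop (f1 (tail O33 (outl outs) (mkE0 263219 2894) 7 3 2 14 9 13 12 15 17 8 11 16)
    Q2 Q3 Q4 Q5 Q6 Q7 Q8 Q9 Q10 Q11 Q12) S33 = true := by decide +kernel

end Pool.Agent.T2H98.EGZ.K.C11
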