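import Pool.Agent.T2H98.EGZ.C.D11

set_option autoImplicit false
set_option linter.unusedVariables false

namespace Pool.Agent.T2H98.EGZ.K.C11

open K

noncomputable def O7 : Nat → Nat := orc 63685 6 27 0xa000b0004000000020010
  0xcc00066000d60000000000000a3001cb0016500000001320000000000000000007000000001980003d000990003300109000ff0016f0013c001a200000001d50000a
  0x3f1043c2840011249a502084001043470410801f986060422004410d1c1042001838e10408001041345001080060c2061022007f28a340842001838810208801
noncomputable def S7 : Nat := 0x44000001000000000000000000000000000000000000000000000000000000000000000000000000000000000000000000000000000000000000000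
theorem k7 : loop (f1 (tail O7 (outl outs) (mkE0 263219 2894) 7 3 2 14 9 13 12 15 17 8 11 16)
    Q2 Q3 Q4 Q5 Q6 Q7 Q8 Q9 Q10 Q11 Q12) S7 = true := by decide +kernel
noncomputable def O8 : Nat → Nat := orc 53387 14 58 0x50008000200000000000000140035000100010000
  0x40600439000000000000132001a2000700016500208000cc003d30003300297001d50026e0003d000000019800000002ca003fc001fe0030700066002d4000a30000a002640016f003c900000000000042f00363000ff00000001cb00231000990013c000000023b000000036d0010900396000d6002fd003a0002a1000000000000000003300033a00000
  0x3f345080844007e68a1010880028d340001080010460a2023007f345080844001c68e18408800fcd1420211001f9a2041422000430c08204a00fe618103088010c330608118026183040024004a34d000042000c31a100084000413440810801f984841423004000c1c604000fe68e08108c000c3345081080069a3060822000e38c140048009451e20408c02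
noncomputable def S8 : Nat := 0x2000000000000000000000000000000000000000000000000000000000000000000000000000000000000000000000000000000000000000000000000000000000000000000000000000000000000000000000000000000000000000000000000000100000005000000000000000000000000000000000000000000000000000000000000000000000000000000000000000000000000000000000000000000000000
theorem k8 : loop (f1 (tail O8 (outl outs) (mkE0 263219 2894) 7 3 2 14 9 13 12 15 17 8 11 16)
    Q2 Q3 Q4 Q5 Q6 Q7 Q8 Q9 Q10 Q11 Q12) S8 = true := by decide +kernel

end Pool.Agent.T2H98.EGZ.K.C11
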