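import Pool.Agent.T2H98.EGZ.C.D11

set_option autoImplicit false
set_option linter.unusedVariables false

namespace Pool.Agent.T2H98.EGZ.K.C11

open K

noncomputable def O9 : Nat → Nat := orc 47847 6 29 0x300000000000600020000
  0x109000000019800132000330013c0000000070000000016500000000000006600000000ff000990000a0000000000000000016f00000001a20003d000a3000cc00000000d600000
  0xc31c68608c00186342001080018660c1023004d103040042002288e3800880338d1c60411801f9a3060423000618d080042000619a28408400
noncomputable def S9 : Nat := 0x6100000000000000000000000000000000000000000000000000000000000000000000000000000000000000000000000000000000000000000000000000000000000000000000000000000000000000000000000000000000000000000000000000000000000000000000000000000000000000000000000000000000000000000000000000000000000000000000000000000000000000000000000000000000000000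
theorem k9 : loop (f1 (tail O9 (outl outs) (mkE0 263219 2894) 7 3 2 14 9 13 12 15 17 8 11 16)
    Q2 Q3 Q4 Q5 Q6 Q7 Q8 Q9 Q10 Q11 Q12) S9 = true := by decide +kernel
noncomputable def O10 : Nat → Nat := orc 52137 2 12 0x10000
  0x33000000007000000000000003d00000000a300066000990000a00000
  0xfcc242061300220868c1821000734d041044001838a08008801
noncomputable def S10 : Nat := 0x2080000000000000000000000000000000000000000000000000000000000000000000000000000000000000000000000000000000000000000000000000000000000000000000000000000000000000000000000000000000000000000000000000000000000000000000000000000000000000000000000000000000000000000000000000000000000000000000000000000000000000000000000000000000000000000000000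
theorem k10 : loop (f1 (tail O10 (outl outs) (mkE0 263219 2894) 7 3 2 14 9 13 12 15 17 8 11 16)
    Q2 Q3 Q4 Q5 Q6 Q7 Q8 Q9 Q10 Q11 Q12) S10 = true := by decide +kernel

end Pool.Agent.T2H98.EGZ.K.C11
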