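import Pool.Agent.T2H98.EGZ.C.D11

set_option autoImplicit false
set_option linter.unusedVariables false

namespace Pool.Agent.T2H98.EGZ.K.C11

open K

noncomputable def O14 : Nat → Nat := orc 49477 10 41 0xe00080000000c00040005000900000000
  0xa3000ff000330003d000000016f0000000000001a2000000023100000001d5000000000000066000990000000208001fe000000026e000cc002a1002ca00198000000023b000d6001cb00264001320000a0000000000002d4001650013c000700029700109
  0x71a4880021003f28a340842001a68c18208800fcc2870611803f8821a0426000a28f140046011a68820408800fcc245061000208268a0021003f34d080848001a68c1820880028a3c4081180471a3861022001144618504001fe69a48f08c00
noncomputable def S14 : Nat := 0x2000000000000000000000000000000004000000000000000000000000000000000000000000000000000000000000000000000000000000000000000000000000000000000000000000000000000000000000000000000000000000000000000000000000000000000000000000000000000000000000000000000000000000000000000000000000000000000000000000000000000000000000000000000000000000000000000000000000000000000000000000000000000000000000000000000000000000000000000000000000000000000000000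
theorem k14 : loop (f1 (tail O14 (outl outs) (mkE0 263219 2894) 7 3 2 14 9 13 12 15 17 8 11 16)
    Q2 Q3 Q4 Q5 Q6 Q7 Q8 Q9 Q10 Q11 Q12) S14 = true := by decide +kernel
noncomputable def O15 : Nat → Nat := orc 61317 19 81 0x1d0004000600060001000f0004000500000000000200020002000800000002000d00000001
  0x2fe00350003b600000000cc00000005fd00099001c10000000000004b50000a00000002ac0000000682005f3000000056300626003e900630000000000000478000000000000000001b70044f00445006bf0063a0003d0021d005ab00250004e80013c0010900379006b50068c002f4000d600346003ac005590025a001ea00000001f400033004120041c0051100000004de000700022700383000a300132001840048200066002a2000000000000000000000018e004ab003df000ff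
  0x44a28000130066185140020005130a1840412270010803004a28f10204601061983801453020021982080001453020021803f9848c04c1c40c008460c30a2822007f45128484001fe88e28109803fcd183021180041030c2825011128a104040019a514186088003440c100108006061020022004d1c70820c31a1001040024934701f9a2840442003f2c91808e396280100050413450010801f9a3060423000410d1c1042000209a2800840030c2891df9860a1c46007f347040846000821a30608400451246001200669a714082300043cf082040010821a30608400
noncomputable def S15 : Nat := 0x2040000000000000000000000000000000000000000000000000000000000000000000000000000000000000000000000000000000000000000000000000000000000000000000000000000000000000000000000000000000000000000000000000000000000000000000000000000000000000000000000000000000000000000000000000000000000000000000000000000000000000000000000000000000000000000000000000000000000000000000000000000000000000000000000000000000000000000000000000000000000000000000000000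
theorem k15 : loop (f1 (tail O15 (outl outs) (mkE0 263219 2894) 7 3 2 14 9 13 12 15 17 8 11 16)
    Q2 Q3 Q4 Q5 Q6 Q7 Q8 Q9 Q10 Q11 Q12) S15 = true := by decide +kernel

end Pool.Agent.T2H98.EGZ.K.C11
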