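import Pool.Agent.T2H98.EGZ.C.D12

set_option autoImplicit false
set_option linter.unusedVariables false

namespace Pool.Agent.T2H98.EGZ.K.C12

open K

noncomputable def O3 : Nat → Nat := orc 61367 4 23 0x60002
  0x70000000000000000000000013c000a30010900000000d6001320003d00000000330000a000cc000ff000000009900000000000000000066
  0x1fca3020421003f7d52c4840017f2caa030840004194b00110004932a030220025954246044000004f32808c04
noncomputable def S3 : Nat := 0xc0000000000
theorem k3 : loop (f1 (tail O3 (outl outs) (mkE0 2105367 2888) 16 11 9 38 20 37 36 31 26 39 35 42)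
    Q2 Q3 Q4 Q5 Q6 Q7 Q8 Q9 Q10 Q11 Q12) S3 = true := by decide +kernel
noncomputable def O4 : Nat → Nat := orc 61611 8 36 0x900000000000b00000000000a0002
  0x26e000000016500109000a3000000003d000d60003300132000700013c001fe0000a0023b000cc001a20019800000000000000000000000000023100099000000026400208000ff001cb00000001d5000660016f00000
  0x823e81a080027e69800012805fcd34aac22002594d244042004b288080084009555400010800a292a00024000926694404200020ca5800880034d94400110012ca6960021002691404004400c8aaa00008001
noncomputable def S4 : Nat := 0x4000000000000
theorem k4 : loop (f1 (tail O4 (outl outs) (mkE0 2105367 2888) 16 11 9 38 20 37 36 31 26 39 35 42)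
    Q2 Q3 Q4 Q5 Q6 Q7 Q8 Q9 Q10 Q11 Q12) S4 = true := by decide +kernel

end Pool.Agent.T2H98.EGZ.K.C12
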