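import Pool.Agent.T2H98.EGZ.C.D12

set_option autoImplicit false
set_option linter.unusedVariables false

namespace Pool.Agent.T2H98.EGZ.K.C12

open K

noncomputable def O23 : Nat → Nat := orc 46027 47 186 0x15000a00050005000100270006001a0005000300060004001400010003000900150000000e001200020003000200000008000200010003000c00000007001a0001000200020003000000010002000f0004000000080024000000130000
  0xa9c000000064e002990000000000003fe00e8f00a0300f2800644003320000000dec0000000000008190094b00033008e5007430000000a36003f400c9100000008420019a007a90077600c8700229007e600b540071a004c000d86004f300d5d00a4000cba002cc00d2a005bf00a73005260039800e1f00dc3004ca0084c0038e00ef500875009740003d0078000bf8009d000bee00eeb0058c00aa60080f006b400563005f20028f0019000cc40087f000000000000148000000094100328006dd0000a0046400000000000007000eb80055900a0d0099d00d20009a700ba60025c00ec2000000048d001c3005300074d0090e000000000000000003650000000c5400000005fc008b20000000000001f600ced000b800000003c1002f5002c200c2b00f510023300d5300681000000000000000002ff00000009180010000cf700d9000acf00000001cd00000007100045a0000000066006e700b9c004270067700df600e85008db0035b00db900c5e008a800b4a00a6900f1e0000000c21000000000000e290000000f5b000000000000000004fd003cb00000006aa009da0000000266007dc000000000000e520020000497007b300431005c900b210000000ad90000000e5c000000000000596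
  0x34d68b101000630d29648230025944040042003430c20809803fe51810210801fcb2a00422002594d2c004200212ca30c0900004194910110012ca69220210001065244044000c34d29a0840092450910110032ca6922021001452434104800ff2a058d08400fe540b1a108012ca2020021003f9cd041cf3163021000492440610a2921a0844007f9a541084b2a8a020bf946040882007f2ca80108800fe69a5561100030d2920022002594d2c0042007f2caa03084009a45010011003fcd348ac25fe490d06128032ca202002100267df104048017f248593088019a52c9001080069b34aa82300069651040420054aa84800800635a6800012806faa592002500a691018104000ca58c202088009555010010801fca302042100279d534004a027f2486830940192434919228a0208400065410000044004b29248009000909184001280230d2920022003f7d024184a017f2caa030840092450b00110032a8a020821003f95024184200020ca58008800965101001080069b2880022003f94d246842004a69648208800249946041180049328c08230025406100046004b28808008400514695401000630cfaa002300a491540104600c922a68c08c014107cb00f9658208467cb2c104fbeaa8304655591f05fa8a485c431047c900f96592484100a451404104000cd2aa30208800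
noncomputable def S23 : Nat := 0x42000000000000000000000000000000004000000000000000000000000000000000000000000000000000000000000000000000000000000000000000000000000000000000000000000000000000000000000000000000000000000000000000000000000000000000000000000000000000000000000000000000000000000000000000000000000000000000000000000000000000000000000000000000000000000000000000000000000000000000000000000000000000000000
theorem k23 : loop (f1 (tail O23 (outl outs) (mkE0 2105367 2888) 16 11 9 38 20 37 36 31 26 39 35 42)
    Q2 Q3 Q4 Q5 Q6 Q7 Q8 Q9 Q10 Q11 Q12) S23 = true := by decide +kernel
noncomputable def O24 : Nat → Nat := orc 40985 10 43 0x100000000000e000000000004000000000004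
  0x23b002a10020800066000ff00132001cb002310016f000330000000000000000000000000001fe00000002ca0000000000001a20026e0000a002970013c000a300070000000010900198002640000000000002d40003d0016500099000cc001d50000000000000d6
  0x7df34910fa8592084500bf965400844007f248a8108001fda50102120072965924825003f946040842004b28808008400fcb2df0211804f96308082000a694b240042004b29a580084001a594410108012aaa800021000412540d044003448c08009003
noncomputable def S24 : Nat := 0x180000000000000000000000000000000000000000000000000000000000000000000000000000000000000000000000000000000000000000000000000000000000000000000000000000000000000000000000000000000000000000000000000000000000000000000000000000000000000000000000000000000000000000000000000000000000000000000000000000000000000000000000000000000000000000000000000000000000000000000000000000000000000000000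
theorem k24 : loop (f1 (tail O24 (outl outs) (mkE0 2105367 2888) 16 11 9 38 20 37 36 31 26 39 35 42)
    Q2 Q3 Q4 Q5 Q6 Q7 Q8 Q9 Q10 Q11 Q12) S24 = true := by decide +kernel

end Pool.Agent.T2H98.EGZ.K.C12
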