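import Pool.Agent.T2H98.EGZ.C.D12

set_option autoImplicit false
set_option linter.unusedVariables false

namespace Pool.Agent.T2H98.EGZ.K.C12

open K

noncomputable def O25 : Nat → Nat := orc 44763 26 103 0x70010000000240000000c0003000c00000010001c000100030008000800020000000500020003000600020000000000050000
  0x56c004f20010900463000d6004fc00000000000000a00794003e90082d00298002d500860007f000562000000026f0052500000001ff0059f000000035a003830068000000003f3008230072e0041c00426004bf005f1003500049600209007610065700151007c70078a0068a0000000000000ff002fe0062400558004c900000000000064d002320000000757000000048c0019900000000000052f000000045900000003b6001d6000000030800000001a300000000990003d00033000a300000008560072400000000cc00000007fa0043000000002cb001cc002650023c000700038d0000000000003c0007bd002a2005e70059500066006dc006d20061a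
  0x6b4d00002500ff7c604084a017f34aa8909000fda68612130062092120022006710400004a024881a0800880134d68904d12480004100ff7df980fef8c081114029504000011000fbe820082300bf1869448420028a54692aaa995002200dfc66800423014029651010010801fcb2a00422003f946040842007f28c081084009501840011801fb4a02042400c0104194b001100122068c2022007f7cd181846017f2ca80108800fe73410669b3cc0040013f9a418084600cb28808008400fdf55042108052ca2020021003f34d9c684c023e5964920840234d99a5410007fc858c27f90b04088830d2160a440d04008400fefbf31b08c0234d906001100334aa8c0822003f7d5410842017f28c08108400
noncomputable def S25 : Nat := 0x7000000000000000000000000000000000000000000000000000000000000000000000000000000000000000000000000000000000000000000000000000000000000000000000000000000000000000000000000000000000000000000000000000000000000000000000000000000000000000000000000000000000000000000000000000000000000000000000000000000000000000000000000000000000000000000000000000000000000000000000000000000000000000000000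
theorem k25 : loop (f1 (tail O25 (outl outs) (mkE0 2105367 2888) 16 11 9 38 20 37 36 31 26 39 35 42)
    Q2 Q3 Q4 Q5 Q6 Q7 Q8 Q9 Q10 Q11 Q12) S25 = true := by decide +kernel
noncomputable def O26 : Nat → Nat := orc 44599 7 29 0x8000200070000000200020003
  0x3300132001a200099001cb00000000cc000d6001090003d0000a000ff00070001fe0016f0016500208000a3001980013c0000000066000000000000000000000000000000001d5
  0x2092120022006694b240042007f2caa81084001a59441010801fca3020421000d365100044004aa280820840004190d0011803fca3020421003f965501842004d2a030208400
noncomputable def S26 : Nat := 0x5080000000000000000000000000000000000000000000000000000000000000000000000000000000000000000000000000000000000000000000000000000000000000000000000000000000000000000000000000000000000000000000000000000000000000000000000000000000000000000000000000000000000000000000000000000000000000000000000000000000000000000000000000000000000000000000000000000000000000000000000000000000000000000000000000000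
theorem k26 : loop (f1 (tail O26 (outl outs) (mkE0 2105367 2888) 16 11 9 38 20 37 36 31 26 39 35 42)
    Q2 Q3 Q4 Q5 Q6 Q7 Q8 Q9 Q10 Q11 Q12) S26 = true := by decide +kernel

end Pool.Agent.T2H98.EGZ.K.C12
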