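import Pool.Agent.T2H98.EGZ.C.D12

set_option autoImplicit false
set_option linter.unusedVariables false

namespace Pool.Agent.T2H98.EGZ.K.C12

open K

noncomputable def O35 : Nat → Nat := orc 47347 19 77 0xc000200070000000700020022000200000000000200020007000000000003000900010020
  0x2640000a00099003bf003c9004be00000001cb002fd00000000d6000000021d004950042f0013c003590056100000003260028d001d5002ca0000000000004f1004620059400363000ff00033002f300524005c7002970052e0039600557002310000000000005bd000000006600109001a200458004c80000000000004fb00165002c0000a30058a003fc00330004250000000000000cc003f2000000025a000000003d001980038c0048b00227000000016f00070000000000000132
  0x34d9440011000fa0800002000a5514041042004920c08008001910346101100230cd16482000da68b24404401fef9a30308c0295450104108012a8a0208210006965104042004aaa8692084005649104011003fcb2a80c21001f7d0401046017f28c081084009a540604108012ca6960021003f7da184840018055544920aaa90100082037f20808108001fe5955021080124868c0024007f51490b84600cb29a5800840096554b101100069b2120823007f7d42c0842010004a80208c00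
noncomputable def S35 : Nat := 0x180000000000000000000000000000000000000000000000000000000000000000000000000000000000000000000000000000000000000000000000000000000000000000000000000000000000000000000000000000000000000000000000000000000000000000000000000000000000000000000000000000000000000000000000000000000000000000000000000000000000000000000000000000000000000000000000000000000000000000000000000000000000000000000000000000000000000000000000000000000000000000000000000000000000000000000000000000000000000000000000000000000000000000000000000000000000000000000000000000000000000000000000000000000000000000000000000000000000000000000000000000000000000000000000000000000000000000000000000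
theorem k35 : loop (f1 (tail O35 (outl outs) (mkE0 2105367 2888) 16 11 9 38 20 37 36 31 26 39 35 42)
    Q2 Q3 Q4 Q5 Q6 Q7 Q8 Q9 Q10 Q11 Q12) S35 = true := by decide +kernel
noncomputable def O36 : Nat → Nat := orc 49337 5 24 0x3000200010000
  0xa0000000066000000015100000000f5000000015b00128000a30000000000000700011e00033000eb0018e0003d0018400000000000009900000
  0x4b28808008400fe59500211001fca3020421003f90610484000ff24868324990d00228033cf34c20220125410000044007f28c08108400
noncomputable def S36 : Nat := 0x44000001000000000000000000000000000000000000000000000000000000000000000000000000000000000000000000000000000000000000000000000000000000000000000000000000000000000000000000000000000000000000000000000000000000000000000000000000000000000000000000000000000000000000000000000000000000000000000000000000000000000000000000000000000000000000000000000000000000000000000000000000000000000000000000000000000000000000000000000000000000000000000000000000000000000000000000000000000000000000000000000000000000000000000000000000000000000000000000000000000000000000000000000000000000000000000000000000000000000000000000000000000000000000000000000000000000000000000000000000000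
theorem k36 : loop (f1 (tail O36 (outl outs) (mkE0 2105367 2888) 16 11 9 38 20 37 36 31 26 39 35 42)
    Q2 Q3 Q4 Q5 Q6 Q7 Q8 Q9 Q10 Q11 Q12) S36 = true := by decide +kernel

end Pool.Agent.T2H98.EGZ.K.C12
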