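import Pool.Agent.T2H98.EGZ.C.D12

set_option autoImplicit false
set_option linter.unusedVariables false

namespace Pool.Agent.T2H98.EGZ.K.C12

open K

noncomputable def O37 : Nat → Nat := orc 63001 7 35 0x20013000400000001
  0x1cb000000013c000ff001fe00165000000000a0000000000000cc0003d0000000000000000000000109000000000000033000a300000001a2001d500000000000007000099000d60006600000001320016f0020800198
  0x1fcb2a80c210025944040042004a820000088002499a51010800fbe488002300a694b240042004b29a5800840034d9090411802faa696082300bf90d2c084000ff2a048308400
noncomputable def S37 : Nat := 0x44000000080000000000000000000000000000000000000000000000000000000000000000000000000000000000000000000000000000000000000000000000000000000000000000000000000000000000000000000000000000000000000000000000000000000000000000000000000000000000000000000000000000000000000000000000000000000000000000000000000000000000000000000000000000000000000000000000000000000000000000000000000000000000000000000000000000000000000000000000000000000000000000000000000000000000000000000000000000000000000000000000000000000000000000000000000000000000000000000000000000000000000000000000000000000000000000000000000000000000000000000000000000000000000000000000000000000000000000000000000000000000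
theorem k37 : loop (f1 (tail O37 (outl outs) (mkE0 2105367 2888) 16 11 9 38 20 37 36 31 26 39 35 42)
    Q2 Q3 Q4 Q5 Q6 Q7 Q8 Q9 Q10 Q11 Q12) S37 = true := by decide +kernel
noncomputable def O38 : Nat → Nat := orc 61425 37 150 0x800010000000600030007000b0004000000090001001900030000000300000004000900080000000000030009000900000001001b0006000e0000000a0001001300020015
  0x79f007fb00610003590076c00b170016f001cb0056200000000000000000000001a2008c70068b004630069500000000000061a000000000000aee006f1009f9008610026400a55001320028d007c8002f300000004fc000330000000805000000000000459000cc00330000660000000000005aa0089e00be300b540029700960004f200b8700000000ff00198009930000a0000000000000000086b000000013c002ca00838006be00a7e00099000000010900227000700099d006e700a880071a001f40092d001fe005e70000000904000000000000c1600b7d004bf0082e0000000000005b40000000894009d0004070000000000000d600000009c60000000bed00000003de00ae40025a0000000a4b00525005dd0079500724003d400643002fd002c000abb00bba009370000000c200000000000000000000000000004110055800bb00036300ab10048c008fa004960032600231007d200b21001650096a00b4a008d1004c900a030052f0003d000a3003ab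
  0x12ca2020021003f555949846007f28c08108400fe51810210801fcb2a80c21000d365100044004b2aa5880880010490b04128032a8a020821003f946040842007efa85811047c900208052ca4880026002740b101044024b288080084000417c40012004fbe696002500bf2cb7c0846010c34a480088005149500012001fca4800424001f40b101048017f21a581080019245500411802082faa20237df55540208f92004100a594d2c0042003e812300091041f50d046014a81a48096550d0021ff28c081084007df98b18108052caa962022002540d1840824a48011400fe53491a1080049328c082300010652c0044007f29a48d08400fe5181021080122aa0203f90404088000cb2ccaa008400fe694b12117f34a20195018400218012caa12302200266952c0042018c334580090031866891012007fcb2aa0421001f550246046017f34a20108c00fcd36506122b2ca49208c001869a43410003fc85923426006595034604c004d2a03020840096510100108012aaa020021003f946040842004d29648008400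
noncomputable def S38 : Nat := 0x180000000000000000000000000000000000000000000000000000000000000000000000000000000000000000000000000000000000000000000000000000000000000000000000000000000000000000000000000000000000000000000000000000000000000000000000000000000000000000000000000000000000000000000000000000000000000000000000000000000000000000000000000000000000000000000000000000000000000000000000000000000000000000000000000000000000000000000000000000000000000000000000000000000000000000000000000000000000000000000000000000000000000000000000000000000000000000000000000000000000000000000000000000000000000000000000000000000000000000000000000000000000000000000000000000000000000000000000000000000000000000000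
theorem k38 : loop (f1 (tail O38 (outl outs) (mkE0 2105367 2888) 16 11 9 38 20 37 36 31 26 39 35 42)
    Q2 Q3 Q4 Q5 Q6 Q7 Q8 Q9 Q10 Q11 Q12) S38 = true := by decide +kernel

end Pool.Agent.T2H98.EGZ.K.C12
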