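import Pool.Agent.T2H98.EGZ.C.D12

set_option autoImplicit false
set_option linter.unusedVariables false

namespace Pool.Agent.T2H98.EGZ.K.C12

open K

noncomputable def O6 : Nat → Nat := orc 57455 11 50 0x10000000100000000000700080008000000010002
  0x1d500000001a20036400070001fe00279002e90020800000000cc002ac000000003d0009900000000000000000066000000031c0013c0036e0000000000002df00312000a3000000000a0003300283001320016500198001cb00000002b600000000d600000000000016f00000000ff0010900000000000000000250
  0x7f2caa030840092450b0020921200420065410000044004d2a030208400fe49140610003fcb2a80c21514950012ca4920044003f9502418420020d3408208803fe59540610801fbea160421008d36418004400befa080208c0234d9060011002fbe202002500bf950241842007efbe30109002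
noncomputable def S6 : Nat := 0x1000000000000000000000000000000006000000000000000000000
theorem k6 : loop (f1 (tail O6 (outl outs) (mkE0 2105367 2888) 16 11 9 38 20 37 36 31 26 39 35 42)
    Q2 Q3 Q4 Q5 Q6 Q7 Q8 Q9 Q10 Q11 Q12) S6 = true := by decide +kernel
noncomputable def O7 : Nat → Nat := orc 48381 4 28 0x20002
  0xff00000000000003d00000000000003300000000d60000000000000660000000099000000000000109000a300000000000000a000cc00132000700000000000000000013c
  0xaab2a0082400252c610104400020be580080029555010010801fcd28804230025944040042004aaaa00008400
noncomputable def S7 : Nat := 0x1006000000000000000000000000000000000000000000000000000000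
theorem k7 : loop (f1 (tail O7 (outl outs) (mkE0 2105367 2888) 16 11 9 38 20 37 36 31 26 39 35 42)
    Q2 Q3 Q4 Q5 Q6 Q7 Q8 Q9 Q10 Q11 Q12) S7 = true := by decide +kernel

end Pool.Agent.T2H98.EGZ.K.C12
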