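import Pool.Agent.T2H98.EGZ.C.D12

set_option autoImplicit false
set_option linter.unusedVariables false

namespace Pool.Agent.T2H98.EGZ.K.C12

open K

noncomputable def O14 : Nat → Nat := orc 40907 11 48 0x600000000000a0001001500000000000100000001
  0x3300003d001fe000000013c0023b0019800000001d500099002fd0000000000002640013200000000000003300000002ca0000000000000cc0020800000002310033a000000007000066000ff001650016f00000000d60026e001cb00307002a1002970000a000a3002d4001a2001090000000000
  0x7e596f8108c0292450b0011003fca8120c210015965249046004920c308080019a52c900108012ca8162021002424900004600cb288080084009653491010801fca8120c210025944040042007f2a048308400fe79c602110092a8a0208210025555000042002b24882008801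
noncomputable def S14 : Nat := 0x3000002000000000000000000000000000000000000000000000000000000000000000000000000000000000000000000000000000000000000000
theorem k14 : loop (f1 (tail O14 (outl outs) (mkE0 2105367 2888) 16 11 9 38 20 37 36 31 26 39 35 42)
    Q2 Q3 Q4 Q5 Q6 Q7 Q8 Q9 Q10 Q11 Q12) S14 = true := by decide +kernel
noncomputable def O15 : Nat → Nat := orc 59833 49 192 0x3000000040009002f0000000000090001001600000003000000000002000200020000000000000015000a0002000000000000001f000600160010000100010000000600000010000d00160000000100070001000200010005000a000100010016
  0xf290033b00f5c00d290067700000007e60000000000001ad000b800c8600000000000000000a400008500c20005960023c003a10003300ac5001700000a007100053000000007dc00000000000000000941009da00776007a90042600cb9006aa0000000bed00bc400b5400d85008e50084c00fcc004d400b91004ab0044f005bf005c900c5300000001a300fc2006e700875006b400819000000000000abb0008f00c90004de0094b0000000bba00aee00459002130024600ec300dd70090e00bf70074d0000000c2a00d52000000097e0041c00f8f0000000000005fc0071a00d5c0000000000000000000000a8800f330000000000008db0000000209001e000000000000078000000000000000000000003f30026f000c2000000000000378009a70058c00e9a0036e00279000eb0000000ecd0000000e1f001d600b2b0080f00000000000000000c5d00a92000f5007430087f00af8007b300974008a8009180000000b870000000f6600a0d0000000f990000000563008b20034500a1700e5200f0000cec00000009e4008420062f003e900cf600b5e009b1004a1005260062500e4800681002df00b2100ff500cc3002a20003d00ef60017a006dd00fff0013d00308002ac002d5005f200d8f003120055900d1f00147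
  0x9651010010801fca30204210025406100046007f28c081084009a54060410800fbe4880023009f409180048017e69b283093f94b104aaaca8021100055594d18124a81a4800009500421ff2ca8019504000021001fc85923426004001f34604c017ed1208309403fe5181021080134a80c08210006965104042007f2a04830840004194b0011001fca58824240015965249046004b29a580084009a55460411001fc83082420006534b241044007f2ca58308c0056594924082faa204334d7c400100042092a06822002555424004c007f2caa0308400fe6906021180220934aa0220025555000042007f34848308801fe594b061180008329600220025944040042007f34a589088004109040411003fca8163421002594d2c0042001a6ca3000940096550d00118012ca2020021003f90610484000fefa848d34d7c40020005f8c34a2421000d364180044009a6c830008801fe51810210801348a020022007f9652c1ca81a48010c0004168d0010806082d1a03f69a24088201fe596f8108c0204168d001080734a59200105a340083fb4a1a042000c105a34004201aaac8a1a08c019092400011802209212002200649142c004400cb29a58008400fda68d1212007f965be042300a440d04004400965be68c080029a45010011002208f9200d35f180082017f20808108001fe42c10212003fc869606455404008000fe30d28908400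
noncomputable def S15 : Nat := 0x1000004000000000000000000000000000000000000000000000000000000000000000000000000000000000000000000000000000000000000000000000000
theorem k15 : loop (f1 (tail O15 (outl outs) (mkE0 2105367 2888) 16 11 9 38 20 37 36 31 26 39 35 42)
    Q2 Q3 Q4 Q5 Q6 Q7 Q8 Q9 Q10 Q11 Q12) S15 = true := by decide +kernel

end Pool.Agent.T2H98.EGZ.K.C12
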