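import Pool.Agent.T2H98.EGZ.C.D12

set_option autoImplicit false
set_option linter.unusedVariables false

namespace Pool.Agent.T2H98.EGZ.K.C12

open K

noncomputable def O21 : Nat → Nat := orc 46329 2 15 0x20000
  0xa000000000000000000a3000990006600000000000000000033000700003d00000
  0x4190d0011803fca3020421002540d240046007f2caa8108400
noncomputable def S21 : Nat := 0x184000000000000000000000000000000000000000000000000000000000000000000000000000000000000000000000000000000000000000000000000000000000000000000000000000000000000000000000000000000000000000000000000000000000000000000000000000000000000000000000000000000000000000000000000000000000000000000000000000000000000000000000000000000000000000000000000000000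
theorem k21 : loop (f1 (tail O21 (outl outs) (mkE0 2105367 2888) 16 11 9 38 20 37 36 31 26 39 35 42)
    Q2 Q3 Q4 Q5 Q6 Q7 Q8 Q9 Q10 Q11 Q12) S21 = true := by decide +kernel
noncomputable def O22 : Nat → Nat := orc 55601 35 153 0x400000001000000020007000d000200000005000b000300010000000400000000000300040004000a000000060001000500000000000f000000020000000000060009
  0x459000a3000e0009880092200312001ea009b10007a0097e00000005f1000000000000426007b3002a200000000000003d00000000000055800a4a00378008190071a00345003f300a54001c1002d50025a00aba004c90000000000000000058b008e50000000000003fd00a17008bc00014004bf0036e00430000ad00000000000048c005be00a870049600000008ef000d60011300000007f0003ab000000000000000009550069f0000000047004f20000000aed001b700000000000000000000007800000000918002df00070000000000000000009bb006e7000000084c0056200000008b200889005e7007bd00000003a10000a002270000000000000000033b000000074d000000000000109006f100757005250046300000000000000000724000000052f00000002ac0018e00250000000078a00a7d0015b0066c00000000000021d00b1600676007e600a21009e400b200018400ae300643005950094b00ab0009ee001f400823004fc006390087f003080085600000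
  0x12ca5962024003f69404084801cd2aa302088005559500412001fcb2a80c21000105f100048014aaaa000084000009a45411003f965be042300bf7d0041846017f2caa8108400fe51810210801248aa00823006491004004800caaa80800840096540b101080124830200200065555000042000824848008801fdf346061180400134aa8250025944040042002b24882092450b00214d2203020800134d7c4001000533ea0201f40d04008201165be68c082699f7d504001124ca30208c004109e6041080830cfaa002300bf94d246842000824848008801fe434b26120032ca4880026003f90d2c084000ff34d1a1fe3549062000b21a68208250065555000042004881a308088017d03461010804faa812302300bf7d42c0820be48c10402fe59500211000083296002200061a42c104400be80c20009802fdf4090612a083e20234d7c60020805248a160022006440d04004400caa28082084009245500411803fce68c042101002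
noncomputable def S22 : Nat := 0x3000000000000000000000000000000000000000000000000000000000000000000000000000000000000000000000000000000000000000000000000000000000000000000000000000000000000000000000000000000000000000000000000000000000000000000000000000000000000000000000000000000000000000000000000000000000000000000000000000000000000000000000000000000000000000000000000000000000
theorem k22 : loop (f1 (tail O22 (outl outs) (mkE0 2105367 2888) 16 11 9 38 20 37 36 31 26 39 35 42)
    Q2 Q3 Q4 Q5 Q6 Q7 Q8 Q9 Q10 Q11 Q12) S22 = true := by decide +kernel

end Pool.Agent.T2H98.EGZ.K.C12
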