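import Pool.Agent.T2H98.EGZ.C.D13

set_option autoImplicit false
set_option linter.unusedVariables false

namespace Pool.Agent.T2H98.EGZ.K.C13

open K

noncomputable def O2 : Nat → Nat := orc 55027 13 53 0x300000009000b000d001100000018000d0000000400020009
  0x2e90038c003bf0026e001a2003f200000000cc000000019800000003590013c000a300264001cb001fe002a100382003b50003d00000000000000a000000000000000000000034f002970031c0009900000000000000000000000000020800070003e8001090003300326000d60016f000ff003120006600165001d50023b0023100132
  0xa294080088001043cd1412005f9440e0422000104910004801fe71c18308c05008d1850c204669a38e1bf3cd204888017e584081080010ca280001080079e5040023003f287103842000c3144060840028818304118002085061022003f3c9200842019450e200084000002c6041100230c79a3824008b1c3080044008c31428209400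
noncomputable def S2 : Nat := 0x1040
theorem k2 : loop (f1 (tail O2 (outl outs) (mkE0 393239 3098) 3 7 5 8 15 10 11 13 9 16 14 12)
    Q2 Q3 Q4 Q5 Q6 Q7 Q8 Q9 Q10 Q11 Q12) S2 = true := by decide +kernel
noncomputable def O3 : Nat → Nat := orc 52437 14 64 0x10004000000000000000000000000000100040023000a0006000b
  0x15b00000001650029700363002310000a00000003a00000000000000cc000000008500307001980028d001c1000000033a0008f002ca00000002fd003fc001cb00033002f3001320042f000000000000000000c2000000003d000ff00099000000025a00330000000012800406000000000000000001fe000f5000000018e00396002c0001f4000000022700000004390000000264003c90036d003d300000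
  0x904100004401948a20820840028a08100108001045903023007f287141842007e5881050980134d0c30012804007e79c2850980528a3c204128008945082022003f44d203848017e20858108c0128a1851011801f9a3020c2400bf2861438420008214184088000412870c11001f861940421000524900004c0180010450c20208a040088001438e30c08800
noncomputable def S3 : Nat := 0x3000000000
theorem k3 : loop (f1 (tail O3 (outl outs) (mkE0 393239 3098) 3 7 5 8 15 10 11 13 9 16 14 12)
    Q2 Q3 Q4 Q5 Q6 Q7 Q8 Q9 Q10 Q11 Q12) S3 = true := by decide +kernel
noncomputable def O4 : Nat → Nat := orc 50905 29 119 0x50000000200010000000000010006000e00040001000900020000000600060013000600010007000400000006002000000002000200010000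
  0x2e00000000000005bf0079e0072e0000a0013e00000000000069500526000000027a0007b005f200431000c300837004c0006be000000014800247000000000000000008bc00658004fd001a400000005960007100497000000045a002ad003c100794007fa00563003fe00757002d6001710021400922008ef005590082d00346004ca000000042700761006c80011500000002700036f000000076b0017b006f10048d00804001e1003090020a00000003cb0068b00662006fb00000003790000000000009180000000000004f3001d70072400000005c900000001ae00000000000033c00000008b20058c0062f00464000000000000955006250094b007d100530008e50086a00313003f400860007c7002a30010b00000005fc000000023d0000000000
  0x3f283081842001450408008400fcb2c40611002514308102100041092060a492000118033cf2820011801f965a20c20004328a000042001450c20408400fcf3cb0212802000a29408008800fca1c50610801f96308142000471ca14304a007e50c18508c000002c81410003f86194042100071ca14304a000e39428609400145281001100069a1860025008a1440c0044007e510305088000822860011001f941840c21000a451041042002289e50408800fca2060a1100050a28410410a08008a000a294202090000c32860411000514388002100030cb14404400fe50e28308400208344081200458a2060025004208a180044000411618209001fcd1810612005f9440c1422000b041000048009640e2841cb2c104230a296182fcb2c40621003f9440c14208a1800a29408018800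
noncomputable def S4 : Nat := 0x140000000000
theorem k4 : loop (f1 (tail O4 (outl outs) (mkE0 393239 3098) 3 7 5 8 15 10 11 13 9 16 14 12)
    Q2 Q3 Q4 Q5 Q6 Q7 Q8 Q9 Q10 Q11 Q12) S4 = true := by decide +kernel

end Pool.Agent.T2H98.EGZ.K.C13
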