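import Pool.Agent.T2H98.EGZ.C.D13

set_option autoImplicit false
set_option linter.unusedVariables false

namespace Pool.Agent.T2H98.EGZ.K.C13

open K

noncomputable def O30 : Nat → Nat := orc 60651 21 88 0x4000e0000000000000001000000170005000100110001000d0000000300000000000b000000030000
  0x68200000003fd003c000066000a3003f30028d0059700000002310061c001f4001fe000000009900711004de006e80000000000000000007000000001cb000000000000000001a200264000000025a000000000000000002f300000005df000ff00678006de006120048c001090000a0003d000000016500198000000000000378002ca0058d0013c00496006b5003ca0013200430003300016f0071b0074e00526002c0006ab00227005e90064f006450000000744000000003300297000000032600000000000045900426000cc000d6002fd000000046300000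
  0x619a288084020412c70c1280210468c0020008514b20104600fe5142850940034d186041200410468c002000bf2cb10184400a28a08001864070c20009f945060ca0c30411430a100190a2060c10209440e10c208a2000c5141041180028a1850010801f941840c21003f28a446846000209438608800fc9243061044820045fc618907f8e3921c4100ca1440810440014288102088002cb0c204100025147840825000a286140042007e51488d08c003ca2871c12148a20820840028a1c40010801f965a20c20004d3513c0046011a68e38609002fcd181061200480c286102101030cd181040017e69a38d08002
noncomputable def S30 : Nat := 0x4100000000000000000000000000000000000000000000000000000000000000000000000000000000000000000000000000000000000000000000000000000000000000000000000000000000000000000000000000000000000000000000000000000000000000000000000000000000000000000000000000000000000000000000000000000000000000000000000000000000000000000000000000000000000000000000000000000000000000000000000000000000000000000000000000000000000000000000000000000000000000000000000000000000000000000000000000000000000000000000000000000000000000000000000000000000000000000000000000000000000000000000000000000000000000000000000000000000000000000000000000000000000000000000000000000000000000000000000000000000000000000000000000000000000000000000000000000000000000000000000000000000000000000000000000000000000000000000000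
theorem k30 : loop (f1 (tail O30 (outl outs) (mkE0 393239 3098) 3 7 5 8 15 10 11 13 9 16 14 12)
    Q2 Q3 Q4 Q5 Q6 Q7 Q8 Q9 Q10 Q11 Q12) S30 = true := by decide +kernel
noncomputable def O31 : Nat → Nat := orc 57333 11 45 0x20001000100000000000400040004000400050000
  0x2ca00109002d4000000026e00000000660016f001a20000000000000a3001cb00000003070000000033000d600208002640003d00198000ff0000000165000000013200000002fd001fe0033a00231001d50013c000000033000099000cc002a1000000023b00070000000000a00297
  0x2092200090030ca280001080028a89a082400830cb1440440088214286090002881c6041080079c3861022014a204080042000411a306084021c7402001180850a2060022003f44a2008460004114300088002881c604108005143880021000b2cf200046008209a38608002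
noncomputable def S31 : Nat := 0x100000000000000000000000000000000000000000000000000000000000000000000000000000000000000000000000000000000000000000000000000000000000000000000000000000000000000000000000000000000000000000000000000000000000000000000000000000000000000000000000000000000000000000000000000000000000000000000000000000000000000000000000000000000000000000000000000000000000000000000000000000000000000000000000000000000000000000000000000000000000000000000000000000000000000000000000000000000000000000000000000000000000000000000000000000000000000000000000000000000000000000000000000000000000000000000000000000000000000000000000000000000000000000000000000000000000000000000000000000000000000000000000000000000000000000000000000000000000000000000000000000000000000000000000000000000000000000000000000000000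
theorem k31 : loop (f1 (tail O31 (outl outs) (mkE0 393239 3098) 3 7 5 8 15 10 11 13 9 16 14 12)
    Q2 Q3 Q4 Q5 Q6 Q7 Q8 Q9 Q10 Q11 Q12) S31 = true := by decide +kernel

end Pool.Agent.T2H98.EGZ.K.C13
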