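import Pool.Agent.T2H98.EGZ.C.D13

set_option autoImplicit false
set_option linter.unusedVariables false

namespace Pool.Agent.T2H98.EGZ.K.C13

open K

noncomputable def O5 : Nat → Nat := orc 42503 15 60 0xd0006000200020003000f000400080003000300020016000000000007
  0x3300066004810000a000000020800363003e8002a1001980026e0041b0016500330003bf00297001320030700070004250048b000cc001fe003b50000000000003f2002640023b0044e002ca002fd00000000000009900000000000000000000001a2000d6000ff000a30036d001cb0000000000000000033a001090016f0013c000000045800231001d50003d00000002d4
  0x14528610110004107961020004208a180044001440810008400fca1c6021300000050613f28a0c1888001e510204094000822860011001f9a3081425009128a10404400143881000900028a184081080038e68a0021008a2840c0046001659e30a08801fcb081021000238e58a0022004b184040048009a68e282094020412870c11001f9041a342600bf3cd0c0842017e50610308400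
noncomputable def S5 : Nat := 0x1000001000000000000
theorem k5 : loop (f1 (tail O5 (outl outs) (mkE0 393239 3098) 3 7 5 8 15 10 11 13 9 16 14 12)
    Q2 Q3 Q4 Q5 Q6 Q7 Q8 Q9 Q10 Q11 Q12) S5 = true := by decide +kernel
noncomputable def O6 : Nat → Nat := orc 51283 16 65 0x600080003000000050000000300010002000000020008000500000000
  0x19900033003310020900000002fe00000002d50051b00265001ff00066000000000000000002cb000d60000000000001d6000000026f001cc002320003d000700000000000002980036e00525000000023c0043a0048c0000a004f2004e8003d4001a3003a1000ff000cc00000003640033b00407000a30000000308004b5003fd00170004300010900482002a2004bf00099003ca0000000000000000039700000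
  0x3f0c32808420014504080084002494440c1280638e58a0022004a1850800e3943021100028510204110005961860020007f145301840031451e40608c00208345001200489e50a1821000000b181044009a38a10208c02249104001080610450c0022000a204080042007e59038f09001fcf3cb021280280a286182619040105fa07900504041000c4021249e180090032471020012807f9a30a0425008a282040042007e58c28108001
noncomputable def S6 : Nat := 0x44000000000000000000
theorem k6 : loop (f1 (tail O6 (outl outs) (mkE0 393239 3098) 3 7 5 8 15 10 11 13 9 16 14 12)
    Q2 Q3 Q4 Q5 Q6 Q7 Q8 Q9 Q10 Q11 Q12) S6 = true := by decide +kernel

end Pool.Agent.T2H98.EGZ.K.C13
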