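import Pool.Agent.T2H98.EGZ.C.D13

set_option autoImplicit false
set_option linter.unusedVariables false

namespace Pool.Agent.T2H98.EGZ.K.C13

open K

noncomputable def O7 : Nat → Nat := orc 46391 13 55 0xb000000000000000100020002000b00040006000200000000
  0x2090026f003fd0000000166000a300066002980036e0013d00000001a300000000eb0003d002d50000a000000036400199003d4002cb00000002fe003a10000000232000000000000407003ca00000001d6000000033b0023c0030800000001330000000397000000026500331001ff00070000000000000000000000003300170002a200099001cc
  0x3cf28508130005142820023000b10404104400fe50e20708400fca1c5061080079e5040023000a204080042001041e50408400fcb0c002100021945000021000514a040044001450a08008c00fca0c20610800492786002400d04070c004a021440e30228a184082086514000fca0c2062080051430a0021000f2c8181048008c31620008801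
noncomputable def S7 : Nat := 0x2000000000000000000000000000000000003000000000000000000000
theorem k7 : loop (f1 (tail O7 (outl outs) (mkE0 393239 3098) 3 7 5 8 15 10 11 13 9 16 14 12)
    Q2 Q3 Q4 Q5 Q6 Q7 Q8 Q9 Q10 Q11 Q12) S7 = true := by decide +kernel
noncomputable def O8 : Nat → Nat := orc 54053 45 180 0x10026000300030004000200170011000100000005000200060002000500020000000b001800000000001200020000002e0001000700280006001f000600020001000000050005000000240000000300320002000400030001
  0x3df00000004de002d6008bd008f000000007760000000b3f0000000d67000000069f0066c0000000000004ab0000000b9b005dd00000009bc00e5c00a9c0000000000000000013d000000051100000000000051b0025b007a9000ae00d90009ef0000000df60021e0047800cd800c01002840079f00bd800b020034600aa600a5500a880073900d0b000eb00989008c70041200e2900c0b000e100dcd009600088a0041c00a920030900ce20054e005aa00033001660028e00d5d007d200350004b500b0c005e700ba500a2c001d60066200710005810092d0044f0003d008050038300000001330025100d15000000031300000001a3002280000000c72003e900000005b40086100000000000076c008fa00d9a003b6001cc00e66008940000000000007060037900676001990048200000000000000000e000000000544002e0007dc00e8f004e8009230061000c7c000000000000acf0074300dc30099300000000b800e99009c600b680000000a5f00caf00e3300ca5009f90000000000000000080f000000000000000003ac00956004450031d0000000000001700000a000000008500bce000000000000b720061a00ad900b350085700a2200577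
  0x410a202046001440810008400fca2871a1100028a5020022000a284081046001450818008c00145308101000df941840ca282040082007e510381088000ca28000108005147840825000a1c61011451e102104282003280010450c2024003f3cd1c0846012268e1000900210d340001200428a50c2022003f286143842007e60c10508006010032493c300120065147860025000208a20004c007e58c28108001fcf3ca1e1200008250c1025000a286102042001451e102094001042830811001fa268e3c23008208a20004c0004114400fca141062300068e286002300820901c60460214288102088004512c5001180228a89a0824009144d3441860c3043091c50c300619a10008c06008c2061001860a100104064512c40811803f9438a0c21000a282040042000c31428209400fca0c2061080018668c0820008a286102042007e58c08308c0128810200108002986020820018a1440c0044002279630208c01fc410b02118027945061822003f34300084a01003f9438a0c21000514d1c60619a10010c0234d44f001180449278c282400c410e0c20619c302104052c510300128022165800023004208a1800440022792302fcf24802208060005102821003f2c70c384628a58e30b2c820708800a270a20009005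
noncomputable def S8 : Nat := 0x3080000000000000000000000000000000000000000000000000000000000000000
theorem k8 : loop (f1 (tail O8 (outl outs) (mkE0 393239 3098) 3 7 5 8 15 10 11 13 9 16 14 12)
    Q2 Q3 Q4 Q5 Q6 Q7 Q8 Q9 Q10 Q11 Q12) S8 = true := by decide +kernel

end Pool.Agent.T2H98.EGZ.K.C13
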