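import Pool.Agent.T2H98.EGZ.C.D13

set_option autoImplicit false
set_option linter.unusedVariables false

namespace Pool.Agent.T2H98.EGZ.K.C13

open K

noncomputable def O23 : Nat → Nat := orc 54907 33 137 0x300050000000e000800200000000700030004000100010003000900000005000c0007000900010001000400030003001d00000000000800000003000000010004
  0x10000199003c000000000000000a009740000000757000000038d0078a0015c0000000000000000090e00166000000035a000000000000000001c200000009b1000f60069f0000000000004ab00a400025100000005a000a870072e000000012900133008b20057700000006f100676006fb003f300426004d4002f4003e90094b00000009da002e00097e009e40018f006060005c008db00a1700000000ae006a900052005dd0080f00350002b70046e0000000247009a7002840000000761008a80064300000000000087f00842000000000000000000000050700000000000056d00478000000000000a7d003b60084c008e500819009180031d001cc005aa00214000000032700383002ea0027a00a0d0053a007c700875004de00a4a00941000a4000000021e0061000544005110000000724005d30063900000000000066c00000000000041c002ad00794007bd00a73004a1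
  0x1452470412006010651400008400104283081100079e50a2021000f2881c2048007e584081080012881020010801f9e68c2c21008a286102042007e18650108400410145081100818650e1025003f0c3280842001c30a100387102002180a30c5901820004a28f203046001230a10009403386142001180a48c3000030c9102088018a29618208801082286101200051038c0821000208b183044009230a10009403fca1830a11801f943061423003f2cb040848009450c280084003cb20604120025228820821000a2861407e18650110400fca2060a1100058a2060025007f410184842027e792401084032491c30010007f9650a1422004002083ca0810801f945220c2100042cb000046008a294080088000823861070c2840043014918508004a019c30a10008c05fc91420a10807f945220c21003f30c1c29838e10410806fcf3430e28a6820040008d1440811a28818010002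
noncomputable def S23 : Nat := 0x5000000000000000000000000000000000000000000000000000000000000000000000000000000000000000000000000000000000000000000000000000000000000000000000000000000000000000000000000000000000000000000000000000100000000000000000000000000000000000000000000000000000000000000000000000000000000000000000000000000000000000000000000000000000000000000000000000000000000000000000000000000000000000000000000000000000000000000000000000000000000000000000000000000000000000000000000000000000000000000000000000000000000000000000000000000000000000000000000000000000000000000000000000000000000000000000000000000000000000000000000000000000000000000000000000000000000000000000000
theorem k23 : loop (f1 (tail O23 (outl outs) (mkE0 393239 3098) 3 7 5 8 15 10 11 13 9 16 14 12)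
    Q2 Q3 Q4 Q5 Q6 Q7 Q8 Q9 Q10 Q11 Q12) S23 = true := by decide +kernel
noncomputable def O24 : Nat → Nat := orc 49477 10 41 0x30000000900050007000500040001
  0x66001fe00000002f30000000297001cb0026e00000000ff00000000000000000000002310000000000001980000a00000001d5000700013200099000d600208001a2000000003d002e9000cc002640016f00165000330013c00109002a10023b000a300000
  0xfc91420a1080679e5880bf2c508088c00948a2082084001862880c1080059638e1823004a282040042000c5141040980028a3c2041280050a2040822003f28a14284a0004114300088002493c614120068a25144025000000a14404a000c31620008801
noncomputable def S24 : Nat := 0x1000000001000000000000000000000000000000000000000000000000000000000000000000000000000000000000000000000000000000000000000000000000000000000000000000000000000000000000000000000000000000000000000000000000000000000000000000000000000000000000000000000000000000000000000000000000000000000000000000000000000000000000000000000000000000000000000000000000000000000000000000000000000000000000000000000000000000000000000000000000000000000000000000000000000000000000000000000000000000000000000000000000000000000000000000000000000000000000000000000000000000000000000000000000000000000000000000000000000000000000000000000000000000000000000000000000000000000000000000000000000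
theorem k24 : loop (f1 (tail O24 (outl outs) (mkE0 393239 3098) 3 7 5 8 15 10 11 13 9 16 14 12)
    Q2 Q3 Q4 Q5 Q6 Q7 Q8 Q9 Q10 Q11 Q12) S24 = true := by decide +kernel

end Pool.Agent.T2H98.EGZ.K.C13
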