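import Pool.Agent.T2H98.EGZ.Main
import Pool.Agent.T2H98.EGZ.C.GOk
import Pool.Agent.T2H98.EGZ.C.D07
import Pool.Agent.T2H98.EGZ.C.K07_0
import Pool.Agent.T2H98.EGZ.C.K07_1
import Pool.Agent.T2H98.EGZ.C.K07_2
import Pool.Agent.T2H98.EGZ.C.K07_3
import Pool.Agent.T2H98.EGZ.C.K07_4
import Pool.Agent.T2H98.EGZ.C.K07_5
import Pool.Agent.T2H98.EGZ.C.K07_6
import Pool.Agent.T2H98.EGZ.C.K07_7
import Pool.Agent.T2H98.EGZ.C.K07_8
import Pool.Agent.T2H98.EGZ.C.K07_9
import Pool.Agent.T2H98.EGZ.C.K07_10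
import Pool.Agent.T2H98.EGZ.C.K07_11
import Pool.Agent.T2H98.EGZ.C.K07_12
import Pool.Agent.T2H98.EGZ.C.K07_13
import Pool.Agent.T2H98.EGZ.C.K07_14
import Pool.Agent.T2H98.EGZ.C.K07_15
import Pool.Agent.T2H98.EGZ.C.K07_16
import Pool.Agent.T2H98.EGZ.C.K07_17
import Pool.Agent.T2H98.EGZ.C.K07_18
import Pool.Agent.T2H98.EGZ.C.K07_19
import Pool.Agent.T2H98.EGZ.C.K07_20
import Pool.Agent.T2H98.EGZ.C.D08
import Pool.Agent.T2H98.EGZ.C.K08_0
import Pool.Agent.T2H98.EGZ.C.K08_1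
import Pool.Agent.T2H98.EGZ.C.K08_2
import Pool.Agent.T2H98.EGZ.C.K08_3
import Pool.Agent.T2H98.EGZ.C.K08_4
import Pool.Agent.T2H98.EGZ.C.K08_5
import Pool.Agent.T2H98.EGZ.C.K08_6
import Pool.Agent.T2H98.EGZ.C.K08_7
import Pool.Agent.T2H98.EGZ.C.K08_8
import Pool.Agent.T2H98.EGZ.C.K08_9
import Pool.Agent.T2H98.EGZ.C.K08_10
import Pool.Agent.T2H98.EGZ.C.K08_11
import Pool.Agent.T2H98.EGZ.C.K08_12
import Pool.Agent.T2H98.EGZ.C.K08_13
import Pool.Agent.T2H98.EGZ.C.K08_14
import Pool.Agent.T2H98.EGZ.C.K08_15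
import Pool.Agent.T2H98.EGZ.C.K08_16
import Pool.Agent.T2H98.EGZ.C.K08_17
import Pool.Agent.T2H98.EGZ.C.K08_18
import Pool.Agent.T2H98.EGZ.C.K08_19
import Pool.Agent.T2H98.EGZ.C.D09
import Pool.Agent.T2H98.EGZ.C.K09_0
import Pool.Agent.T2H98.EGZ.C.K09_1
import Pool.Agent.T2H98.EGZ.C.K09_2
import Pool.Agent.T2H98.EGZ.C.K09_3
import Pool.Agent.T2H98.EGZ.C.K09_4
import Pool.Agent.T2H98.EGZ.C.K09_5
import Pool.Agent.T2H98.EGZ.C.K09_6
import Pool.Agent.T2H98.EGZ.C.K09_7
import Pool.Agent.T2H98.EGZ.C.K09_8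
import Pool.Agent.T2H98.EGZ.C.K09_9
import Pool.Agent.T2H98.EGZ.C.K09_10
import Pool.Agent.T2H98.EGZ.C.K09_11
import Pool.Agent.T2H98.EGZ.C.K09_12
import Pool.Agent.T2H98.EGZ.C.K09_13
import Pool.Agent.T2H98.EGZ.C.K09_14
import Pool.Agent.T2H98.EGZ.C.K09_15
import Pool.Agent.T2H98.EGZ.C.K09_16
import Pool.Agent.T2H98.EGZ.C.K09_17
import Pool.Agent.T2H98.EGZ.C.K09_18
import Pool.Agent.T2H98.EGZ.C.K09_19
import Pool.Agent.T2H98.EGZ.C.K09_20
import Pool.Agent.T2H98.EGZ.C.K09_21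
import Pool.Agent.T2H98.EGZ.C.K09_22
import Pool.Agent.T2H98.EGZ.C.K09_23
import Pool.Agent.T2H98.EGZ.C.K09_24
import Pool.Agent.T2H98.EGZ.C.D10
import Pool.Agent.T2H98.EGZ.C.K10_0
import Pool.Agent.T2H98.EGZ.C.K10_1
import Pool.Agent.T2H98.EGZ.C.K10_2
import Pool.Agent.T2H98.EGZ.C.K10_3
import Pool.Agent.T2H98.EGZ.C.K10_4
import Pool.Agent.T2H98.EGZ.C.K10_5
import Pool.Agent.T2H98.EGZ.C.K10_6
import Pool.Agent.T2H98.EGZ.C.K10_7
import Pool.Agent.T2H98.EGZ.C.K10_8
import Pool.Agent.T2H98.EGZ.C.K10_9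
import Pool.Agent.T2H98.EGZ.C.K10_10
import Pool.Agent.T2H98.EGZ.C.K10_11
import Pool.Agent.T2H98.EGZ.C.K10_12
import Pool.Agent.T2H98.EGZ.C.K10_13
import Pool.Agent.T2H98.EGZ.C.K10_14
import Pool.Agent.T2H98.EGZ.C.K10_15
import Pool.Agent.T2H98.EGZ.C.K10_16
import Pool.Agent.T2H98.EGZ.C.K10_17
import Pool.Agent.T2H98.EGZ.C.K10_18
import Pool.Agent.T2H98.EGZ.C.D11
import Pool.Agent.T2H98.EGZ.C.K11_0
import Pool.Agent.T2H98.EGZ.C.K11_1
import Pool.Agent.T2H98.EGZ.C.K11_2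
import Pool.Agent.T2H98.EGZ.C.K11_3
import Pool.Agent.T2H98.EGZ.C.K11_4
import Pool.Agent.T2H98.EGZ.C.K11_5
import Pool.Agent.T2H98.EGZ.C.K11_6
import Pool.Agent.T2H98.EGZ.C.K11_7
import Pool.Agent.T2H98.EGZ.C.K11_8
import Pool.Agent.T2H98.EGZ.C.K11_9
import Pool.Agent.T2H98.EGZ.C.K11_10
import Pool.Agent.T2H98.EGZ.C.K11_11
import Pool.Agent.T2H98.EGZ.C.K11_12
import Pool.Agent.T2H98.EGZ.C.K11_13
import Pool.Agent.T2H98.EGZ.C.K11_14
import Pool.Agent.T2H98.EGZ.C.D12
import Pool.Agent.T2H98.EGZ.C.K12_0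
import Pool.Agent.T2H98.EGZ.C.K12_1
import Pool.Agent.T2H98.EGZ.C.K12_2
import Pool.Agent.T2H98.EGZ.C.K12_3
import Pool.Agent.T2H98.EGZ.C.K12_4
import Pool.Agent.T2H98.EGZ.C.K12_5
import Pool.Agent.T2H98.EGZ.C.K12_6
import Pool.Agent.T2H98.EGZ.C.K12_7
import Pool.Agent.T2H98.EGZ.C.K12_8
import Pool.Agent.T2H98.EGZ.C.K12_9
import Pool.Agent.T2H98.EGZ.C.K12_10
import Pool.Agent.T2H98.EGZ.C.K12_11
import Pool.Agent.T2H98.EGZ.C.K12_12
import Pool.Agent.T2H98.EGZ.C.K12_13
import Pool.Agent.T2H98.EGZ.C.K12_14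
import Pool.Agent.T2H98.EGZ.C.K12_15
import Pool.Agent.T2H98.EGZ.C.K12_16
import Pool.Agent.T2H98.EGZ.C.K12_17
import Pool.Agent.T2H98.EGZ.C.K12_18
import Pool.Agent.T2H98.EGZ.C.K12_19
import Pool.Agent.T2H98.EGZ.C.K12_20
import Pool.Agent.T2H98.EGZ.C.K12_21
import Pool.Agent.T2H98.EGZ.C.K12_22
import Pool.Agent.T2H98.EGZ.C.D13
import Pool.Agent.T2H98.EGZ.C.K13_0
import Pool.Agent.T2H98.EGZ.C.K13_1
import Pool.Agent.T2H98.EGZ.C.K13_2
import Pool.Agent.T2H98.EGZ.C.K13_3
import Pool.Agent.T2H98.EGZ.C.K13_4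
import Pool.Agent.T2H98.EGZ.C.K13_5
import Pool.Agent.T2H98.EGZ.C.K13_6
import Pool.Agent.T2H98.EGZ.C.K13_7
import Pool.Agent.T2H98.EGZ.C.K13_8
import Pool.Agent.T2H98.EGZ.C.K13_9
import Pool.Agent.T2H98.EGZ.C.K13_10
import Pool.Agent.T2H98.EGZ.C.K13_11
import Pool.Agent.T2H98.EGZ.C.K13_12

set_option autoImplicit false
set_option linter.unusedVariables false

namespace Pool.Agent.T2H98.EGZ

open K

section
open K.C07
noncomputable def K.C07.CK : List ((ℕ → ℕ) × ℕ) :=
  [(O0, S0),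
   (O1, S1),
   (O2, S2),
   (O3, S3),
   (O4, S4),
   (O5, S5),
   (O6, S6),
   (O7, S7),
   (O8, S8),
   (O9, S9),
   (O10, S10),
   (O11, S11),
   (O12, S12),
   (O13, S13),
   (O14, S14),
   (O15, S15),
   (O16, S16),
   (O17, S17),
   (O18, S18),
   (O19, S19),
   (O20, S20),
   (O21, S21),
   (O22, S22),
   (O23, S23),
   (O24, S24),
   (O25, S25),
   (O26, S26),
   (O27, S27),
   (O28, S28),
   (O29, S29),
   (O30, S30),
   (O31, S31),
   (O32, S32),
   (O33, S33),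
   (O34, S34),
   (O35, S35),
   (O36, S36),
   (O37, S37),
   (O38, S38),
   (O39, S39),
   (O40, S40),
   (O41, S41),
   (O42, S42),
   (O43, S43),
   (O44, S44),
   (O45, S45),
   (O46, S46),
   (O47, S47),
   (O48, S48),
   (O49, S49),
   (O50, S50),
   (O51, S51)]

theorem step07 (h : ∀ x ∈ K.C07.done, Excl L0 (pt 5 x)) : Excl L0 (pt 5 56) := by
  refine class_main Gs1 gs1_ok K.C07.done h 56 47 (by decide +kernel) 0x1020002 290 (by decide +kernel)
    (by decide +kernel) 5 11 18 ![0x1, 0x10200, 0x100, 0x1010102, 0x100000000]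
    (by decide) (by decide +kernel)
    0x10202 0x2010200 0x2020202 0x2010002 0x100020200 0x201010001 0x102010001 0x100000202 0x200010002 0x101000201 0x102000101 0x202020101 0x202010201
    3 7 2 13 12 17 16 9 15 14 8 10
    Q1 Q2 Q3 Q4 Q5 Q6 Q7 Q8 Q9 Q10 Q11 Q12
    D1 D2 D3 D4 D5 D6 D7 D8 D9 D10 D11 D12
    (by decide +kernel) (by decide +kernel) (by decide +kernel) (by decide +kernel) (by decide +kernel) (by decide +kernel) (by decide +kernel) (by decide +kernel) (by decide +kernel) (by decide +kernel) (by decide +kernel) (by decide +kernel)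
    h1 h2 h3 h4 h5 h6 h7 h8 h9 h10 h11 h12
    outs (by decide +kernel) 264243 (by decide +kernel) (by decide +kernel) (by decide +kernel)
    K.C07.CK ?_ (by decide +kernel)
  exact List.forall_iff_forall_mem.1 ⟨k0, k1, k2, k3, k4, k5, k6, k7, k8, k9, k10, k11, k12, k13, k14, k15, k16, k17, k18, k19, k20, k21, k22, k23, k24, k25, k26, k27, k28, k29, k30, k31, k32, k33, k34, k35, k36, k37, k38, k39, k40, k41, k42, k43, k44, k45, k46, k47, k48, k49, k50, k51⟩
end

section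
open K.C08
noncomputable def K.C08.CK : List ((ℕ → ℕ) × ℕ) :=
  [(O0, S0),
   (O1, S1),
   (O2, S2),
   (O3, S3),
   (O4, S4),
   (O5, S5),
   (O6, S6),
   (O7, S7),
   (O8, S8),
   (O9, S9),
   (O10, S10),
   (O11, S11),
   (O12, S12),
   (O13, S13),
   (O14, S14),
   (O15, S15),
   (O16, S16),
   (O17, S17),
   (O18, S18),
   (O19, S19),
   (O20, S20),
   (O21, S21),
   (O22, S22),
   (O23, S23),
   (O24, S24),
   (O25, S25),
   (O26, S26),
   (O27, S27),
   (O28, S28),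
   (O29, S29),
   (O30, S30),
   (O31, S31),
   (O32, S32),
   (O33, S33),
   (O34, S34),
   (O35, S35),
   (O36, S36),
   (O37, S37),
   (O38, S38),
   (O39, S39),
   (O40, S40),
   (O41, S41),
   (O42, S42),
   (O43, S43),
   (O44, S44),
   (O45, S45),
   (O46, S46),
   (O47, S47)]

theorem step08 (h : ∀ x ∈ K.C08.done, Excl L0 (pt 5 x)) : Excl L0 (pt 5 27) := by
  refine class_main Gs1 gs1_ok K.C08.done h 27 73 (by decide +kernel) 0x2020001 505 (by decide +kernel)
    (by decide +kernel) 5 13 18 ![0x1, 0x10200, 0x100, 0x2010200, 0x100000000]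
    (by decide) (by decide +kernel)
    0x10202 0x2020202 0x2010200 0x2010002 0x100020200 0x101000201 0x202020101 0x202010201 0x201010001 0x200010002 0x100000202 0x102010001 0x102000101
    7 3 2 11 12 17 14 15 16 9 8 10
    Q1 Q2 Q3 Q4 Q5 Q6 Q7 Q8 Q9 Q10 Q11 Q12
    D1 D2 D3 D4 D5 D6 D7 D8 D9 D10 D11 D12
    (by decide +kernel) (by decide +kernel) (by decide +kernel) (by decide +kernel) (by decide +kernel) (by decide +kernel) (by decide +kernel) (by decide +kernel) (by decide +kernel) (by decide +kernel) (by decide +kernel) (by decide +kernel)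
    h1 h2 h3 h4 h5 h6 h7 h8 h9 h10 h11 h12
    outs (by decide +kernel) 270387 (by decide +kernel) (by decide +kernel) (by decide +kernel)
    K.C08.CK ?_ (by decide +kernel)
  exact List.forall_iff_forall_mem.1 ⟨k0, k1, k2, k3, k4, k5, k6, k7, k8, k9, k10, k11, k12, k13, k14, k15, k16, k17, k18, k19, k20, k21, k22, k23, k24, k25, k26, k27, k28, k29, k30, k31, k32, k33, k34, k35, k36, k37, k38, k39, k40, k41, k42, k43, k44, k45, k46, k47⟩
end

section
open K.C09
noncomputable def K.C09.CK : List ((ℕ → ℕ) × ℕ) :=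
  [(O0, S0),
   (O1, S1),
   (O2, S2),
   (O3, S3),
   (O4, S4),
   (O5, S5),
   (O6, S6),
   (O7, S7),
   (O8, S8),
   (O9, S9),
   (O10, S10),
   (O11, S11),
   (O12, S12),
   (O13, S13),
   (O14, S14),
   (O15, S15),
   (O16, S16),
   (O17, S17),
   (O18, S18),
   (O19, S19),
   (O20, S20),
   (O21, S21),
   (O22, S22),
   (O23, S23),
   (O24, S24),
   (O25, S25),
   (O26, S26),
   (O27, S27),
   (O28, S28),
   (O29, S29),
   (O30, S30),
   (O31, S31),
   (O32, S32),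
   (O33, S33),
   (O34, S34),
   (O35, S35),
   (O36, S36),
   (O37, S37),
   (O38, S38),
   (O39, S39),
   (O40, S40),
   (O41, S41),
   (O42, S42),
   (O43, S43),
   (O44, S44),
   (O45, S45),
   (O46, S46),
   (O47, S47),
   (O48, S48),
   (O49, S49),
   (O50, S50),
   (O51, S51),
   (O52, S52),
   (O53, S53),
   (O54, S54),
   (O55, S55),
   (O56, S56),
   (O57, S57),
   (O58, S58)]

theorem step09 (h : ∀ x ∈ K.C09.done, Excl L0 (pt 5 x)) : Excl L0 (pt 5 111) := by
  refine class_main Gs1 gs1_ok K.C09.done h 111 241 (by decide +kernel) 0x202020201 3109 (by decide +kernel)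
    (by decide +kernel) 7 9 18 ![0x1, 0x10102, 0x100, 0x1010101, 0x100000000]
    (by decide) (by decide +kernel)
    0x10202 0x2020100 0x2020001 0x2010101 0x100010201 0x201020201 0x101000102 0x202010000 0x200020001 0x102000101 0x102020201 0x100000202 0x202020200
    2 3 5 16 12 15 10 11 17 14 13 8
    Q1 Q2 Q3 Q4 Q5 Q6 Q7 Q8 Q9 Q10 Q11 Q12
    D1 D2 D3 D4 D5 D6 D7 D8 D9 D10 D11 D12
    (by decide +kernel) (by decide +kernel) (by decide +kernel) (by decide +kernel) (by decide +kernel) (by decide +kernel) (by decide +kernel) (by decide +kernel) (by decide +kernel) (by decide +kernel) (by decide +kernel) (by decide +kernel)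
    h1 h2 h3 h4 h5 h6 h7 h8 h9 h10 h11 h12
    outs (by decide +kernel) 262803 (by decide +kernel) (by decide +kernel) (by decide +kernel)
    K.C09.CK ?_ (by decide +kernel)
  exact List.forall_iff_forall_mem.1 ⟨k0, k1, k2, k3, k4, k5, k6, k7, k8, k9, k10, k11, k12, k13, k14, k15, k16, k17, k18, k19, k20, k21, k22, k23, k24, k25, k26, k27, k28, k29, k30, k31, k32, k33, k34, k35, k36, k37, k38, k39, k40, k41, k42, k43, k44, k45, k46, k47, k48, k49, k50, k51, k52, k53, k54, k55, k56, k57, k58⟩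
end

section
open K.C10
noncomputable def K.C10.CK : List ((ℕ → ℕ) × ℕ) :=
  [(O0, S0),
   (O1, S1),
   (O2, S2),
   (O3, S3),
   (O4, S4),
   (O5, S5),
   (O6, S6),
   (O7, S7),
   (O8, S8),
   (O9, S9),
   (O10, S10),
   (O11, S11),
   (O12, S12),
   (O13, S13),
   (O14, S14),
   (O15, S15),
   (O16, S16),
   (O17, S17),
   (O18, S18),
   (O19, S19),
   (O20, S20),
   (O21, S21),
   (O22, S22),
   (O23, S23),
   (O24, S24),
   (O25, S25),
   (O26, S26),
   (O27, S27),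
   (O28, S28),
   (O29, S29),
   (O30, S30),
   (O31, S31),
   (O32, S32),
   (O33, S33),
   (O34, S34),
   (O35, S35),
   (O36, S36),
   (O37, S37),
   (O38, S38),
   (O39, S39),
   (O40, S40),
   (O41, S41),
   (O42, S42),
   (O43, S43),
   (O44, S44),
   (O45, S45),
   (O46, S46)]

theorem step10 (h : ∀ x ∈ K.C10.done, Excl L0 (pt 5 x)) : Excl L0 (pt 5 90) := by
  refine class_main Gs0 gs0_ok K.C10.done h 90 172 (by decide +kernel) 0x200010001 2629 (by decide +kernel)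
    (by decide +kernel) 7 22 8 ![0x1, 0x10102, 0x100, 0x100000000, 0x1010001]
    (by decide) (by decide +kernel)
    0x10202 0x2010101 0x2020100 0x2020001 0x102000002 0x201020000 0x202000100 0x200020202 0x102020201 0x201020201 0x202000202 0x200020100 0x200000201
    5 2 3 36 20 19 25 37 21 18 24 23
    Q1 Q2 Q3 Q4 Q5 Q6 Q7 Q8 Q9 Q10 Q11 Q12
    D1 D2 D3 D4 D5 D6 D7 D8 D9 D10 D11 D12
    (by decide +kernel) (by decide +kernel) (by decide +kernel) (by decide +kernel) (by decide +kernel) (by decide +kernel) (by decide +kernel) (by decide +kernel) (by decide +kernel) (by decide +kernel) (by decide +kernel) (by decide +kernel)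
    h1 h2 h3 h4 h5 h6 h7 h8 h9 h10 h11 h12
    outs (by decide +kernel) 4194707 (by decide +kernel) (by decide +kernel) (by decide +kernel)
    K.C10.CK ?_ (by decide +kernel)
  exact List.forall_iff_forall_mem.1 ⟨k0, k1, k2, k3, k4, k5, k6, k7, k8, k9, k10, k11, k12, k13, k14, k15, k16, k17, k18, k19, k20, k21, k22, k23, k24, k25, k26, k27, k28, k29, k30, k31, k32, k33, k34, k35, k36, k37, k38, k39, k40, k41, k42, k43, k44, k45, k46⟩
end

section
open K.C11
noncomputable def K.C11.CK : List ((ℕ → ℕ) × ℕ) :=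
  [(O0, S0),
   (O1, S1),
   (O2, S2),
   (O3, S3),
   (O4, S4),
   (O5, S5),
   (O6, S6),
   (O7, S7),
   (O8, S8),
   (O9, S9),
   (O10, S10),
   (O11, S11),
   (O12, S12),
   (O13, S13),
   (O14, S14),
   (O15, S15),
   (O16, S16),
   (O17, S17),
   (O18, S18),
   (O19, S19),
   (O20, S20),
   (O21, S21),
   (O22, S22),
   (O23, S23),
   (O24, S24),
   (O25, S25),
   (O26, S26),
   (O27, S27),
   (O28, S28),
   (O29, S29),
   (O30, S30),
   (O31, S31),
   (O32, S32),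
   (O33, S33)]

theorem step11 (h : ∀ x ∈ K.C11.done, Excl L0 (pt 5 x)) : Excl L0 (pt 5 140) := by
  refine class_main Gs1 gs1_ok K.C11.done h 140 215 (by decide +kernel) 0x201020202 2894 (by decide +kernel)
    (by decide +kernel) 5 10 18 ![0x1, 0x10200, 0x100, 0x1000201, 0x100000000]
    (by decide) (by decide +kernel)
    0x10202 0x2020202 0x2010200 0x2010002 0x101010002 0x201000101 0x102000101 0x202000100 0x100010102 0x101020202 0x200010200 0x201020102 0x102010100
    7 3 2 14 9 13 12 15 17 8 11 16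
    Q1 Q2 Q3 Q4 Q5 Q6 Q7 Q8 Q9 Q10 Q11 Q12
    D1 D2 D3 D4 D5 D6 D7 D8 D9 D10 D11 D12
    (by decide +kernel) (by decide +kernel) (by decide +kernel) (by decide +kernel) (by decide +kernel) (by decide +kernel) (by decide +kernel) (by decide +kernel) (by decide +kernel) (by decide +kernel) (by decide +kernel) (by decide +kernel)
    h1 h2 h3 h4 h5 h6 h7 h8 h9 h10 h11 h12
    outs (by decide +kernel) 263219 (by decide +kernel) (by decide +kernel) (by decide +kernel)
    K.C11.CK ?_ (by decide +kernel)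
  exact List.forall_iff_forall_mem.1 ⟨k0, k1, k2, k3, k4, k5, k6, k7, k8, k9, k10, k11, k12, k13, k14, k15, k16, k17, k18, k19, k20, k21, k22, k23, k24, k25, k26, k27, k28, k29, k30, k31, k32, k33⟩
end

section
open K.C12
noncomputable def K.C12.CK : List ((ℕ → ℕ) × ℕ) :=
  [(O0, S0),
   (O1, S1),
   (O2, S2),
   (O3, S3),
   (O4, S4),
   (O5, S5),
   (O6, S6),
   (O7, S7),
   (O8, S8),
   (O9, S9),
   (O10, S10),
   (O11, S11),
   (O12, S12),
   (O13, S13),
   (O14, S14),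
   (O15, S15),
   (O16, S16),
   (O17, S17),
   (O18, S18),
   (O19, S19),
   (O20, S20),
   (O21, S21),
   (O22, S22),
   (O23, S23),
   (O24, S24),
   (O25, S25),
   (O26, S26),
   (O27, S27),
   (O28, S28),
   (O29, S29),
   (O30, S30),
   (O31, S31),
   (O32, S32),
   (O33, S33),
   (O34, S34),
   (O35, S35),
   (O36, S36),
   (O37, S37),
   (O38, S38),
   (O39, S39),
   (O40, S40),
   (O41, S41),
   (O42, S42),
   (O43, S43),
   (O44, S44),
   (O45, S45),
   (O46, S46),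
   (O47, S47),
   (O48, S48),
   (O49, S49),
   (O50, S50),
   (O51, S51),
   (O52, S52)]

theorem step12 (h : ∀ x ∈ K.C12.done, Excl L0 (pt 5 x)) : Excl L0 (pt 5 143) := by
  refine class_main Gs5 gs5_ok K.C12.done h 143 212 (by decide +kernel) 0x201020102 2888 (by decide +kernel)
    (by decide +kernel) 13 21 2 ![0x1, 0x100000000, 0x100, 0x100020000, 0x201000002]
    (by decide) (by decide +kernel)
    0x10202 0x2010002 0x1020200 0x1000202 0x101010200 0x200000102 0x100010102 0x100020200 0x202000202 0x201010001 0x101010002 0x202010000 0x102020201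
    16 11 9 38 20 37 36 31 26 39 35 42
    Q1 Q2 Q3 Q4 Q5 Q6 Q7 Q8 Q9 Q10 Q11 Q12
    D1 D2 D3 D4 D5 D6 D7 D8 D9 D10 D11 D12
    (by decide +kernel) (by decide +kernel) (by decide +kernel) (by decide +kernel) (by decide +kernel) (by decide +kernel) (by decide +kernel) (by decide +kernel) (by decide +kernel) (by decide +kernel) (by decide +kernel) (by decide +kernel)
    h1 h2 h3 h4 h5 h6 h7 h8 h9 h10 h11 h12
    outs (by decide +kernel) 2105367 (by decide +kernel) (by decide +kernel) (by decide +kernel)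
    K.C12.CK ?_ (by decide +kernel)
  exact List.forall_iff_forall_mem.1 ⟨k0, k1, k2, k3, k4, k5, k6, k7, k8, k9, k10, k11, k12, k13, k14, k15, k16, k17, k18, k19, k20, k21, k22, k23, k24, k25, k26, k27, k28, k29, k30, k31, k32, k33, k34, k35, k36, k37, k38, k39, k40, k41, k42, k43, k44, k45, k46, k47, k48, k49, k50, k51, k52⟩
end

section
open K.C13
noncomputable def K.C13.CK : List ((ℕ → ℕ) × ℕ) :=
  [(O0, S0),
   (O1, S1),
   (O2, S2),
   (O3, S3),
   (O4, S4),
   (O5, S5),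
   (O6, S6),
   (O7, S7),
   (O8, S8),
   (O9, S9),
   (O10, S10),
   (O11, S11),
   (O12, S12),
   (O13, S13),
   (O14, S14),
   (O15, S15),
   (O16, S16),
   (O17, S17),
   (O18, S18),
   (O19, S19),
   (O20, S20),
   (O21, S21),
   (O22, S22),
   (O23, S23),
   (O24, S24),
   (O25, S25),
   (O26, S26),
   (O27, S27),
   (O28, S28),
   (O29, S29),
   (O30, S30),
   (O31, S31)]

theorem step13 (h : ∀ x ∈ K.C13.done, Excl L0 (pt 5 x)) : Excl L0 (pt 5 110) := by
  refine class_main Gs1 gs1_ok K.C13.done h 110 236 (by decide +kernel) 0x202020002 3098 (by decide +kernel)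
    (by decide +kernel) 2 17 18 ![0x1, 0x10000, 0x100, 0x2020202, 0x100000000]
    (by decide) (by decide +kernel)
    0x10202 0x2000201 0x2010200 0x2020001 0x101010101 0x202010201 0x101000201 0x102000002 0x201020201 0x102010001 0x201000200 0x200020100 0x100020002
    3 7 5 8 15 10 11 13 9 16 14 12
    Q1 Q2 Q3 Q4 Q5 Q6 Q7 Q8 Q9 Q10 Q11 Q12
    D1 D2 D3 D4 D5 D6 D7 D8 D9 D10 D11 D12
    (by decide +kernel) (by decide +kernel) (by decide +kernel) (by decide +kernel) (by decide +kernel) (by decide +kernel) (by decide +kernel) (by decide +kernel) (by decide +kernel) (by decide +kernel) (by decide +kernel) (by decide +kernel)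
    h1 h2 h3 h4 h5 h6 h7 h8 h9 h10 h11 h12
    outs (by decide +kernel) 393239 (by decide +kernel) (by decide +kernel) (by decide +kernel)
    K.C13.CK ?_ (by decide +kernel)
  exact List.forall_iff_forall_mem.1 ⟨k0, k1, k2, k3, k4, k5, k6, k7, k8, k9, k10, k11, k12, k13, k14, k15, k16, k17, k18, k19, k20, k21, k22, k23, k24, k25, k26, k27, k28, k29, k30, k31⟩
end

end Pool.Agent.T2H98.EGZ
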