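import Pool.Agent.T2H98.EGZ.C.D16

set_option autoImplicit false
set_option linter.unusedVariables false

namespace Pool.Agent.T2H98.EGZ.K.C16

open K

noncomputable def O0 : Nat → Nat := orc 50087 20 79 0xb000b0000000000000002000900020000000500040013000000040004001d0002000e00020005
  0x4dd00033001fe0060f0000000000005430031c0000000506005dc00000004aa000d600165001cb0043a00359000700038c001a2000ff005760009900411002640013c002c0005a900066000cc0059f001d500407000000038200000000000000000000000000026e0003d0056c00000000000000000000000000023100000002b6002080034f0000a004d300000000a3003b500000000000053900000003bf0044400109002e90023b00605005d20019800510003260016f0046d004a000477002f300132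
  0xfcd081021080069a38a0821001144e240048009c4921040800134924208108006882020823000e389180044009a6861020840034d2070011001f9a1020421003f3461028420004114300145281002000469a1860021000e385040048009a288180088002c71c61810807f96582042400cb2c30811658618010803000287081000418668c0822000e38610204000fe50e20708c022891430411804514102002300bf288141848011c28a1040880138514208110026061020026014d1c7186044007e8a040f08004
noncomputable def S0 : Nat := 0x2000000000000000000000000000000000040000000002000001000
theorem k0 : loop (f1 (tail O0 (outl outs) (mkE0 262451 2628) 7 3 2 17 9 13 14 10 11 16 12 15)
    Q2 Q3 Q4 Q5 Q6 Q7 Q8 Q9 Q10 Q11 Q12) S0 = true := by decide +kernel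
noncomputable def O1 : Nat → Nat := orc 43701 9 37 0x700030000001800140002000a0000
  0x25000000001320007000227000000000a00033000000021d00000000cc001c100066000000013c00000002830003d00000001b70000000099000d6001f4002b6001090028d0018400000000a30018e00000002c0000ff001ea0025a
  0x1f9a68e3422000d346181048000c314206084023851420811003fa2894242000bf387081848009c70818009001fd014103fa02060441010410a18004c010a29a3080880038e1c4001000200089c482200430cd181044007e68408108400
noncomputable def S1 : Nat := 0x1000001080000000000000000000000000000000000000000000000000000000
theorem k1 : loop (f1 (tail O1 (outl outs) (mkE0 262451 2628) 7 3 2 17 9 13 14 10 11 16 12 15)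
    Q2 Q3 Q4 Q5 Q6 Q7 Q8 Q9 Q10 Q11 Q12) S1 = true := by decide +kernel

end Pool.Agent.T2H98.EGZ.K.C16
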