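import Pool.Agent.T2H98.EGZ.C.D16

set_option autoImplicit false
set_option linter.unusedVariables false

namespace Pool.Agent.T2H98.EGZ.K.C16

open K

noncomputable def O2 : Nat → Nat := orc 43701 9 37 0xb00050001000000000005000000030002
  0x231001320016f0000000198001fe001a200000001090023b00000000000003d000a300099000cc0000000000002a10000000000001d500264000ff0013c000d60026e00000001cb0000a000330007000208000660016500297
  0xd343081042001c38c2020880134d1c5041080030c89a182100071cd140046001a28818008800fce0c2061000229a6841024000104a1c3040011271c38e0940128a184081180470c182002200513491c4044001a28818008800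
noncomputable def S2 : Nat := 0x3000000000000000000000000000000002002000000040000000000000000000000000000000000000000000000000000000000000000
theorem k2 : loop (f1 (tail O2 (outl outs) (mkE0 262451 2628) 7 3 2 17 9 13 14 10 11 16 12 15)
    Q2 Q3 Q4 Q5 Q6 Q7 Q8 Q9 Q10 Q11 Q12) S2 = true := by decide +kernel
noncomputable def O3 : Nat → Nat := orc 62175 14 65 0xc00020000000200000008000b000000030001000600000003
  0x27a00000001d60010a002ea00398004970000000000001a30036500431000d70028400464002130003300209001cc0003d000000000000000004080046e00000000000016600000001ff000000000000000000000000000100002e0001330000a001700000000199004a1002ad0031d0043b0000000000000000013d00000000a4003a200000003d5000000000000313003fe002b7000000036f003cb000cd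
  0x11344080042007e68c28108400fcd1840a10801f9a3880421003f342040842007e2086810900044d2420411001fa020607f405040882027e68c20508400104347041280069a40e1823003f450000fe81a38340d2030031008007e69a20308c00145343041180030c70a0822004e3891c1046009a41008208400407143001180869a1860021fc514d0a29a68413f1043408c8000a29a08008800
noncomputable def S3 : Nat := 0x4000003100000000000000000000000000000000000000000000000000000000000000000000000000000000000000000000000000000000000000
theorem k3 : loop (f1 (tail O3 (outl outs) (mkE0 262451 2628) 7 3 2 17 9 13 14 10 11 16 12 15)
    Q2 Q3 Q4 Q5 Q6 Q7 Q8 Q9 Q10 Q11 Q12) S3 = true := by decide +kernel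

end Pool.Agent.T2H98.EGZ.K.C16
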