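import Pool.Agent.T2H98.EGZ.C.D16

set_option autoImplicit false
set_option linter.unusedVariables false

namespace Pool.Agent.T2H98.EGZ.K.C16

open K

noncomputable def O4 : Nat → Nat := orc 44739 10 44 0x10000100000008000700000000000100020002
  0xff000700009900132000000000a00198001fe0023b00109002a1002ca0000000297002d4002fd001cb0016f0003d000cc00000000000020800000003070000000000000000013c000000023100000000a3000330016500000002640000000000001a2000660026e001d5000d6
  0x38e2460c1180269a1860021000d104041046001a68e2820840018644d0c10801f9a1020421003f38308184000fe684081084001042850c120045148881026008a185080048017e50a083094021043820011003f9a1800421000d1440c0044002271238808c01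
noncomputable def S4 : Nat := 0x82000004040000000000000000000000000000000000000000000000000000000000000000000000000000000000000000000000000000000000000000000000
theorem k4 : loop (f1 (tail O4 (outl outs) (mkE0 262451 2628) 7 3 2 17 9 13 14 10 11 16 12 15)
    Q2 Q3 Q4 Q5 Q6 Q7 Q8 Q9 Q10 Q11 Q12) S4 = true := by decide +kernel
noncomputable def O5 : Nat → Nat := orc 64299 14 58 0x10000001300010002000000000000000000020000000800000007
  0x1090000000208003f2000000000000000001cb0016f00165003260028d00070000a3001a200099000cc000660003d0025a00132003b500198002f3002b60000000382002830000000000003e8000d6000ff000000013c000000031c0003300425000000000000000003bf00000001fe002e9002c00041b001d50038c0000a00000000000034f00359002500000000000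
  0xe3850400480094388100090021453810011802208504002100bf2cb04084801fe68408108400fcd081021080071c48e0823004d3481c0044000209c380088010413860870a2841042007f38504184c009c7123000880138e247041180228a5020020008e145082044008a69a1040900034d1850c10800894488182400913491c4044001a68618008400
noncomputable def S5 : Nat := 0x1000000000004000000040000000000000000000000000000000000000000000000000000000000000000000000000000000000000000000000000000000000000000000000000000000000000000000000000000000000000000000000000000000000000000000000000000000000000000000000000000000000000000000000000000000000000000000000000000000000000000000000000000000000000000000000000000000000000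
theorem k5 : loop (f1 (tail O5 (outl outs) (mkE0 262451 2628) 7 3 2 17 9 13 14 10 11 16 12 15)
    Q2 Q3 Q4 Q5 Q6 Q7 Q8 Q9 Q10 Q11 Q12) S5 = true := by decide +kernel

end Pool.Agent.T2H98.EGZ.K.C16
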