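import Pool.Agent.T2H98.EGZ.C.D16

set_option autoImplicit false
set_option linter.unusedVariables false

namespace Pool.Agent.T2H98.EGZ.K.C16

open K

noncomputable def O6 : Nat → Nat := orc 56457 17 69 0xf0033000100020001000000000000000200010002000d000c00000000000a
  0x4a9000cc002450034400476003110007000377000000033a003aa002120046c001ac00033002a10049f000a3004d20000000443000000000000000003070016f00099003dd003a000132000d6000000000a00000000000000000000003d300000000000013c00410001a2002ab001090003d0023b0016500278004dc001d500000000000000000000000000000000208002de00000002d40026e001df001980036d000660043900406000ff
  0x69240c2821003f343000842001c7103860880134d0c3001080069a38a0821003f34d101846000c31428208402348201041080018670c0823004d343081042007e51038108002fcd1810612001f9a1020421000d3430c0042001450e20008c02fcb246021000608261218230140234d1850c1080069a40e0022000208d183046007e70e28308001fcd081021080051438400250090408103044021041a28009000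
noncomputable def S6 : Nat := 0x82000004004000000000000000000000000000000000000000000000000000000000000000000000000000000000000000000000000000000000000000000000000000000000000000000000000000000000000000000000000000000000000000000000000000000000000000000000000000000000000000000000000000000000000000000000000000000000000000000000000000000000000000000000000000000000000000000000000000000000000000000000000000000000000000000
theorem k6 : loop (f1 (tail O6 (outl outs) (mkE0 262451 2628) 7 3 2 17 9 13 14 10 11 16 12 15)
    Q2 Q3 Q4 Q5 Q6 Q7 Q8 Q9 Q10 Q11 Q12) S6 = true := by decide +kernel
noncomputable def O7 : Nat → Nat := orc 46877 13 51 0x6000300070015000100000000000500000000000200060001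
  0x3a1000b8000850029800308003fd00000000000011e0008f00128001e0001320021300000002a200397000c20000000000000eb001ea000f5002fe00000003ca002d50033b0024600033001b7002cb00184002500000a003640017a000000003d0000000000003d4004070036e00331000000021d00000001ad00000
  0x38e18408100022087040022004d343081042000411a3000880044d1020010801f9a3081421003f28718084a017e68e201084004501440c28a8a00840010d347141042000a29a08008800345102041100008270e002200500c30410411a30010804000e183040044009a28810208800fd144a121000450c18200924a206082017e51030508002
noncomputable def S7 : Nat := 0x145000001000000000000000000000000000000000000000000000000000000000000000000000000000000000000000000000000000000000000000000000000000000000000000000000000000000000000000000000000000000000000000000000000000000000000000000000000000000000000000000000000000000000000000000000000000000000000000000000000000000000000000000000000000000000000000000000000000000000000000000000000000000000000000000000000000000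
theorem k7 : loop (f1 (tail O7 (outl outs) (mkE0 262451 2628) 7 3 2 17 9 13 14 10 11 16 12 15)
    Q2 Q3 Q4 Q5 Q6 Q7 Q8 Q9 Q10 Q11 Q12) S7 = true := by decide +kernel

end Pool.Agent.T2H98.EGZ.K.C16
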