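import Pool.Agent.T2H98.EGZ.C.D16

set_option autoImplicit false
set_option linter.unusedVariables false

namespace Pool.Agent.T2H98.EGZ.K.C16

open K

noncomputable def O15 : Nat → Nat := orc 55375 5 22 0x10008000800000006
  0x165000ff0013c0016f0010900033000700003d0000000132000cc000000000a00000000d600066000000000000000000a30009900000
  0x38e2460011003f9a3081421000a1c7186040011c71238208c01208345001200069a1860021000e249082040009620808208003
noncomputable def S15 : Nat := 0x4000000000000000000000000000000001082000000000000000000000000000000000000000000000000000000000000000000000000000000000000000000000000000000000000000000000000000000000000000000000000000000000000000000000000000000000000000000000000000000000000000000000000000000000000000000000000000000000000000000000000000000000000000000000000000000000000000000000000000000000000000000000000000000000000000000000000000000000000000000000000000000000000000000000000000000000000000000000000000000000000000000000000000000000000000000000000000000000000000000000000000000000000000000000000000000000000000000000000000000000000000000000000000000000000000000000000000000000000000000000000000000000000000000000000000000000000000000000000000000000000000000000000000000000000000000000000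
theorem k15 : loop (f1 (tail O15 (outl outs) (mkE0 262451 2628) 7 3 2 17 9 13 14 10 11 16 12 15)
    Q2 Q3 Q4 Q5 Q6 Q7 Q8 Q9 Q10 Q11 Q12) S15 = true := by decide +kernel
noncomputable def O16 : Nat → Nat := orc 46329 2 15 0x0
  0x3d0000a0000000000000000006600000000990000000000000a300070000330000000000
  0xfca2871a10005f9a1020421000514e040046009a68618008400
noncomputable def S16 : Nat := 0x1080000004040000000000000000000000000000000000000000000000000000000000000000000000000000000000000000000000000000000000000000000000000000000000000000000000000000000000000000000000000000000000000000000000000000000000000000000000000000000000000000000000000000000000000000000000000000000000000000000000000000000000000000000000000000000000000000000000000000000000000000000000000000000000000000000000000000000000000000000000000000000000000000000000000000000000000000000000000000000000000000000000000000000000000000000000000000000000000000000000000000000000000000000000000000000000000000000000000000000000000000000000000000000000000000000000000000000000000000000000000000000000000000000000000000000000000000000000000000000000000000000000000000000000000000000000000000000000000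
theorem k16 : loop (f1 (tail O16 (outl outs) (mkE0 262451 2628) 7 3 2 17 9 13 14 10 11 16 12 15)
    Q2 Q3 Q4 Q5 Q6 Q7 Q8 Q9 Q10 Q11 Q12) S16 = true := by decide +kernel

end Pool.Agent.T2H98.EGZ.K.C16
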