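import Pool.Agent.T2H98.EGZ.C.D16

set_option autoImplicit false
set_option linter.unusedVariables false

namespace Pool.Agent.T2H98.EGZ.K.C16

open K

noncomputable def O17 : Nat → Nat := orc 64325 9 38 0x400010001000400000000
  0x28d000ff000660016f00283000000023100000002c000198000a300000001320003d001d50000000165000330023b002b6001a200099000d6001fe0000000109001cb0000a00000000cc000000000000000000700000000208000000013c
  0x41c7082023004514e040046008e398182306181042080bf9c70a1422004e38408104800a081028208804082346001100089c4061022007f387141840008411a30008800fcd185021080028a6820022000208a040048011a28818008800
noncomputable def S17 : Nat := 0x141000000000000000000000000000000000000000000000000000000000000000000000000000000000000000000000000000000000000000000000000000000000000000000000000000000000000000000000000000000000000000000000000000000000000000000000000000000000000000000000000000000000000000000000000000000000000000000000000000000000000000000000000000000000000000000000000000000000000000000000000000000000000000000000000000000000000000000000000000000000000000000000000000000000000000000000000000000000000000000000000000000000000000000000000000000000000000000000000000000000000000000000000000000000000000000000000000000000000000000000000000000000000000000000000000000000000000000000000000000000000000000000000000000000000000000000000000000000000000000000000000000000000000000000000000000000000000000000000000000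
theorem k17 : loop (f1 (tail O17 (outl outs) (mkE0 262451 2628) 7 3 2 17 9 13 14 10 11 16 12 15)
    Q2 Q3 Q4 Q5 Q6 Q7 Q8 Q9 Q10 Q11 Q12) S17 = true := by decide +kernel
noncomputable def O18 : Nat → Nat := orc 57339 4 19 0x400000000
  0x9900000000000000a00109000660000000000000000003d00000000d600070000ff000cc000a300033
  0x3f346140842000209c38008801fca2910611805f9a68e3422003f28a0c1848017e69a40308400
noncomputable def S18 : Nat := 0x1000000000000000000000000000000000000000000000000000000000000000000000000000000000000000000000000000000000000000000000000000000000000000000000000000000000000000000000000000000000000000000000000000000000000000000000000000000000000000000000000000000000000000000000000000000000000000000000000000000000000000000000000000000000000000000000000000000000000000000000000000000000000000000000000000000000000000000000000000000000000000000000000000000000000000000000000000000000000000000000000000000000000000000000000000000000000000000000000000000000000000000000000000000000000000000000000000000000000000000000000000000000000000000000000000000000000000000000000000000000000000000000000000000000000000000000000000000000000000000000000000000000000000000000000000000000000000000000000000000000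
theorem k18 : loop (f1 (tail O18 (outl outs) (mkE0 262451 2628) 7 3 2 17 9 13 14 10 11 16 12 15)
    Q2 Q3 Q4 Q5 Q6 Q7 Q8 Q9 Q10 Q11 Q12) S18 = true := by decide +kernel

end Pool.Agent.T2H98.EGZ.K.C16
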