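import Pool.Agent.T2H98.EGZ.Main
import Pool.Agent.T2H98.EGZ.C.GOk
import Pool.Agent.T2H98.EGZ.C.D14
import Pool.Agent.T2H98.EGZ.C.K14_0
import Pool.Agent.T2H98.EGZ.C.K14_1
import Pool.Agent.T2H98.EGZ.C.K14_2
import Pool.Agent.T2H98.EGZ.C.K14_3
import Pool.Agent.T2H98.EGZ.C.K14_4
import Pool.Agent.T2H98.EGZ.C.K14_5
import Pool.Agent.T2H98.EGZ.C.K14_6
import Pool.Agent.T2H98.EGZ.C.K14_7
import Pool.Agent.T2H98.EGZ.C.K14_8
import Pool.Agent.T2H98.EGZ.C.K14_9
import Pool.Agent.T2H98.EGZ.C.K14_10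
import Pool.Agent.T2H98.EGZ.C.K14_11
import Pool.Agent.T2H98.EGZ.C.K14_12
import Pool.Agent.T2H98.EGZ.C.K14_13
import Pool.Agent.T2H98.EGZ.C.K14_14
import Pool.Agent.T2H98.EGZ.C.K14_15
import Pool.Agent.T2H98.EGZ.C.K14_16
import Pool.Agent.T2H98.EGZ.C.K14_17
import Pool.Agent.T2H98.EGZ.C.D15
import Pool.Agent.T2H98.EGZ.C.K15_0
import Pool.Agent.T2H98.EGZ.C.K15_1
import Pool.Agent.T2H98.EGZ.C.K15_2
import Pool.Agent.T2H98.EGZ.C.K15_3
import Pool.Agent.T2H98.EGZ.C.K15_4
import Pool.Agent.T2H98.EGZ.C.K15_5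
import Pool.Agent.T2H98.EGZ.C.K15_6
import Pool.Agent.T2H98.EGZ.C.K15_7
import Pool.Agent.T2H98.EGZ.C.K15_8
import Pool.Agent.T2H98.EGZ.C.K15_9
import Pool.Agent.T2H98.EGZ.C.K15_10
import Pool.Agent.T2H98.EGZ.C.K15_11
import Pool.Agent.T2H98.EGZ.C.K15_12
import Pool.Agent.T2H98.EGZ.C.K15_13
import Pool.Agent.T2H98.EGZ.C.D16
import Pool.Agent.T2H98.EGZ.C.K16_0
import Pool.Agent.T2H98.EGZ.C.K16_1
import Pool.Agent.T2H98.EGZ.C.K16_2
import Pool.Agent.T2H98.EGZ.C.K16_3
import Pool.Agent.T2H98.EGZ.C.K16_4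
import Pool.Agent.T2H98.EGZ.C.K16_5
import Pool.Agent.T2H98.EGZ.C.K16_6
import Pool.Agent.T2H98.EGZ.C.K16_7
import Pool.Agent.T2H98.EGZ.C.K16_8
import Pool.Agent.T2H98.EGZ.C.D17
import Pool.Agent.T2H98.EGZ.C.K17_0
import Pool.Agent.T2H98.EGZ.C.K17_1
import Pool.Agent.T2H98.EGZ.C.K17_2
import Pool.Agent.T2H98.EGZ.C.K17_3
import Pool.Agent.T2H98.EGZ.C.K17_4
import Pool.Agent.T2H98.EGZ.C.K17_5
import Pool.Agent.T2H98.EGZ.C.K17_6
import Pool.Agent.T2H98.EGZ.C.K17_7
import Pool.Agent.T2H98.EGZ.C.K17_8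
import Pool.Agent.T2H98.EGZ.C.K17_9
import Pool.Agent.T2H98.EGZ.C.D18
import Pool.Agent.T2H98.EGZ.C.K18_0
import Pool.Agent.T2H98.EGZ.C.K18_1
import Pool.Agent.T2H98.EGZ.C.K18_2
import Pool.Agent.T2H98.EGZ.C.K18_3
import Pool.Agent.T2H98.EGZ.C.K18_4
import Pool.Agent.T2H98.EGZ.C.K18_5
import Pool.Agent.T2H98.EGZ.C.K18_6
import Pool.Agent.T2H98.EGZ.C.K18_7
import Pool.Agent.T2H98.EGZ.C.K18_8
import Pool.Agent.T2H98.EGZ.C.K18_9
import Pool.Agent.T2H98.EGZ.C.K18_10
import Pool.Agent.T2H98.EGZ.C.D19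
import Pool.Agent.T2H98.EGZ.C.K19_0
import Pool.Agent.T2H98.EGZ.C.K19_1
import Pool.Agent.T2H98.EGZ.C.K19_2
import Pool.Agent.T2H98.EGZ.C.K19_3
import Pool.Agent.T2H98.EGZ.C.K19_4
import Pool.Agent.T2H98.EGZ.C.K19_5
import Pool.Agent.T2H98.EGZ.C.K19_6
import Pool.Agent.T2H98.EGZ.C.K19_7
import Pool.Agent.T2H98.EGZ.C.D20
import Pool.Agent.T2H98.EGZ.C.K20_0
import Pool.Agent.T2H98.EGZ.C.K20_1
import Pool.Agent.T2H98.EGZ.C.K20_2
import Pool.Agent.T2H98.EGZ.C.K20_3
import Pool.Agent.T2H98.EGZ.C.K20_4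
import Pool.Agent.T2H98.EGZ.C.K20_5
import Pool.Agent.T2H98.EGZ.C.K20_6

set_option autoImplicit false
set_option linter.unusedVariables false

namespace Pool.Agent.T2H98.EGZ

open K

section
open K.C14
noncomputable def K.C14.CK : List ((ℕ → ℕ) × ℕ) :=
  [(O0, S0),
   (O1, S1),
   (O2, S2),
   (O3, S3),
   (O4, S4),
   (O5, S5),
   (O6, S6),
   (O7, S7),
   (O8, S8),
   (O9, S9),
   (O10, S10),
   (O11, S11),
   (O12, S12),
   (O13, S13),
   (O14, S14),
   (O15, S15),
   (O16, S16),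
   (O17, S17),
   (O18, S18),
   (O19, S19),
   (O20, S20),
   (O21, S21),
   (O22, S22),
   (O23, S23),
   (O24, S24),
   (O25, S25),
   (O26, S26),
   (O27, S27),
   (O28, S28),
   (O29, S29),
   (O30, S30),
   (O31, S31),
   (O32, S32),
   (O33, S33),
   (O34, S34),
   (O35, S35),
   (O36, S36),
   (O37, S37),
   (O38, S38),
   (O39, S39),
   (O40, S40),
   (O41, S41),
   (O42, S42),
   (O43, S43),
   (O44, S44),
   (O45, S45),
   (O46, S46),
   (O47, S47)]

theorem step14 (h : ∀ x ∈ K.C14.done, Excl L0 (pt 5 x)) : Excl L0 (pt 5 98) := by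
  refine class_main Gs1 gs1_ok K.C14.done h 98 176 (by decide +kernel) 0x200010102 2636 (by decide +kernel)
    (by decide +kernel) 2 9 18 ![0x1, 0x10000, 0x100, 0x1010002, 0x100000000]
    (by decide) (by decide +kernel)
    0x10202 0x2000201 0x2020001 0x2010200 0x100010201 0x101020202 0x202020200 0x102010001 0x200020001 0x201010001 0x202000100 0x100000202 0x102000101
    3 5 7 16 15 10 17 11 12 8 13 14
    Q1 Q2 Q3 Q4 Q5 Q6 Q7 Q8 Q9 Q10 Q11 Q12
    D1 D2 D3 D4 D5 D6 D7 D8 D9 D10 D11 D12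
    (by decide +kernel) (by decide +kernel) (by decide +kernel) (by decide +kernel) (by decide +kernel) (by decide +kernel) (by decide +kernel) (by decide +kernel) (by decide +kernel) (by decide +kernel) (by decide +kernel) (by decide +kernel)
    h1 h2 h3 h4 h5 h6 h7 h8 h9 h10 h11 h12
    outs (by decide +kernel) 262679 (by decide +kernel) (by decide +kernel) (by decide +kernel)
    K.C14.CK ?_ (by decide +kernel)
  exact List.forall_iff_forall_mem.1 ⟨k0, k1, k2, k3, k4, k5, k6, k7, k8, k9, k10, k11, k12, k13, k14, k15, k16, k17, k18, k19, k20, k21, k22, k23, k24, k25, k26, k27, k28, k29, k30, k31, k32, k33, k34, k35, k36, k37, k38, k39, k40, k41, k42, k43, k44, k45, k46, k47⟩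
end

section
open K.C15
noncomputable def K.C15.CK : List ((ℕ → ℕ) × ℕ) :=
  [(O0, S0),
   (O1, S1),
   (O2, S2),
   (O3, S3),
   (O4, S4),
   (O5, S5),
   (O6, S6),
   (O7, S7),
   (O8, S8),
   (O9, S9),
   (O10, S10),
   (O11, S11),
   (O12, S12),
   (O13, S13),
   (O14, S14),
   (O15, S15),
   (O16, S16),
   (O17, S17),
   (O18, S18),
   (O19, S19),
   (O20, S20),
   (O21, S21),
   (O22, S22),
   (O23, S23),
   (O24, S24),
   (O25, S25),
   (O26, S26),
   (O27, S27),
   (O28, S28),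
   (O29, S29),
   (O30, S30),
   (O31, S31),
   (O32, S32)]

theorem step15 (h : ∀ x ∈ K.C15.done, Excl L0 (pt 5 x)) : Excl L0 (pt 5 58) := by
  refine class_main Gs5 gs5_ok K.C15.done h 58 51 (by decide +kernel) 0x1020200 300 (by decide +kernel)
    (by decide +kernel) 13 20 2 ![0x1, 0x100000000, 0x100, 0x100020000, 0x201000000]
    (by decide) (by decide +kernel)
    0x10202 0x1020200 0x1000202 0x2010002 0x101010101 0x201010202 0x102020000 0x100010201 0x202010201 0x101010002 0x200000201 0x202000100 0x100020002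
    11 9 16 39 26 42 37 35 38 21 31 36
    Q1 Q2 Q3 Q4 Q5 Q6 Q7 Q8 Q9 Q10 Q11 Q12
    D1 D2 D3 D4 D5 D6 D7 D8 D9 D10 D11 D12
    (by decide +kernel) (by decide +kernel) (by decide +kernel) (by decide +kernel) (by decide +kernel) (by decide +kernel) (by decide +kernel) (by decide +kernel) (by decide +kernel) (by decide +kernel) (by decide +kernel) (by decide +kernel)
    h1 h2 h3 h4 h5 h6 h7 h8 h9 h10 h11 h12
    outs (by decide +kernel) 1056791 (by decide +kernel) (by decide +kernel) (by decide +kernel)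
    K.C15.CK ?_ (by decide +kernel)
  exact List.forall_iff_forall_mem.1 ⟨k0, k1, k2, k3, k4, k5, k6, k7, k8, k9, k10, k11, k12, k13, k14, k15, k16, k17, k18, k19, k20, k21, k22, k23, k24, k25, k26, k27, k28, k29, k30, k31, k32⟩
end

section
open K.C16
noncomputable def K.C16.CK : List ((ℕ → ℕ) × ℕ) :=
  [(O0, S0),
   (O1, S1),
   (O2, S2),
   (O3, S3),
   (O4, S4),
   (O5, S5),
   (O6, S6),
   (O7, S7),
   (O8, S8),
   (O9, S9),
   (O10, S10),
   (O11, S11),
   (O12, S12),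
   (O13, S13),
   (O14, S14),
   (O15, S15),
   (O16, S16),
   (O17, S17),
   (O18, S18)]

theorem step16 (h : ∀ x ∈ K.C16.done, Excl L0 (pt 5 x)) : Excl L0 (pt 5 91) := by
  refine class_main Gs1 gs1_ok K.C16.done h 91 171 (by decide +kernel) 0x200010000 2628 (by decide +kernel)
    (by decide +kernel) 5 8 18 ![0x1, 0x10200, 0x100, 0x1000000, 0x100000000]
    (by decide) (by decide +kernel)
    0x10202 0x2020202 0x2010200 0x2010002 0x101000102 0x201020201 0x102010001 0x101020202 0x200020100 0x201010202 0x102020000 0x202020200 0x100020002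
    7 3 2 17 9 13 14 10 11 16 12 15
    Q1 Q2 Q3 Q4 Q5 Q6 Q7 Q8 Q9 Q10 Q11 Q12
    D1 D2 D3 D4 D5 D6 D7 D8 D9 D10 D11 D12
    (by decide +kernel) (by decide +kernel) (by decide +kernel) (by decide +kernel) (by decide +kernel) (by decide +kernel) (by decide +kernel) (by decide +kernel) (by decide +kernel) (by decide +kernel) (by decide +kernel) (by decide +kernel)
    h1 h2 h3 h4 h5 h6 h7 h8 h9 h10 h11 h12
    outs (by decide +kernel) 262451 (by decide +kernel) (by decide +kernel) (by decide +kernel)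
    K.C16.CK ?_ (by decide +kernel)
  exact List.forall_iff_forall_mem.1 ⟨k0, k1, k2, k3, k4, k5, k6, k7, k8, k9, k10, k11, k12, k13, k14, k15, k16, k17, k18⟩
end

section
open K.C17
noncomputable def K.C17.CK : List ((ℕ → ℕ) × ℕ) :=
  [(O0, S0),
   (O1, S1),
   (O2, S2),
   (O3, S3),
   (O4, S4),
   (O5, S5),
   (O6, S6),
   (O7, S7),
   (O8, S8),
   (O9, S9),
   (O10, S10),
   (O11, S11),
   (O12, S12),
   (O13, S13),
   (O14, S14),
   (O15, S15),
   (O16, S16),
   (O17, S17),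
   (O18, S18),
   (O19, S19),
   (O20, S20),
   (O21, S21),
   (O22, S22),
   (O23, S23),
   (O24, S24),
   (O25, S25)]

theorem step17 (h : ∀ x ∈ K.C17.done, Excl L0 (pt 5 x)) : Excl L0 (pt 5 89) := by
  refine class_main Gs1 gs1_ok K.C17.done h 89 185 (by decide +kernel) 0x200020102 2672 (by decide +kernel)
    (by decide +kernel) 2 17 18 ![0x1, 0x10000, 0x100, 0x2020202, 0x100000000]
    (by decide) (by decide +kernel)
    0x10202 0x2000201 0x2010200 0x2020001 0x101010101 0x202010201 0x102010001 0x201020201 0x100020002 0x200020100 0x102000002 0x101000201 0x201000200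
    3 7 5 8 15 9 13 12 14 11 10 16
    Q1 Q2 Q3 Q4 Q5 Q6 Q7 Q8 Q9 Q10 Q11 Q12
    D1 D2 D3 D4 D5 D6 D7 D8 D9 D10 D11 D12
    (by decide +kernel) (by decide +kernel) (by decide +kernel) (by decide +kernel) (by decide +kernel) (by decide +kernel) (by decide +kernel) (by decide +kernel) (by decide +kernel) (by decide +kernel) (by decide +kernel) (by decide +kernel)
    h1 h2 h3 h4 h5 h6 h7 h8 h9 h10 h11 h12
    outs (by decide +kernel) 393239 (by decide +kernel) (by decide +kernel) (by decide +kernel)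
    K.C17.CK ?_ (by decide +kernel)
  exact List.forall_iff_forall_mem.1 ⟨k0, k1, k2, k3, k4, k5, k6, k7, k8, k9, k10, k11, k12, k13, k14, k15, k16, k17, k18, k19, k20, k21, k22, k23, k24, k25⟩
end

section
open K.C18
noncomputable def K.C18.CK : List ((ℕ → ℕ) × ℕ) :=
  [(O0, S0),
   (O1, S1),
   (O2, S2),
   (O3, S3),
   (O4, S4),
   (O5, S5),
   (O6, S6),
   (O7, S7),
   (O8, S8),
   (O9, S9),
   (O10, S10),
   (O11, S11),
   (O12, S12),
   (O13, S13),
   (O14, S14),
   (O15, S15),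
   (O16, S16),
   (O17, S17),
   (O18, S18),
   (O19, S19),
   (O20, S20),
   (O21, S21),
   (O22, S22),
   (O23, S23),
   (O24, S24),
   (O25, S25),
   (O26, S26)]

theorem step18 (h : ∀ x ∈ K.C18.done, Excl L0 (pt 5 x)) : Excl L0 (pt 5 94) := by
  refine class_main Gs5 gs5_ok K.C18.done h 94 177 (by decide +kernel) 0x200010200 2640 (by decide +kernel)
    (by decide +kernel) 16 35 2 ![0x1, 0x100000000, 0x100, 0x100020200, 0x201020002]
    (by decide) (by decide +kernel)
    0x10202 0x1010201 0x2020001 0x1000202 0x102020201 0x200020202 0x102010100 0x100020200 0x202020002 0x100020002 0x101010200 0x201000101 0x201000002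
    9 13 11 36 31 37 38 26 39 42 20 21
    Q1 Q2 Q3 Q4 Q5 Q6 Q7 Q8 Q9 Q10 Q11 Q12
    D1 D2 D3 D4 D5 D6 D7 D8 D9 D10 D11 D12
    (by decide +kernel) (by decide +kernel) (by decide +kernel) (by decide +kernel) (by decide +kernel) (by decide +kernel) (by decide +kernel) (by decide +kernel) (by decide +kernel) (by decide +kernel) (by decide +kernel) (by decide +kernel)
    h1 h2 h3 h4 h5 h6 h7 h8 h9 h10 h11 h12
    outs (by decide +kernel) 34359803927 (by decide +kernel) (by decide +kernel) (by decide +kernel)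
    K.C18.CK ?_ (by decide +kernel)
  exact List.forall_iff_forall_mem.1 ⟨k0, k1, k2, k3, k4, k5, k6, k7, k8, k9, k10, k11, k12, k13, k14, k15, k16, k17, k18, k19, k20, k21, k22, k23, k24, k25, k26⟩
end

section
open K.C19
noncomputable def K.C19.CK : List ((ℕ → ℕ) × ℕ) :=
  [(O0, S0),
   (O1, S1),
   (O2, S2),
   (O3, S3),
   (O4, S4),
   (O5, S5),
   (O6, S6),
   (O7, S7),
   (O8, S8),
   (O9, S9),
   (O10, S10),
   (O11, S11),
   (O12, S12),
   (O13, S13),
   (O14, S14),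
   (O15, S15),
   (O16, S16),
   (O17, S17),
   (O18, S18)]

theorem step19 (h : ∀ x ∈ K.C19.done, Excl L0 (pt 5 x)) : Excl L0 (pt 5 127) := by
  refine class_main Gs5 gs5_ok K.C19.done h 127 216 (by decide +kernel) 0x202000000 3024 (by decide +kernel)
    (by decide +kernel) 9 36 2 ![0x1, 0x100000000, 0x100, 0x100010002, 0x202000100]
    (by decide) (by decide +kernel)
    0x10202 0x1010201 0x2020001 0x1000202 0x101000102 0x101020001 0x202020200 0x200020202 0x102000002 0x201000200 0x202020101 0x100020002 0x100020200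
    16 11 13 35 31 39 37 26 42 38 20 21
    Q1 Q2 Q3 Q4 Q5 Q6 Q7 Q8 Q9 Q10 Q11 Q12
    D1 D2 D3 D4 D5 D6 D7 D8 D9 D10 D11 D12
    (by decide +kernel) (by decide +kernel) (by decide +kernel) (by decide +kernel) (by decide +kernel) (by decide +kernel) (by decide +kernel) (by decide +kernel) (by decide +kernel) (by decide +kernel) (by decide +kernel) (by decide +kernel)
    h1 h2 h3 h4 h5 h6 h7 h8 h9 h10 h11 h12
    outs (by decide +kernel) 68719477271 (by decide +kernel) (by decide +kernel) (by decide +kernel)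
    K.C19.CK ?_ (by decide +kernel)
  exact List.forall_iff_forall_mem.1 ⟨k0, k1, k2, k3, k4, k5, k6, k7, k8, k9, k10, k11, k12, k13, k14, k15, k16, k17, k18⟩
end

section
open K.C20
noncomputable def K.C20.CK : List ((ℕ → ℕ) × ℕ) :=
  [(O0, S0),
   (O1, S1),
   (O2, S2),
   (O3, S3),
   (O4, S4),
   (O5, S5),
   (O6, S6),
   (O7, S7),
   (O8, S8),
   (O9, S9),
   (O10, S10),
   (O11, S11),
   (O12, S12),
   (O13, S13),
   (O14, S14),
   (O15, S15),
   (O16, S16)]

theorem step20 (h : ∀ x ∈ K.C20.done, Excl L0 (pt 5 x)) : Excl L0 (pt 5 28) := by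
  refine class_main Gs5 gs5_ok K.C20.done h 28 72 (by decide +kernel) 0x2020000 504 (by decide +kernel)
    (by decide +kernel) 9 31 2 ![0x1, 0x100000000, 0x100, 0x100010002, 0x201010000]
    (by decide) (by decide +kernel)
    0x10202 0x1010201 0x1000202 0x2020001 0x101010200 0x102020201 0x202000202 0x201010001 0x101020001 0x202000001 0x100010201 0x100010102 0x200010101
    16 13 11 37 42 21 26 36 20 39 38 35
    Q1 Q2 Q3 Q4 Q5 Q6 Q7 Q8 Q9 Q10 Q11 Q12
    D1 D2 D3 D4 D5 D6 D7 D8 D9 D10 D11 D12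
    (by decide +kernel) (by decide +kernel) (by decide +kernel) (by decide +kernel) (by decide +kernel) (by decide +kernel) (by decide +kernel) (by decide +kernel) (by decide +kernel) (by decide +kernel) (by decide +kernel) (by decide +kernel)
    h1 h2 h3 h4 h5 h6 h7 h8 h9 h10 h11 h12
    outs (by decide +kernel) 2147484183 (by decide +kernel) (by decide +kernel) (by decide +kernel)
    K.C20.CK ?_ (by decide +kernel)
  exact List.forall_iff_forall_mem.1 ⟨k0, k1, k2, k3, k4, k5, k6, k7, k8, k9, k10, k11, k12, k13, k14, k15, k16⟩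
end

end Pool.Agent.T2H98.EGZ
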