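import Pool.Agent.T2H98.EGZ.C.D21

set_option autoImplicit false
set_option linter.unusedVariables false

namespace Pool.Agent.T2H98.EGZ.K.C21

open K

noncomputable def O0 : Nat → Nat := orc 48281 25 101 0xa000000000008000000000003000000010000000100000000001400030003000d000000020002001e001b000200020002
  0xa0033b000000000000511000000006600581005e7004450022700000005770013c00070004b5006dc007750073800482006a90041c0051b0000000165002500066c00364000000016f0000000198007d1004de003e9000000047800000007db005dd004e80044f00000000000036e0070f00000001090003d000cc00000007a80021d0061a00000000ff00000006430054400331000000080e0000000033007050069f003df005aa0039700132000d60079e00099001a2001ea004120061000742000000000000000005b4001f400327004ab002d500676002df000a3000000054e0028d00000008040025a0000000283000000076b006d200000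
  0x7ea2820108400fe44040211803fcd2120c220044127901046008c328696084009e77d00010004082a20482100269a750604200124cd22a08001186aa70412c649200008c06fdf54402118053aaa1a0021001452640404200165a8480084000415060010800a0c30000250001054180042001a6c8800080011049a4001180269b212082400679d4400044004f3a8080fdf40106227e820f8d08002a8d2410012006007ea20081fd44061223001fd550c27faaa04088801ff554081090035542c6041100151a482002400ff510184fea2008111800fdf5440211805fa86820c22000d364180044009a6aaa00088009103410011003520696482400c9514000044003e58c20209402
noncomputable def S0 : Nat := 0x820000040c0
theorem k0 : loop (f1 (tail O0 (outl outs) (mkE0 2099223 49) 13 9 16 38 39 20 36 31 42 26 37 35)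
    Q2 Q3 Q4 Q5 Q6 Q7 Q8 Q9 Q10 Q11 Q12) S0 = true := by decide +kernel
noncomputable def O1 : Nat → Nat := orc 56457 17 69 0x10002001100030001000000020000000000040000000000030002000300040002
  0x99002df003a100000000000033b001c10046d0043000407000000013c0003d00070004fc0046300231001980043a00000000000028d00165002e90000a003d40018e000ff000d6001fe001f400000004c90025a0052f002640053900033001cb00397000000000000297003310000000000003ca0000000132000a300506003fd000cc0036e004d3000000022700000001090049600000000000000000364004a0000000006600000
  0x1410400004200165a8480084000415060010800a082000021003f9a650b84a004922a80209001fe69090611002a082000021001440b18104200020a83000840004150600108013bef9a6bf7df2c9882017f24859390b2c92421003f924a8042200141040000420054596082088035559d4101100120820000200054527341043fa881a0c24001a40d24004a0216fbe00009002fe7994261080134ca200822000b2d4341046007ea2820108400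
noncomputable def S1 : Nat := 0x10000000050000000010000000000000000000000000000000000c0000000000000000000
theorem k1 : loop (f1 (tail O1 (outl outs) (mkE0 2099223 49) 13 9 16 38 39 20 36 31 42 26 37 35)
    Q2 Q3 Q4 Q5 Q6 Q7 Q8 Q9 Q10 Q11 Q12) S1 = true := by decide +kernel

end Pool.Agent.T2H98.EGZ.K.C21
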