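import Pool.Agent.T2H98.EGZ.C.D21

set_option autoImplicit false
set_option linter.unusedVariables false

namespace Pool.Agent.T2H98.EGZ.K.C21

open K

noncomputable def O6 : Nat → Nat := orc 46199 29 118 0x10000000200030002000d00020000000e000b000400230000001c0000000d0003000300000000000800000002000500030000000300020000
  0x87e001090023b008b10050500000008e4007ef0074c008880033a00000002a1006e600000004fb008bb00406001fe00000000000020800000006610000a004d2000000036300789000a3000000016f00822003fc005fb00580008ee0033000638001320036d007e50046c0003d0049500756002d400855000d60013c000ff004c8008180026e001d5007b20052e002fd0000000000001650006600396000990060500264001980069e0062e000000000000033005b30000000000001a2001cb0043900000000000058a0030700723000000066b000cc0084b00000000000000000719000000077f003c900000003a0007bc0000000694000000000000000000000000000000000700000000000002310042f003d300462006f0002ca00297005380049f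
  0x1a6a8800084000417d51012004a208124825003f5141008420008248480088012cb5090010800aab2160023004619f2c10420148208000080015542440013000596a120021003f510186fe492a0110800fe75540612001fa880c34220014349181042007f34ca015149c10021a8a2080c088001047d034082f96004500bf92410084000fea28201084001869040410003220682002200541040000420048596492088015149951011001fa8a080421001440b246046007ea28201084004109040411003fa8a080421000926655404200020a8300084000415060010800596a120021000d355500044007ea28301094002cb5090010800a08200002100141040000420028a1a6820880050410000108013c88120023005550b181044004f22a30808801
noncomputable def S6 : Nat := 0x80000001001000000000000000000000000000000000043000000000000000000000000000000000000000000000000000000000000000000000000000000000000000000000000000000000000000000000000000000000000000000000000000000000000000000000000000000000000000000000000000000000000000000000000000000000000000000000000000000000000000000000000000000000000000000000000000000000000000000000000000000000000000000000000000000000000000000000000000000000000000000000000000000000000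
theorem k6 : loop (f1 (tail O6 (outl outs) (mkE0 2099223 49) 13 9 16 38 39 20 36 31 42 26 37 35)
    Q2 Q3 Q4 Q5 Q6 Q7 Q8 Q9 Q10 Q11 Q12) S6 = true := by decide +kernel
noncomputable def O7 : Nat → Nat := orc 56451 17 75 0x200220004000200270000000d0000001500000000000600040000000000020000
  0x231001090044e002ca0050600000000000000000000000000000000000003630038c0000000000000000000000297000cc0014600000002fd0052f003f20018e0035900539001cb004a0000a3003c90022700396004c900066002c0000330000a000700000000000000d6003fc002640013c004960013200326001c100000000000000000000000000056c000990025a0003d0056200000002f300330003bf000000019800000000ff001fe001f4004d30028d004fc0044400000
  0x1f924a8042200092542c404200282080000840024950b10108012483020025007f924240ff34830111001104946052a048c0040017f249500844007f208081094012cb50d0411801512302002000da6a610004a027ef9a303090029241810012803faaac88422004951400004400020aaa12088005149cd0410800a082000021001041f101020cefa810402001450d3410440028a1a682088002545000011001fa880c3422003f51410084200020c848c08801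
noncomputable def S7 : Nat := 0x44000000000000000000000000000000000000000000000000000000000000000000000000000000000000000000000000000000000000000000000000000000000000000000000000000000000000000000000000000000000000000000000000000000000002003000000000000000000000000000000000000000000000000000000000000000000000000000000000000000000000000000000000000000000000000000000000000000000000000000000000000000000000000000000000000000000000000000000000000000000000000000000000000000000000000000000000000000000000000000000000000000000000000000000000000000000000000000000000000000000000000000000000000000000000000000000000000000000000000000000000000000000000000000000000000000000000000000000000000000000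
theorem k7 : loop (f1 (tail O7 (outl outs) (mkE0 2099223 49) 13 9 16 38 39 20 36 31 42 26 37 35)
    Q2 Q3 Q4 Q5 Q6 Q7 Q8 Q9 Q10 Q11 Q12) S7 = true := by decide +kernel

end Pool.Agent.T2H98.EGZ.K.C21
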