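import Pool.Agent.T2H98.EGZ.C.D21

set_option autoImplicit false
set_option linter.unusedVariables false

namespace Pool.Agent.T2H98.EGZ.K.C21

open K

noncomputable def O8 : Nat → Nat := orc 62713 20 94 0x23000100050000000700040000000100040000000900010004000000040000000e000f00000001
  0x4670065c0076500000007280015c00000007c100000003a40050b001d7000000000000798006c200000000000003d00633005f6006290000000000000000000000000000000000000000003d7000000000000333003ae00000000000025c0059a00152000700000a001000075b006000010a002b8007cb002c200000005150028f004d8001ae00033006cc0055d0035c0069900590005010020a004ce0068f0007a006f5005cd0000000000006ff001a4000000041f006660073200000005c300000000000078e000000000000285000660056700000002520000000329000000000000000001e100000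
  0x18650d2c10800492a1620210014526404042004f3c921a08801fe490b2611002492a162021003f2cb504844004a69608008005fd4504021080069aaa8002200141040000420012a28000088005149cd0410800acb28820412695f0800280430cd2a0022011a6a79557ed2a8031a59441030cafb4a8cfdf2c4122020d34082fda24402210004a8020900550d2c100082a0800452d45041011001fc719a0e32461000c34681a18406fe6950421300a082f96002500841242c12084830211bf9a691584c008004d2aa098052cb9e51834b2882041017f50b100ff32aa0111000354506192caa1a01450b2400824a68221005003f554186842000c34858208801
noncomputable def S8 : Nat := 0x1000001084000000000000000000000000000000000000000000000000000000000000000000000000000000000000000000000000000000000000000000000000000000000000000000000000000000000000000000000000000000000000000000000000000000000000000000000000000000000000000000000000000000000000000000000000000000000000000000000000000000000000000000000000000000000000000000000000000000000000000000000000000000000000000000000000000000000000000000000000000000000000000000000000000000000000000000000000000000000000000000000000000000000000000000000000000000000000000000000000000000000000000000000000000000000000000000000000000000000000000000000000000000000000000000000000000000000000000000000000000000000000000000000000000000000000000000000000000000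
theorem k8 : loop (f1 (tail O8 (outl outs) (mkE0 2099223 49) 13 9 16 38 39 20 36 31 42 26 37 35)
    Q2 Q3 Q4 Q5 Q6 Q7 Q8 Q9 Q10 Q11 Q12) S8 = true := by decide +kernel
noncomputable def O9 : Nat → Nat := orc 59287 15 63 0x400040001000000000000000900040015000000020001000500000002
  0x2080013c0000000000004de001a2000000009900279002e0000000003d004b50000000000001cb000660000000383003df001d50026f00165004780034600412003500000000445000d600379004e8003e9003b6004ab002ea0000000000000ff000a300198001fe000000003300000001320000000000000000016f000000000000070000000044f000cc00109003ac00482003130031d0000a0041c
  0x12205920026006440d040044009a6a88000840051498d0010800a293202021003f514100842000c33e480094022cb5090010801fa86820c22002791504004400cca2859609400fe755406a2880c09550d1010c8001a6a8592fd550412a1a582006500061a42c104400a0848202088012cb50d0411801fa86820c22001410400004200286923020840018690b0411003faaa0c34210014104000042002881230009400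
noncomputable def S9 : Nat := 0x20000070c0000000000000000000000000000000000000000000000000000000000000000000000000000000000000000000000000000000000000000000000000000000000000000000000000000000000000000000000000000000000000000000000000000000000000000000000000000000000000000000000000000000000000000000000000000000000000000000000000000000000000000000000000000000000000000000000000000000000000000000000000000000000000000000000000000000000000000000000000000000000000000000000000000000000000000000000000000000000000000000000000000000000000000000000000000000000000000000000000000000000000000000000000000000000000000000000000000000000000000000000000000000000000000000000000000000000000000000000000000000000000000000000000000000000000000000000000000000000000000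
theorem k9 : loop (f1 (tail O9 (outl outs) (mkE0 2099223 49) 13 9 16 38 39 20 36 31 42 26 37 35)
    Q2 Q3 Q4 Q5 Q6 Q7 Q8 Q9 Q10 Q11 Q12) S9 = true := by decide +kernel

end Pool.Agent.T2H98.EGZ.K.C21
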