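import Pool.Agent.T2H98.EGZ.C.D21

set_option autoImplicit false
set_option linter.unusedVariables false

namespace Pool.Agent.T2H98.EGZ.K.C21

open K

noncomputable def O10 : Nat → Nat := orc 46971 37 145 0x300000000000300000000001300020001000d0000001100080001000300100004000000000013000100000003000300010000000e000a000000040005000000040004000000050006
  0x31200b7e008b3002e9004fc00000000a3003e8001a200000000000000000a89000000092d00a230013c001980010900506008f000b2c0052f00a2d0000000795005fb002500027900a930000000c6900919007d20003d00ac60081a006a9003780088a008bd00000000000038200bd000c36000000056200070004aa0092300c03000000097f00099002ac001320034f0062e005d200af90059f001cb005c80079f00b740047700824003ab0041100033000000000000bc600c5f00345000000044400595004b40085700c2c0000000a56000ff0000000a1900000000d60000a0016f0076c000cc000000028300b2200880000000031c00aef004810056c002b600000008e600066000000000000000001d5000000020800539006dc00000000000016500000000000000000bf9001fe0044e00680009b200abc00975000000000000000003b5009a800605006b30041b0084d00676000000076200000002df00000007c800a60003de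
  0x3f9e6509842007f24859308801fd42c40212001f924c80c23007faa7040ff54c00110003fe68d51bfc658c24400194527341042007efa058d098025649061810002a082000021000105f54404801002fbeaaa80619f2c12083e202184025142c10013001fbea8807f7d410188601001fcd2163422007f7d52c484a011a6c8300088011047c900108042092120022007f90d000aaac858010c01fe43400211802a08200002100145092447ea20683fc926307fc668004848d5244001000dfbe8020c2400bf9e4181ff248481110daaa00004201be81a30808402fcd3541a12001f9a6d4042100d55677c4040014d33e8020800250618000a2048c004500092542c4042007ea1a08308800fcb2d41211000aa858c0822001440b18104200124be30208c022cb9a4241180334d3a83021000105f2c004a01020a830008400fd041f1a10004fbe696002600099f54fbf316304100a6514000046007ea1a08308800fe76951a110084a8a000022001434d104046000c34858208801fe79942610800082a0c0021001f7c9240040012820800008400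
noncomputable def S10 : Nat := 0x140000000000000000000000000000000000000000004184000000000000000000000000000000000000000000000000000000000000000000000000000000000000000000000000000000000000000000000000000000000000000000000000000000000000000000000000000000000000000000000000000000000000000000000000000000000000000000000000000000000000000000000000000000000000000000000000000000000000000000000000000000000000000000000000000000000000000000000000000000000000000000000000000000000000000000000000000000000000000000000000000000000000000000000000000000000000000000000000000000000000000000000000000000000000000000000000000000000000000000000000000000000000000000000000000000000000000000000000000000000000000000000000000000000000000000000000000000000000000000000000000000000000000000000000000000000000000000000000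
theorem k10 : loop (f1 (tail O10 (outl outs) (mkE0 2099223 49) 13 9 16 38 39 20 36 31 42 26 37 35)
    Q2 Q3 Q4 Q5 Q6 Q7 Q8 Q9 Q10 Q11 Q12) S10 = true := by decide +kernel

end Pool.Agent.T2H98.EGZ.K.C21
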