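import Pool.Agent.T2H98.EGZ.Main
import Pool.Agent.T2H98.EGZ.C.GOk
import Pool.Agent.T2H98.EGZ.C.D21
import Pool.Agent.T2H98.EGZ.C.K21_0
import Pool.Agent.T2H98.EGZ.C.K21_1
import Pool.Agent.T2H98.EGZ.C.K21_2
import Pool.Agent.T2H98.EGZ.C.K21_3
import Pool.Agent.T2H98.EGZ.C.K21_4
import Pool.Agent.T2H98.EGZ.C.K21_5
import Pool.Agent.T2H98.EGZ.C.D22
import Pool.Agent.T2H98.EGZ.C.K22_0
import Pool.Agent.T2H98.EGZ.C.K22_1
import Pool.Agent.T2H98.EGZ.C.K22_2
import Pool.Agent.T2H98.EGZ.C.K22_3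
import Pool.Agent.T2H98.EGZ.C.K22_4
import Pool.Agent.T2H98.EGZ.C.D23
import Pool.Agent.T2H98.EGZ.C.K23_0
import Pool.Agent.T2H98.EGZ.C.K23_1
import Pool.Agent.T2H98.EGZ.C.K23_2
import Pool.Agent.T2H98.EGZ.C.K23_3
import Pool.Agent.T2H98.EGZ.C.D24
import Pool.Agent.T2H98.EGZ.C.K24_0
import Pool.Agent.T2H98.EGZ.C.K24_1
import Pool.Agent.T2H98.EGZ.C.K24_2
import Pool.Agent.T2H98.EGZ.C.D25
import Pool.Agent.T2H98.EGZ.C.K25_0
import Pool.Agent.T2H98.EGZ.C.K25_1
import Pool.Agent.T2H98.EGZ.C.K25_2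
import Pool.Agent.T2H98.EGZ.C.K25_3
import Pool.Agent.T2H98.EGZ.C.D26
import Pool.Agent.T2H98.EGZ.C.K26_0
import Pool.Agent.T2H98.EGZ.C.K26_1
import Pool.Agent.T2H98.EGZ.C.K26_2
import Pool.Agent.T2H98.EGZ.C.D27
import Pool.Agent.T2H98.EGZ.C.K27_0
import Pool.Agent.T2H98.EGZ.C.K27_1

set_option autoImplicit false
set_option linter.unusedVariables false

namespace Pool.Agent.T2H98.EGZ

open K

section
open K.C21
noncomputable def K.C21.CK : List ((ℕ → ℕ) × ℕ) :=
  [(O0, S0),
   (O1, S1),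
   (O2, S2),
   (O3, S3),
   (O4, S4),
   (O5, S5),
   (O6, S6),
   (O7, S7),
   (O8, S8),
   (O9, S9),
   (O10, S10)]

theorem step21 (h : ∀ x ∈ K.C21.done, Excl L0 (pt 5 x)) : Excl L0 (pt 5 12) := by
  refine class_main Gs5 gs5_ok K.C21.done h 12 16 (by decide +kernel) 0x10201 49 (by decide +kernel)
    (by decide +kernel) 11 21 2 ![0x1, 0x100000000, 0x100, 0x100010202, 0x201000002]
    (by decide) (by decide +kernel)
    0x10202 0x1020200 0x2010002 0x1000202 0x102020000 0x102020102 0x200000102 0x100020200 0x201020102 0x101010101 0x202020101 0x100010102 0x201000200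
    13 9 16 38 39 20 36 31 42 26 37 35
    Q1 Q2 Q3 Q4 Q5 Q6 Q7 Q8 Q9 Q10 Q11 Q12
    D1 D2 D3 D4 D5 D6 D7 D8 D9 D10 D11 D12
    (by decide +kernel) (by decide +kernel) (by decide +kernel) (by decide +kernel) (by decide +kernel) (by decide +kernel) (by decide +kernel) (by decide +kernel) (by decide +kernel) (by decide +kernel) (by decide +kernel) (by decide +kernel)
    h1 h2 h3 h4 h5 h6 h7 h8 h9 h10 h11 h12
    outs (by decide +kernel) 2099223 (by decide +kernel) (by decide +kernel) (by decide +kernel)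
    K.C21.CK ?_ (by decide +kernel)
  exact List.forall_iff_forall_mem.1 ⟨k0, k1, k2, k3, k4, k5, k6, k7, k8, k9, k10⟩
end

section
open K.C22
noncomputable def K.C22.CK : List ((ℕ → ℕ) × ℕ) :=
  [(O0, S0),
   (O1, S1),
   (O2, S2),
   (O3, S3),
   (O4, S4),
   (O5, S5),
   (O6, S6),
   (O7, S7),
   (O8, S8),
   (O9, S9)]

theorem step22 (h : ∀ x ∈ K.C22.done, Excl L0 (pt 5 x)) : Excl L0 (pt 5 61) := by
  refine class_main Gs1 gs1_ok K.C22.done h 61 48 (by decide +kernel) 0x1020100 294 (by decide +kernel)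
    (by decide +kernel) 3 8 18 ![0x1, 0x10002, 0x100, 0x1000000, 0x100000000]
    (by decide) (by decide +kernel)
    0x10202 0x2010002 0x2000102 0x2020100 0x101010002 0x102010100 0x201000101 0x201020102 0x102000101 0x200020100 0x101000102 0x202010000 0x100020002
    7 2 5 17 16 9 11 13 10 14 12 15
    Q1 Q2 Q3 Q4 Q5 Q6 Q7 Q8 Q9 Q10 Q11 Q12
    D1 D2 D3 D4 D5 D6 D7 D8 D9 D10 D11 D12
    (by decide +kernel) (by decide +kernel) (by decide +kernel) (by decide +kernel) (by decide +kernel) (by decide +kernel) (by decide +kernel) (by decide +kernel) (by decide +kernel) (by decide +kernel) (by decide +kernel) (by decide +kernel)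
    h1 h2 h3 h4 h5 h6 h7 h8 h9 h10 h11 h12
    outs (by decide +kernel) 262427 (by decide +kernel) (by decide +kernel) (by decide +kernel)
    K.C22.CK ?_ (by decide +kernel)
  exact List.forall_iff_forall_mem.1 ⟨k0, k1, k2, k3, k4, k5, k6, k7, k8, k9⟩
end

section
open K.C23
noncomputable def K.C23.CK : List ((ℕ → ℕ) × ℕ) :=
  [(O0, S0),
   (O1, S1),
   (O2, S2),
   (O3, S3),
   (O4, S4),
   (O5, S5),
   (O6, S6),
   (O7, S7),
   (O8, S8)]

theorem step23 (h : ∀ x ∈ K.C23.done, Excl L0 (pt 5 x)) : Excl L0 (pt 5 34) := by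
  refine class_main Gs5 gs5_ok K.C23.done h 34 75 (by decide +kernel) 0x2020100 510 (by decide +kernel)
    (by decide +kernel) 16 31 2 ![0x1, 0x100000000, 0x100, 0x100020200, 0x201020201]
    (by decide) (by decide +kernel)
    0x10202 0x1010201 0x1000202 0x2020001 0x102000002 0x202000100 0x100010201 0x100010102 0x200010101 0x101000102 0x201010202 0x201010100 0x102010100
    9 11 13 37 26 39 38 35 42 20 21 36
    Q1 Q2 Q3 Q4 Q5 Q6 Q7 Q8 Q9 Q10 Q11 Q12
    D1 D2 D3 D4 D5 D6 D7 D8 D9 D10 D11 D12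
    (by decide +kernel) (by decide +kernel) (by decide +kernel) (by decide +kernel) (by decide +kernel) (by decide +kernel) (by decide +kernel) (by decide +kernel) (by decide +kernel) (by decide +kernel) (by decide +kernel) (by decide +kernel)
    h1 h2 h3 h4 h5 h6 h7 h8 h9 h10 h11 h12
    outs (by decide +kernel) 2147549207 (by decide +kernel) (by decide +kernel) (by decide +kernel)
    K.C23.CK ?_ (by decide +kernel)
  exact List.forall_iff_forall_mem.1 ⟨k0, k1, k2, k3, k4, k5, k6, k7, k8⟩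
end

section
open K.C24
noncomputable def K.C24.CK : List ((ℕ → ℕ) × ℕ) :=
  [(O0, S0),
   (O1, S1),
   (O2, S2),
   (O3, S3),
   (O4, S4),
   (O5, S5),
   (O6, S6),
   (O7, S7)]

theorem step24 (h : ∀ x ∈ K.C24.done, Excl L0 (pt 5 x)) : Excl L0 (pt 5 141) := by
  refine class_main Gs5 gs5_ok K.C24.done h 141 211 (by decide +kernel) 0x201020101 2887 (by decide +kernel)
    (by decide +kernel) 9 21 2 ![0x1, 0x100000000, 0x100, 0x100010002, 0x201000002]
    (by decide) (by decide +kernel)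
    0x10202 0x1010201 0x1000202 0x2020001 0x102010001 0x101020100 0x202010102 0x100010102 0x201010202 0x102010100 0x100020200 0x200000102 0x201000101
    16 13 11 38 42 26 37 35 39 36 20 31
    Q1 Q2 Q3 Q4 Q5 Q6 Q7 Q8 Q9 Q10 Q11 Q12
    D1 D2 D3 D4 D5 D6 D7 D8 D9 D10 D11 D12
    (by decide +kernel) (by decide +kernel) (by decide +kernel) (by decide +kernel) (by decide +kernel) (by decide +kernel) (by decide +kernel) (by decide +kernel) (by decide +kernel) (by decide +kernel) (by decide +kernel) (by decide +kernel)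
    h1 h2 h3 h4 h5 h6 h7 h8 h9 h10 h11 h12
    outs (by decide +kernel) 2097687 (by decide +kernel) (by decide +kernel) (by decide +kernel)
    K.C24.CK ?_ (by decide +kernel)
  exact List.forall_iff_forall_mem.1 ⟨k0, k1, k2, k3, k4, k5, k6, k7⟩
end

section
open K.C25
noncomputable def K.C25.CK : List ((ℕ → ℕ) × ℕ) :=
  [(O0, S0),
   (O1, S1),
   (O2, S2),
   (O3, S3),
   (O4, S4),
   (O5, S5),
   (O6, S6),
   (O7, S7)]

theorem step25 (h : ∀ x ∈ K.C25.done, Excl L0 (pt 5 x)) : Excl L0 (pt 5 93) := by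
  refine class_main Gs4 gs4_ok K.C25.done h 93 178 (by decide +kernel) 0x200010201 2641 (by decide +kernel)
    (by decide +kernel) 9 25 2 ![0x1, 0x100000000, 0x100, 0x100010002, 0x101000101]
    (by decide) (by decide +kernel)
    0x10202 0x1000202 0x2020001 0x1010201 0x201000101 0x101010200 0x200000201 0x101020100 0x201020102 0x201000200 0x200010101 0x200010002 0x201020000
    13 11 16 32 41 24 44 28 33 22 23 29
    Q1 Q2 Q3 Q4 Q5 Q6 Q7 Q8 Q9 Q10 Q11 Q12
    D1 D2 D3 D4 D5 D6 D7 D8 D9 D10 D11 D12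
    (by decide +kernel) (by decide +kernel) (by decide +kernel) (by decide +kernel) (by decide +kernel) (by decide +kernel) (by decide +kernel) (by decide +kernel) (by decide +kernel) (by decide +kernel) (by decide +kernel) (by decide +kernel)
    h1 h2 h3 h4 h5 h6 h7 h8 h9 h10 h11 h12
    outs (by decide +kernel) 33554967 (by decide +kernel) (by decide +kernel) (by decide +kernel)
    K.C25.CK ?_ (by decide +kernel)
  exact List.forall_iff_forall_mem.1 ⟨k0, k1, k2, k3, k4, k5, k6, k7⟩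
end

section
open K.C26
noncomputable def K.C26.CK : List ((ℕ → ℕ) × ℕ) :=
  [(O0, S0),
   (O1, S1),
   (O2, S2),
   (O3, S3),
   (O4, S4),
   (O5, S5)]

theorem step26 (h : ∀ x ∈ K.C26.done, Excl L0 (pt 5 x)) : Excl L0 (pt 5 145) := by
  refine class_main Gs5 gs5_ok K.C26.done h 145 198 (by decide +kernel) 0x201010000 2844 (by decide +kernel)
    (by decide +kernel) 9 35 2 ![0x1, 0x100000000, 0x100, 0x100010002, 0x201010101]
    (by decide) (by decide +kernel)
    0x10202 0x1010201 0x1000202 0x2020001 0x101000102 0x201000200 0x102000002 0x200020202 0x100020002 0x100020200 0x202020200 0x202020101 0x101020001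
    16 13 11 36 26 42 31 39 38 20 21 37
    Q1 Q2 Q3 Q4 Q5 Q6 Q7 Q8 Q9 Q10 Q11 Q12
    D1 D2 D3 D4 D5 D6 D7 D8 D9 D10 D11 D12
    (by decide +kernel) (by decide +kernel) (by decide +kernel) (by decide +kernel) (by decide +kernel) (by decide +kernel) (by decide +kernel) (by decide +kernel) (by decide +kernel) (by decide +kernel) (by decide +kernel) (by decide +kernel)
    h1 h2 h3 h4 h5 h6 h7 h8 h9 h10 h11 h12
    outs (by decide +kernel) 34359738903 (by decide +kernel) (by decide +kernel) (by decide +kernel)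
    K.C26.CK ?_ (by decide +kernel)
  exact List.forall_iff_forall_mem.1 ⟨k0, k1, k2, k3, k4, k5⟩
end

section
open K.C27
noncomputable def K.C27.CK : List ((ℕ → ℕ) × ℕ) :=
  [(O0, S0),
   (O1, S1),
   (O2, S2),
   (O3, S3)]

theorem step27 (h : ∀ x ∈ K.C27.done, Excl L0 (pt 5 x)) : Excl L0 (pt 5 109) := by
  refine class_main Gs5 gs5_ok K.C27.done h 109 234 (by decide +kernel) 0x202020000 3096 (by decide +kernel)
    (by decide +kernel) 11 35 2 ![0x1, 0x100000000, 0x100, 0x100010202, 0x201010001]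
    (by decide) (by decide +kernel)
    0x10202 0x1020200 0x1000202 0x2010002 0x101020100 0x100020002 0x202000202 0x202000100 0x100020200 0x200020202 0x102010001 0x201020201 0x101010002
    13 16 9 36 39 20 21 38 31 42 26 37
    Q1 Q2 Q3 Q4 Q5 Q6 Q7 Q8 Q9 Q10 Q11 Q12
    D1 D2 D3 D4 D5 D6 D7 D8 D9 D10 D11 D12
    (by decide +kernel) (by decide +kernel) (by decide +kernel) (by decide +kernel) (by decide +kernel) (by decide +kernel) (by decide +kernel) (by decide +kernel) (by decide +kernel) (by decide +kernel) (by decide +kernel) (by decide +kernel)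
    h1 h2 h3 h4 h5 h6 h7 h8 h9 h10 h11 h12
    outs (by decide +kernel) 34359740439 (by decide +kernel) (by decide +kernel) (by decide +kernel)
    K.C27.CK ?_ (by decide +kernel)
  exact List.forall_iff_forall_mem.1 ⟨k0, k1, k2, k3⟩
end

end Pool.Agent.T2H98.EGZ
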