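import Pool.Agent.T2H98.EGZ.Main
import Pool.Agent.T2H98.EGZ.C.GOk
import Pool.Agent.T2H98.EGZ.C.D28
import Pool.Agent.T2H98.EGZ.C.K28_0
import Pool.Agent.T2H98.EGZ.C.D29
import Pool.Agent.T2H98.EGZ.C.K29_0
import Pool.Agent.T2H98.EGZ.C.D30
import Pool.Agent.T2H98.EGZ.C.K30_0
import Pool.Agent.T2H98.EGZ.C.K30_1
import Pool.Agent.T2H98.EGZ.C.D31
import Pool.Agent.T2H98.EGZ.C.K31_0
import Pool.Agent.T2H98.EGZ.C.D32
import Pool.Agent.T2H98.EGZ.C.D33
import Pool.Agent.T2H98.EGZ.C.D34

set_option autoImplicit false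
set_option linter.unusedVariables false

namespace Pool.Agent.T2H98.EGZ

open K

section
open K.C28
noncomputable def K.C28.CK : List ((ℕ → ℕ) × ℕ) :=
  [(O0, S0),
   (O1, S1)]

theorem step28 (h : ∀ x ∈ K.C28.done, Excl L0 (pt 5 x)) : Excl L0 (pt 5 129) := by
  refine class_main Gs1 gs1_ok K.C28.done h 129 223 (by decide +kernel) 0x202000201 3037 (by decide +kernel)
    (by decide +kernel) 2 17 18 ![0x1, 0x10000, 0x100, 0x2020202, 0x100000000]
    (by decide) (by decide +kernel)
    0x10202 0x2000201 0x2010200 0x2020001 0x101010101 0x202010201 0x100020002 0x101000201 0x102000002 0x200020100 0x201020201 0x201000200 0x102010001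
    3 7 5 8 15 12 10 11 14 13 16 9
    Q1 Q2 Q3 Q4 Q5 Q6 Q7 Q8 Q9 Q10 Q11 Q12
    D1 D2 D3 D4 D5 D6 D7 D8 D9 D10 D11 D12
    (by decide +kernel) (by decide +kernel) (by decide +kernel) (by decide +kernel) (by decide +kernel) (by decide +kernel) (by decide +kernel) (by decide +kernel) (by decide +kernel) (by decide +kernel) (by decide +kernel) (by decide +kernel)
    h1 h2 h3 h4 h5 h6 h7 h8 h9 h10 h11 h12
    outs (by decide +kernel) 393239 (by decide +kernel) (by decide +kernel) (by decide +kernel)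
    K.C28.CK ?_ (by decide +kernel)
  exact List.forall_iff_forall_mem.1 ⟨k0, k1⟩
end

section
open K.C29
noncomputable def K.C29.CK : List ((ℕ → ℕ) × ℕ) :=
  [(O0, S0),
   (O1, S1),
   (O2, S2)]

theorem step29 (h : ∀ x ∈ K.C29.done, Excl L0 (pt 5 x)) : Excl L0 (pt 5 55) := by
  refine class_main Gs1 gs1_ok K.C29.done h 55 45 (by decide +kernel) 0x1020000 288 (by decide +kernel)
    (by decide +kernel) 7 16 18 ![0x1, 0x10102, 0x100, 0x2010002, 0x100000000]
    (by decide) (by decide +kernel)
    0x10202 0x2020100 0x2020001 0x2010101 0x100010201 0x202020200 0x102000101 0x202010000 0x102020201 0x100000202 0x200020001 0x101000102 0x201020201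
    2 3 5 9 17 8 14 10 11 13 12 15
    Q1 Q2 Q3 Q4 Q5 Q6 Q7 Q8 Q9 Q10 Q11 Q12
    D1 D2 D3 D4 D5 D6 D7 D8 D9 D10 D11 D12
    (by decide +kernel) (by decide +kernel) (by decide +kernel) (by decide +kernel) (by decide +kernel) (by decide +kernel) (by decide +kernel) (by decide +kernel) (by decide +kernel) (by decide +kernel) (by decide +kernel) (by decide +kernel)
    h1 h2 h3 h4 h5 h6 h7 h8 h9 h10 h11 h12
    outs (by decide +kernel) 327827 (by decide +kernel) (by decide +kernel) (by decide +kernel)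
    K.C29.CK ?_ (by decide +kernel)
  exact List.forall_iff_forall_mem.1 ⟨k0, k1, k2⟩
end

section
open K.C30
noncomputable def K.C30.CK : List ((ℕ → ℕ) × ℕ) :=
  [(O0, S0),
   (O1, S1),
   (O2, S2),
   (O3, S3)]

theorem step30 (h : ∀ x ∈ K.C30.done, Excl L0 (pt 5 x)) : Excl L0 (pt 5 115) := by
  refine class_main Gs5 gs5_ok K.C30.done h 115 237 (by decide +kernel) 0x202020100 3102 (by decide +kernel)
    (by decide +kernel) 9 21 2 ![0x1, 0x100000000, 0x100, 0x100010002, 0x201000002]
    (by decide) (by decide +kernel)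
    0x10202 0x1010201 0x2020001 0x1000202 0x102010001 0x102010100 0x200000102 0x101020100 0x202010102 0x100020200 0x100010102 0x201010202 0x201000101
    16 11 13 38 39 20 42 26 36 37 35 31
    Q1 Q2 Q3 Q4 Q5 Q6 Q7 Q8 Q9 Q10 Q11 Q12
    D1 D2 D3 D4 D5 D6 D7 D8 D9 D10 D11 D12
    (by decide +kernel) (by decide +kernel) (by decide +kernel) (by decide +kernel) (by decide +kernel) (by decide +kernel) (by decide +kernel) (by decide +kernel) (by decide +kernel) (by decide +kernel) (by decide +kernel) (by decide +kernel)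
    h1 h2 h3 h4 h5 h6 h7 h8 h9 h10 h11 h12
    outs (by decide +kernel) 2097687 (by decide +kernel) (by decide +kernel) (by decide +kernel)
    K.C30.CK ?_ (by decide +kernel)
  exact List.forall_iff_forall_mem.1 ⟨k0, k1, k2, k3⟩
end

section
open K.C31
noncomputable def K.C31.CK : List ((ℕ → ℕ) × ℕ) :=
  [(O0, S0),
   (O1, S1)]

theorem step31 (h : ∀ x ∈ K.C31.done, Excl L0 (pt 5 x)) : Excl L0 (pt 5 31) := by
  refine class_main Gs5 gs5_ok K.C31.done h 31 78 (by decide +kernel) 0x2020200 516 (by decide +kernel)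
    (by decide +kernel) 9 31 2 ![0x1, 0x100000000, 0x100, 0x100010002, 0x201010000]
    (by decide) (by decide +kernel)
    0x10202 0x1010201 0x1000202 0x2020001 0x101010200 0x102020201 0x100010102 0x201010001 0x200010101 0x101020001 0x202000202 0x202000001 0x100010201
    16 13 11 37 42 38 26 35 36 21 20 39
    Q1 Q2 Q3 Q4 Q5 Q6 Q7 Q8 Q9 Q10 Q11 Q12
    D1 D2 D3 D4 D5 D6 D7 D8 D9 D10 D11 D12
    (by decide +kernel) (by decide +kernel) (by decide +kernel) (by decide +kernel) (by decide +kernel) (by decide +kernel) (by decide +kernel) (by decide +kernel) (by decide +kernel) (by decide +kernel) (by decide +kernel) (by decide +kernel)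
    h1 h2 h3 h4 h5 h6 h7 h8 h9 h10 h11 h12
    outs (by decide +kernel) 2147484183 (by decide +kernel) (by decide +kernel) (by decide +kernel)
    K.C31.CK ?_ (by decide +kernel)
  exact List.forall_iff_forall_mem.1 ⟨k0, k1⟩
end

section
open K.C32
noncomputable def K.C32.CK : List ((ℕ → ℕ) × ℕ) :=
  [(O0, S0),
   (O1, S1)]

theorem step32 (h : ∀ x ∈ K.C32.done, Excl L0 (pt 5 x)) : Excl L0 (pt 5 13) := by
  refine class_main Gs1 gs1_ok K.C32.done h 13 15 (by decide +kernel) 0x10200 48 (by decide +kernel)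
    (by decide +kernel) 7 10 18 ![0x1, 0x10102, 0x100, 0x1000201, 0x100000000]
    (by decide) (by decide +kernel)
    0x10202 0x2010101 0x2020001 0x2020100 0x101000201 0x102010202 0x201010001 0x200010200 0x101010101 0x202010201 0x100010102 0x102020201 0x201020000
    5 3 2 14 13 11 8 17 12 15 16 9
    Q1 Q2 Q3 Q4 Q5 Q6 Q7 Q8 Q9 Q10 Q11 Q12
    D1 D2 D3 D4 D5 D6 D7 D8 D9 D10 D11 D12
    (by decide +kernel) (by decide +kernel) (by decide +kernel) (by decide +kernel) (by decide +kernel) (by decide +kernel) (by decide +kernel) (by decide +kernel) (by decide +kernel) (by decide +kernel) (by decide +kernel) (by decide +kernel)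
    h1 h2 h3 h4 h5 h6 h7 h8 h9 h10 h11 h12
    outs (by decide +kernel) 263315 (by decide +kernel) (by decide +kernel) (by decide +kernel)
    K.C32.CK ?_ (by decide +kernel)
  exact List.forall_iff_forall_mem.1 ⟨k0, k1⟩
end

section
open K.C33
noncomputable def K.C33.CK : List ((ℕ → ℕ) × ℕ) :=
  [(O0, S0)]

theorem step33 (h : ∀ x ∈ K.C33.done, Excl L0 (pt 5 x)) : Excl L0 (pt 5 4) := by
  refine class_main Gs5 gs5_ok K.C33.done h 4 24 (by decide +kernel) 0x20200 84 (by decide +kernel)
    (by decide +kernel) 9 36 2 ![0x1, 0x100000000, 0x100, 0x100010002, 0x202000100]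
    (by decide) (by decide +kernel)
    0x10202 0x1010201 0x1000202 0x2020001 0x101000102 0x200020202 0x101020001 0x202020200 0x100020200 0x102000002 0x100020002 0x202020101 0x201000200
    16 13 11 35 37 31 39 21 26 20 38 42
    Q1 Q2 Q3 Q4 Q5 Q6 Q7 Q8 Q9 Q10 Q11 Q12
    D1 D2 D3 D4 D5 D6 D7 D8 D9 D10 D11 D12
    (by decide +kernel) (by decide +kernel) (by decide +kernel) (by decide +kernel) (by decide +kernel) (by decide +kernel) (by decide +kernel) (by decide +kernel) (by decide +kernel) (by decide +kernel) (by decide +kernel) (by decide +kernel)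
    h1 h2 h3 h4 h5 h6 h7 h8 h9 h10 h11 h12
    outs (by decide +kernel) 68719477271 (by decide +kernel) (by decide +kernel) (by decide +kernel)
    K.C33.CK ?_ (by decide +kernel)
  intro r hr
  rcases List.mem_singleton.1 hr with rfl
  exact k0
end

section
open K.C34
noncomputable def K.C34.CK : List ((ℕ → ℕ) × ℕ) :=
  [(O0, S0)]

theorem step34 (h : ∀ x ∈ K.C34.done, Excl L0 (pt 5 x)) : Excl L0 (pt 5 146) := by
  refine class_main Gs5 gs5_ok K.C34.done h 146 200 (by decide +kernel) 0x201010002 2846 (by decide +kernel)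
    (by decide +kernel) 13 31 2 ![0x1, 0x100000000, 0x100, 0x100020000, 0x201020001]
    (by decide) (by decide +kernel)
    0x10202 0x1020200 0x2010002 0x1000202 0x102010001 0x102020102 0x200010101 0x100010102 0x201000200 0x201000101 0x101020100 0x202010102 0x100010201
    11 16 9 37 36 35 38 20 21 42 26 39
    Q1 Q2 Q3 Q4 Q5 Q6 Q7 Q8 Q9 Q10 Q11 Q12
    D1 D2 D3 D4 D5 D6 D7 D8 D9 D10 D11 D12
    (by decide +kernel) (by decide +kernel) (by decide +kernel) (by decide +kernel) (by decide +kernel) (by decide +kernel) (by decide +kernel) (by decide +kernel) (by decide +kernel) (by decide +kernel) (by decide +kernel) (by decide +kernel)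
    h1 h2 h3 h4 h5 h6 h7 h8 h9 h10 h11 h12
    outs (by decide +kernel) 2147491863 (by decide +kernel) (by decide +kernel) (by decide +kernel)
    K.C34.CK ?_ (by decide +kernel)
  intro r hr
  rcases List.mem_singleton.1 hr with rfl
  exact k0
end

end Pool.Agent.T2H98.EGZ
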