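import Pool.Agent.T2H98.EGZ.Main
import Pool.Agent.T2H98.EGZ.C.GOk
import Pool.Agent.T2H98.EGZ.C.D35
import Pool.Agent.T2H98.EGZ.C.D36
import Pool.Agent.T2H98.EGZ.C.D37
import Pool.Agent.T2H98.EGZ.C.D38
import Pool.Agent.T2H98.EGZ.C.D39
import Pool.Agent.T2H98.EGZ.C.D40
import Pool.Agent.T2H98.EGZ.C.D41

set_option autoImplicit false
set_option linter.unusedVariables false

namespace Pool.Agent.T2H98.EGZ

open K

section
open K.C35
noncomputable def K.C35.CK : List ((ℕ → ℕ) × ℕ) :=
  [(O0, S0),
   (O1, S1)]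

theorem step35 (h : ∀ x ∈ K.C35.done, Excl L0 (pt 5 x)) : Excl L0 (pt 5 133) := by
  refine class_main Gs5 gs5_ok K.C35.done h 133 219 (by decide +kernel) 0x202000100 3030 (by decide +kernel)
    (by decide +kernel) 16 36 2 ![0x1, 0x100000000, 0x100, 0x100020200, 0x202000100]
    (by decide) (by decide +kernel)
    0x10202 0x1010201 0x1000202 0x2020001 0x102020201 0x101010200 0x102010100 0x200020202 0x100020200 0x202020002 0x100020002 0x201000101 0x201000002
    9 11 13 35 26 31 37 21 42 20 39 38
    Q1 Q2 Q3 Q4 Q5 Q6 Q7 Q8 Q9 Q10 Q11 Q12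
    D1 D2 D3 D4 D5 D6 D7 D8 D9 D10 D11 D12
    (by decide +kernel) (by decide +kernel) (by decide +kernel) (by decide +kernel) (by decide +kernel) (by decide +kernel) (by decide +kernel) (by decide +kernel) (by decide +kernel) (by decide +kernel) (by decide +kernel) (by decide +kernel)
    h1 h2 h3 h4 h5 h6 h7 h8 h9 h10 h11 h12
    outs (by decide +kernel) 68719542295 (by decide +kernel) (by decide +kernel) (by decide +kernel)
    K.C35.CK ?_ (by decide +kernel)
  exact List.forall_iff_forall_mem.1 ⟨k0, k1⟩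
end

section
open K.C36
noncomputable def K.C36.CK : List ((ℕ → ℕ) × ℕ) :=
  [(O0, S0)]

theorem step36 (h : ∀ x ∈ K.C36.done, Excl L0 (pt 5 x)) : Excl L0 (pt 5 116) := by
  refine class_main Gs5 gs5_ok K.C36.done h 116 239 (by decide +kernel) 0x202020102 3104 (by decide +kernel)
    (by decide +kernel) 9 36 2 ![0x1, 0x100000000, 0x100, 0x100010002, 0x202000100]
    (by decide) (by decide +kernel)
    0x10202 0x1010201 0x1000202 0x2020001 0x101000102 0x100020002 0x202020200 0x100020200 0x201000200 0x101020001 0x200020202 0x102000002 0x202020101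
    16 13 11 35 20 39 21 42 31 37 26 38
    Q1 Q2 Q3 Q4 Q5 Q6 Q7 Q8 Q9 Q10 Q11 Q12
    D1 D2 D3 D4 D5 D6 D7 D8 D9 D10 D11 D12
    (by decide +kernel) (by decide +kernel) (by decide +kernel) (by decide +kernel) (by decide +kernel) (by decide +kernel) (by decide +kernel) (by decide +kernel) (by decide +kernel) (by decide +kernel) (by decide +kernel) (by decide +kernel)
    h1 h2 h3 h4 h5 h6 h7 h8 h9 h10 h11 h12
    outs (by decide +kernel) 68719477271 (by decide +kernel) (by decide +kernel) (by decide +kernel)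
    K.C36.CK ?_ (by decide +kernel)
  intro r hr
  rcases List.mem_singleton.1 hr with rfl
  exact k0
end

section
open K.C37
noncomputable def K.C37.CK : List ((ℕ → ℕ) × ℕ) :=
  [(O0, S0)]

theorem step37 (h : ∀ x ∈ K.C37.done, Excl L0 (pt 5 x)) : Excl L0 (pt 5 149) := by
  refine class_main Gs1 gs1_ok K.C37.done h 149 206 (by decide +kernel) 0x201010202 2858 (by decide +kernel)
    (by decide +kernel) 3 17 18 ![0x1, 0x10002, 0x100, 0x2020200, 0x100000000]
    (by decide) (by decide +kernel)
    0x10202 0x2000102 0x2020100 0x2010002 0x101010002 0x201020102 0x102000101 0x201000101 0x102010100 0x101000102 0x202010000 0x100020002 0x200020100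
    2 5 7 8 13 11 16 9 10 15 12 14
    Q1 Q2 Q3 Q4 Q5 Q6 Q7 Q8 Q9 Q10 Q11 Q12
    D1 D2 D3 D4 D5 D6 D7 D8 D9 D10 D11 D12
    (by decide +kernel) (by decide +kernel) (by decide +kernel) (by decide +kernel) (by decide +kernel) (by decide +kernel) (by decide +kernel) (by decide +kernel) (by decide +kernel) (by decide +kernel) (by decide +kernel) (by decide +kernel)
    h1 h2 h3 h4 h5 h6 h7 h8 h9 h10 h11 h12
    outs (by decide +kernel) 393243 (by decide +kernel) (by decide +kernel) (by decide +kernel)
    K.C37.CK ?_ (by decide +kernel)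
  intro r hr
  rcases List.mem_singleton.1 hr with rfl
  exact k0
end

section
open K.C38
noncomputable def K.C38.CK : List ((ℕ → ℕ) × ℕ) :=
  [(O0, S0)]

theorem step38 (h : ∀ x ∈ K.C38.done, Excl L0 (pt 5 x)) : Excl L0 (pt 5 88) := by
  refine class_main Gs5 gs5_ok K.C38.done h 88 183 (by decide +kernel) 0x200020100 2670 (by decide +kernel)
    (by decide +kernel) 9 31 2 ![0x1, 0x100000000, 0x100, 0x100010002, 0x201010000]
    (by decide) (by decide +kernel)
    0x10202 0x1010201 0x2020001 0x1000202 0x101010200 0x200010101 0x101020001 0x202000001 0x202000202 0x100010102 0x102020201 0x201010001 0x100010201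
    16 11 13 37 35 36 20 21 38 42 26 39
    Q1 Q2 Q3 Q4 Q5 Q6 Q7 Q8 Q9 Q10 Q11 Q12
    D1 D2 D3 D4 D5 D6 D7 D8 D9 D10 D11 D12
    (by decide +kernel) (by decide +kernel) (by decide +kernel) (by decide +kernel) (by decide +kernel) (by decide +kernel) (by decide +kernel) (by decide +kernel) (by decide +kernel) (by decide +kernel) (by decide +kernel) (by decide +kernel)
    h1 h2 h3 h4 h5 h6 h7 h8 h9 h10 h11 h12
    outs (by decide +kernel) 2147484183 (by decide +kernel) (by decide +kernel) (by decide +kernel)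
    K.C38.CK ?_ (by decide +kernel)
  intro r hr
  rcases List.mem_singleton.1 hr with rfl
  exact k0
end

section
open K.C39
noncomputable def K.C39.CK : List ((ℕ → ℕ) × ℕ) :=
  [(O0, S0)]

theorem step39 (h : ∀ x ∈ K.C39.done, Excl L0 (pt 5 x)) : Excl L0 (pt 5 10) := by
  refine class_main Gs5 gs5_ok K.C39.done h 10 9 (by decide +kernel) 0x10000 36 (by decide +kernel)
    (by decide +kernel) 11 36 2 ![0x1, 0x100000000, 0x100, 0x100010202, 0x202000100]
    (by decide) (by decide +kernel)
    0x10202 0x1020200 0x1000202 0x2010002 0x101020100 0x100020002 0x202000202 0x102010001 0x101010002 0x202000100 0x200020202 0x201020201 0x100020200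
    13 16 9 35 20 39 26 31 38 37 42 21
    Q1 Q2 Q3 Q4 Q5 Q6 Q7 Q8 Q9 Q10 Q11 Q12
    D1 D2 D3 D4 D5 D6 D7 D8 D9 D10 D11 D12
    (by decide +kernel) (by decide +kernel) (by decide +kernel) (by decide +kernel) (by decide +kernel) (by decide +kernel) (by decide +kernel) (by decide +kernel) (by decide +kernel) (by decide +kernel) (by decide +kernel) (by decide +kernel)
    h1 h2 h3 h4 h5 h6 h7 h8 h9 h10 h11 h12
    outs (by decide +kernel) 68719478807 (by decide +kernel) (by decide +kernel) (by decide +kernel)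
    K.C39.CK ?_ (by decide +kernel)
  intro r hr
  rcases List.mem_singleton.1 hr with rfl
  exact k0
end

section
open K.C40
noncomputable def K.C40.CK : List ((ℕ → ℕ) × ℕ) :=
  [(O0, S0)]

theorem step40 (h : ∀ x ∈ K.C40.done, Excl L0 (pt 5 x)) : Excl L0 (pt 5 82) := by
  refine class_main Gs1 gs1_ok K.C40.done h 82 180 (by decide +kernel) 0x200020000 2664 (by decide +kernel)
    (by decide +kernel) 5 8 18 ![0x1, 0x10200, 0x100, 0x1000000, 0x100000000]
    (by decide) (by decide +kernel)
    0x10202 0x2020202 0x2010200 0x2010002 0x101000102 0x201020201 0x102020000 0x202020200 0x101020202 0x200020100 0x201010202 0x102010001 0x100020002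
    7 3 2 17 9 16 12 14 10 11 13 15
    Q1 Q2 Q3 Q4 Q5 Q6 Q7 Q8 Q9 Q10 Q11 Q12
    D1 D2 D3 D4 D5 D6 D7 D8 D9 D10 D11 D12
    (by decide +kernel) (by decide +kernel) (by decide +kernel) (by decide +kernel) (by decide +kernel) (by decide +kernel) (by decide +kernel) (by decide +kernel) (by decide +kernel) (by decide +kernel) (by decide +kernel) (by decide +kernel)
    h1 h2 h3 h4 h5 h6 h7 h8 h9 h10 h11 h12
    outs (by decide +kernel) 262451 (by decide +kernel) (by decide +kernel) (by decide +kernel)
    K.C40.CK ?_ (by decide +kernel)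
  intro r hr
  rcases List.mem_singleton.1 hr with rfl
  exact k0
end

section
open K.C41
noncomputable def K.C41.CK : List ((ℕ → ℕ) × ℕ) :=
  [(O0, S0)]

theorem step41 (h : ∀ x ∈ K.C41.done, Excl L0 (pt 5 x)) : Excl L0 (pt 5 85) := by
  refine class_main Gs1 gs1_ok K.C41.done h 85 186 (by decide +kernel) 0x200020200 2676 (by decide +kernel)
    (by decide +kernel) 3 10 18 ![0x1, 0x10002, 0x100, 0x1000201, 0x100000000]
    (by decide) (by decide +kernel)
    0x10202 0x2000102 0x2010002 0x2020100 0x101020202 0x202020200 0x201000002 0x100010102 0x102000200 0x201010001 0x102020201 0x200010200 0x101000102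
    2 7 5 14 12 11 15 16 9 13 8 17
    Q1 Q2 Q3 Q4 Q5 Q6 Q7 Q8 Q9 Q10 Q11 Q12
    D1 D2 D3 D4 D5 D6 D7 D8 D9 D10 D11 D12
    (by decide +kernel) (by decide +kernel) (by decide +kernel) (by decide +kernel) (by decide +kernel) (by decide +kernel) (by decide +kernel) (by decide +kernel) (by decide +kernel) (by decide +kernel) (by decide +kernel) (by decide +kernel)
    h1 h2 h3 h4 h5 h6 h7 h8 h9 h10 h11 h12
    outs (by decide +kernel) 263195 (by decide +kernel) (by decide +kernel) (by decide +kernel)
    K.C41.CK ?_ (by decide +kernel)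
  intro r hr
  rcases List.mem_singleton.1 hr with rfl
  exact k0
end

end Pool.Agent.T2H98.EGZ
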