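import Pool.Agent.T2H98.EGZ.Main
import Pool.Agent.T2H98.EGZ.C.GOk
import Pool.Agent.T2H98.EGZ.C.D42
import Pool.Agent.T2H98.EGZ.C.D43
import Pool.Agent.T2H98.EGZ.C.D44
import Pool.Agent.T2H98.EGZ.C.D45
import Pool.Agent.T2H98.EGZ.C.D46
import Pool.Agent.T2H98.EGZ.C.D47

set_option autoImplicit false
set_option linter.unusedVariables false

namespace Pool.Agent.T2H98.EGZ

open K

section
open K.C42
noncomputable def K.C42.CK : List ((ℕ → ℕ) × ℕ) :=
  [(O0, S0)]

theorem step42 (h : ∀ x ∈ K.C42.done, Excl L0 (pt 5 x)) : Excl L0 (pt 5 152) := by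
  refine class_main Gs1 gs1_ok K.C42.done h 152 203 (by decide +kernel) 0x201010102 2852 (by decide +kernel)
    (by decide +kernel) 3 14 18 ![0x1, 0x10002, 0x100, 0x2020002, 0x100000000]
    (by decide) (by decide +kernel)
    0x10202 0x2000102 0x2020100 0x2010002 0x101020202 0x202020200 0x100010102 0x102020201 0x201000002 0x101000102 0x201010001 0x102000200 0x200010200
    2 5 7 10 15 12 11 13 8 16 9 17
    Q1 Q2 Q3 Q4 Q5 Q6 Q7 Q8 Q9 Q10 Q11 Q12
    D1 D2 D3 D4 D5 D6 D7 D8 D9 D10 D11 D12
    (by decide +kernel) (by decide +kernel) (by decide +kernel) (by decide +kernel) (by decide +kernel) (by decide +kernel) (by decide +kernel) (by decide +kernel) (by decide +kernel) (by decide +kernel) (by decide +kernel) (by decide +kernel)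
    h1 h2 h3 h4 h5 h6 h7 h8 h9 h10 h11 h12
    outs (by decide +kernel) 278555 (by decide +kernel) (by decide +kernel) (by decide +kernel)
    K.C42.CK ?_ (by decide +kernel)
  intro r hr
  rcases List.mem_singleton.1 hr with rfl
  exact k0
end

section
open K.C43
noncomputable def K.C43.CK : List ((ℕ → ℕ) × ℕ) :=
  [(O0, S0),
   (O1, S1),
   (O2, S2)]

theorem step43 (h : ∀ x ∈ K.C43.done, Excl L0 (pt 5 x)) : Excl L0 (pt 5 9) := by
  refine class_main Gs5 gs5_ok K.C43.done h 9 10 (by decide +kernel) 0x10001 37 (by decide +kernel)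
    (by decide +kernel) 11 31 2 ![0x1, 0x100000000, 0x100, 0x100010202, 0x201010200]
    (by decide) (by decide +kernel)
    0x10202 0x1020200 0x2010002 0x1000202 0x101000201 0x102000200 0x201000002 0x202010000 0x100010201 0x202010201 0x101010002 0x200010101 0x100010102
    13 9 16 37 42 26 20 39 21 36 35 38
    Q1 Q2 Q3 Q4 Q5 Q6 Q7 Q8 Q9 Q10 Q11 Q12
    D1 D2 D3 D4 D5 D6 D7 D8 D9 D10 D11 D12
    (by decide +kernel) (by decide +kernel) (by decide +kernel) (by decide +kernel) (by decide +kernel) (by decide +kernel) (by decide +kernel) (by decide +kernel) (by decide +kernel) (by decide +kernel) (by decide +kernel) (by decide +kernel)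
    h1 h2 h3 h4 h5 h6 h7 h8 h9 h10 h11 h12
    outs (by decide +kernel) 2147485719 (by decide +kernel) (by decide +kernel) (by decide +kernel)
    K.C43.CK ?_ (by decide +kernel)
  exact List.forall_iff_forall_mem.1 ⟨k0, k1, k2⟩
end

section
open K.C44
noncomputable def K.C44.CK : List ((ℕ → ℕ) × ℕ) :=
  [(O0, S0)]

theorem step44 (h : ∀ x ∈ K.C44.done, Excl L0 (pt 5 x)) : Excl L0 (pt 5 35) := by
  refine class_main Gs1 gs1_ok K.C44.done h 35 77 (by decide +kernel) 0x2020102 512 (by decide +kernel)
    (by decide +kernel) 5 13 18 ![0x1, 0x10200, 0x100, 0x2010200, 0x100000000]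
    (by decide) (by decide +kernel)
    0x10202 0x100020200 0x2020202 0x2010002 0x2010200 0x202020101 0x102010001 0x201010001 0x101000201 0x202010201 0x100000202 0x102000101 0x200010002
    11 7 2 3 17 8 15 12 14 9 10 16
    Q1 Q2 Q3 Q4 Q5 Q6 Q7 Q8 Q9 Q10 Q11 Q12
    D1 D2 D3 D4 D5 D6 D7 D8 D9 D10 D11 D12
    (by decide +kernel) (by decide +kernel) (by decide +kernel) (by decide +kernel) (by decide +kernel) (by decide +kernel) (by decide +kernel) (by decide +kernel) (by decide +kernel) (by decide +kernel) (by decide +kernel) (by decide +kernel)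
    h1 h2 h3 h4 h5 h6 h7 h8 h9 h10 h11 h12
    outs (by decide +kernel) 270387 (by decide +kernel) (by decide +kernel) (by decide +kernel)
    K.C44.CK ?_ (by decide +kernel)
  intro r hr
  rcases List.mem_singleton.1 hr with rfl
  exact k0
end

section
open K.C45
noncomputable def K.C45.CK : List ((ℕ → ℕ) × ℕ) :=
  [(O0, S0)]

theorem step45 (h : ∀ x ∈ K.C45.done, Excl L0 (pt 5 x)) : Excl L0 (pt 5 57) := by
  refine class_main Gs1 gs1_ok K.C45.done h 57 52 (by decide +kernel) 0x1020201 301 (by decide +kernel)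
    (by decide +kernel) 2 11 18 ![0x1, 0x10000, 0x100, 0x1010202, 0x100000000]
    (by decide) (by decide +kernel)
    0x10202 0x2000201 0x100020200 0x2020001 0x2010200 0x102020102 0x202000202 0x201020000 0x101010200 0x200010002 0x102000002 0x202010102 0x100000202
    3 13 5 7 14 10 12 15 9 17 8 16
    Q1 Q2 Q3 Q4 Q5 Q6 Q7 Q8 Q9 Q10 Q11 Q12
    D1 D2 D3 D4 D5 D6 D7 D8 D9 D10 D11 D12
    (by decide +kernel) (by decide +kernel) (by decide +kernel) (by decide +kernel) (by decide +kernel) (by decide +kernel) (by decide +kernel) (by decide +kernel) (by decide +kernel) (by decide +kernel) (by decide +kernel) (by decide +kernel)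
    h1 h2 h3 h4 h5 h6 h7 h8 h9 h10 h11 h12
    outs (by decide +kernel) 264215 (by decide +kernel) (by decide +kernel) (by decide +kernel)
    K.C45.CK ?_ (by decide +kernel)
  intro r hr
  rcases List.mem_singleton.1 hr with rfl
  exact k0
end

section
open K.C46
noncomputable def K.C46.CK : List ((ℕ → ℕ) × ℕ) :=
  [(O0, S0)]

theorem step46 (h : ∀ x ∈ K.C46.done, Excl L0 (pt 5 x)) : Excl L0 (pt 5 51) := by
  refine class_main Gs1 gs1_ok K.C46.done h 51 58 (by decide +kernel) 0x2000101 439 (by decide +kernel)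
    (by decide +kernel) 3 9 18 ![0x1, 0x10002, 0x100, 0x1010001, 0x100000000]
    (by decide) (by decide +kernel)
    0x10202 0x2000102 0x100010201 0x2010002 0x2020100 0x102010100 0x101020100 0x202000202 0x201010202 0x102000200 0x202020002 0x200020001 0x100000202
    2 16 7 5 17 15 8 12 14 10 11 13
    Q1 Q2 Q3 Q4 Q5 Q6 Q7 Q8 Q9 Q10 Q11 Q12
    D1 D2 D3 D4 D5 D6 D7 D8 D9 D10 D11 D12
    (by decide +kernel) (by decide +kernel) (by decide +kernel) (by decide +kernel) (by decide +kernel) (by decide +kernel) (by decide +kernel) (by decide +kernel) (by decide +kernel) (by decide +kernel) (by decide +kernel) (by decide +kernel)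
    h1 h2 h3 h4 h5 h6 h7 h8 h9 h10 h11 h12
    outs (by decide +kernel) 262683 (by decide +kernel) (by decide +kernel) (by decide +kernel)
    K.C46.CK ?_ (by decide +kernel)
  intro r hr
  rcases List.mem_singleton.1 hr with rfl
  exact k0
end

section
open K.C47
noncomputable def K.C47.CK : List ((ℕ → ℕ) × ℕ) :=
  [(O0, S0)]

theorem step47 (h : ∀ x ∈ K.C47.done, Excl L0 (pt 5 x)) : Excl L0 (pt 5 68) := by
  refine class_main Gs5 gs5_ok K.C47.done h 68 44 (by decide +kernel) 0x1010202 266 (by decide +kernel)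
    (by decide +kernel) 20 16 2 ![0x1, 0x100000000, 0x100, 0x102000200, 0x200010000]
    (by decide) (by decide +kernel)
    0x10202 0x100010201 0x101020100 0x200020001 0x100000202 0x102020201 0x201010001 0x202000202 0x101020001 0x1020002 0x202020101 0x2000201 0x1010201
    9 39 13 11 26 42 35 38 36 31 21 37
    Q1 Q2 Q3 Q4 Q5 Q6 Q7 Q8 Q9 Q10 Q11 Q12
    D1 D2 D3 D4 D5 D6 D7 D8 D9 D10 D11 D12
    (by decide +kernel) (by decide +kernel) (by decide +kernel) (by decide +kernel) (by decide +kernel) (by decide +kernel) (by decide +kernel) (by decide +kernel) (by decide +kernel) (by decide +kernel) (by decide +kernel) (by decide +kernel)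
    h1 h2 h3 h4 h5 h6 h7 h8 h9 h10 h11 h12
    outs (by decide +kernel) 1114135 (by decide +kernel) (by decide +kernel) (by decide +kernel)
    K.C47.CK ?_ (by decide +kernel)
  intro r hr
  rcases List.mem_singleton.1 hr with rfl
  exact k0
end

end Pool.Agent.T2H98.EGZ
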