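import Pool.Agent.T2H98.EGZ.C.T0
import Pool.Agent.T2H98.EGZ.C.T1
import Pool.Agent.T2H98.EGZ.C.T2
import Pool.Agent.T2H98.EGZ.C.T3
import Pool.Agent.T2H98.EGZ.C.T4
import Pool.Agent.T2H98.EGZ.C.T5
import Pool.Agent.T2H98.EGZ.C.T6
import Pool.Agent.T2H98.EGZ.Zero

set_option autoImplicit false

/-! # No lift of the 45-cap to (Z/9)^5 -/

namespace Pool.Agent.T2H98.EGZ

open K

theorem s00 : Excl L0 (pt 5 108) := step00 (fun x hx => absurd hx (by simp [K.C00.done]))
theorem s01 : Excl L0 (pt 5 92) :=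
  step01 (List.forall_iff_forall_mem.1 s00)
theorem s02 : Excl L0 (pt 5 136) :=
  step02 (List.forall_iff_forall_mem.1 ⟨s00, s01⟩)
theorem s03 : Excl L0 (pt 5 138) :=
  step03 (List.forall_iff_forall_mem.1 ⟨s00, s01, s02⟩)
theorem s04 : Excl L0 (pt 5 148) :=
  step04 (List.forall_iff_forall_mem.1 ⟨s00, s01, s02, s03⟩)
theorem s05 : Excl L0 (pt 5 130) :=
  step05 (List.forall_iff_forall_mem.1 ⟨s00, s01, s02, s03, s04⟩)
theorem s06 : Excl L0 (pt 5 112) :=
  step06 (List.forall_iff_forall_mem.1 ⟨s00, s01, s02, s03, s04, s05⟩)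
theorem s07 : Excl L0 (pt 5 56) :=
  step07 (List.forall_iff_forall_mem.1 ⟨s00, s01, s02, s03, s04, s05, s06⟩)
theorem s08 : Excl L0 (pt 5 27) :=
  step08 (List.forall_iff_forall_mem.1 ⟨s00, s01, s02, s03, s04, s05, s06, s07⟩)
theorem s09 : Excl L0 (pt 5 111) :=
  step09 (List.forall_iff_forall_mem.1 ⟨s00, s01, s02, s03, s04, s05, s06, s07, s08⟩)
theorem s10 : Excl L0 (pt 5 90) :=
  step10 (List.forall_iff_forall_mem.1 ⟨s00, s01, s02, s03, s04, s05, s06, s07, s08, s09⟩)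
theorem s11 : Excl L0 (pt 5 140) :=
  step11 (List.forall_iff_forall_mem.1 ⟨s00, s01, s02, s03, s04, s05, s06, s07, s08, s09, s10⟩)
theorem s12 : Excl L0 (pt 5 143) :=
  step12 (List.forall_iff_forall_mem.1 ⟨s00, s01, s02, s03, s04, s05, s06, s07, s08, s09, s10, s11⟩)
theorem s13 : Excl L0 (pt 5 110) :=
  step13 (List.forall_iff_forall_mem.1 ⟨s00, s01, s02, s03, s04, s05, s06, s07, s08, s09, s10, s11, s12⟩)
theorem s14 : Excl L0 (pt 5 98) :=
  step14 (List.forall_iff_forall_mem.1 ⟨s00, s01, s02, s03, s04, s05, s06, s07, s08, s09, s10, s11, s12, s13⟩)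
theorem s15 : Excl L0 (pt 5 58) :=
  step15 (List.forall_iff_forall_mem.1 ⟨s00, s01, s02, s03, s04, s05, s06, s07, s08, s09, s10, s11, s12, s13, s14⟩)
theorem s16 : Excl L0 (pt 5 91) :=
  step16 (List.forall_iff_forall_mem.1 ⟨s00, s01, s02, s03, s04, s05, s06, s07, s08, s09, s10, s11, s12, s13, s14, s15⟩)
theorem s17 : Excl L0 (pt 5 89) :=
  step17 (List.forall_iff_forall_mem.1 ⟨s00, s01, s02, s03, s04, s05, s06, s07, s08, s09, s10, s11, s12, s13, s14, s15, s16⟩)
theorem s18 : Excl L0 (pt 5 94) :=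
  step18 (List.forall_iff_forall_mem.1 ⟨s00, s01, s02, s03, s04, s05, s06, s07, s08, s09, s10, s11, s12, s13, s14, s15, s16, s17⟩)
theorem s19 : Excl L0 (pt 5 127) :=
  step19 (List.forall_iff_forall_mem.1 ⟨s00, s01, s02, s03, s04, s05, s06, s07, s08, s09, s10, s11, s12, s13, s14, s15, s16, s17, s18⟩)
theorem s20 : Excl L0 (pt 5 28) :=
  step20 (List.forall_iff_forall_mem.1 ⟨s00, s01, s02, s03, s04, s05, s06, s07, s08, s09, s10, s11, s12, s13, s14, s15, s16, s17, s18, s19⟩)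
theorem s21 : Excl L0 (pt 5 12) :=
  step21 (List.forall_iff_forall_mem.1 ⟨s00, s01, s02, s03, s04, s05, s06, s07, s08, s09, s10, s11, s12, s13, s14, s15, s16, s17, s18, s19, s20⟩)
theorem s22 : Excl L0 (pt 5 61) :=
  step22 (List.forall_iff_forall_mem.1 ⟨s00, s01, s02, s03, s04, s05, s06, s07, s08, s09, s10, s11, s12, s13, s14, s15, s16, s17, s18, s19, s20, s21⟩)
theorem s23 : Excl L0 (pt 5 34) :=
  step23 (List.forall_iff_forall_mem.1 ⟨s00, s01, s02, s03, s04, s05, s06, s07, s08, s09, s10, s11, s12, s13, s14, s15, s16, s17, s18, s19, s20, s21, s22⟩)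
theorem s24 : Excl L0 (pt 5 141) :=
  step24 (List.forall_iff_forall_mem.1 ⟨s00, s01, s02, s03, s04, s05, s06, s07, s08, s09, s10, s11, s12, s13, s14, s15, s16, s17, s18, s19, s20, s21, s22, s23⟩)
theorem s25 : Excl L0 (pt 5 93) :=
  step25 (List.forall_iff_forall_mem.1 ⟨s00, s01, s02, s03, s04, s05, s06, s07, s08, s09, s10, s11, s12, s13, s14, s15, s16, s17, s18, s19, s20, s21, s22, s23, s24⟩)
theorem s26 : Excl L0 (pt 5 145) :=
  step26 (List.forall_iff_forall_mem.1 ⟨s00, s01, s02, s03, s04, s05, s06, s07, s08, s09, s10, s11, s12, s13, s14, s15, s16, s17, s18, s19, s20, s21, s22, s23, s24, s25⟩)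
theorem s27 : Excl L0 (pt 5 109) :=
  step27 (List.forall_iff_forall_mem.1 ⟨s00, s01, s02, s03, s04, s05, s06, s07, s08, s09, s10, s11, s12, s13, s14, s15, s16, s17, s18, s19, s20, s21, s22, s23, s24, s25, s26⟩)
theorem s28 : Excl L0 (pt 5 129) :=
  step28 (List.forall_iff_forall_mem.1 ⟨s00, s01, s02, s03, s04, s05, s06, s07, s08, s09, s10, s11, s12, s13, s14, s15, s16, s17, s18, s19, s20, s21, s22, s23, s24, s25, s26, s27⟩)
theorem s29 : Excl L0 (pt 5 55) :=
  step29 (List.forall_iff_forall_mem.1 ⟨s00, s01, s02, s03, s04, s05, s06, s07, s08, s09, s10, s11, s12, s13, s14, s15, s16, s17, s18, s19, s20, s21, s22, s23, s24, s25, s26, s27, s28⟩)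
theorem s30 : Excl L0 (pt 5 115) :=
  step30 (List.forall_iff_forall_mem.1 ⟨s00, s01, s02, s03, s04, s05, s06, s07, s08, s09, s10, s11, s12, s13, s14, s15, s16, s17, s18, s19, s20, s21, s22, s23, s24, s25, s26, s27, s28, s29⟩)
theorem s31 : Excl L0 (pt 5 31) :=
  step31 (List.forall_iff_forall_mem.1 ⟨s00, s01, s02, s03, s04, s05, s06, s07, s08, s09, s10, s11, s12, s13, s14, s15, s16, s17, s18, s19, s20, s21, s22, s23, s24, s25, s26, s27, s28, s29, s30⟩)
theorem s32 : Excl L0 (pt 5 13) :=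
  step32 (List.forall_iff_forall_mem.1 ⟨s00, s01, s02, s03, s04, s05, s06, s07, s08, s09, s10, s11, s12, s13, s14, s15, s16, s17, s18, s19, s20, s21, s22, s23, s24, s25, s26, s27, s28, s29, s30, s31⟩)
theorem s33 : Excl L0 (pt 5 4) :=
  step33 (List.forall_iff_forall_mem.1 ⟨s00, s01, s02, s03, s04, s05, s06, s07, s08, s09, s10, s11, s12, s13, s14, s15, s16, s17, s18, s19, s20, s21, s22, s23, s24, s25, s26, s27, s28, s29, s30, s31, s32⟩)
theorem s34 : Excl L0 (pt 5 146) :=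
  step34 (List.forall_iff_forall_mem.1 ⟨s00, s01, s02, s03, s04, s05, s06, s07, s08, s09, s10, s11, s12, s13, s14, s15, s16, s17, s18, s19, s20, s21, s22, s23, s24, s25, s26, s27, s28, s29, s30, s31, s32, s33⟩)
theorem s35 : Excl L0 (pt 5 133) :=
  step35 (List.forall_iff_forall_mem.1 ⟨s00, s01, s02, s03, s04, s05, s06, s07, s08, s09, s10, s11, s12, s13, s14, s15, s16, s17, s18, s19, s20, s21, s22, s23, s24, s25, s26, s27, s28, s29, s30, s31, s32, s33, s34⟩)
theorem s36 : Excl L0 (pt 5 116) :=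
  step36 (List.forall_iff_forall_mem.1 ⟨s00, s01, s02, s03, s04, s05, s06, s07, s08, s09, s10, s11, s12, s13, s14, s15, s16, s17, s18, s19, s20, s21, s22, s23, s24, s25, s26, s27, s28, s29, s30, s31, s32, s33, s34, s35⟩)
theorem s37 : Excl L0 (pt 5 149) :=
  step37 (List.forall_iff_forall_mem.1 ⟨s00, s01, s02, s03, s04, s05, s06, s07, s08, s09, s10, s11, s12, s13, s14, s15, s16, s17, s18, s19, s20, s21, s22, s23, s24, s25, s26, s27, s28, s29, s30, s31, s32, s33, s34, s35, s36⟩)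
theorem s38 : Excl L0 (pt 5 88) :=
  step38 (List.forall_iff_forall_mem.1 ⟨s00, s01, s02, s03, s04, s05, s06, s07, s08, s09, s10, s11, s12, s13, s14, s15, s16, s17, s18, s19, s20, s21, s22, s23, s24, s25, s26, s27, s28, s29, s30, s31, s32, s33, s34, s35, s36, s37⟩)
theorem s39 : Excl L0 (pt 5 10) :=
  step39 (List.forall_iff_forall_mem.1 ⟨s00, s01, s02, s03, s04, s05, s06, s07, s08, s09, s10, s11, s12, s13, s14, s15, s16, s17, s18, s19, s20, s21, s22, s23, s24, s25, s26, s27, s28, s29, s30, s31, s32, s33, s34, s35, s36, s37, s38⟩)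
theorem s40 : Excl L0 (pt 5 82) :=
  step40 (List.forall_iff_forall_mem.1 ⟨s00, s01, s02, s03, s04, s05, s06, s07, s08, s09, s10, s11, s12, s13, s14, s15, s16, s17, s18, s19, s20, s21, s22, s23, s24, s25, s26, s27, s28, s29, s30, s31, s32, s33, s34, s35, s36, s37, s38, s39⟩)
theorem s41 : Excl L0 (pt 5 85) :=
  step41 (List.forall_iff_forall_mem.1 ⟨s00, s01, s02, s03, s04, s05, s06, s07, s08, s09, s10, s11, s12, s13, s14, s15, s16, s17, s18, s19, s20, s21, s22, s23, s24, s25, s26, s27, s28, s29, s30, s31, s32, s33, s34, s35, s36, s37, s38, s39, s40⟩)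
theorem s42 : Excl L0 (pt 5 152) :=
  step42 (List.forall_iff_forall_mem.1 ⟨s00, s01, s02, s03, s04, s05, s06, s07, s08, s09, s10, s11, s12, s13, s14, s15, s16, s17, s18, s19, s20, s21, s22, s23, s24, s25, s26, s27, s28, s29, s30, s31, s32, s33, s34, s35, s36, s37, s38, s39, s40, s41⟩)
theorem s43 : Excl L0 (pt 5 9) :=
  step43 (List.forall_iff_forall_mem.1 ⟨s00, s01, s02, s03, s04, s05, s06, s07, s08, s09, s10, s11, s12, s13, s14, s15, s16, s17, s18, s19, s20, s21, s22, s23, s24, s25, s26, s27, s28, s29, s30, s31, s32, s33, s34, s35, s36, s37, s38, s39, s40, s41, s42⟩)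
theorem s44 : Excl L0 (pt 5 35) :=
  step44 (List.forall_iff_forall_mem.1 ⟨s00, s01, s02, s03, s04, s05, s06, s07, s08, s09, s10, s11, s12, s13, s14, s15, s16, s17, s18, s19, s20, s21, s22, s23, s24, s25, s26, s27, s28, s29, s30, s31, s32, s33, s34, s35, s36, s37, s38, s39, s40, s41, s42, s43⟩)
theorem s45 : Excl L0 (pt 5 57) :=
  step45 (List.forall_iff_forall_mem.1 ⟨s00, s01, s02, s03, s04, s05, s06, s07, s08, s09, s10, s11, s12, s13, s14, s15, s16, s17, s18, s19, s20, s21, s22, s23, s24, s25, s26, s27, s28, s29, s30, s31, s32, s33, s34, s35, s36, s37, s38, s39, s40, s41, s42, s43, s44⟩)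
theorem s46 : Excl L0 (pt 5 51) :=
  step46 (List.forall_iff_forall_mem.1 ⟨s00, s01, s02, s03, s04, s05, s06, s07, s08, s09, s10, s11, s12, s13, s14, s15, s16, s17, s18, s19, s20, s21, s22, s23, s24, s25, s26, s27, s28, s29, s30, s31, s32, s33, s34, s35, s36, s37, s38, s39, s40, s41, s42, s43, s44, s45⟩)
theorem s47 : Excl L0 (pt 5 68) :=
  step47 (List.forall_iff_forall_mem.1 ⟨s00, s01, s02, s03, s04, s05, s06, s07, s08, s09, s10, s11, s12, s13, s14, s15, s16, s17, s18, s19, s20, s21, s22, s23, s24, s25, s26, s27, s28, s29, s30, s31, s32, s33, s34, s35, s36, s37, s38, s39, s40, s41, s42, s43, s44, s45, s46⟩)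

theorem all48 : ∀ x ∈ ([108, 92, 136, 138, 148, 130, 112, 56, 27, 111, 90, 140, 143, 110, 98, 58, 91, 89, 94, 127, 28, 12, 61, 34, 141, 93, 145, 109, 129, 55, 115, 31, 13, 4, 146, 133, 116, 149, 88, 10, 82, 85, 152, 9, 35, 57, 51, 68] : List ℕ), Excl L0 (pt 5 x) :=
  List.forall_iff_forall_mem.1 ⟨s00, s01, s02, s03, s04, s05, s06, s07, s08, s09, s10, s11, s12, s13, s14, s15, s16, s17, s18, s19, s20, s21, s22, s23, s24, s25, s26, s27, s28, s29, s30, s31, s32, s33, s34, s35, s36, s37, s38, s39, s40, s41, s42, s43, s44, s45, s46, s47⟩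

/-- **The standard 45-cap of `F_3^5` has no lift to `(Z/9)^5`.** -/
theorem no_lift : ¬ ∃ v, IsLift D45 v := by
  have key : ∀ x ∈ reps, x ≠ 1 → Excl L0 (pt 5 x) := by
    intro x hx h1
    have h2 : ∀ x ∈ reps, x ≠ 1 → x ∈ ([108, 92, 136, 138, 148, 130, 112, 56, 27, 111, 90, 140, 143, 110, 98, 58, 91, 89, 94, 127, 28, 12, 61, 34, 141, 93, 145, 109, 129, 55, 115, 31, 13, 4, 146, 133, 116, 149, 88, 10, 82, 85, 152, 9, 35, 57, 51, 68] : List ℕ) := by decide
    exact all48 x (h2 x hx h1)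
  refine no_lift_of_reps fun x hx => ?_
  by_cases h1 : x = 1
  · subst h1
    exact excl_one key
  · exact key x hx h1

end Pool.Agent.T2H98.EGZ
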