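import Pool.Agent.T2H98.EGZ.C.D00

set_option autoImplicit false
set_option linter.unusedVariables false

namespace Pool.Agent.T2H98.EGZ.K.C00

open K

noncomputable def O0 : Nat → Nat := orc 58025 30 126 0xb00020000000c000300010003000800060001000000000017000a0005000100000000000300000000000000150000000400010003000000030008
  0x5a0000000072e00000003c0003b6002f400000002b7006950038300563005d3006c8008b30053a0056d0048c004b5005fc009b20000000000007240041c00000000d6000000014700070006f1000000094c00956000000000000000000000076b0000000327001f500000000000035a0044f009db009e500000000000022800805004fd000a3009230000a00000004590042600184007fb000ff006fb008e6001510021e002ea00838000000038d007380031d0017a006250059600989005300000000066007b3000000000000000009190025b008610000000000003f3005070003d00033000000000000099008bd0062f0028e000000086b000000066200000000cc0035000000003e90068b00284006be008f00000000761005c9002c1001eb002510000000658000000097f0082e00a1800a0e0048200000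
  0x1fcea0c3421003f9e4555842007f3aa203087f9e4555842004924a48208801fc92410211802aab3cc3021003f9659c0842007f23e597fc410b02208080013cd2024003f9e4555842007e4923092461841021fe49208124610100218033c8faa5822010009249c600118013cea283021000918404004600ff3a830d084009e69040010801fcca920c227df9e518108013cf20808210004127964044003efcf28c084005149e4041180020880c0bf41018088269b228002200e38e7944042007f3cd20308800fe654906110033cf2080821003f9d4186842001230808008c01fc619006118053cd2080021003f7df2c184c024924e30008c0018924104120032cf380002100238e794404200471be48210424605f9248c0462007f9d4181848004f3c8f809e72491023124aa20208001fe79e50611800aab3cc3021003f9e4555842004b3ce00008400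
noncomputable def S0 : Nat := 0x2101
theorem k0 : loop (f1 (tail O0 (outl outs) (mkE0 171798691863 3097) 20 36 21 38 31 39 9 16 13 11 26 42)
    Q2 Q3 Q4 Q5 Q6 Q7 Q8 Q9 Q10 Q11 Q12) S0 = true := by decide +kernel
noncomputable def O1 : Nat → Nat := orc 40633 19 83 0x17000000000002000000170005000300000002000400050003000000170004000700000000
  0xa00545003f300000002f30021d00000000000054f004c0005b50000000000000000011e00128002b600497004f30000000000000b800000001b700000001f400000000000005200227002830015b0028d0005c00000005de005e80048d0031c001ea002e9002c0000eb000000000000582003640008f0061b003b6004ca0064e0036e003c000085002500000000000003e90015100184000f500000005ab004fd000000000000000000000018e0057800611000c20043b00000001c1000000044500000000000025a0000000644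
  0x821230208801fe79e51a110011c73c830210027915504044004b2cea8c09800fe754602120013cea283259e7000082004f3c8080090009679c00010800a1a68820d35518108c01cf3a8a0cfe596702208013cb2080023002694b1817f216081100049e7904051c73c830411049d418118013cd20800210024927180046004f33ea8c08c009e594104118013cf248a821000410918104400aaacf30c08400965514401080524932848200067965041046007f3c8aab08400fe596702108002092c8802000bf9e5101ab3ce00011400
noncomputable def S1 : Nat := 0xc2000000000
theorem k1 : loop (f1 (tail O1 (outl outs) (mkE0 171798691863 3097) 20 36 21 38 31 39 9 16 13 11 26 42)
    Q2 Q3 Q4 Q5 Q6 Q7 Q8 Q9 Q10 Q11 Q12) S1 = true := by decide +kernel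

end Pool.Agent.T2H98.EGZ.K.C00
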