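import Pool.Agent.T2H98.EGZ.C.D00

set_option autoImplicit false
set_option linter.unusedVariables false

namespace Pool.Agent.T2H98.EGZ.K.C00

open K

noncomputable def O2 : Nat → Nat := orc 44197 27 114 0x30003000500020005000400000000000f000600050002000100060001000200000000000b0000000200010000001d000100120033
  0x87f00198000000049500000005bd000000000000000008b2007f000066000000046c00000008db00505000000068a004d2007bd0087500439008a800208003fc007c7006f0000000042f00823002a10082d002ca006bd00000004060000a00000001cb00109000000013c0026e002d40060f00297003070033a000000000000000000000023b00000000ff00231001650049f00000002fd00033001fe0000000000004fb00794000000058a00000003d3003300000000694003c9000d600657001d50016f006610036300000000cc00594005380074200000003a000070005c7000a3008e50036d0000000000006fa006c7004c8001a2000000003d00000002640052e00462007fa003960009900000000000000000561001320078a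
  0x3f9e45558420008228802080029679c00010800aab3cc3259e7000082007f3aa301090000419d5181100124938c202200245500402030c000107f4109468822a80010002fe75061a10801f9248c0422004918404004600fe69a08195534400209a082000915346002080724938c202200279e41010431c73ca202100267c91000460088212302088019e690400108012cf380002100010501000420148a92080088019249c100110013cb28c3022003f9a48c984000cf3c923e08c00fe7544061080124938c20220014527940044004aa9220008c019e79010012000aab3cc3021003f249184846008824ea02088009e7904041080122a4820022004918404004600a8a12488094019e690400108013cd2080021001451524104600ff2cb38108400
noncomputable def S2 : Nat := 0x46000000000000000000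
theorem k2 : loop (f1 (tail O2 (outl outs) (mkE0 171798691863 3097) 20 36 21 38 31 39 9 16 13 11 26 42)
    Q2 Q3 Q4 Q5 Q6 Q7 Q8 Q9 Q10 Q11 Q12) S2 = true := by decide +kernel
noncomputable def O3 : Nat → Nat := orc 46971 37 145 0x40001000000000001000000000010000b0002000000000001000d001a00000004000c0009000000010002000a0000000b001e000100000000001b00020000000a0007001100000002
  0xc0d007dc00a2d00000003070064d000000000000396008b3004770093800b18000000044400a930074d005b400be40000000710009a80000000000000000000000000006430029700975003300044e004dd00000000000000000000009d100070002a10000000000001cb002fd00a890061000000000000041b00bb1008f0008bd0023b00abc0003d0000000a560000000231001a2000ff00776003e8000000058100a60002ca00695007b3005770052500208001320061a0036d005dd0009900b740016500b0e00a23001fe000a30080500c400006600ac600198004110026e0000000b41004810099e004b400000000cc0013c004aa0000000c1700000000000052f003de00b7e00000000000071a008800094200033005e700b4b0000a0000000363000000078000000000000000000000002d40088a0026400c4a00000007a9005aa000d60074300109008e60080f0016f0033a006e7006dd00ba70096b009db00bda001d500838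
  0x1230c000088019e755410120011c73ca202100279e4101042004f3c6a0208c009e77d40011001fcea0c342100279e41014b3ce000104009e79040410801fcea0c3421001452a1840400328a4f2801049d500210012cf38000210024927180046001230c000088017df9e5193cd208004100010679a5042004f3bea0008800fe79a50324938c00435559e61810800aab3ca30235559e518118013cf2080821000d36694004001fe492301088019679c00010801fca48007f9a48c98803124820bf99f24688800befcf28c084009249500410804a293ca0022003f4100408480108212302915241002100324880c23f8d54048805820800022010918404004600cb3ce000084007df24400128033cb28c3022003f9df249c924e08010a59e7000042004b3ce00008400fe596702108012cf380002100259e7000042004f3c820208400fe596702108013cf2080821003f924549840008001a302090039a65143411007fcea880c2100238df24604600c71cf288084009245553412007fcea880c21003f9d5101842007f2cb38108400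
noncomputable def S3 : Nat := 0x1180000000000000000000
theorem k3 : loop (f1 (tail O3 (outl outs) (mkE0 171798691863 3097) 20 36 21 38 31 39 9 16 13 11 26 42)
    Q2 Q3 Q4 Q5 Q6 Q7 Q8 Q9 Q10 Q11 Q12) S3 = true := by decide +kernel

end Pool.Agent.T2H98.EGZ.K.C00
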