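import Pool.Agent.T2H98.EGZ.C.D00

set_option autoImplicit false
set_option linter.unusedVariables false

namespace Pool.Agent.T2H98.EGZ.K.C00

open K

noncomputable def O27 : Nat → Nat := orc 62813 14 58 0x600000000000500020000000b001100050002000000100002
  0x8500151001ea000eb00412002d50008f000000003d000000000000408001f4001b7003780018e000000021d0003300128000000030800000000000047800000002270033b000000043b000f5004a10000a0015b001c1000000000000000002500011e00000000000000000000002df004450025a00312000b8000c2003c00036e0046e002a2004ab00345002ac00184
  0x9249c100110012cf3800021000924410004800c71ca48808001fcd365066cb2820840fe48cd02aaaa1a004100d555424004600aaacf30c0840034618410108073cf248a82100279e40404f3c83081100024610100118033cf2020024003f99524184400cf3c8202084005559e61810801fcb2ce0421002696424004800ff3c8aab084009249c10011001fcb2ce0659e7000082003efaaace09000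
noncomputable def S27 : Nat := 0x5000004000000000000000000000000000000000000000000000000000000000000000000000000000000000000000000000000000000000000000000000000000000000000000000000000000000000000000000000000000000000000000000000000000000000000000000000000000000000000000000000000000000000000000000000000000000000000000000000000000000000000000000000000000000000000000000000000000000000000000000000000000000000000000000000000000000000000000000000000000000000000000000000000000000000000000000000000000000000000000000000000000000000000000000000000000000000000000000000000000000000000000000000000000000000000000000000000000000000000000000000000000000000000000000000000000000000000000000000000000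
theorem k27 : loop (f1 (tail O27 (outl outs) (mkE0 171798691863 3097) 20 36 21 38 31 39 9 16 13 11 26 42)
    Q2 Q3 Q4 Q5 Q6 Q7 Q8 Q9 Q10 Q11 Q12) S27 = true := by decide +kernel
noncomputable def O28 : Nat → Nat := orc 60223 17 69 0x15000000350005000a000e0007000900010000000100030008000c00020001
  0xd7000000039100515002000051f000000067000000005ae00486000850000000000005e10008f004ec00114006e0006a300147006d600548004af0047c006ad000000045300000000e10000a0036800000002af005d7003ce002480039b004200000000000000000000000052003c40000000000004b9000000013d0035e0005c004160017a004e2000000060a0010a00552003160063d0057b00614005a4004490067a006470000000170
  0x13cd20800210009186000044009230c000088012461800011002fbf3ca3021001f7cd35504201aaaa8488088019e755410127f3c8fbf08c002495440410003fccf960c2101259e7000042002aacf282088009e48df101080069b34a002000e38e52444d21220010001fe7906061280048c202002300677c9180124caf8c109f7e79464f3a8a0cfe75440630feaab3819659e6193cea0c20659e7a860554f1be30421049e404a293820279645007f3cea83218007df5559c12000fbf3ca30210004109181044008824ea029249c1002100030d3aa082300279650417f3cd28110c00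
noncomputable def S28 : Nat := 0x3080000000000000000000000000000000000000000000000000000000000000000000000000000000000000000000000000000000000000000000000000000000000000000000000000000000000000000000000000000000000000000000000000000000000000000000000000000000000000000000000000000000000000000000000000000000000000000000000000000000000000000000000000000000000000000000000000000000000000000000000000000000000000000000000000000000000000000000000000000000000000000000000000000000000000000000000000000000000000000000000000000000000000000000000000000000000000000000000000000000000000000000000000000000000000000000000000000000000000000000000000000000000000000000000000000000000000000000000000000000000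
theorem k28 : loop (f1 (tail O28 (outl outs) (mkE0 171798691863 3097) 20 36 21 38 31 39 9 16 13 11 26 42)
    Q2 Q3 Q4 Q5 Q6 Q7 Q8 Q9 Q10 Q11 Q12) S28 = true := by decide +kernel

end Pool.Agent.T2H98.EGZ.K.C00
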