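import Pool.Agent.T2H98.EGZ.C.D00

set_option autoImplicit false
set_option linter.unusedVariables false

namespace Pool.Agent.T2H98.EGZ.K.C00

open K

noncomputable def O4 : Nat → Nat := orc 56409 22 97 0x900000005000000020006000d00010000000100010004000000010000000200030001000100000002
  0x2c10048200146006d200099002130062f00000004e8004b5003640054e001cb00000000000051b000d60021d001980038d00577004ab0000000070003970072e00000005810000000000000000026f000a3005e700298000000000000331007380000000000000cc00033002cb0066200000003df0000000066000000035a0000000000006c800109000000069f00132006fb00000002fe0000000544004de0063900695001c1005aa000ff00000000000003d004450000000705002f40041c00000003e900000000000066c0041200000005110044f00000003270018e005b4004780000a005dd00000002650013c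
  0x1fcf34a0423003f9d5180848007f2cb381084001049d418118013cea28302100238e794404200212ca30c1045500020005fcea0c0c24000b2e57c1044022aacf30c084009679c0001080124938c20220024927184044000822a800080029a324100110033cb282082300279d418404a0048aa030040104000220053cd20800210026963510048014924e30808800fe754602120013cd28c08248e39e500120000013a8315567941084007f3cf28d9e77d400210008202080023008b1840400824ea021080400259e7000042007f2be80309002fe75061a108012cf3800021001096518604001471cf20c08400
noncomputable def S4 : Nat := 0x2002000000000000000000000000000000004000000000000000000000
theorem k4 : loop (f1 (tail O4 (outl outs) (mkE0 171798691863 3097) 20 36 21 38 31 39 9 16 13 11 26 42)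
    Q2 Q3 Q4 Q5 Q6 Q7 Q8 Q9 Q10 Q11 Q12) S4 = true := by decide +kernel
noncomputable def O5 : Nat → Nat := orc 58865 45 177 0xf000400060000000c00020001000500010000000100000002000000070003000c000e00000002000b0003000300070001001f0007000f000000000000000000000000000100060002000a0009000e00110000000000080019
  0xc6000fc500ca70040900e870000000c9d0035100a24001ff0046500c3700bc70073a002280015100e0c00109003cc000000017a000ff0062600a8a000000000000c2d00d4000e02000cc000000009900033001f5004b7004ad0086c00a5700f40003a300c6a00d69000a3000d6005830090600ed900dd900b94005f3007aa0068c009c8003470025b0000000ab300b2e0031e00546009f1008b400000007dd00000002ad00e3f0007000b6b007a00061c009be00066000000000000fcf00d0d00b9e00f7d007d300000003d6000000003d0055a00000001cc00b05006d40077700a4d008620000000399005b600cda0083900c7400000006de00711005c000976000000096c0082f00d0300da60000000550004e0008be0051d00abd004ea00000009100064f009fb000000000000f730000000bd1000000093900000007440076d000000000000cd00000000d3600c04000000058d00232000000000000b6100bfa0026500a8000dcf000000000000000001c20000000b3800d7300659003ff00000005e900d9c0000000e910043200943000000068200000008060043c003140000a0000000000005130070700000000000000000f4a00e35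
  0xfe3340021280659630c0bf2c6041882024f2c820008c00fd45091a492a880a69091000c12cb21222550910108600fe2085819942c100208093cf208082100279d4506042007f3aa20308400fe59670210801fcf22aac2100041267d004201471ca488080019249c6001180020880c08210080095524400118022093aa0022003f404000846017e492301088018e39e510108011c73c830210006195341040208a1a30d36694008001ff3aa203084002638c104128020013aa2023fe754406108013cf1aa002300041275014924e080108009679c000108013cd208002100259e70007f3aa203104008e37c9052caa284842004d041000042018c32848809a69a324404a00caa9220008c019e791f00130013c91be202100279e58c004c007f3aa2030840050924618492a880840007f9d5101842007f2cb381084007df9e518108011c73c8302100279df500044007e4880010900100279e3540046007ef9a30309403fe65490611003fa8a1237f909101881fccf92342400668c918404400820cea8c08800fe654906110020833cd2bf9d4186882004924e30008c0055551011fcefa08504275000c20013a8324927040084001230c00008801fe65490611003f92482042300492441004f3c808011279e4101043fcea880e79e4101082004f3c922a084009e77d4001100020880c0821009596524904a00cf3c820208400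
noncomputable def S5 : Nat := 0x3000004000000000000000000000000000000000000000000000000000000000
theorem k5 : loop (f1 (tail O5 (outl outs) (mkE0 171798691863 3097) 20 36 21 38 31 39 9 16 13 11 26 42)
    Q2 Q3 Q4 Q5 Q6 Q7 Q8 Q9 Q10 Q11 Q12) S5 = true := by decide +kernel

end Pool.Agent.T2H98.EGZ.K.C00
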