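import Pool.Agent.T2H98.EGZ.C.D00

set_option autoImplicit false
set_option linter.unusedVariables false

namespace Pool.Agent.T2H98.EGZ.K.C00

open K

noncomputable def O6 : Nat → Nat := orc 58723 3 14 0x2000c0000
  0x3d000cc00000000a30000000000000d6000990007000066000000000a0003300000
  0x2aacf30c08400509181001300248c30000220041067546044004f22aa0008c00
noncomputable def S6 : Nat := 0x1000001100000000000000000000000000000000000000000000000000000000000000000
theorem k6 : loop (f1 (tail O6 (outl outs) (mkE0 171798691863 3097) 20 36 21 38 31 39 9 16 13 11 26 42)
    Q2 Q3 Q4 Q5 Q6 Q7 Q8 Q9 Q10 Q11 Q12) S6 = true := by decide +kernel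
noncomputable def O7 : Nat → Nat := orc 54557 21 84 0x1a000400000001000e0003000100180002000200050007000100050004000000000001000000010001
  0x46200066000000000000661000700016f000000000000000005240026400231004f10026e000000000000495000000003d006380023b005fb000000033a0019800330000ff001d500000000cc0020800580000000062e000000010900000002ca000990013c000000060500000003070000000458002a1003a0005a9000000013200033003c90066b0048b002d4004c8000d6000000042f0029700000003fc004250052e001cb000a3005b30000a003960000000576004fb004be0000000165002fd00363003d30036d001a200000001fe
  0xfc92460211003fcea0c3421003f9659c0842004f3bea009249c1002100122a48c002300649101847efa88011000224610100118033cea0c202500279a4100042004924e308088008e37d004108053cea0c20257df5552c1000922a48c2022005424918604000c71cf28808400fe790606128013cf1aa0023002596754604c004f22aa0808800fe79940613001fcf22aac2100101861040480120082000090025559e6181080134ca28802300bf9659c0842003efcf28c084009e79040410801fcea0c3421003f9659c0842004f3c8f8009800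
noncomputable def S7 : Nat := 0x3000000000000000000000000000000000004000000000000000000000000000000000000000000000000000000000000000000000000
theorem k7 : loop (f1 (tail O7 (outl outs) (mkE0 171798691863 3097) 20 36 21 38 31 39 9 16 13 11 26 42)
    Q2 Q3 Q4 Q5 Q6 Q7 Q8 Q9 Q10 Q11 Q12) S7 = true := by decide +kernel
noncomputable def O8 : Nat → Nat := orc 64487 8 34 0x1300170006000800000000
  0x33001f60000000300002670025d000000029a001a40000a0039a00290000000016700000000000019a003a4003290008f0003d0000000000001000000000000001ec002f600066002c300099002cd0033300171
  0x1fcf3ca0c2300238cd3407f19a00196550d00328072cf3800021003f8d5404840014f3c922a084009e751418108012cb3aa3279e47c04f2c8a001980040618410802080004400bf9e4555842004f2ca0829249c6013cb20800639e455401fcf3ca0e79650410c6000004f20c09a796450004c004924e30808800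
noncomputable def S8 : Nat := 0x2000000000000000000000000000000000000000000000000000000000000000000000000000000000000000000000000000000000000000
theorem k8 : loop (f1 (tail O8 (outl outs) (mkE0 171798691863 3097) 20 36 21 38 31 39 9 16 13 11 26 42)
    Q2 Q3 Q4 Q5 Q6 Q7 Q8 Q9 Q10 Q11 Q12) S8 = true := by decide +kernel

end Pool.Agent.T2H98.EGZ.K.C00
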