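import Pool.Agent.T2H98.EGZ.C.D00

set_option autoImplicit false
set_option linter.unusedVariables false

namespace Pool.Agent.T2H98.EGZ.K.C00

open K

noncomputable def O11 : Nat → Nat := orc 45483 8 37 0x200220000000000000002
  0x1ea000700000000000001f400000000000013200000001b700165002270006600099000000000000000000a30013c000000000a000cc002500016f000000003d000d600000001090025a000000021d00000000ff00033001c1
  0x7e492301088015149e40411800aab3cc30210004127540044002084d202104510042000522a48200220055567941044007f2cb3810840055598918100033cb208002300279e41010420048fa008008c02
noncomputable def S11 : Nat := 0x40000004000000000000000000000000000000000000000000000000000000000000000000000000000000000000000000000000000000000000000000000000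
theorem k11 : loop (f1 (tail O11 (outl outs) (mkE0 171798691863 3097) 20 36 21 38 31 39 9 16 13 11 26 42)
    Q2 Q3 Q4 Q5 Q6 Q7 Q8 Q9 Q10 Q11 Q12) S11 = true := by decide +kernel
noncomputable def O12 : Nat → Nat := orc 57979 11 46 0xd00000001000000260001001b0001000100090000
  0x31d0003d00132000000000000000001ff001840028e002840025b000a3002ea0035a0000000000000d60038300099002f400070000ff003270013c002b7003b600000000000035000209003c0001d600000002510038d002c1000cc001cc001090000000066000330000a00000
  0x2093a8302300238e7554042004f2c820008c00fe451002118052493820022002492524104400a8a4f280088009679c000108013cf1aa024927180086004f3482000840092440610208aa0004091540600802080004400a79e491f046000824ea80088005559e618108013ccfaa0822000624904104800ff2aa68308803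
noncomputable def S12 : Nat := 0x7000000000000000000000000000000000000000000000000000000000000000000000000000000000000000000000000000000000000000000000000000000000
theorem k12 : loop (f1 (tail O12 (outl outs) (mkE0 171798691863 3097) 20 36 21 38 31 39 9 16 13 11 26 42)
    Q2 Q3 Q4 Q5 Q6 Q7 Q8 Q9 Q10 Q11 Q12) S12 = true := by decide +kernel
noncomputable def O13 : Nat → Nat := orc 45077 16 87 0x1000100020006000000040000000b00010000000d00010000000000080000
  0x46d0000a00000002d40038c0023b001a20000000000003b5000000000000070000000016f002970034f0000000000000000016500000000000040700326001fe000ff0003d000000043a000000000000000000000035900000004f2000000000000000000000000000000002640013c0041100000000000000000066003bf000cc00444001980000000109000a3001cb000d6002ca001d50000000099004770038200132000000000000000004bf00000002080000000231004fc00000000000031c004c9002a1000000026e00033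
  0x13cea28302100279d45060420028a4f2809249c10021000aab3cc3021000d34618104401d5547180fea8c0022080d3cea28302100279e3501046004aa20300084029e690401fcf22aac41003f9659c0842004b292480080019e77d40011001fcb2ce042100279df500044007f3aa203084009e790404108013cd208002100279e4040048007f2cb381084009542460011002a2938c20260004127506046007f3aa20308400
noncomputable def S13 : Nat := 0x3002000000000000000000000000000000000000000000000000000000000000000000000000000000000000000000000000000000000000000000000000000000000000000000000000000000000000000000000000000000000000000000000000000000000000000000000000000000000000000000000000000000000000000000000000000000000000000000000000000000000000000000000000000000000000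
theorem k13 : loop (f1 (tail O13 (outl outs) (mkE0 171798691863 3097) 20 36 21 38 31 39 9 16 13 11 26 42)
    Q2 Q3 Q4 Q5 Q6 Q7 Q8 Q9 Q10 Q11 Q12) S13 = true := by decide +kernel

end Pool.Agent.T2H98.EGZ.K.C00
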