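import Pool.Agent.T2H98.EGZ.C.D00

set_option autoImplicit false
set_option linter.unusedVariables false

namespace Pool.Agent.T2H98.EGZ.K.C00

open K

noncomputable def O14 : Nat → Nat := orc 61419 10 45 0x3000400010001000000000001000800000003
  0x328000990000a002d60027000066000000000000000002cc0007000000000000038e0000000000000000013d0003300351000000017000000002990000000233003840026600000001c20017a00000000cc000d600000000a3001470023d0035b0031e000000003d00000002a3001eb
  0x4b1a008008c0204140400108051c73bea023003f9d4186cb3ce000104009249c60011801fcea880c210004127540044004f3a8a0c9543440420cf3c6a0208e59e70004f246f881040095424600110031c73c83279d45064b3ce000184001049d500110013cf248a82100279a4100042000824ea8008800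
noncomputable def S14 : Nat := 0x4000004000000000000000000000000000000000000000000000000000000000000000000000000000000000000000000000000000000000000000000000000000000000000000000000000000000000000000000000000000000000000000000000000000000000000000000000000000000000000000000000000000000000000000000000000000000000000000000000000000000000000000000000000000000000000000
theorem k14 : loop (f1 (tail O14 (outl outs) (mkE0 171798691863 3097) 20 36 21 38 31 39 9 16 13 11 26 42)
    Q2 Q3 Q4 Q5 Q6 Q7 Q8 Q9 Q10 Q11 Q12) S14 = true := by decide +kernel
noncomputable def O15 : Nat → Nat := orc 61805 12 53 0x1e0001000f0000000000000000000000020004000e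
  0x1980038d003500028400000002c1003df00151002130003300000004310021d0003d0011e0015b00000002ea000000031d0007000000000eb0000a00000001840000000000003270000000000002b700000000a300000001e0000f50018e0035a001ea0000000128002f40028e0000000383003d5000660042700099
  0x3f186401846014b3ce000fe596702208013468020245500400820120082000090029e68d400118013cd1a80023003f41054484a014f348200084009e7514193cf2080a59e70000c2004b29248008001fdf35556d34a8c0841014039a324600118033cb28c3022002550918004400924aa2029652490020002a2938c2026003f9659c0842007f3a830d08400
noncomputable def S15 : Nat := 0x80000000000000000000000000000000000000000000000000000000000000000000000000000000000000000000000000000000000000000000000000000000000000000000000000000000000000000000000000000000000000000000000000000000000000000000000000000000000000000000000000000000000000000000000000000000000000000000000000000000000000000000000000000000000000000000000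
theorem k15 : loop (f1 (tail O15 (outl outs) (mkE0 171798691863 3097) 20 36 21 38 31 39 9 16 13 11 26 42)
    Q2 Q3 Q4 Q5 Q6 Q7 Q8 Q9 Q10 Q11 Q12) S15 = true := by decide +kernel
noncomputable def O16 : Nat → Nat := orc 45481 11 44 0x100000000000010000000200090005000000060006
  0x227000cc00297000000015b002ca000330000000000002c0001320000000330001fe0000000099001f400070002fd002310025a001c100198000d6000ff002640000000326001090028d002f30003d0000a001cb001650018e000a30000000066
  0x11c73ca0024003f9659c0842007f2be68d090030009d418110013cefa80022003f9e794184600124c918008c0195424600110033a82020023003f9e7941846007f3cd2c709441275400440028a4f20208c00fe75061a10801fceaa80c25003f9d4186842004924e08008800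
noncomputable def S16 : Nat := 0x3100000000000000000000000000000000000000000000000000000000000000000000000000000000000000000000000000000000000000000000000000000000000000000000000000000000000000000000000000000000000000000000000000000000000000000000000000000000000000000000000000000000000000000000000000000000000000000000000000000000000000000000000000000000000000000000000
theorem k16 : loop (f1 (tail O16 (outl outs) (mkE0 171798691863 3097) 20 36 21 38 31 39 9 16 13 11 26 42)
    Q2 Q3 Q4 Q5 Q6 Q7 Q8 Q9 Q10 Q11 Q12) S16 = true := by decide +kernel

end Pool.Agent.T2H98.EGZ.K.C00
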