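import Pool.Agent.T2H98.EGZ.C.D00

set_option autoImplicit false
set_option linter.unusedVariables false

namespace Pool.Agent.T2H98.EGZ.K.C00

open K

noncomputable def O20 : Nat → Nat := orc 44955 6 29 0x200030001000100000004
  0x198000000000a00033000d6000000000000132000000009900000001a2001d5000000007000000000000016f00000000cc000ff000000016500066000a3001090003d001cb0013c
  0x3f9d5101842004f2c820008c009679c0001080048c30820230044127540044004ea0808008c008e39e418108012cf3800021003f94900084000ff32a48308801
noncomputable def S20 : Nat := 0x1081000000000000000000000000000000000000000000000000000000000000000000000000000000000000000000000000000000000000000000000000000000000000000000000000000000000000000000000000000000000000000000000000000000000000000000000000000000000000000000000000000000000000000000000000000000000000000000000000000000000000000000000000000000000000000000000000000000000000000000000000000000000000000000000000000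
theorem k20 : loop (f1 (tail O20 (outl outs) (mkE0 171798691863 3097) 20 36 21 38 31 39 9 16 13 11 26 42)
    Q2 Q3 Q4 Q5 Q6 Q7 Q8 Q9 Q10 Q11 Q12) S20 = true := by decide +kernel
noncomputable def O21 : Nat → Nat := orc 59849 9 42 0x10001000d000d0000001300010000
  0x85001c4002af001f7000000000000134000000041f0033400000000000000000301000000032a0017c002f70037c0000000249004150007b0000a003ec003af00286003b9001ce000000000000000003860027c00201003e200052000ec00253000000000000000
  0x9679c000108013cefa8002200238e7906042004aa1230008801fe79e5073cb2080043002492799404200471ceaa8fe75061a20cb3ce20809000fe75061a1080058c30820b2e57c1084024924e30808800fe794407fc668004455149e4053a820200439e77d40124938c20421049d418a293c80a79e35010c600020cea8c08a79651864924e30810800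
noncomputable def S21 : Nat := 0x182000006000000000000000000000000000000000000000000000000000000000000000000000000000000000000000000000000000000000000000000000000000000000000000000000000000000000000000000000000000000000000000000000000000000000000000000000000000000000000000000000000000000000000000000000000000000000000000000000000000000000000000000000000000000000000000000000000000000000000000000000000000000000000000000000000000000
theorem k21 : loop (f1 (tail O21 (outl outs) (mkE0 171798691863 3097) 20 36 21 38 31 39 9 16 13 11 26 42)
    Q2 Q3 Q4 Q5 Q6 Q7 Q8 Q9 Q10 Q11 Q12) S21 = true := by decide +kernel

end Pool.Agent.T2H98.EGZ.K.C00
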