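import Pool.Agent.T2H98.EGZ.C.D01

set_option autoImplicit false
set_option linter.unusedVariables false

namespace Pool.Agent.T2H98.EGZ.K.C01

open K

noncomputable def O0 : Nat → Nat := orc 44673 4 22 0x600010000
  0x7000033000ff0009900000000000000000000000cc00066000000000000000000000003d00000000d60000a00109000a30000000000
  0x101c608104400165a030008400082404001100082038600260010404100042001682038e08800
noncomputable def S0 : Nat := 0x40000000004000000000
theorem k0 : loop (f1 (tail O0 (outl outs) (mkE0 264243 2630) 7 2 3 17 10 16 13 8 12 15 9 14)
    Q2 Q3 Q4 Q5 Q6 Q7 Q8 Q9 Q10 Q11 Q12) S0 = true := by decide +kernel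
noncomputable def O1 : Nat → Nat := orc 41001 37 147 0x4000d0001000000010001002700050001000200030008000f000000220003002900000000000300300001000f00010001000c00000005001500000000000800000006000200050005
  0x6950018e00000001c100250002270015b009a70015100be300bba0028d0044e006250090400000000000000000b350000a0000000000006fb0041b00000005aa0000000705007380000000b7d0084c00a5f00ae400889000520000000b870011e0066200000009b10000000085002e900425007e600b0200c160000000941002f30048b00000000000078a001f40087f00000008560062f0000000000000000096a00a690000000000000000000000a2c0021d00780004e700abb008d10068b004f100bb000000009e40035900bed000b80012800af80005c007f0006d20028300ab100aee008db003b50069f00458002b600000003820090e001ea000c200823003bf00326007b3005a000b0c00184006c80038c005f20000000c2000a36004b40099d0097400462002c000937000f5007bd00658003f2001b7003e80000000000000000025a000000000000000005fc00000000000008f0053900000000eb0031c0034f004be0072e009da00819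
  0x8a03840021000515140104200061a0280094000c34040812800410808108082000083fa080a242201805010004101c20413000208806086190140086000822018208c003cb2c001f9e3840446010514918304002804820208002100061900c2044002280a20608400082450181080082028a10a2901c1082007e70c185080061c7401001100082020400240005410000048002028a18608c001454500482020800410006190102046001862208009803fcf1c1061080801fe618181090031c74010011000618208182200c20901002038c18010800150400008202040104112c40c881658a29041128608c00202861020940020614100130412020008803000a28e180040032030408008c003471c208118023208020821003f30c14384001a080820008400410145081080039a682082400471d0184044007e69a10108801fd0405121100068208000250041050143044001469a00008c011904010410800208806082300020901c604a000c32020408c00082450181080039a682082400491450c37e59218511005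
noncomputable def S1 : Nat := 0x1000000000000000000000
theorem k1 : loop (f1 (tail O1 (outl outs) (mkE0 264243 2630) 7 2 3 17 10 16 13 8 12 15 9 14)
    Q2 Q3 Q4 Q5 Q6 Q7 Q8 Q9 Q10 Q11 Q12) S1 = true := by decide +kernel

end Pool.Agent.T2H98.EGZ.K.C01
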