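import Pool.Agent.T2H98.EGZ.C.D01

set_option autoImplicit false
set_option linter.unusedVariables false

namespace Pool.Agent.T2H98.EGZ.K.C01

open K

noncomputable def O2 : Nat → Nat := orc 62693 16 76 0x2000f0002000a000000020000000500000011000000000002000000000002
  0x38d000000016f00227003fd00070000000000000000003ca003f300000000d6000ff004fc00000002ac003970003d0025a00000000000035a000000000000033001ea0046300000000cc004260000000000002df00364005250045900099000000025000308002d5001c10000000000003c0000000000000000004bf0052f000a3004f2000000000a00312001f400132000000010900496001b70006600000002a20048c00000000000000000430004c9001650021d00000000000013c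
  0xfd010002108003a08061821003f30c0c084801965a03000840010d3400010003fa02000421003f28a340846008209a28008c0128a4060c108005a080e3822000f3cb1c51e38c20011404fcc2841210006186808082200061881011042238811002082404001100028a8a00821000105010004a001c70c28838e103002000df94520242300104070c004c001820608008403fd0100021080038e8020022003f34d080844008e3a008008800
noncomputable def S2 : Nat := 0x101000000000000000000000000000000000000000000000000000000
theorem k2 : loop (f1 (tail O2 (outl outs) (mkE0 264243 2630) 7 2 3 17 10 16 13 8 12 15 9 14)
    Q2 Q3 Q4 Q5 Q6 Q7 Q8 Q9 Q10 Q11 Q12) S2 = true := by decide +kernel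
noncomputable def O3 : Nat → Nat := orc 48573 2 12 0x2
  0x7000066000000000000000000000003d000000000a0003300000
  0x82030c1824003f145400848002038c20008c00
noncomputable def S3 : Nat := 0x42000000000000000000000000000000000000000000000000000000000000000
theorem k3 : loop (f1 (tail O3 (outl outs) (mkE0 264243 2630) 7 2 3 17 10 16 13 8 12 15 9 14)
    Q2 Q3 Q4 Q5 Q6 Q7 Q8 Q9 Q10 Q11 Q12) S3 = true := by decide +kernel

end Pool.Agent.T2H98.EGZ.K.C01
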