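import Pool.Agent.T2H98.EGZ.C.D01

set_option autoImplicit false
set_option linter.unusedVariables false

namespace Pool.Agent.T2H98.EGZ.K.C01

open K

noncomputable def O23 : Nat → Nat := orc 55813 3 17 0x30005
  0xa3000d600000000000006600033000cc0000000099000000003d0000a0007000000000000000000000
  0xa2a28020840028a4070410801fa02881424000410c0c104001fe59680f08800
noncomputable def S23 : Nat := 0x180000000000000000000000000000000000000000000000000000000000000000000000000000000000000000000000000000000000000000000000000000000000000000000000000000000000000000000000000000000000000000000000000000000000000000000000000000000000000000000000000000000000000000000000000000000000000000000000000000000000000000000000000000000000000000000000000000000000000000000000000000000000000000000000000000000000000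
theorem k23 : loop (f1 (tail O23 (outl outs) (mkE0 264243 2630) 7 2 3 17 10 16 13 8 12 15 9 14)
    Q2 Q3 Q4 Q5 Q6 Q7 Q8 Q9 Q10 Q11 Q12) S23 = true := by decide +kernel
noncomputable def O24 : Nat → Nat := orc 50729 6 34 0x6000b0008000000030001
  0x1e000066000cc00033000e0002090010900165000000000000213001130007000000000000000000000000000000000000001d600099000000000000000000000000000000000a30015b0018e0003d000d60000a
  0xfd0100021080051468e082000400101832038c20010c20901000440020808200fd01000220800618806102100c00fd01c41213000820208002100042080c3046017e69a10108801
noncomputable def S24 : Nat := 0x3000000000000000000000000000000000000000000000000000000000000000000000000000000000000000000000000000000000000000000000000000000000000000000000000000000000000000000000000000000000000000000000000000000000000000000000000000000000000000000000000000000000000000000000000000000000000000000000000000000000000000000000000000000000000000000000000000000000000000000000000000000000000000000000000000000000000000000000000000000000000000000000000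
theorem k24 : loop (f1 (tail O24 (outl outs) (mkE0 264243 2630) 7 2 3 17 10 16 13 8 12 15 9 14)
    Q2 Q3 Q4 Q5 Q6 Q7 Q8 Q9 Q10 Q11 Q12) S24 = true := by decide +kernel

end Pool.Agent.T2H98.EGZ.K.C01
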