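import Pool.Agent.T2H98.EGZ.C.D01

set_option autoImplicit false
set_option linter.unusedVariables false

namespace Pool.Agent.T2H98.EGZ.K.C01

open K

noncomputable def O25 : Nat → Nat := orc 54053 3 16 0x100010000
  0xb80000000000000000005c000000005200000000000008f000c2000f5000eb0000a00085
  0x3f404000842001640c20008c024501c2001080030c8061022000d1840400a29a38c11401
noncomputable def S25 : Nat := 0xc0000000000000000000000000000000000000000000000000000000000000000000000000000000000000000000000000000000000000000000000000000000000000000000000000000000000000000000000000000000000000000000000000000000000000000000000000000000000000000000000000000000000000000000000000000000000000000000000000000000000000000000000000000000000000000000000000000000000000000000000000000000000000000000000000000000000000000000000000000000000000000000000000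
theorem k25 : loop (f1 (tail O25 (outl outs) (mkE0 264243 2630) 7 2 3 17 10 16 13 8 12 15 9 14)
    Q2 Q3 Q4 Q5 Q6 Q7 Q8 Q9 Q10 Q11 Q12) S25 = true := by decide +kernel
noncomputable def O26 : Nat → Nat := orc 52301 2 13 0x60000
  0x3d000990000a00066000700000000033000000000000000000a300000
  0x4501440c108002088060823003f404000842000a2a280208400
noncomputable def S26 : Nat := 0x2100000000000000000000000000000000000000000000000000000000000000000000000000000000000000000000000000000000000000000000000000000000000000000000000000000000000000000000000000000000000000000000000000000000000000000000000000000000000000000000000000000000000000000000000000000000000000000000000000000000000000000000000000000000000000000000000000000000000000000000000000000000000000000000000000000000000000000000000000000000000000000000000000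
theorem k26 : loop (f1 (tail O26 (outl outs) (mkE0 264243 2630) 7 2 3 17 10 16 13 8 12 15 9 14)
    Q2 Q3 Q4 Q5 Q6 Q7 Q8 Q9 Q10 Q11 Q12) S26 = true := by decide +kernel

end Pool.Agent.T2H98.EGZ.K.C01
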