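import Pool.Agent.T2H98.EGZ.C.D01

set_option autoImplicit false
set_option linter.unusedVariables false

namespace Pool.Agent.T2H98.EGZ.K.C01

open K

noncomputable def O27 : Nat → Nat := orc 48981 4 27 0x20001
  0x990003d0000000000000000000000070000000000000000000000000000000000a300000000ff000000000000000000d60000000066000000010900033000cc0000a
  0x3f28810384001041202000880044b204081000430c80a0023003f404000842000a2a059408400
noncomputable def S27 : Nat := 0x1000004000000000000000000000000000000000000000000000000000000000000000000000000000000000000000000000000000000000000000000000000000000000000000000000000000000000000000000000000000000000000000000000000000000000000000000000000000000000000000000000000000000000000000000000000000000000000000000000000000000000000000000000000000000000000000000000000000000000000000000000000000000000000000000000000000000000000000000000000000000000000000000000000000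
theorem k27 : loop (f1 (tail O27 (outl outs) (mkE0 264243 2630) 7 2 3 17 10 16 13 8 12 15 9 14)
    Q2 Q3 Q4 Q5 Q6 Q7 Q8 Q9 Q10 Q11 Q12) S27 = true := by decide +kernel
noncomputable def O28 : Nat → Nat := orc 48487 4 17 0xf000f
  0x7a00113000000003d00109000ad00000000e0000a3000330000a000700000000000000d600047
  0x1d04030c1080000080e08230005410000048007e8a0301088003871c5141100c01fe40e00108c02
noncomputable def S28 : Nat := 0x2000002000000000000000000000000000000000000000000000000000000000000000000000000000000000000000000000000000000000000000000000000000000000000000000000000000000000000000000000000000000000000000000000000000000000000000000000000000000000000000000000000000000000000000000000000000000000000000000000000000000000000000000000000000000000000000000000000000000000000000000000000000000000000000000000000000000000000000000000000000000000000000000000000000000000000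
theorem k28 : loop (f1 (tail O28 (outl outs) (mkE0 264243 2630) 7 2 3 17 10 16 13 8 12 15 9 14)
    Q2 Q3 Q4 Q5 Q6 Q7 Q8 Q9 Q10 Q11 Q12) S28 = true := by decide +kernel
noncomputable def O29 : Nat → Nat := orc 62983 9 38 0xb0008000b000000000000000000020000
  0x1f400000000000000000000002640018e00000000c200000000700028d001cb000660000000000000ff000000025a0000000227001320023100297001c1000cc0015b0000a0019800128000000016500000001fe000f500099000330003d
  0x34710304110028202080021003f405082842001a38e10408c01082404001100008268e2822007f405102848000e3a0080088001c74010011001f982860c2200ff410143847f9248c04200146190140046002080820008400
noncomputable def S29 : Nat := 0x1000000000000000000000000000000000000000000000000000000000000000000000000000000000000000000000000000000000000000000000000000000000000000000000000000000000000000000000000000000000000000000000000004000000000000000000000000000000000000000000000000000000000000000000000000000000000000000000000000000000000000000000000000000000000000000000000000000000000000000000000000000000000000000000000000000000000000000000000000000000000000000000000000000000000000000000000000000000000000000000000000000000000000000000000000000000000000000000000000000000000000000000000000000000000000000000000000000000000000000000000000000000000000000000000000000000000000000000000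
theorem k29 : loop (f1 (tail O29 (outl outs) (mkE0 264243 2630) 7 2 3 17 10 16 13 8 12 15 9 14)
    Q2 Q3 Q4 Q5 Q6 Q7 Q8 Q9 Q10 Q11 Q12) S29 = true := by decide +kernel

end Pool.Agent.T2H98.EGZ.K.C01
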