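import Pool.Agent.T2H98.EGZ.C.D01

set_option autoImplicit false
set_option linter.unusedVariables false

namespace Pool.Agent.T2H98.EGZ.K.C01

open K

noncomputable def O30 : Nat → Nat := orc 58943 3 18 0x10000
  0x330003d000a3000000000000066000cc00070000d6000990000000000000000000a00000000000000000000
  0x2038c18008800fc5150021200089a288182000471d0040044002280e10008400
noncomputable def S30 : Nat := 0x44000000000000000000000000000000000000000000000000000000000000000000000000000000000000000000000000000000000000000000000000000000000000000000000000000000000000000000000000000000000000000000000000000000000000000000000000000000000000000000000000000000000000000000000000000000000000000000000000000000000000000000000000000000000000000000000000000000000000000000000000000000000000000000000000000000000000000000000000000000000000000000000000000000000000000000000000000000000000000000000000000000000000000000000000000000000000000000000000000000000000000000000000000000000000000000000000000000000000000000000000000000000000000000000000000000000000000000000000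
theorem k30 : loop (f1 (tail O30 (outl outs) (mkE0 264243 2630) 7 2 3 17 10 16 13 8 12 15 9 14)
    Q2 Q3 Q4 Q5 Q6 Q7 Q8 Q9 Q10 Q11 Q12) S30 = true := by decide +kernel
noncomputable def O31 : Nat → Nat := orc 49939 1 7 0x0
  0x3d000330000a000000000000000
  0x41100c1046001451a38208001
noncomputable def S31 : Nat := 0x100000000000000000000000000000000000000000000000000000000000000000000000000000000000000000000000000000000000000000000000000000000000000000000000000000000000000000000000000000000000000000000000000000000000000000000000000000000000000000000000000000000000000000000000000000000000000000000000000000000000000000000000000000000000000000000000000000000000000000000000000000000000000000000000000000000000000000000000000000000000000000000000000000000000000000000000000000000000000000000000000000000000000000000000000000000000000000000000000000000000000000000000000000000000000000000000000000000000000000000000000000000000000000000000000000000000000000000000000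
theorem k31 : loop (f1 (tail O31 (outl outs) (mkE0 264243 2630) 7 2 3 17 10 16 13 8 12 15 9 14)
    Q2 Q3 Q4 Q5 Q6 Q7 Q8 Q9 Q10 Q11 Q12) S31 = true := by decide +kernel
noncomputable def O32 : Nat → Nat := orc 45483 8 37 0x40007000200000000000600010000
  0x1ad001e00017a000000013d000b800246001a30026f000c200052000000005c0021300000001700023c000000000000000001470000000279000000020900000000f50000000000000850000000000001d60008f000eb0000a00000
  0xa290183042002038c18008800407183001100068e206082200410481c5042017e80a20509000fd01000210801fa030a2504070c008c0014520306084000c3289081180a3208020821000d34b1c41469a00010c01
noncomputable def S32 : Nat := 0x1000000000000000000000000000000000000000000000000000000000000000000000000000000000000000000000000000000000000000000000000000000000000000000000000000000000000000000000000000000000000000000000000000000000000000000000000000000000000000000000000000000000000000000000000000000000000000000000000000000000000000000000000000000000000000000000000000000000000000000000000000000000000000000000000000000000000000000000000000000000000000000000000000000000000000000000000000000000000000000000000000000000000000000000000000000000000000000000000000000000000000000000000000000000000000000000000000000000000000000000000000000000000000000000000000000000000000000000000000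
theorem k32 : loop (f1 (tail O32 (outl outs) (mkE0 264243 2630) 7 2 3 17 10 16 13 8 12 15 9 14)
    Q2 Q3 Q4 Q5 Q6 Q7 Q8 Q9 Q10 Q11 Q12) S32 = true := by decide +kernel

end Pool.Agent.T2H98.EGZ.K.C01
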