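import Pool.Agent.T2H98.EGZ.C.D01

set_option autoImplicit false
set_option linter.unusedVariables false

namespace Pool.Agent.T2H98.EGZ.K.C01

open K

noncomputable def O33 : Nat → Nat := orc 51333 9 40 0x90000000b000100020000000000000001
  0x330013200000000000000000099001d500000000660008f00245000ff002c00018e0012800231000c2001fe002970000000000000cc000000000000000000f50000000000001c1002080023b00165001980028d0000a000000015b001cb0005c002ca
  0x7e30c80308400fc515002120008a069601040408008800801f9a68e1423004d34a1820440080008260a202000d1404040048001482020808c002cb4060010801fa02000421003f404000842000e39a300088011043460c11fe69a50709001
noncomputable def S33 : Nat := 0x3000004000000000000000000000000000000000000000000000000000000000000000000000000000000000000000000000000000000000000000000000000000000000000000000000000000000000000000000000000000000000000000000000000000000000000000000000000000000000000000000000000000000000000000000000000000000000000000000000000000000000000000000000000000000000000000000000000000000000000000000000000000000000000000000000000000000000000000000000000000000000000000000000000000000000000000000000000000000000000000000000000000000000000000000000000000000000000000000000000000000000000000000000000000000000000000000000000000000000000000000000000000000000000000000000000000000000000000000000000000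
theorem k33 : loop (f1 (tail O33 (outl outs) (mkE0 264243 2630) 7 2 3 17 10 16 13 8 12 15 9 14)
    Q2 Q3 Q4 Q5 Q6 Q7 Q8 Q9 Q10 Q11 Q12) S33 = true := by decide +kernel
noncomputable def O34 : Nat → Nat := orc 52979 1 10 0x0
  0x3d0003300000000000000a000000000000000
  0x3f30c1c4848019452030608400
noncomputable def S34 : Nat := 0x100000000000000000000000000000000000000000000000000000000000000000000000000000000000000000000000000000000000000000000000000000000000000000000000000000000000000000000000000000000000000000000000000000000000000000000000000000000000000000000000000000000000000000000000000000000000000000000000000000000000000000000000000000000000000000000000000000000000000000000000000000000000000000000000000000000000000000000000000000000000000000000000000000000000000000000000000000000000000000000000000000000000000000000000000000000000000000000000000000000000000000000000000000000000000000000000000000000000000000000000000000000000000000000000000000000000000000000000000000000000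
theorem k34 : loop (f1 (tail O34 (outl outs) (mkE0 264243 2630) 7 2 3 17 10 16 13 8 12 15 9 14)
    Q2 Q3 Q4 Q5 Q6 Q7 Q8 Q9 Q10 Q11 Q12) S34 = true := by decide +kernel
noncomputable def O35 : Nat → Nat := orc 52279 4 25 0x4000000030000
  0x7000033000cc00066000d60010900000000a3000000003d000000000000000000000000000000000ff0000a0000000099
  0xa2901c1042007e8a038d08c00186347081100282058e00230010404100042001452038208400
noncomputable def S35 : Nat := 0x4000000000000000000000000000000000000000000000000000000000000000000000000000000000000000000000000000000000000000000000000000000000000000000000000000000000000000000000000000000000000000000000000000000000000000000000000000000000000000000000000000000000000000000000000000000000000000000000000000000000000000000000000000000000000000000000000000000000000000000000000000000000000000000000000000000000000000000000000000000000000000000000000000000000000000000000000000000000000000000000000000000000000000000000000000000000000000000000000000000000000000000000000000000000000000000000000000000000000000000000000000000000000000000000000000000000000000000000000000000000000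
theorem k35 : loop (f1 (tail O35 (outl outs) (mkE0 264243 2630) 7 2 3 17 10 16 13 8 12 15 9 14)
    Q2 Q3 Q4 Q5 Q6 Q7 Q8 Q9 Q10 Q11 Q12) S35 = true := by decide +kernel

end Pool.Agent.T2H98.EGZ.K.C01
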