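import Pool.Agent.T2H98.EGZ.C.D01

set_option autoImplicit false
set_option linter.unusedVariables false

namespace Pool.Agent.T2H98.EGZ.K.C01

open K

noncomputable def O36 : Nat → Nat := orc 52137 2 12 0x1
  0xa3000330000a00000000990003d00066000000007000000
  0x410145081080051480e0821003f104203846017e82028908800
noncomputable def S36 : Nat := 0x6000000000000000000000000000000000000000000000000000000000000000000000000000000000000000000000000000000000000000000000000000000000000000000000000000000000000000000000000000000000000000000000000000000000000000000000000000000000000000000000000000000000000000000000000000000000000000000000000000000000000000000000000000000000000000000000000000000000000000000000000000000000000000000000000000000000000000000000000000000000000000000000000000000000000000000000000000000000000000000000000000000000000000000000000000000000000000000000000000000000000000000000000000000000000000000000000000000000000000000000000000000000000000000000000000000000000000000000000000000000000000000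
theorem k36 : loop (f1 (tail O36 (outl outs) (mkE0 264243 2630) 7 2 3 17 10 16 13 8 12 15 9 14)
    Q2 Q3 Q4 Q5 Q6 Q7 Q8 Q9 Q10 Q11 Q12) S36 = true := by decide +kernel
noncomputable def O37 : Nat → Nat := orc 63927 8 45 0x20000000500000000000400020004
  0xd600198002310000000000000330000000264001a20013c0000a00000000000000000000000000006600000000cc002080016f0026e000a30000000165001d5000700003d0000000000000000000000132001fe000000000000000001cb001090023b000990000000000000ff
  0xe3a028408c00041344081180280e3060022000b38e104044032268c20009001fd01440a1200080c1020023000a34d000046008c820082084004502c5001100008280a20230010404100042002081638008c00
noncomputable def S37 : Nat := 0x180000000000000000000000000000000000000000000000000000000000000000000000000000000000000000000000000000000000000000000000000000000000000000000000000000000000000000000000000000000000000000000000000000000000000000000000000000000000000000000000000000000000000000000000000000000000000000000000000000000000000000000000000000000000000000000000000000000000000000000000000000000000000000000000000000000000000000000000000000000000000000000000000000000000000000000000000000000000000000000000000000000000000000000000000000000000000000000000000000000000000000000000000000000000000000000000000000000000000000000000000000000000000000000000000000000000000000000000000000000000000000000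
theorem k37 : loop (f1 (tail O37 (outl outs) (mkE0 264243 2630) 7 2 3 17 10 16 13 8 12 15 9 14)
    Q2 Q3 Q4 Q5 Q6 Q7 Q8 Q9 Q10 Q11 Q12) S37 = true := by decide +kernel
noncomputable def O38 : Nat → Nat := orc 58723 3 14 0x10000
  0xb80008f0000a0000000033000f5000eb0000000000000000003d00000000c200085
  0x3f404000842002080a28408400fc71d00e1080082038e23f40504088c001452038208400
noncomputable def S38 : Nat := 0x6000000000000000000000000000000000000000000000000000000000000000000000000000000000000000000000000000000000000000000000000000000000000000000000000000000000000000000000000000000000000000000000000000000000000000000000000000000000000000000000000000000000000000000000000000000000000000000000000000000000000000000000000000000000000000000000000000000000000000000000000000000000000000000000000000000000000000000000000000000000000000000000000000000000000000000000000000000000000000000000000000000000000000000000000000000000000000000000000000000000000000000000000000000000000000000000000000000000000000000000000000000000000000000000000000000000000000000000000000000000000000000000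
theorem k38 : loop (f1 (tail O38 (outl outs) (mkE0 264243 2630) 7 2 3 17 10 16 13 8 12 15 9 14)
    Q2 Q3 Q4 Q5 Q6 Q7 Q8 Q9 Q10 Q11 Q12) S38 = true := by decide +kernel

end Pool.Agent.T2H98.EGZ.K.C01
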