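import Pool.Agent.T2H98.EGZ.C.D01

set_option autoImplicit false
set_option linter.unusedVariables false

namespace Pool.Agent.T2H98.EGZ.K.C01

open K

noncomputable def O39 : Nat → Nat := orc 55375 5 22 0xd0000000000030003
  0x15b000700000000099000d6000000000a0011e00184000cc0000000000001280003d000a300151000330000000066000000018e00000
  0x7e30c8030840019040104108008a02020024003f2c81c79038c102100021504000012000104608182600d040410004200165a030008400
noncomputable def S39 : Nat := 0x101000000000000000000000000000000000000000000000000000000000000000000000000000000000000000000000000000000000000000000000000000000000000000000000000000000000000000000000000000000000000000000000000000000000000000000000000000000000000000000000000000000000000000000000000000000000000000000000000000000000000000000000000000000000000000000000000000000000000000000000000000000000000000000000000000000000000000000000000000000000000000000000000000000000000000000000000000000000000000000000000000000000000000000000000000000000000000000000000000000000000000000000000000000000000000000000000000000000000000000000000000000000000000000000000000000000000000000000000000000000000000000000000000000000000000000000000000000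
theorem k39 : loop (f1 (tail O39 (outl outs) (mkE0 264243 2630) 7 2 3 17 10 16 13 8 12 15 9 14)
    Q2 Q3 Q4 Q5 Q6 Q7 Q8 Q9 Q10 Q11 Q12) S39 = true := by decide +kernel
noncomputable def O40 : Nat → Nat := orc 46487 6 30 0x40000000100000000
  0xeb000700000000128000000000000000000000000000000000000003d001c100000001b7000f50018400000000b8000000018e0011e000000003300151000c2000000000a000660015b
  0x3f40400084200165a0300084004101c3001300081658a282600020901000440000020284088000824040080e306004200101c60c0044000822018208c00
noncomputable def S40 : Nat := 0x5000000000000000000000000000000000000000000000000000000000000000000000000000000000000000000000000000000000000000000000000000000000000000000000000000000000000000000000000000000000000000000000000000000000000000000000000000000000000000000000000000000000000000000000000000000000000000000000000000000000000000000000000000000000000000000000000000000000000000000000000000000000000000000000000000000000000000000000000000000000000000000000000000000000000000000000000000000000000000000000000000000000000000000000000000000000000000000000000000000000000000000000000000000000000000000000000000000000000000000000000000000000000000000000000000000000000000000000000000000000000000000000000000000000000000000000000000000000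
theorem k40 : loop (f1 (tail O40 (outl outs) (mkE0 264243 2630) 7 2 3 17 10 16 13 8 12 15 9 14)
    Q2 Q3 Q4 Q5 Q6 Q7 Q8 Q9 Q10 Q11 Q12) S40 = true := by decide +kernel
noncomputable def O41 : Nat → Nat := orc 58943 3 18 0x5
  0xa3000cc000990003d000d6000000000000066000000000000000000700003300000000000000a
  0xa2a280208400407183001100068818200230050405142042000c32251008002
noncomputable def S41 : Nat := 0x4000000000000000000000000000000000000000000000000000000000000000000000000000000000000000000000000000000000000000000000000000000000000000000000000000000000000000000000000000000000000000000000000000000000000000000000000000000000000000000000000000000000000000000000000000000000000000000000000000000000000000000000000000000000000000000000000000000000000000000000000000000000000000000000000000000000000000000000000000000000000000000000000000000000000000000000000000000000000000000000000000000000000000000000000000000000000000000000000000000000000000000000000000000000000000000000000000000000000000000000000000000000000000000000000000000000000000000000000000000000000000000000000000000000000000000000000000000000000000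
theorem k41 : loop (f1 (tail O41 (outl outs) (mkE0 264243 2630) 7 2 3 17 10 16 13 8 12 15 9 14)
    Q2 Q3 Q4 Q5 Q6 Q7 Q8 Q9 Q10 Q11 Q12) S41 = true := by decide +kernel

end Pool.Agent.T2H98.EGZ.K.C01
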