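import Pool.Agent.T2H98.EGZ.C.D01

set_option autoImplicit false
set_option linter.unusedVariables false

namespace Pool.Agent.T2H98.EGZ.K.C01

open K

noncomputable def O45 : Nat → Nat := orc 58723 3 14 0xc0000
  0xa3000990000a000000003300070000000003d000d60000000066000cc0000000000
  0x1a38a180094012cb406001080082020400240005410000048002280e10008400
noncomputable def S45 : Nat := 0x2000000000000000000000000000000004000000000000000000000000000000000000000000000000000000000000000000000000000000000000000000000000000000000000000000000000000000000000000000000000000000000000000000000000000000000000000000000000000000000000000000000000000000000000000000000000000000000000000000000000000000000000000000000000000000000000000000000000000000000000000000000000000000000000000000000000000000000000000000000000000000000000000000000000000000000000000000000000000000000000000000000000000000000000000000000000000000000000000000000000000000000000000000000000000000000000000000000000000000000000000000000000000000000000000000000000000000000000000000000000000000000000000000000000000000000000000000000000000000000000000000000000000000000000000000000000000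
theorem k45 : loop (f1 (tail O45 (outl outs) (mkE0 264243 2630) 7 2 3 17 10 16 13 8 12 15 9 14)
    Q2 Q3 Q4 Q5 Q6 Q7 Q8 Q9 Q10 Q11 Q12) S45 = true := by decide +kernel
noncomputable def O46 : Nat → Nat := orc 55375 5 22 0x30000000200000005
  0x165000cc000000013200000000d600000000990016f00000000330000000000000660013c000000000a00109000ff0003d000a300070
  0xa290200202080002080428a80e0825000105010004a000a820000090002cb406001080038e8020022003f2cb407844007e80800108400
noncomputable def S46 : Nat := 0x40000000000000000000000000000000000000000000000000000000000000000000000000000000000000000000000000000000000000000000000000000000000000000000000000000000000000000000000000000000000000000000000000000000000000000000000000000000000000000000000000000000000000000000000000000000000000000000000000000000000000000000000000000000000000000000000000000000000000000000000000000000000000000000000000000000000000000000000000000000000000000000000000000000000000000000000000000000000000000000000000000000000000000000000000000000000000000000000000000000000000000000000000000000000000000000000000000000000000000000000000000000000000000000000000000000000000000000000000000000000000000000000000000000000000000000000000000000000000000000000000000000000000000000000000000000000000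
theorem k46 : loop (f1 (tail O46 (outl outs) (mkE0 264243 2630) 7 2 3 17 10 16 13 8 12 15 9 14)
    Q2 Q3 Q4 Q5 Q6 Q7 Q8 Q9 Q10 Q11 Q12) S46 = true := by decide +kernel
noncomputable def O47 : Nat → Nat := orc 43501 4 19 0x10001000c0000
  0xa000a3000700000000066000ff000000000000132000cc000d6000990013c0000000000000330003d0010900000
  0x1fa26880c22007f404000842002280a206084004501c2001080081450e3824003f4060c3848001a69630009401
noncomputable def S47 : Nat := 0x2100000000000000000000000000000000000000000000000000000000000000000000000000000000000000000000000000000000000000000000000000000000000000000000000000000000000000000000000000000000000000000000000000000000000000000000000000000000000000000000000000000000000000000000000000000000000000000000000000000000000000000000000000000000000000000000000000000000000000000000000000000000000000000000000000000000000000000000000000000000000000000000000000000000000000000000000000000000000000000000000000000000000000000000000000000000000000000000000000000000000000000000000000000000000000000000000000000000000000000000000000000000000000000000000000000000000000000000000000000000000000000000000000000000000000000000000000000000000000000000000000000000000000000000000000000000000000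
theorem k47 : loop (f1 (tail O47 (outl outs) (mkE0 264243 2630) 7 2 3 17 10 16 13 8 12 15 9 14)
    Q2 Q3 Q4 Q5 Q6 Q7 Q8 Q9 Q10 Q11 Q12) S47 = true := by decide +kernel

end Pool.Agent.T2H98.EGZ.K.C01
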