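import Pool.Agent.T2H98.EGZ.C.D01

set_option autoImplicit false
set_option linter.unusedVariables false

namespace Pool.Agent.T2H98.EGZ.K.C01

open K

noncomputable def O4 : Nat → Nat := orc 51701 11 46 0x200030001000200060005000100170004
  0x165002ca000000000a0000000000001fe0013c000000000000109001a2000cc001d5002fd00000001cb0019800033000000026400000002970026e0007000000002d4002a1000000000000330000990016f000d600066001320000000307000000003d0033a0023b00231000ff00208000a3
  0xc82008208400410102001200038e80200220001050143044001451a30608001410145081080030c8061022003f4060c384800041202000880041014508108002a08000024001140708004200020a0286088004501440c10800104808002200030d0101044002280e10008400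
noncomputable def S4 : Nat := 0x1000000000000000000000000000000000000000000000000000000000000000000000000
theorem k4 : loop (f1 (tail O4 (outl outs) (mkE0 264243 2630) 7 2 3 17 10 16 13 8 12 15 9 14)
    Q2 Q3 Q4 Q5 Q6 Q7 Q8 Q9 Q10 Q11 Q12) S4 = true := by decide +kernel
noncomputable def O5 : Nat → Nat := orc 51831 1 6 0x0
  0xa000000000000000
  0xe82018608400
noncomputable def S5 : Nat := 0x2000000000000000000000000000000000000000000000000000000000000000000000000
theorem k5 : loop (f1 (tail O5 (outl outs) (mkE0 264243 2630) 7 2 3 17 10 16 13 8 12 15 9 14)
    Q2 Q3 Q4 Q5 Q6 Q7 Q8 Q9 Q10 Q11 Q12) S5 = true := by decide +kernel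
noncomputable def O6 : Nat → Nat := orc 61367 4 23 0x10003
  0x33000000007000099000000000000066000000013c0000a00000000cc0003d000d600000000000010900000000a300132000ff0000000000
  0x1f986040c2400d01c60c0044000822280c090002081c70011804208806082300071d0040044000209a18408801
noncomputable def S6 : Nat := 0x140000000000000000000000000000000000000000000000000000000000000000000000000
theorem k6 : loop (f1 (tail O6 (outl outs) (mkE0 264243 2630) 7 2 3 17 10 16 13 8 12 15 9 14)
    Q2 Q3 Q4 Q5 Q6 Q7 Q8 Q9 Q10 Q11 Q12) S6 = true := by decide +kernel

end Pool.Agent.T2H98.EGZ.K.C01
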