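import Pool.Agent.T2H98.EGZ.C.D01

set_option autoImplicit false
set_option linter.unusedVariables false

namespace Pool.Agent.T2H98.EGZ.K.C01

open K

noncomputable def O7 : Nat → Nat := orc 61837 4 20 0x100010000
  0x85000000000000000000c20005c00000000eb0000000052000b8000000000a000000000000128000000008f000f50011e
  0x28a4080021008105014404600208082000840019040104108008a0384002100101451047e8a030110800
noncomputable def S7 : Nat := 0x3000000000000000000000000000000000000000000000000000000000000000000000000000
theorem k7 : loop (f1 (tail O7 (outl outs) (mkE0 264243 2630) 7 2 3 17 10 16 13 8 12 15 9 14)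
    Q2 Q3 Q4 Q5 Q6 Q7 Q8 Q9 Q10 Q11 Q12) S7 = true := by decide +kernel
noncomputable def O8 : Nat → Nat := orc 49943 5 25 0x50000000000080002
  0x13c0013200000000000003d00000001b7000000000a000d600099000000000000000000ff0003300109000a3000660007000000001650016f000cc
  0xc79e1863cf14408202278808044f1430820008320802082100101c608104400020a028808c00fca206121200482050a082200082050c1046012081428208800
noncomputable def S8 : Nat := 0x5000000000000000000000000000000004000000000000000000000000000000000000000000000000000000000000000000000000000
theorem k8 : loop (f1 (tail O8 (outl outs) (mkE0 264243 2630) 7 2 3 17 10 16 13 8 12 15 9 14)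
    Q2 Q3 Q4 Q5 Q6 Q7 Q8 Q9 Q10 Q11 Q12) S8 = true := by decide +kernel

end Pool.Agent.T2H98.EGZ.K.C01
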