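import Pool.Agent.T2H98.EGZ.C.D01

set_option autoImplicit false
set_option linter.unusedVariables false

namespace Pool.Agent.T2H98.EGZ.K.C01

open K

noncomputable def O9 : Nat → Nat := orc 44599 7 29 0x20002001b000000000009
  0x1a2000d6000700020800000000000016f0003d00000001cb001fe0003300000000660000000132001d50000000165000cc00198000ff000a3001090013c00000000990000a00000
  0x59680a08240008211101042012280a20608400451207101180482020800210005151401042007e82028708c002cb406001080059680c002100101c6100046007e41010108402
noncomputable def S9 : Nat := 0x5000000000000000000000000000000000000000000000000000000000000000000000000000000000000000000000000000000000000000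
theorem k9 : loop (f1 (tail O9 (outl outs) (mkE0 264243 2630) 7 2 3 17 10 16 13 8 12 15 9 14)
    Q2 Q3 Q4 Q5 Q6 Q7 Q8 Q9 Q10 Q11 Q12) S9 = true := by decide +kernel
noncomputable def O10 : Nat → Nat := orc 58123 13 62 0xa00000000000b000600000003000000000002000000000000
  0x3a1002fe00184000000000000000000d6000000020900000000000003d0000000000001d60040700000000990026f000000043a00000003080000a000ff0000000430002d5000700015b000000036e0000000298000cc001e0000a30000000000003970033b0018e0023c00000003d40003300109002650021300066003ca0000000151000000000000364003fd002cb00000002a20033100000
  0x14520382084000c3346101100251a6800023005140b140044002280e100084000c328804118043a080618210011405103042007e59038f08002fd010002108008a02881821450101001200069a58e202300441100c12030408010c00fd0185121300082058e006190140086007e30c803084004501440c1080051480e08210002090100044002080820008400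
noncomputable def S10 : Nat := 0x102000000000000000000000000000000000000000000000000000000000000000000000000000000000000000000000000000000000000000000000
theorem k10 : loop (f1 (tail O10 (outl outs) (mkE0 264243 2630) 7 2 3 17 10 16 13 8 12 15 9 14)
    Q2 Q3 Q4 Q5 Q6 Q7 Q8 Q9 Q10 Q11 Q12) S10 = true := by decide +kernel
noncomputable def O11 : Nat → Nat := orc 49939 1 7 0x0
  0x3d0000a00033
  0xd1c604600fe68a10109001
noncomputable def S11 : Nat := 0x1000000000000000000000000000000000000000000000000000000000000000000000000000000000000000000000000000000000000000000000000
theorem k11 : loop (f1 (tail O11 (outl outs) (mkE0 264243 2630) 7 2 3 17 10 16 13 8 12 15 9 14)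
    Q2 Q3 Q4 Q5 Q6 Q7 Q8 Q9 Q10 Q11 Q12) S11 = true := by decide +kernel

end Pool.Agent.T2H98.EGZ.K.C01
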