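import Pool.Agent.T2H98.EGZ.C.D01

set_option autoImplicit false
set_option linter.unusedVariables false

namespace Pool.Agent.T2H98.EGZ.K.C01

open K

noncomputable def O12 : Nat → Nat := orc 60903 9 46 0xe0000000200020001001a000600000000
  0x13c0026e00099001a200208002a10000000297001090016f00000001d5000d60023100264001fe0000000165000000023b000ff001cb0000a000000000000000001980003d000000000000000000a30003300000000cc001320000000066000000000000000000700000000000
  0x1134610004800fe80e18309000fd04050e1180010489a3020004f0c3000046022280e1000840041010200120002088060823000c1c610004001a08142820880034d2c70c1100218640c2021009040a141044007e82028708c00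
noncomputable def S12 : Nat := 0x3000000000000000000000000000000000000000000000000000000000000000000000000000000000000000000000000000000000000000000000000000000
theorem k12 : loop (f1 (tail O12 (outl outs) (mkE0 264243 2630) 7 2 3 17 10 16 13 8 12 15 9 14)
    Q2 Q3 Q4 Q5 Q6 Q7 Q8 Q9 Q10 Q11 Q12) S12 = true := by decide +kernel
noncomputable def O13 : Nat → Nat := orc 60955 12 50 0x100030008000000000012000f00050000000f0000
  0x33a002080016f00000001d5000000023b002fd00033000700000000198003a000297000d6000660003d002640030700000002d4003630000a000ff000a3002ca001a2001fe002a10013200165003300026e000000013c000000036d000000000000000003960000000000001cb000cc0010900000002310000000099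
  0x8a058a0022000b2d0180042000e3a0080088001c740100110001048080022003f2cb407844000412280c084004501c20010801fa02841421001140404004800061a02040940028a4060c108001048a030210002090100044000c31e2800940445140b1c10800320802082100000101c1046001452038208400
noncomputable def S13 : Nat := 0x40000000000000000000000000000000000000000000000000000000000000000000000000000000000000000000000000000000000000000000000000000000
theorem k13 : loop (f1 (tail O13 (outl outs) (mkE0 264243 2630) 7 2 3 17 10 16 13 8 12 15 9 14)
    Q2 Q3 Q4 Q5 Q6 Q7 Q8 Q9 Q10 Q11 Q12) S13 = true := by decide +kernel

end Pool.Agent.T2H98.EGZ.K.C01
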