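import Pool.Agent.T2H98.EGZ.C.D01

set_option autoImplicit false
set_option linter.unusedVariables false

namespace Pool.Agent.T2H98.EGZ.K.C01

open K

noncomputable def O14 : Nat → Nat := orc 53131 2 23 0x0
  0x8f0000000000000000000000000000000000000085000000003d00000000b80000000000000000000a00000000000003300000000c2
  0xe3a0080088000414050c1100008280a2101c6100086000e39e28208804
noncomputable def S14 : Nat := 0x5000000000000000000000000000000000000000000000000000000000000000000000000000000000000000000000000000000000000000000000000000000000
theorem k14 : loop (f1 (tail O14 (outl outs) (mkE0 264243 2630) 7 2 3 17 10 16 13 8 12 15 9 14)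
    Q2 Q3 Q4 Q5 Q6 Q7 Q8 Q9 Q10 Q11 Q12) S14 = true := by decide +kernel
noncomputable def O15 : Nat → Nat := orc 53571 5 24 0x2000100070000
  0x1700005c000990019900066000cc000000000000133001cc0013d0000a000000000000000000c2000000008f00166001d600000001a300014
  0x2280a18409000fd12cd3611002186510082300bf14534284000a280a20614545004820208006100030d0101044000619850208803fca20103fa03860c4400800
noncomputable def S15 : Nat := 0x80000000000000000000000000000000000000000000000000000000000000000000000000000000000000000000000000000000000000000000000000000000000000000000000000000000000000000000000000000000000000000000000000000000000000000000000000000000000000000000000000000000000000000000000000000000000000000000000000000000000000000000000000000000000000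
theorem k15 : loop (f1 (tail O15 (outl outs) (mkE0 264243 2630) 7 2 3 17 10 16 13 8 12 15 9 14)
    Q2 Q3 Q4 Q5 Q6 Q7 Q8 Q9 Q10 Q11 Q12) S15 = true := by decide +kernel

end Pool.Agent.T2H98.EGZ.K.C01
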