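import Pool.Agent.T2H98.EGZ.C.D01

set_option autoImplicit false
set_option linter.unusedVariables false

namespace Pool.Agent.T2H98.EGZ.K.C01

open K

noncomputable def O16 : Nat → Nat := orc 44025 6 25 0xd0007000200000003
  0xff0000a00151000330000000184000000015b0000000000000660000000000000d6000cc00070001c100000000990003d00000001b70018e000a300109
  0x8207182046017e28a685080010414050c1100069a306082091343088008e3a281609400407183001100030c68400230050404100042000a29a20008801
noncomputable def S16 : Nat := 0x2000000000000000000000000000000000000000000000000000000000000000000000000000000000000000000000000000000000000000000000000000000000000000000000000000000000000000000000000000000000000000000000000000000000000000000000000000000000000000000000000000000000000000000000000000000000000000000000000000000000000000000000000000000000000000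
theorem k16 : loop (f1 (tail O16 (outl outs) (mkE0 264243 2630) 7 2 3 17 10 16 13 8 12 15 9 14)
    Q2 Q3 Q4 Q5 Q6 Q7 Q8 Q9 Q10 Q11 Q12) S16 = true := by decide +kernel
noncomputable def O17 : Nat → Nat := orc 50963 6 28 0x20000000c0005
  0x33000a30000000000001320003d00000000000006600000000000000000198000000000000000000ff0016500070000990016f00109001a2000cc0000a000d60013c
  0x7e808001084001c74010011001f9a2840424007f405082842000a8200000900010440304118001048080022003f404000842001a68c18209001
noncomputable def S17 : Nat := 0x3000000000000000000000000000000000000000000004000000000000000000000000000000000000000000000000000000000000000000000000000000000000000000000000000000000000000000000000000000000000000000000000000000000000000000000000000000000000000000000000000000000000000000000000000000000000000000000000000000000000000000000000000000000000000000000000000000000000000000000000000000000000000000000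
theorem k17 : loop (f1 (tail O17 (outl outs) (mkE0 264243 2630) 7 2 3 17 10 16 13 8 12 15 9 14)
    Q2 Q3 Q4 Q5 Q6 Q7 Q8 Q9 Q10 Q11 Q12) S17 = true := by decide +kernel

end Pool.Agent.T2H98.EGZ.K.C01
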