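import Pool.Agent.T2H98.EGZ.C.D01

set_option autoImplicit false
set_option linter.unusedVariables false

namespace Pool.Agent.T2H98.EGZ.K.C01

open K

noncomputable def O18 : Nat → Nat := orc 47735 1 6 0x0
  0xa00000000330003d00000
  0xd34b0c004600965a030008400
noncomputable def S18 : Nat := 0x180000000000000000000000000000000000000000000000000000000000000000000000000000000000000000000000000000000000000000000000000000000000000000000000000000000000000000000000000000000000000000000000000000000000000000000000000000000000000000000000000000000000000000000000000000000000000000000000000000000000000000000000000000000000000000000000000000000000000000000000000000000000000000000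
theorem k18 : loop (f1 (tail O18 (outl outs) (mkE0 264243 2630) 7 2 3 17 10 16 13 8 12 15 9 14)
    Q2 Q3 Q4 Q5 Q6 Q7 Q8 Q9 Q10 Q11 Q12) S18 = true := by decide +kernel
noncomputable def O19 : Nat → Nat := orc 57961 9 38 0xc00050003000000000011
  0x21d002ac001b7002b600246001840000000283002e9000d6000000003d000660015100000001f40000a00033000000018e001c100000000000000000099000cc00070001ea000a300279002df00250000000015b001090000000000000ff
  0x71d014204600165a030008400fcd34102128021048a0302100020901c30462088060823003f4070c1848002080810009000145450041080068410001134b08008400a08082000840034d2c300118028a02020024003f405082842001469a00008c01
noncomputable def S19 : Nat := 0x2000000000000000000000000000000000000000000000000000000000000000000000000000000000000000000000000000000000000000000000000000000000000000000000000000000000000000000000000000000000000000000000000000000000000000000000000000000000000000000000000000000000000000000000000000000000000000000000000000000000000000000000000000000000000000000000000000000000000000000000000000000000000000000000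
theorem k19 : loop (f1 (tail O19 (outl outs) (mkE0 264243 2630) 7 2 3 17 10 16 13 8 12 15 9 14)
    Q2 Q3 Q4 Q5 Q6 Q7 Q8 Q9 Q10 Q11 Q12) S19 = true := by decide +kernel
noncomputable def O20 : Nat → Nat := orc 42171 12 56 0xd0000000200020009000400000005000000000000
  0x3d003a10000000000003120000000000002c0001f400378000000021d002270028d0000a000700036e00000003de003ab000000025a0000000000003d40033b000000000000000002830000000308001ea001b7000cc002b6002500009900000000d600066001840018e003450000000033000a3000ff0000000000000000015100109001c10015b
  0x22696100088014501c2001080089a5840022007f3860c2840032028a18608c0010445019fa03860c4400071cd180044009a30a18208801410285041100069a28800240050145104044007e80800108400fcc302061200682058e010182040086002038c102088004051430c11801fa080a1c23000b2d0180042002280e10008400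
noncomputable def S20 : Nat := 0x1000000000000000000000000000000000000000000000000000000000000000000000000000000000000000000000000000000000000000000000000000000000000000000000000000000000000000000000000000000000000000000000000000000000000000000000000000000000000000000000000000000000000000000000000000000000000000000000000000000000000000000000000000000000000000000000000000000000000000000000000000000000000000000000000000
theorem k20 : loop (f1 (tail O20 (outl outs) (mkE0 264243 2630) 7 2 3 17 10 16 13 8 12 15 9 14)
    Q2 Q3 Q4 Q5 Q6 Q7 Q8 Q9 Q10 Q11 Q12) S20 = true := by decide +kernel

end Pool.Agent.T2H98.EGZ.K.C01
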