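import Pool.Agent.T2H98.EGZ.C.D01

set_option autoImplicit false
set_option linter.unusedVariables false

namespace Pool.Agent.T2H98.EGZ.K.C01

open K

noncomputable def O21 : Nat → Nat := orc 55551 4 16 0x1000a0000
  0xcc000ff00033000a3000d600099000000003d000000000a00109000660000000070
  0x3f404000842000e820186084004101450810801f8e3a01c21003f34204084c00fe78e30308004
noncomputable def S21 : Nat := 0x4080000000000000000000000000000000000000000000000000000000000000000000000000000000000000000000000000000000000000000000000000000000000000000000000000000000000000000000000000000000000000000000000000000000000000000000000000000000000000000000000000000000000000000000000000000000000000000000000000000000000000000000000000000000000000000000000000000000000000000000000000000000000000000000000000000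
theorem k21 : loop (f1 (tail O21 (outl outs) (mkE0 264243 2630) 7 2 3 17 10 16 13 8 12 15 9 14)
    Q2 Q3 Q4 Q5 Q6 Q7 Q8 Q9 Q10 Q11 Q12) S21 = true := by decide +kernel
noncomputable def O22 : Nat → Nat := orc 58141 15 65 0x50000000300000003000100030002000000040000000c0004000d0005
  0x1cb000000038c00000000330003d000000000000000000000000000000002ca0000000231003fc00208002de00458003f2001fe0000000000003590048b0039600000000700023b00198000cc0000000363000000016f0026e00297003c9001d5002d4000990042f000d600495001a20026400000000660046200165001320000a00000000000033000000003bf00109004250013c000ff00000002a1000a300326
  0x208b203046012280e1000840010d34000100028a058c0823003f40710484c002080e3020900045028708118008202040024000208e1030c32020410c060010404080048007e684081098012cb2081c100048a058a0022000a34d00004600fe80800108400fd040512110005964103820008618d08004600a278c200084044102850411001fa0206042600071d0040044000c32028008c00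
noncomputable def S22 : Nat := 0x6000000000000000000000000000000000000000000000000000000000000000000000000000000000000000000000000000000000000000000000000000000000000000000000000000000000000000000000000000000000000000000000000000000000000000000000000000000000000000000000000000000000000000000000000000000000000000000000000000000000000000000000000000000000000000000000000000000000000000000000000000000000000000000000000000000000000
theorem k22 : loop (f1 (tail O22 (outl outs) (mkE0 264243 2630) 7 2 3 17 10 16 13 8 12 15 9 14)
    Q2 Q3 Q4 Q5 Q6 Q7 Q8 Q9 Q10 Q11 Q12) S22 = true := by decide +kernel

end Pool.Agent.T2H98.EGZ.K.C01
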