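import Pool.Agent.T2H98.EGZ.C.D02

set_option autoImplicit false
set_option linter.unusedVariables false

namespace Pool.Agent.T2H98.EGZ.K.C02

open K

noncomputable def O15 : Nat → Nat := orc 43701 9 37 0x10000000300020009000e000400090002
  0x18f00000002cb00228002c10000000265002f4001f500000000a400000001cc0007b00000000f6001290000000000000000025b0019900232001c200166000ae0028e00000001000029800071002fe001ff0015c001330000a00000
  0x55534a0c08c00104510001300aaab546a021003faaa541844000c31a20009001feaaa406118013a8202002100bf34d94184400cf2b4a8008c029e79040411805fcf22aac2300bf514246ff212203108039e75141811805228a208010634044b2a080218005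
noncomputable def S15 : Nat := 0x1000000000000000000000000000000000000000000000000000000
theorem k15 : loop (f1 (tail O15 (outl outs) (mkE0 68157463 2880) 36 21 37 35 31 42 13 39 9 11 16 38)
    Q2 Q3 Q4 Q5 Q6 Q7 Q8 Q9 Q10 Q11 Q12) S15 = true := by decide +kernel
noncomputable def O16 : Nat → Nat := orc 40521 47 192 0x13000000210001000000000000000000000000000200000000000500070001000900020000000e00090003000600000000002400000000000500060008000200020001000800190003000000040009000800110005000000090005
  0x4aa009ba009b0004dd0026e0066100e130051000330000000054d0023100d3d008360079d0000000411000d600e3c00e7900543001d500de000d470000000dad00b7100c5200033003e8000000060500704003ab00da300bf600b670000000000003630000000000007c600000000000000000000007930000000c2900099008b100eac006d100a5300000003b50069400cc200e4600000007f9008bb006c7004810000000a4900888000000057600e0900580001980000000000000000000a00aec004e7003590023b0041b00307002640000000ba40000000ae2006fa0000000000000000000000000003de0000000c1f000000000000d7a000ff009ed00d700097d00bec001a2001cb000660000000cb800c8f0066b00477005d20082c002d4008e400109000cc00c5c0020800a7c007d00016f00a86009e30091700e6f00b1f008ee00c850013c000a300b15005fb00ed500dd600edf00ab90094a002fd0072d0069e00165002a10003d001fe009210087e000000029700803004b40000000000007370044400000000700098700000000000051a00aaf009540000000000002ca00b9a000000000000ceb00000000000063800a200000000ea20044e00000000000000000000001320076a005c800a16000000076000cf50062e00000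
  0x7e492309fc924102208075551b40821000b965000040021a30808008c01aaa8e30011801fc6a9a0422007f9e7541840012aaca68c088012499230010807fca68c0c106334008000d554a30208400aa318404108015491aa3021003faa5555842000c32858008004fe595536208f9a0840004106a8c0042007f528209104a9f04208012555000021002550d04004800d52c8a0008800fe534606100035283020023000412a901044001a20808209001fc9100021200754b20c0023001452a040044005518c20208400555909101000620953e0821002492a181552bed0211000aaa8df501300069aa8c082000555678da0420149254a88088005559e5041280430ca1a0826004b96500004002020d5180084007df695341000355528c0821000412a7c1042005523ea8808400fea91f02d55528a042001a6aa90104200552c6a8808400fe434002100035551b40821000106a8c0042004f3c6a8008402fe492a02108000835460021003fa9410484200552ca000555aa40022001554d283023aa455404120015552caa821002aa94504042004955400008400aa47d510108012cb21a0024006a544040048004955400008400fea5041210801fd52c60422002a8c610104200020d5180084002cb9641811009fd4a8c0c21002a95f500042007e49230908403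
noncomputable def S16 : Nat := 0x4000000000000000000000000000000000000000000000000000000
theorem k16 : loop (f1 (tail O16 (outl outs) (mkE0 68157463 2880) 36 21 37 35 31 42 13 39 9 11 16 38)
    Q2 Q3 Q4 Q5 Q6 Q7 Q8 Q9 Q10 Q11 Q12) S16 = true := by decide +kernel

end Pool.Agent.T2H98.EGZ.K.C02
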