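import Pool.Agent.T2H98.EGZ.C.D02

set_option autoImplicit false
set_option linter.unusedVariables false

namespace Pool.Agent.T2H98.EGZ.K.C02

open K

noncomputable def O19 : Nat → Nat := orc 54917 24 144 0x20003000000000000000100000003000000020009000000000000000e00000000000200030000000000020004
  0x1cb000000036300604000ff000000000000132007180052e00000000000000000000000000013c00099004fb000000000000000000000000000000000000000000198000000040600000005d1000d60046c00231005380000000396002fd0000000000000000010900000000000042f000000000000000002640016f000000000000000000000067f0043900000006ef0007000000000000000000000002080033a00000000660000000165000000000000000001d5005c70026e00000001a2004c80003300000000a300637000cc000000046200000001fe003a00072200689005fa0059e003d300000000000000000000005050049f003fc000000000000000006bc0000000000002ca00000003c9000000000000000004d2006e50036d0023b00000002d40000a0030700000000000062d00495000000056b0003d00000006b2000000059400000000000000000000002a10029700000000000056100000000000000000330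
  0x28a5408008800514a810011001fd552a0c22003f8d424984c01c8fbe69afcd3650621003fc925404210000027544042017f52a30308400fcd3650611003fd4a082421002a8c6101042007f54aaab08400aa57d400108006cb2820822005f7e7946046012868808008801fea9630211000208f9a082000679d4506046014955400008400fe79141a1300524868c0022007f9e450684c014955400008400fea5460610801fd4a8c0c21002a7da10104400552c6a8808400aaa94604108012c6682002500461aa8c004a0055546d0208400041aa3001080155528c08210024aaa0000420054a0c08008c00
noncomputable def S19 : Nat := 0x40000000000000000000000000000000000000000000000000000000000000000
theorem k19 : loop (f1 (tail O19 (outl outs) (mkE0 68157463 2880) 36 21 37 35 31 42 13 39 9 11 16 38)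
    Q2 Q3 Q4 Q5 Q6 Q7 Q8 Q9 Q10 Q11 Q12) S19 = true := by decide +kernel
noncomputable def O20 : Nat → Nat := orc 40985 10 43 0x70000000800000000000a0004000000020000
  0x3300198002830025a00227002e900000001650028d000ff000000013c002500000000000000990021d002f3002c00003d0000000070000000000a000d60013200000001a20016f00000001090000000000001cb00000000a3000000000000066000cc002b6001d5
  0x555aa3501080154afa80021002aaa5181042004955400008400041aa30010801fa8a1a24d3551810800080054f8c08400186344001200230ca9a0822007faaa541844002869a20808001aa31840410800aaaa200024015556a04004c007ea2868908001
noncomputable def S20 : Nat := 0x100000000000000000000000000000000000000000000000000000000000000000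
theorem k20 : loop (f1 (tail O20 (outl outs) (mkE0 68157463 2880) 36 21 37 35 31 42 13 39 9 11 16 38)
    Q2 Q3 Q4 Q5 Q6 Q7 Q8 Q9 Q10 Q11 Q12) S20 = true := by decide +kernel

end Pool.Agent.T2H98.EGZ.K.C02
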