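import Pool.Agent.T2H98.EGZ.C.D02

set_option autoImplicit false
set_option linter.unusedVariables false

namespace Pool.Agent.T2H98.EGZ.K.C02

open K

noncomputable def O27 : Nat → Nat := orc 64593 11 48 0x110020000000000000000400000004000000000000
  0x132001fe002640012800326000eb0033000000002310025a002f3002970018e000a30000000066002c0001c100000000000000a001f40028d00165000f500000000000022700000002fd00099002ca000000000000359000330000000000001cb00363001980003d0000000000000000015b000ff00070
  0x68d34410110020835460021003f69a344844008c34f282080029e769a5010005fd55480c23000106a8c0042007f548f81088009249490412806d34a1a0825005434404004400d522aa020900034d8c9041000600d52c6a0caaa904002280030d54a0822003f9d5180848015554a30208400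
noncomputable def S27 : Nat := 0x4000000000000000000000000000000000000000000000000000000000000000000000000000000000000000000000000000000000000
theorem k27 : loop (f1 (tail O27 (outl outs) (mkE0 68157463 2880) 36 21 37 35 31 42 13 39 9 11 16 38)
    Q2 Q3 Q4 Q5 Q6 Q7 Q8 Q9 Q10 Q11 Q12) S27 = true := by decide +kernel
noncomputable def O28 : Nat → Nat := orc 42575 12 51 0x2000100000002000500020000000b000200000000000a
  0x2fe00000003c0000330035a00184000a3000000011e000700009900000000000018e00000001f400000001ea00000003310000000364001b7001510015b002270021d001c1002f40000a000d600000002a2003270000000000000000026f00000000000038d002790006600000000cc0000000397003ca0003d00128002ac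
  0x869a00009401186aa504110015492020823000412a546048007f3aa3010900250d3441008319a0040004d36468104600a0834200924401002100b2555000021000002a7c6042000c354a000900091550d001100200152aa02200247cd1847e20868111401feaa950611001fd4a082421001aaaa514044007f54b18108800
noncomputable def S28 : Nat := 0x1000000000000000000000000000000000000000000000000000000000000000000000000000000000000000000000000000000000000000000000
theorem k28 : loop (f1 (tail O28 (outl outs) (mkE0 68157463 2880) 36 21 37 35 31 42 13 39 9 11 16 38)
    Q2 Q3 Q4 Q5 Q6 Q7 Q8 Q9 Q10 Q11 Q12) S28 = true := by decide +kernel

end Pool.Agent.T2H98.EGZ.K.C02
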