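import Pool.Agent.T2H98.EGZ.C.D02

set_option autoImplicit false
set_option linter.unusedVariables false

namespace Pool.Agent.T2H98.EGZ.K.C02

open K

noncomputable def O29 : Nat → Nat := orc 40013 12 52 0x20001000200000006000000120000000100000000
  0x2e900109003820000000070000ff000000031c002270013c001320025a00359000000000a002c0001c1000a30038c0021d0034f0003d0000000165001f400000000000000000000002830016f000000025000000000000000000326000d6002b60000000099000cc0028d002f3000330000000000001ea0000000066001b7
  0x30cd12202200e79e4040048014f3b4d28080022649010410007fcea0c342300a56942c6044025518c20208400000a9f1810800a295020022000106a8c0042000c3285802cb8c40020009249382002500aaaa5181042001b2ca0820880150d1010011003fd552a0c22003f9e794684a014b3ce00008c02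
noncomputable def S29 : Nat := 0x40000000000000000000000000000000000000000000000000000000000000000000000000000000000000000000000000000000000000000000000
theorem k29 : loop (f1 (tail O29 (outl outs) (mkE0 68157463 2880) 36 21 37 35 31 42 13 39 9 11 16 38)
    Q2 Q3 Q4 Q5 Q6 Q7 Q8 Q9 Q10 Q11 Q12) S29 = true := by decide +kernel
noncomputable def O30 : Nat → Nat := orc 48981 4 27 0x0
  0x109000ff0000000000000cc000000000a000000009900033000d60000000000000000007000000000660000000000000a3000000000000000000000003d
  0x1556534604400aaad51a808400a955410411000208a1a3022006aa945040420054a0c08008c00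
noncomputable def S30 : Nat := 0x1000000000000000000000000000000000000000000000000000000000000000000000000000000000000000000000000000000000000000000000000000000
theorem k30 : loop (f1 (tail O30 (outl outs) (mkE0 68157463 2880) 36 21 37 35 31 42 13 39 9 11 16 38)
    Q2 Q3 Q4 Q5 Q6 Q7 Q8 Q9 Q10 Q11 Q12) S30 = true := by decide +kernel

end Pool.Agent.T2H98.EGZ.K.C02
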