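import Pool.Agent.T2H98.EGZ.C.D02

set_option autoImplicit false
set_option linter.unusedVariables false

namespace Pool.Agent.T2H98.EGZ.K.C02

open K

noncomputable def O31 : Nat → Nat := orc 47079 17 71 0xd0000000200050028001400060000000000000009000000110000000000000000
  0x23100165000cc0003d000000016f002a1003070033a0042f001fe00109002fd004620052e0026e003c9002ca0048b004c800066001cb002d40023b004fb004f1003bf00000003f2000ff000d60036d0000000000000a30029700000003fc0019800000000000000000033001d50000000330000000000000363001320007000425005240049500396004be0000a00264001a2000000045800000000000000000099002080013c000000000000000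
  0x4921a3000880118654d0411002d1a6882022006aaa5181042007f53e30308c00a9f18400128006cb28208220064aaa000042007e69b209099452434004c00c8a9620208404fea5460610801554a282021003fa95181842007f38c201098027da54d0412003fb4d1a2422006492a181048004924aa1a088017df8cd1011802aa0302002601638df34604600d5528a0808400a95541041100068c20200230044127506042014955400008400
noncomputable def S31 : Nat := 0x2000000000000000000000000000000000000000000000000000000000000000000000000000000000000000000000000000000000000000000000000000000
theorem k31 : loop (f1 (tail O31 (outl outs) (mkE0 68157463 2880) 36 21 37 35 31 42 13 39 9 11 16 38)
    Q2 Q3 Q4 Q5 Q6 Q7 Q8 Q9 Q10 Q11 Q12) S31 = true := by decide +kernel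
noncomputable def O32 : Nat → Nat := orc 64909 31 124 0x3000e001c000000020003000400000000000b0000001900050010000000000012000a0000001a00020006000200090000000300010004000000040005
  0x16f003fc0000000000006f9000000072200099000000051a000ff0048100000000000000000165000000048b003a00000a002080058a0003d001a2007bb000d6000000044e006600040600033003630013c0013200580008d90023b007880000000000005bd003d300000006ef004580036d000000026e00623004be00070001090000000557001980082b002970090c00000000cc0006600000007ee007550026400000007f8004b4006930072c0064c0097200000005f0006c60097c004f1008540033a007c500000008e3001d50065600330003c9006bc004e700231002d4000000000000000008210085e00689002ca00000009490093f00000008870079200000005240000000000003960000000916000a30075f002a1005b3000000089100619001cb0054d002fd0000000307001fe005e6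
  0xd3521a0820006a9650000480000054f8c08400fda54b12100092ca8200bf91010088002ff52a30308400aaa51410108012ca488002000e57d434004000c8aa868008801fea96302110002095480822002550d18404800ff548f8108800104a950411800209234482400c0192aa800010801fd4f8c0c23002aa94504042007f2b4581094043441010412003fcf3aa0c2000a79e554404c01552c830008c00fea5041210800d35548082100061a79417f3cea8310002fea91f0211001fd4a8c0c210024aaa0000420054aaa08208800fe79d506100040833b42024009556534604400ff24950108400fea5461a12800aab5480024002a95f5000420028a2a68208c01915346001180324868c0022004434d00004a00d5548200094009245553412003fd4a082421002554d10004600a8a5528c09000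
noncomputable def S32 : Nat := 0x4000000000000000000000000000000000000000000000000000000000000000000000000000000000000000000000000000000000000000000000000000000
theorem k32 : loop (f1 (tail O32 (outl outs) (mkE0 68157463 2880) 36 21 37 35 31 42 13 39 9 11 16 38)
    Q2 Q3 Q4 Q5 Q6 Q7 Q8 Q9 Q10 Q11 Q12) S32 = true := by decide +kernel

end Pool.Agent.T2H98.EGZ.K.C02
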