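import Pool.Agent.T2H98.EGZ.C.D02

set_option autoImplicit false
set_option linter.unusedVariables false

namespace Pool.Agent.T2H98.EGZ.K.C02

open K

noncomputable def O2 : Nat → Nat := orc 64717 39 170 0x30006000900000008000000030000000600000000000200050000000400030001000100090002000c0002000b0000000a0000001000040005002a000300040000000300000000000000020002
  0x3310000000af90000000000000000086b0000000000009f000c910064e0058c00c870068100000000000000000bc500000008a800a93007dc00a2d00757006e70041d004f3005e800209008d100ac60054f0000000c54006b400000002df00a8900000006f100c5e0021300559000f5006be00b8800b2c0045a00cc400327000000083800cba009c7000000003d00658003ea0015100aef007a9000000068b000000000000000000000094100c2100bf80015b003a2008050048d004b600184000000071a004270072400000000c200000000000061b007d20000000bbb0000000000005bf0090e001b7004c0000700000000000000000026f0000a002d500582001c1001280051c005f2009fa00904000000000000279008db000000000000c2b0011e0018e004e900bee00ced00b5500000005b50052600000000000000000b5f002ac0000000abc000000089e0062500cf700000003f400b92000000074d0037900483002a20045000a2300033000000024600937000eb0000000000008420023c0080f0000000000000b8000000000000000008750079f000660000000a560000000a6000b22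
  0xa955410411000208f9a0820006a964500044007e48800109003aaa8da0410801549202082300238ea7d504800552ca00009000fe55491a120072cb5080023002a95f500042007e69a20309001fea91f0211001fcb2ce0423008105a2c404402552bea0008400041a94101255528a08aaa9460525550003f924a80902007f52820109400fe492a0210801fd52aaac210024aaa000042004b21a2000880118668910110071c73c8302300aaaa3681042004b296588fe42c1022100820953e0821000d104041048008869a00009401feaaa406118000835460021003f9247cd84400ff3b4201094021869da00120040013ca202000aa95f500042002aad520009000fe354d021100322a6880824007f9d5180848010825520208800346101001180269ad0c0826006a9650003efc6680113f90d00084069aa8c0a490d34008000d5547180fea8c00221800d3554a0025001aaaa51404400020d5180084008df5490012007fc858c27f94b1048840228a5408008800a95541041100069b2340823005a34d10404400ced0c08008c022cb8c400a962020040012aaa3681042000824f20208002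
noncomputable def S2 : Nat := 0x1000
theorem k2 : loop (f1 (tail O2 (outl outs) (mkE0 68157463 2880) 36 21 37 35 31 42 13 39 9 11 16 38)
    Q2 Q3 Q4 Q5 Q6 Q7 Q8 Q9 Q10 Q11 Q12) S2 = true := by decide +kernel
noncomputable def O3 : Nat → Nat := orc 63633 1 9 0x0
  0x3d0000a0000000033000000000000000
  0x1534404400c921a30008801
noncomputable def S3 : Nat := 0x2000
theorem k3 : loop (f1 (tail O3 (outl outs) (mkE0 68157463 2880) 36 21 37 35 31 42 13 39 9 11 16 38)
    Q2 Q3 Q4 Q5 Q6 Q7 Q8 Q9 Q10 Q11 Q12) S3 = true := by decide +kernel

end Pool.Agent.T2H98.EGZ.K.C02
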