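import Pool.Agent.T2H98.EGZ.C.D02

set_option autoImplicit false
set_option linter.unusedVariables false

namespace Pool.Agent.T2H98.EGZ.K.C02

open K

noncomputable def O36 : Nat → Nat := orc 48715 30 132 0x200170000000000000000000c00000010000c00020015000000000001000000010000000000020000000000000000000500000000000800000000
  0x33002310000000000002ca0000000000000000066000703005050046c003070085e00000000000079c0056b000ff0000000000002fd0069d00406000cc00000001d50003d0016f006d0002970066a009010059e00000001fe0016500891000000020800396000000000000000004d2003c900000000000073600000006f90082b000000075f0000a000000007000594000000080200561003d3000000033a00000003a0007cf0046200538000d6002d40052e0072c000a30033000000005d10036d008f7006c6001980026e001cb00000008c400000000660042f0036300439000000049f001320000000000004fb0026400000002a1005c700000008ce005fa004950062d000000023b004c800000006370013c000000089b0009900000001a200868007f8007c50060400000000000000000769007920000000109006930083500000003fc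
  0x106a8c0042005554b2aa08400aa31840410801fc8680042000679e47c004001552bea0008400186a94101180152aa820822003faa58c0844007f55520308c009142460410807fc92540421003faa48d48480054f8c20009400aaa514101080030d5460025002a95f500042007f2caa9b08001fcd3461211803554a282021001a69f24404801d5528a080840034610100118031bea92002400d434404004400ff54600108c00104aa4041100154b2080824000106a94404c007f52a303084007dfa9a5410801fd51800423003f95a24484a01d5528a0808400fea5041210800492208002400ff69a34484400ff1a868308801fe492a021080124952a2022003f91424084801ff54600108c0069aaa40410800492208002400e57d4340040008c32848808003
noncomputable def S36 : Nat := 0x2000000000000000000000000000000000000000000000000000000000000000000000000000000000000000000000000000000000000000000000000000000000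
theorem k36 : loop (f1 (tail O36 (outl outs) (mkE0 68157463 2880) 36 21 37 35 31 42 13 39 9 11 16 38)
    Q2 Q3 Q4 Q5 Q6 Q7 Q8 Q9 Q10 Q11 Q12) S36 = true := by decide +kernel

end Pool.Agent.T2H98.EGZ.K.C02
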