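import Pool.Agent.T2H98.EGZ.C.D02

set_option autoImplicit false
set_option linter.unusedVariables false

namespace Pool.Agent.T2H98.EGZ.K.C02

open K

noncomputable def O37 : Nat → Nat := orc 47363 43 189 0x150006000000020008000000010003001100060001000000030008000d0003000d00050001000400010019000d00000000000100020002001000010001000c0000000700000001000400000000000000010005
  0x3d0000000c5b000000016500af600099003630000000c98000000036d0054d002d400557001320000a006e500a3e00c32009350033a00307000000023100817000000051a00a670026e0000000000000000000000972000000000000000000000000000722005240089c00000009ce00b8f0000000b29008d9001d5004f1002fd009d8004e70013c0048b0086900481002ca00bf5003f20093f0067f003b50016f00a01006ef00a340064c00a9a00b5c00000005bd009a5000a300cfe004b40090200b0000ccb0074b0087300acd000ff0090c008210065600c6500a0b0042500297000000000000a710000000208008a60000000000000000000000718005e60000000458006b20000000689005b300bff0000000968000000000000bcc0044e000d60000000000000330000000000002a100000000000099b003bf003e8008cf0026400b990000000b3300aa400000000000033000b66004be00000000000000000c8e000000058a0041b0000000c2800cf400000005f00062300109005800077e000cc007e400070007ee0023b0000000788001cb00cc100bc20000000619000000000000000006bc0000000000001a200000007b10019800000007bb0006600000001fe00755000000000000000000000000000000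
  0x7e69a20309001fea546061080030d54a082200061aa941044007f54620109000aaa9460410801fd554a0424001452a184044005554a30208400104a9f04108015551b40821003f10434084bfcaa9a0c250064aaa0000420008254f8208400a94181001180152a2020024003f94b18084c02552bea0008400fea504121080152aa820822002aaa38c0046002aad51a808400aa5554001180030ca1220992404108001aaad51a8084005558d434100035283020023003faaa940848007f1b468308001aaa5141010801fd4a082421002596a100046004955400008400aa57d4001080154aaa80023003f924a808420055534a0c08c00aaa946041080154afa80021000106a8c0042004f3c830809002a955410411000aaaa1a0023006a8da181044005518c20208400fea5460610801fd52c606596a546084005554a30208400aaa5551812801554d283023003faaa541844002aac868209801aaa9460410801fd4f8c0c23000412a541046007f54aaab08400186aa50013001fd55280426003faaa940848001a30808008c01041aa3001080155528c0821002a8c6101042004921a68008001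
noncomputable def S37 : Nat := 0x4000000000000000000000000000000000000000000000000000000000000000000000000000000000000000000000000000000000000000000000000000000000000000000000000000000000000000000000000000000000000000000000000000000000000000000000000000000000000000000000000000000000000000000000000000000000000000000000000000000000000000000000000000000000000
theorem k37 : loop (f1 (tail O37 (outl outs) (mkE0 68157463 2880) 36 21 37 35 31 42 13 39 9 11 16 38)
    Q2 Q3 Q4 Q5 Q6 Q7 Q8 Q9 Q10 Q11 Q12) S37 = true := by decide +kernel

end Pool.Agent.T2H98.EGZ.K.C02
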