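import Pool.Agent.T2H98.EGZ.C.D02

set_option autoImplicit false
set_option linter.unusedVariables false

namespace Pool.Agent.T2H98.EGZ.K.C02

open K

noncomputable def O48 : Nat → Nat := orc 50741 3 29 0x0
  0xeb0000000000000000000a000b800000000000003d000000000000000000c200000000f50000000000000000000000000000700006600000000330000000000000000000000000
  0x3f924a808420055246a8c08400fcb2e502082a16204001238e79400480154aaa08208800
noncomputable def S48 : Nat := 0x2000000000000000000000000000000000000000000000000000000000000000000000000000000000000000000000000000000000000000000000000000000000000000000000000000000000000000000000000000000000000000000000000000000000000000000000000000000000000000000000000000000000000000000000000000000000000000000000000000000000000000000000000000000000000000000000000000000000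
theorem k48 : loop (f1 (tail O48 (outl outs) (mkE0 68157463 2880) 36 21 37 35 31 42 13 39 9 11 16 38)
    Q2 Q3 Q4 Q5 Q6 Q7 Q8 Q9 Q10 Q11 Q12) S48 = true := by decide +kernel
noncomputable def O49 : Nat → Nat := orc 51847 5 21 0x50001000c00000001
  0x6600000000330000000000001650003d00000000cc000d6000ff00070001320013c00000001090016f0000a00099000a3
  0xfeaaa50212001fd554a0424001452a040044007f21220308803fc92460212807fd523e0422003f34d18484600d51b430208800
noncomputable def S49 : Nat := 0x2000000000000000000000000000000000000000000000000000000000000000000000000000000000000000000000000000000000000000000000000000000000000000000000000000000000000000000000000000000000000000000000000000000000000000000000000000000000000000000000000000000000000000000000000000000000000000000000000000000000000000000000000000000000000000000000000000000000000000000000000000000000000000000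
theorem k49 : loop (f1 (tail O49 (outl outs) (mkE0 68157463 2880) 36 21 37 35 31 42 13 39 9 11 16 38)
    Q2 Q3 Q4 Q5 Q6 Q7 Q8 Q9 Q10 Q11 Q12) S49 = true := by decide +kernel

end Pool.Agent.T2H98.EGZ.K.C02
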