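import Pool.Agent.T2H98.EGZ.C.D02

set_option autoImplicit false
set_option linter.unusedVariables false

namespace Pool.Agent.T2H98.EGZ.K.C02

open K

noncomputable def O52 : Nat → Nat := orc 59377 35 137 0x200010012000300010002000000020039000b0000000300030003001000010000000100130000000000050006000000000005000000020000000100070003000d00000000
  0x5300098100bdb000000074f009b40040800000000cc004d4006e9002270027900645008f20067800033005ca00000000000015b004a100b0f0026f007e8000000011e0077800b050094e009f1000000063b00000000000043b001b700000003a2001f400b9e003d50083000526004de0000000b38000000088c00a94007de0031300c04009e700bd10071c0000000309007b500559008e80037900412000000066e00b420046e007120000000a61000a3009be00a2e000d600099005d40091b00a5700925001c100b6b000000000000abd001ea008b5007ab0036f000000000000346006df00582001840018e0074500066009fb002c100000000000000000000001280098b00c0e0078200ba8008bf00000000000000000478004ab00a240033c000000000000151000000003d00000000000021d000000095800b750044500a8a00000003ac00070003df0000a008820083a00000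
  0x7f24950108400fe434002100032555000021000106a8c0042007e58c08308c049e755410120051c72162258e341008dfa080c2424014106a8c0042007ed3480d09805fda6901a1300a027f2caa9b08001fe38c9021000630c6880024007f8e350b84a02495540000840092aa800010801fcf22aac2300a38df2c67e596309114045149c6113aaa82084000a79e4040048010c32858008004514aa518120012a848c002500ea963544042003efc6d12fd45091a30cd12206200eaaa5181042002aac868218650d0430ca9a0066007f9d424492082000106795a540047fcea8c042400bf410946820aa80c1080534d91a04118020833aa302500955679460420155246a8c08400feaa950611000a2950c2022002795a540046017f55520308c00965a941813001fb4d54a6a5550410855492020aa92368008600124caf8c8e37c9042280755528c0821003f34d04084600c649200008003aa59060011800312482082400da6a32467e48800111003aaa9460410801fb4a12342000ea8da18104400124c918809403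
noncomputable def S52 : Nat := 0x2000000000000000000000000000000000000000000000000000000000000000000000000000000000000000000000000000000000000000000000000000000000000000000000000000000000000000000000000000000000000000000000000000000000000000000000000000000000000000000000000000000000000000000000000000000000000000000000000000000000000000000000000000000000000000000000000000000000000000000000000000000000000000000000000000
theorem k52 : loop (f1 (tail O52 (outl outs) (mkE0 68157463 2880) 36 21 37 35 31 42 13 39 9 11 16 38)
    Q2 Q3 Q4 Q5 Q6 Q7 Q8 Q9 Q10 Q11 Q12) S52 = true := by decide +kernel
noncomputable def O53 : Nat → Nat := orc 43381 1 8 0x0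
  0x3d0000a0000000000000330000000000
  0x106a8c00420028a5408008800
noncomputable def S53 : Nat := 0x4000000000000000000000000000000000000000000000000000000000000000000000000000000000000000000000000000000000000000000000000000000000000000000000000000000000000000000000000000000000000000000000000000000000000000000000000000000000000000000000000000000000000000000000000000000000000000000000000000000000000000000000000000000000000000000000000000000000000000000000000000000000000000000000000000
theorem k53 : loop (f1 (tail O53 (outl outs) (mkE0 68157463 2880) 36 21 37 35 31 42 13 39 9 11 16 38)
    Q2 Q3 Q4 Q5 Q6 Q7 Q8 Q9 Q10 Q11 Q12) S53 = true := by decide +kernel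

end Pool.Agent.T2H98.EGZ.K.C02
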