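import Pool.Agent.T2H98.EGZ.C.D02

set_option autoImplicit false
set_option linter.unusedVariables false

namespace Pool.Agent.T2H98.EGZ.K.C02

open K

noncomputable def O54 : Nat → Nat := orc 41127 27 118 0x10000000b000300070004000d001a0008000100070004000c000c0002000000030001000300080003000000050001000000020000
  0x408000ff0043b008570000a0000000758000700058d00000000000078b006b5000000000000000005c000000002510000000000007b40000000000000f500478000330088a0012800880004e90081a0028e004f30072500000000cc005f3000c2004a1000000082400350000000061c0003d008f0001e00038d006bf005830013200000000000035a0022800626007e700000002c1007f1003270084d0074e00284001ad00659000000068c0064f008e60038300066001d60092300099003d50071b004120015b008b3001a3000000000000682000000053b00000007810000000000005e9006e800000008bd006f200000000000046e0025b0031d002ea005b6002b70000000000003df002f4007be0000000000000000000000000009190000000445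
  0xfc92460212807f92482042100ffaaa541844004f3c820208c02aa59140011000d34f92202400c106a8c00420008254f820840068d3441011002a2921a0026006aa9a50604600020d5180084007df5559c1200480c3082024014106a8c0042007f3c91b5090029e79040411805fc9254042100061aa504046004ea96308fe75440621cb29658804168b1021008a1248c30b2e3240085fc8f965c23013f90d000840009a30808008c01186a940012001fd55480ffa9f181886007f24950108400a9418100118015551c60023002aa9554604a0054fb420208800a9510100120011c753ea824aaa6941820952a0843002a7da101044007f554a01104aa400237ed2a589080048e39e41811804208a92082000c412a541047fd51880424000918404004201d4aaa08208800
noncomputable def S54 : Nat := 0x1000000000000000000000000000000000000000000000000000000000000000000000000000000000000000000000000000000000000000000000000000000000000000000000000000000000000000000000000000000000000000000000000000000000000000000000000000000000000000000000000000000000000000000000000000000000000000000000000000000000000000000000000000000000000000000000000000000000000000000000000000000000000000000000000000000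
theorem k54 : loop (f1 (tail O54 (outl outs) (mkE0 68157463 2880) 36 21 37 35 31 42 13 39 9 11 16 38)
    Q2 Q3 Q4 Q5 Q6 Q7 Q8 Q9 Q10 Q11 Q12) S54 = true := by decide +kernel
noncomputable def O55 : Nat → Nat := orc 48721 16 68 0x10009000600040000000000000007000000090004000700000001000e0000
  0x25a001ea002f300000000000000000000002b60046d00000005060003300000004d300099002270003d0013200283003a1000000021d000cc001f4004aa0016500510000ff002e90000a00000000000034f003d4003590000000000001a200477000000000000444000660016f000a30028d000700025000411000000031c00198003ab00000001090013c004a0004dd00000002c0003260040700000000d6003de000000043a
  0x1fb4d54a422002a95f500042007f52a30308400555986101000dfc858c2422012a7da10004c000822868c088019e75141811805fcb2ce25a6a78d4088014b2d420008c00fe368d06100032a86820024006551010104802c71cf28808c0210b2c00011808492208002400da6944017e80800110405fea5460610801fd552a0c22000624904104801c955400008400aa48da0011800aab53ed023001556a9040460034d5520208400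
noncomputable def S55 : Nat := 0x4000000000000000000000000000000000000000000000000000000000000000000000000000000000000000000000000000000000000000000000000000000000000000000000000000000000000000000000000000000000000000000000000000000000000000000000000000000000000000000000000000000000000000000000000000000000000000000000000000000000000000000000000000000000000000000000000000000000000000000000000000000000000000000000000000000
theorem k55 : loop (f1 (tail O55 (outl outs) (mkE0 68157463 2880) 36 21 37 35 31 42 13 39 9 11 16 38)
    Q2 Q3 Q4 Q5 Q6 Q7 Q8 Q9 Q10 Q11 Q12) S55 = true := by decide +kernel

end Pool.Agent.T2H98.EGZ.K.C02
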