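import Pool.Agent.T2H98.EGZ.C.D02

set_option autoImplicit false
set_option linter.unusedVariables false

namespace Pool.Agent.T2H98.EGZ.K.C02

open K

noncomputable def O56 : Nat → Nat := orc 57333 11 45 0x20000000300060000000300020000000000050004
  0x7000198000000023b00033002d400000000000033a0010900297002ca00208000ff000a300132002a1000cc001a2001d5000d6000000000000307000000003d00066000000000000000001fe001650013c00000002fd00264001cb003300016f0000000099002310026e000000000a
  0x1a6c8d0208c01aa36860411000a2950c2022003fa94104842005518c20208400aa57d40010800a2921a0822007f9d41868460155246d0008c00fe76841210804a1a2020022006aa94504042004955400008400a9554104110013bed080820009452a040044000824ea0209402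
noncomputable def S56 : Nat := 0x1000000000000000000000000000000000000000000000000000000000000000000000000000000000000000000000000000000000000000000000000000000000000000000000000000000000000000000000000000000000000000000000000000000000000000000000000000000000000000000000000000000000000000000000000000000000000000000000000000000000000000000000000000000000000000000000000000000000000000000000000000000000000000000000000000000000000
theorem k56 : loop (f1 (tail O56 (outl outs) (mkE0 68157463 2880) 36 21 37 35 31 42 13 39 9 11 16 38)
    Q2 Q3 Q4 Q5 Q6 Q7 Q8 Q9 Q10 Q11 Q12) S56 = true := by decide +kernel
noncomputable def O57 : Nat → Nat := orc 43007 8 42 0x1000000000004000300060000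
  0x1b70018400000001ea0008f000eb000c2000000000000000000f500000000b8000000000000000000000015b00085000000018e001280005c00151000000025a000000025000000000000000000227001c10021d0000000052000000011e0000000000001f40000a
  0x20d518008400104a9f041080155528c0821003f924a808420049254a8808800fea8c402120012555000021002aaa368104200020d518008400aaa965541080155528c0821000d1840407e69a30910c01
noncomputable def S57 : Nat := 0x4000000000000000000000000000000000000000000000000000000000000000000000000000000000000000000000000000000000000000000000000000000000000000000000000000000000000000000000000000000000000000000000000000000000000000000000000000000000000000000000000000000000000000000000000000000000000000000000000000000000000000000000000000000000000000000000000000000000000000000000000000000000000000000000000000000000000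
theorem k57 : loop (f1 (tail O57 (outl outs) (mkE0 68157463 2880) 36 21 37 35 31 42 13 39 9 11 16 38)
    Q2 Q3 Q4 Q5 Q6 Q7 Q8 Q9 Q10 Q11 Q12) S57 = true := by decide +kernel

end Pool.Agent.T2H98.EGZ.K.C02
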