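import Pool.Agent.T2H98.EGZ.C.D02

set_option autoImplicit false
set_option linter.unusedVariables false

namespace Pool.Agent.T2H98.EGZ.K.C02

open K

noncomputable def O58 : Nat → Nat := orc 43621 16 67 0xb000e00000006000100070000000e0000000e000000010000000000010000
  0xae001ff00000000000011e004c9002a20000000000002090000000232000000049600000003d400114000000026f000eb000000036e00298003fd0030800000004a0002cb002d500000001510023c004d3000e10000000407004fc0046d0043000397001ad003ca00331001b7001470017a0000a0043a00033003a1004630000000000000000033b00066003640003d00265002fe0000000000000b80018400506
  0x55528a0808400fe38c9021000620953e0821001aaaa514044002aaa868008c01041aa300108015491aa302100236943440480088254f8208400104a9f0410800492208002400d452a040044004f3cb18008002aa59400012001fc92540421000106a8c0042007ed2848d9652440020007fcb2ce242400a58cd18404a00b4d552020840095f50d00100032555000021002a92354154f8c200114412a9010440028a551b409000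
noncomputable def S58 : Nat := 0x40000000000000000000000000000000000000000000000000000000000000000000000000000000000000000000000000000000000000000000000000000000000000000000000000000000000000000000000000000000000000000000000000000000000000000000000000000000000000000000000000000000000000000000000000000000000000000000000000000000000000000000000000000000000000000000000000000000000000000000000000000000000000000000000000000000000000
theorem k58 : loop (f1 (tail O58 (outl outs) (mkE0 68157463 2880) 36 21 37 35 31 42 13 39 9 11 16 38)
    Q2 Q3 Q4 Q5 Q6 Q7 Q8 Q9 Q10 Q11 Q12) S58 = true := by decide +kernel

end Pool.Agent.T2H98.EGZ.K.C02
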