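import Pool.Agent.T2H98.EGZ.C.D02

set_option autoImplicit false
set_option linter.unusedVariables false

namespace Pool.Agent.T2H98.EGZ.K.C02

open K

noncomputable def O62 : Nat → Nat := orc 48037 13 57 0x1000100010003001200000002000200030007000100080000
  0x2d5000000015100000000c2001d60000a000000000000085003de000000008f0005200000000000041100000002790023c000b80026f0033b00407002df00000003ab002460000000000003450015b003a100000000eb001ad00000001e000000000f500000002ac0011e0031200000001a3002a2001280005c00213003d400308003780036e000000020900000
  0x3faaa54184400552c8a0008800fe7915561180555528c0821003f7d52cb844027e69b283088019e59140010005fc92540421002a555041044005518c20208400fe750606120052555000021003f924a80842007f3c8fbf9d41010020805fd52aaac21003f9152cb842022868808008801fe492a0210801fd52c6042200061aa9417ed3552910800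
noncomputable def S62 : Nat := 0x1000000000000000000000000000000000000000000000000000000000000000000000000000000000000000000000000000000000000000000000000000000000000000000000000000000000000000000000000000000000000000000000000000000000000000000000000000000000000000000000000000000000000000000000000000000000000000000000000000000000000000000000000000000000000000000000000000000000000000000000000000000000000000000000000000000000000000000000000000000000000000000000000000
theorem k62 : loop (f1 (tail O62 (outl outs) (mkE0 68157463 2880) 36 21 37 35 31 42 13 39 9 11 16 38)
    Q2 Q3 Q4 Q5 Q6 Q7 Q8 Q9 Q10 Q11 Q12) S62 = true := by decide +kernel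
noncomputable def O63 : Nat → Nat := orc 1 1 1 0x0
  0x0
  0x0
noncomputable def S63 : Nat := 0x2000000000000000000000000000000000000000000000000000000000000000000000000000000000000000000000000000000000000000000000000000000000000000000000000000000000000000000000000000000000000000000000000000000000000000000000000000000000000000000000000000000000000000000000000000000000000000000000000000000000000000000000000000000000000000000000000000000000000000000000000000000000000000000000000000000000000000000000000000000000000000000000000000
theorem k63 : loop (f1 (tail O63 (outl outs) (mkE0 68157463 2880) 36 21 37 35 31 42 13 39 9 11 16 38)
    Q2 Q3 Q4 Q5 Q6 Q7 Q8 Q9 Q10 Q11 Q12) S63 = true := by decide +kernel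

end Pool.Agent.T2H98.EGZ.K.C02
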