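import Pool.Agent.T2H98.EGZ.C.D02

set_option autoImplicit false
set_option linter.unusedVariables false

namespace Pool.Agent.T2H98.EGZ.K.C02

open K

noncomputable def O64 : Nat → Nat := orc 52767 25 103 0x80001000700030000000600010002001e000100000006000b00020000000e00000004000100010001001c000500000000
  0xa30050500000006b200604001a2001320042f00264000660000000000004390067f0016500462006e5005c70040600000000000003d004c8003070023b000000000000000006890029700755002ca000d60074b006370000000396005d1004d2000cc004fb00000003fc002d40059e000330000000109003a00023100000005610036d0033000718002fd0056b0059400000001d50013c005fa00000000000052e0000a0033a00099003d30019800000006ef0046c0077e0000000000003c90026e0049f0020800000000000016f00363000000000000495007880062d002a10053800070000000000000000000ff001cb000000000000000001fe006bc00722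
  0x124868c0022006596a546044005524808208c00fe454d36120035552caa821002aaa5181042002a596208fe42c10623009328a00002001a79df686048015554b2aa0840034d54604100035463080821000412a7c10420028a5528c090005149e500128055551b40821000002a906044004f3c83080900269aaa404108000835460021002a8c6101042007e69a08108c01aaa8da041080154afa80021002a91f54404200552bea000840050d1010011003fd4a082421003f69a34484400cf3c83080900296434400110032c868800220064aaa000042007f54600108c0050d34410100035491aa3021002a506040046007f52820908400
noncomputable def S64 : Nat := 0x4000000000000000000000000000000000000000000000000000000000000000000000000000000000000000000000000000000000000000000000000000000000000000000000000000000000000000000000000000000000000000000000000000000000000000000000000000000000000000000000000000000000000000000000000000000000000000000000000000000000000000000000000000000000000000000000000000000000000000000000000000000000000000000000000000000000000000000000000000000000000000000000000000000000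
theorem k64 : loop (f1 (tail O64 (outl outs) (mkE0 68157463 2880) 36 21 37 35 31 42 13 39 9 11 16 38)
    Q2 Q3 Q4 Q5 Q6 Q7 Q8 Q9 Q10 Q11 Q12) S64 = true := by decide +kernel
noncomputable def O65 : Nat → Nat := orc 44025 6 25 0x80001000000000002
  0x16f00109000ff00000000a300099000000007000132000000000000033000d6000000000a0013c00198001a2000cc000000000000165000660003d
  0x3efca48c08803555aa41011801fd4a08242100061a7684046014955400008400000aa418110012cf388202400bf9e7541840017f24950108400
noncomputable def S65 : Nat := 0x40000000000000000000000000000000000000000000000000000000000000000000000000000000000000000000000000000000000000000000000000000000000000000000000000000000000000000000000000000000000000000000000000000000000000000000000000000000000000000000000000000000000000000000000000000000000000000000000000000000000000000000000000000000000000000000000000000000000000000000000000000000000000000000000000000000000000000000000000000000000000000000000000000000000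
theorem k65 : loop (f1 (tail O65 (outl outs) (mkE0 68157463 2880) 36 21 37 35 31 42 13 39 9 11 16 38)
    Q2 Q3 Q4 Q5 Q6 Q7 Q8 Q9 Q10 Q11 Q12) S65 = true := by decide +kernel

end Pool.Agent.T2H98.EGZ.K.C02
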