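import Pool.Agent.T2H98.EGZ.C.D02

set_option autoImplicit false
set_option linter.unusedVariables false

namespace Pool.Agent.T2H98.EGZ.K.C02

open K

noncomputable def O69 : Nat → Nat := orc 60089 7 32 0x100010002000000000001
  0x990013c0000000000000cc001fe00000000ff001090003d00033001d50007000000000000016f0006600132001a20000a000a300000001cb00000000d60020800000001980000000165
  0x1fbe6aaac23006a8c6101042005524808208c000418cd00100035463080821002a8c6101042004921a6800800191f3461012802d35548082100238e52c0044025554a30208400
noncomputable def S69 : Nat := 0x1000000000000000000000000000000000000000000000000000000000000000000000000000000000000000000000000000000000000000000000000000000000000000000000000000000000000000000000000000000000000000000000000000000000000000000000000000000000000000000000000000000000000000000000000000000000000000000000000000000000000000000000000000000000000000000000000000000000000000000000000000000000000000000000000000000000000000000000000000000000000000000000000000000000000000000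
theorem k69 : loop (f1 (tail O69 (outl outs) (mkE0 68157463 2880) 36 21 37 35 31 42 13 39 9 11 16 38)
    Q2 Q3 Q4 Q5 Q6 Q7 Q8 Q9 Q10 Q11 Q12) S69 = true := by decide +kernel
noncomputable def O70 : Nat → Nat := orc 43701 9 37 0x1000d0000000900090000002000080000
  0x6600000002970016f0026e00070001cb00000002a100264000d60000a001a200165000990000000000000000003d001d5000cc001fe0003300000000ff0023100208001090013c0023b00000000a30000000000000000013200198
  0x2a964101048007f55520308c003410400011803fc92540421003f924a80842004921a30008801aaa8da041080154b2800024001f7ea69504200020d4a0809000924a860412001fced08242100aa7da1010440048a9620208404
noncomputable def S70 : Nat := 0x2000000000000000000000000000000000000000000000000000000000000000000000000000000000000000000000000000000000000000000000000000000000000000000000000000000000000000000000000000000000000000000000000000000000000000000000000000000000000000000000000000000000000000000000000000000000000000000000000000000000000000000000000000000000000000000000000000000000000000000000000000000000000000000000000000000000000000000000000000000000000000000000000000000000000000000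
theorem k70 : loop (f1 (tail O70 (outl outs) (mkE0 68157463 2880) 36 21 37 35 31 42 13 39 9 11 16 38)
    Q2 Q3 Q4 Q5 Q6 Q7 Q8 Q9 Q10 Q11 Q12) S70 = true := by decide +kernel

end Pool.Agent.T2H98.EGZ.K.C02
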