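import Pool.Agent.T2H98.EGZ.C.D02

set_option autoImplicit false
set_option linter.unusedVariables false

namespace Pool.Agent.T2H98.EGZ.K.C02

open K

noncomputable def O5 : Nat → Nat := orc 53423 48 215 0xe0000001900020000000800080004000e00000002001000060010000000000000000b0001000000010002001a000200090000000b00190000000000030003000100010000000c0000000d0001000000160000000700000000
  0x34f00000008bc00dec0091800e7b0000000000004a10000000c2100c7d0079e0000000000006fb0016f0000000d86005300013200ced004d4002ca006c8000000000000610003fd00695000000076b0056d00b9c0000000be400c1700b9200d7c005aa0000000bee0072e00d160013c0000000b17000000000000a1700eae0061a000000000000cba0000000e5200f7a00033000a300f1e00000007d100000005d3000cc0000000f140000000000008c6001d5005a000000000000097e0000000a7d004fd009a700acf002970037800ee10000a00d20009e400e1f00a7300eeb0082d005dd00d53009740009900497000000000000000004ca0083700761006d2000000000000000003ca0040700db9001cb00c5400000002080000000000003450000000000000000000000f470000000c8700000001980003d0000000000009410010900000009da0000000000007050089300ac500f84007940000000231000700090e000000044f003d40000000cb00000000000009b10006600000000000023b00daf00000000000000000000000000000000f510000000a4a00738000000060600ce3000000026e0066c002a100000007fa000ff007c70016500000001fe000000000000264002d400d490000000a4000e15000000057700c4a000d600e48008410000000a0d0038200de20000000b690066200889002fd0000000e8500eb8001a200b5f005070094b0053a0069f000000080400563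
  0x1554a282021002a51400004c005554a30208400aaa946041080030ca9a0822007f94d18184000d518c20208400aaa695101200020952a3024002454d10104800fea2868908001514a8610110012555000021000106a8c0042002aac6d1a08801406180001180b3cefb4082300bf10434084a00fe5963090940404199510a29348004101a594910004001feaaa589fe52c602237e5972812cb8c400200092cb30203f7da9a6882034b21a20008801aaa9655410800682080002300679e4040048017f24668108c018da50d1012003f965ca042001104255417f22880110405aaa9460410800d34aa003f95a2c4882028092c86880022004002a7c60420055534a0c08c00feaaa406118015552caa821002492534604600d5546d0208400aaa8da0410801fb4aa85c2101279237c4471ceaa810c02007f95a2c084a02020d518008400fe6994021000c019658c30208c0496590d0012003fc92540421002a91f544042000c8200824101040020fe808001410914102080b24952a202200152cb1047f29630111804a9418100118012aa68800d041000087f8821a0425007f55540684002d554b2aa08400fda54b12100092555000021003fa9f0418480055546d0208400aa57d40010801fc92540421002a9155010480055534a8809000965a840011801fd4a082421002492768404c015552aa8c09400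
noncomputable def S5 : Nat := 0x4000000000
theorem k5 : loop (f1 (tail O5 (outl outs) (mkE0 68157463 2880) 36 21 37 35 31 42 13 39 9 11 16 38)
    Q2 Q3 Q4 Q5 Q6 Q7 Q8 Q9 Q10 Q11 Q12) S5 = true := by decide +kernel

end Pool.Agent.T2H98.EGZ.K.C02
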