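import Pool.Agent.T2H98.EGZ.C.D02

set_option autoImplicit false
set_option linter.unusedVariables false

namespace Pool.Agent.T2H98.EGZ.K.C02

open K

noncomputable def O77 : Nat → Nat := orc 1 1 1 0x0
  0x0
  0x0
noncomputable def S77 : Nat := 0x4000000000000000000000000000000000000000000000000000000000000000000000000000000000000000000000000000000000000000000000000000000000000000000000000000000000000000000000000000000000000000000000000000000000000000000000000000000000000000000000000000000000000000000000000000000000000000000000000000000000000000000000000000000000000000000000000000000000000000000000000000000000000000000000000000000000000000000000000000000000000000000000000000000000000000000000000000000000000000000000000000000000000000000000000000000000000000000000000000000000000000000000000000000000000000000000000000000000000000000000000000000000000000000000000000000000000000000000000000000000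
theorem k77 : loop (f1 (tail O77 (outl outs) (mkE0 68157463 2880) 36 21 37 35 31 42 13 39 9 11 16 38)
    Q2 Q3 Q4 Q5 Q6 Q7 Q8 Q9 Q10 Q11 Q12) S77 = true := by decide +kernel
noncomputable def O78 : Nat → Nat := orc 56495 11 55 0x10000000000000016000200020001000000010000
  0x2de00000002d400000002a10000000212000000009900000002ab001d5001cb000cc0003d000ff00000001980000000000000000016f000000016500066000d60026e0030700000000000000000000000330027800000000000000000245000000023b00132001a2001fe0000a000000000000311000700000000000000a300109002080013c
  0x1524604001a8a543080880069aaa40410800aab5480024000d35518104000ff38c20109802006a91f544042000c34ed000900291550d00110032555000021002a544040048000c34ed0808c02fe768412108051bea92002400e795a540046014f2ca08208402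
noncomputable def S78 : Nat := 0x2000000000000000000000000000000000000000000000000000000000000000000000000000000000000000000000000000000000000000000000000000000000000000000000000000000000000000000000000000000000000000000000000000000000000000000000000000000000000000000000000000000000000000000000000000000000000000000000000000000000000000000000000000000000000000000000000000000000000000000000000000000000000000000000000000000000000000000000000000000000000000000000000000000000000000000000000000000000000000000000000000000000000000000000000000000000000000000000000000000000000000000000000000000000000000000000000000000000000000000000000000000000000000000000000000000000000000000000000000000000000000000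
theorem k78 : loop (f1 (tail O78 (outl outs) (mkE0 68157463 2880) 36 21 37 35 31 42 13 39 9 11 16 38)
    Q2 Q3 Q4 Q5 Q6 Q7 Q8 Q9 Q10 Q11 Q12) S78 = true := by decide +kernel

end Pool.Agent.T2H98.EGZ.K.C02
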