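import Pool.Agent.T2H98.EGZ.C.D02

set_option autoImplicit false
set_option linter.unusedVariables false

namespace Pool.Agent.T2H98.EGZ.K.C02

open K

noncomputable def O81 : Nat → Nat := orc 41365 25 106 0x200010001000800040000000000010000000000020001000a000d00010002000200000001000100050002000000190000
  0x6c70000000000004dd00000001980003d00000007370076a004e7001320000a000000000000000000000044e00000000000066b0016f0062e002f30000000510006fa00165005d2002c000000003ab000000000000661000ff004aa0003300605001d50051a000000000000000000000000000000000cc00070000000079300264006940079d001cb0056c0069e003de00109004440037800562000000028d000000006600000000000059f000000023b00382002ca000000076000000000a30072d00231000000041100000000990041b003e800481001a200595001fe00326006d1004b4005fb0013c002080047700704006380000000000005c8000d600297002fd00330003b5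
  0x3f924a808420048f9a080094012491040012007fd51880424002a95f5000420054aaa0820880069aaa4041080030d2466825006aaa5181042007f54afab08c0092aa800010801fcb2aa6c20007f94d181ff21a00110001aa48d518108000835460021002a8c6101042003469a20808801a9f684041100122a48c202500c411434604400fe69b28308801fd450d1269aa8c0840004d35518104000d4fb4202088009e5695001180420953e08212e59400010009fc925404210024aaa0000420054aaa082088008cd18404100035552caa821003f924a80842004921a6800800169a550001080ad34f92202400e4aaa000042007f38200109802
noncomputable def S81 : Nat := 0x2000000000000000000000000000000000000000000000000000000000000000000000000000000000000000000000000000000000000000000000000000000000000000000000000000000000000000000000000000000000000000000000000000000000000000000000000000000000000000000000000000000000000000000000000000000000000000000000000000000000000000000000000000000000000000000000000000000000000000000000000000000000000000000000000000000000000000000000000000000000000000000000000000000000000000000000000000000000000000000000000000000000000000000000000000000000000000000000000000000000000000000000000000000000000000000000000000000000000000000000000000000000000000000000000000000000000000000000000000000000000000000000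
theorem k81 : loop (f1 (tail O81 (outl outs) (mkE0 68157463 2880) 36 21 37 35 31 42 13 39 9 11 16 38)
    Q2 Q3 Q4 Q5 Q6 Q7 Q8 Q9 Q10 Q11 Q12) S81 = true := by decide +kernel

end Pool.Agent.T2H98.EGZ.K.C02
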