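import Pool.Agent.T2H98.EGZ.C.D02

set_option autoImplicit false
set_option linter.unusedVariables false

namespace Pool.Agent.T2H98.EGZ.K.C02

open K

noncomputable def O86 : Nat → Nat := orc 60427 8 47 0x6000000050001000100000000
  0x700021d00000000a30028d00000000000015100000001f40000000000000000009900227000000000000000000000015b002830000000000000000000000000001ea0025a0011e001840018e000f500000000000000000066001b70003300250001c10000a0003d000eb00000001280000000000
  0x2a8c6101042007f52a30308400041aa30010801fc92540421002a964180046004921a3000880134610100118020015483022002a9645000440054aaa082aa59140021001fd4a8c0c210024aaa000042005518c20208400
noncomputable def S86 : Nat := 0x1000000000000000000000000000000000000000000000000000000000000000000000000000000000000000000000000000000000000000000000000000000000000000000000000000000000000000000000000000000000000000000000000000000000000000000000000000000000000000000000000000000000000000000000000000000000000000000000000000000000000000000000000000000000000000000000000000000000000000000000000000000000000000000000000000000000000000000000000000000000000000000000000000000000000000000000000000000000000000000000000000000000000000000000000000000000000000000000000000000000000000000000000000000000000000000000000000000000000000000000000000000000000000000000000000000000000000000000000000000000000000000000000000000000000000000000000000000000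
theorem k86 : loop (f1 (tail O86 (outl outs) (mkE0 68157463 2880) 36 21 37 35 31 42 13 39 9 11 16 38)
    Q2 Q3 Q4 Q5 Q6 Q7 Q8 Q9 Q10 Q11 Q12) S86 = true := by decide +kernel
noncomputable def O87 : Nat → Nat := orc 54053 3 16 0x10000
  0x330000a000660000000070000cc000a3000990003d00000000000000000000000d60000000000
  0x552bea0008400104a9f041080030d3b4202300bf9d41868460155246a8c08400
noncomputable def S87 : Nat := 0x2000000000000000000000000000000000000000000000000000000000000000000000000000000000000000000000000000000000000000000000000000000000000000000000000000000000000000000000000000000000000000000000000000000000000000000000000000000000000000000000000000000000000000000000000000000000000000000000000000000000000000000000000000000000000000000000000000000000000000000000000000000000000000000000000000000000000000000000000000000000000000000000000000000000000000000000000000000000000000000000000000000000000000000000000000000000000000000000000000000000000000000000000000000000000000000000000000000000000000000000000000000000000000000000000000000000000000000000000000000000000000000000000000000000000000000000000000000000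
theorem k87 : loop (f1 (tail O87 (outl outs) (mkE0 68157463 2880) 36 21 37 35 31 42 13 39 9 11 16 38)
    Q2 Q3 Q4 Q5 Q6 Q7 Q8 Q9 Q10 Q11 Q12) S87 = true := by decide +kernel

end Pool.Agent.T2H98.EGZ.K.C02
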