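import Pool.Agent.T2H98.EGZ.C.D02

set_option autoImplicit false
set_option linter.unusedVariables false

namespace Pool.Agent.T2H98.EGZ.K.C02

open K

noncomputable def O92 : Nat → Nat := orc 52301 2 13 0x5
  0x3d00000000a30000a000990007000000000660000000000000000000000033
  0x92aa80001080124952a202200152cb10404c024b21a20008801
noncomputable def S92 : Nat := 0x100000000000000000000000000000000000000000000000000000000000000000000000000000000000000000000000000000000000000000000000000000000000000000000000000000000000000000000000000000000000000000000000000000000000000000000000000000000000000000000000000000000000000000000000000000000000000000000000000000000000000000000000000000000000000000000000000000000000000000000000000000000000000000000000000000000000000000000000000000000000000000000000000000000000000000000000000000000000000000000000000000000000000000000000000000000000000000000000000000000000000000000000000000000000000000000000000000000000000000000000000000000000000000000000000000000000000000000000000000000000000000000000000000000000000000000000000000000000000000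
theorem k92 : loop (f1 (tail O92 (outl outs) (mkE0 68157463 2880) 36 21 37 35 31 42 13 39 9 11 16 38)
    Q2 Q3 Q4 Q5 Q6 Q7 Q8 Q9 Q10 Q11 Q12) S92 = true := by decide +kernel
noncomputable def O93 : Nat → Nat := orc 49573 27 113 0x70003000000070003000000000003000700010000000000000003000400040002000200010004000100000009000400000003
  0xff0000000363000000060f000000083700705003fc0000000804003a0000000000000066000000060500661007d1005d20079400860000cc000000000000132000000000000000000000036d0000000000008930082d00297000700003d000a3005dc004060050500000001cb002080052e0072e00307002fd00000007fa00000000000068a0079e000000016500000001980042f00231004c800000001fe00000001d50016f0073800000003300010900761004fb003960033a0026e0023b00000000330046c000d60076b00462002a1004d2002ca000000013c0089d007c7003c9000000000000538003d3000000058a00495004390058000264006fb000000000000099000000049f0086a002d40000a00657001a200694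
  0x3f34d94184400ff29208109803fe5346061000220953e082100061a7684046014f3c80800900269a54d0012802a29502002200258df2c604c0234d46a162cb506051c72960062013f9d41868460148fbe69afe354d0221003fc6a9a042200658d00402084aa82104059a38c61934c308004201a699a68604a0348a12302084039e79040411805fcf3aa0c2000a38df34604600ff3aa20308c02186a9400120005971880020010411a24104c01c71be68c08c01fd450d1210003fcf2c6fc2100bf9e7541840010c34919a09401fea5460610801f9a6820423007faa58c0844007e69a30908c01963341001280355528c0821003faaa940848007f1a8683088019249e550108052555000021002a95f5000420049254a8808800
noncomputable def S93 : Nat := 0x4000000000000000000000000000000000000000000000000000000000000000000000000000000000000000000000000000000000000000000000000000000000000000000000000000000000000000000000000000000000000000000000000000000000000000000000000000000000000000000000000000000000000000000000000000000000000000000000000000000000000000000000000000000000000000000000000000000000000000000000000000000000000000000000000000000000000000000000000000000000000000000000000000000000000000000000000000000000000000000000000000000000000000000000000000000000000000000000000000000000000000000000000000000000000000000000000000000000000000000000000000000000000000000000000000000000000000000000000000000000000000000000000000000000000000000000000000000000000000000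
theorem k93 : loop (f1 (tail O93 (outl outs) (mkE0 68157463 2880) 36 21 37 35 31 42 13 39 9 11 16 38)
    Q2 Q3 Q4 Q5 Q6 Q7 Q8 Q9 Q10 Q11 Q12) S93 = true := by decide +kernel

end Pool.Agent.T2H98.EGZ.K.C02
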