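import Pool.Agent.T2H98.EGZ.C.D02

set_option autoImplicit false
set_option linter.unusedVariables false

namespace Pool.Agent.T2H98.EGZ.K.C02

open K

noncomputable def O95 : Nat → Nat := orc 52143 25 99 0x60006000100070004000e00040000000000030000001400000000000200040001000800020002000c0003000000010000
  0x510000000000000109002b60037800000003de0003d006bd0044400000000000000000638000000019800000000000000000000002830064200000000ff004dd00000005d2007db0041b005dc004e700000003b500000003ab000000028d0068a007750059f0060f0054300000005a900723001fe000990072d000660016f006c70031c0051a001cb002e90016500070003e800557004aa00326007a8001320054d002f3004110069400477007e500000000cc006050025a000d60048100250000000044e0013c001a2001d5000a300000000000000000000000000000a0034f006f0004b400208000330077f002c000382007b2006fa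
  0x2492a181048007f554a830880018634400120035491aa32aa94504082003efc64880840392aa800010800a2954a0823002a5060407f55520310c0092354d18100032cb5080023002a544040048007e82120191a50b042300a027f52a3030840092aa80001080155528c0821002795a540046015554a30208400fe5346061000230ca9a0822006492704004a0134d486820800155590d041334d286820940169a8cb1811809fd51800423002a95f500042007f548f83098006aaa9451fb4d54a442003f7df2c1840027f3b420109402fea7c60611801f9a3020c2500679e4040048017f2495010840068d34410110035551b40821002a8c610104200552aaa0008c00
noncomputable def S95 : Nat := 0x2000000000000000000000000000000000000000000000000000000000000000000000000000000000000000000000000000000000000000000000000000000000000000000000000000000000000000000000000000000000000000000000000000000000000000000000000000000000000000000000000000000000000000000000000000000000000000000000000000000000000000000000000000000000000000000000000000000000000000000000000000000000000000000000000000000000000000000000000000000000000000000000000000000000000000000000000000000000000000000000000000000000000000000000000000000000000000000000000000000000000000000000000000000000000000000000000000000000000000000000000000000000000000000000000000000000000000000000000000000000000000000000000000000000000000000000000000000000000000000000000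
theorem k95 : loop (f1 (tail O95 (outl outs) (mkE0 68157463 2880) 36 21 37 35 31 42 13 39 9 11 16 38)
    Q2 Q3 Q4 Q5 Q6 Q7 Q8 Q9 Q10 Q11 Q12) S95 = true := by decide +kernel
noncomputable def O96 : Nat → Nat := orc 43001 1 4 0x0
  0xa000000000000000
  0x4955400008400
noncomputable def S96 : Nat := 0x100000000000000000000000000000000000000000000000000000000000000000000000000000000000000000000000000000000000000000000000000000000000000000000000000000000000000000000000000000000000000000000000000000000000000000000000000000000000000000000000000000000000000000000000000000000000000000000000000000000000000000000000000000000000000000000000000000000000000000000000000000000000000000000000000000000000000000000000000000000000000000000000000000000000000000000000000000000000000000000000000000000000000000000000000000000000000000000000000000000000000000000000000000000000000000000000000000000000000000000000000000000000000000000000000000000000000000000000000000000000000000000000000000000000000000000000000000000000000000000000000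
theorem k96 : loop (f1 (tail O96 (outl outs) (mkE0 68157463 2880) 36 21 37 35 31 42 13 39 9 11 16 38)
    Q2 Q3 Q4 Q5 Q6 Q7 Q8 Q9 Q10 Q11 Q12) S96 = true := by decide +kernel

end Pool.Agent.T2H98.EGZ.K.C02
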