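import Pool.Agent.T2H98.EGZ.C.D02

set_option autoImplicit false
set_option linter.unusedVariables false

namespace Pool.Agent.T2H98.EGZ.K.C02

open K

noncomputable def O101 : Nat → Nat := orc 64325 9 38 0x300000000001500000002000e00020000
  0x26e0000000000000a30000000198002310016f0023b001a20013c000000000000099001cb0000a0003d001fe00070000000016500208000d6001d5000cc0000000132002a10003300297000ff000000026400109000660000000000
  0x24aaa000042005554b2aa08400fea546061080000153e3021001a6a324604801cb2c848808403fea504121080124869a0020006a95f500042007f3aa20308c027da54d04120035463080821002a8c61010420054a0c08008c00
noncomputable def S101 : Nat := 0x1000000000000000000000000000000000000000000000000000000000000000000000000000000000000000000000000000000000000000000000000000000000000000000000000000000000000000000000000000000000000000000000000000000000000000000000000000000000000000000000000000000000000000000000000000000000000000000000000000000000000000000000000000000000000000000000000000000000000000000000000000000000000000000000000000000000000000000000000000000000000000000000000000000000000000000000000000000000000000000000000000000000000000000000000000000000000000000000000000000000000000000000000000000000000000000000000000000000000000000000000000000000000000000000000000000000000000000000000000000000000000000000000000000000000000000000000000000000000000000000000000000000000000000000000000000000000000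
theorem k101 : loop (f1 (tail O101 (outl outs) (mkE0 68157463 2880) 36 21 37 35 31 42 13 39 9 11 16 38)
    Q2 Q3 Q4 Q5 Q6 Q7 Q8 Q9 Q10 Q11 Q12) S101 = true := by decide +kernel
noncomputable def O102 : Nat → Nat := orc 60093 3 13 0x200020000
  0xeb00066000990000000000000330007000000000e1000000000a0003d
  0xfd450d121000355528c0aa95f50008200153e3021002a95f50004200552bea0008400
noncomputable def S102 : Nat := 0x2000000000000000000000000000000000000000000000000000000000000000000000000000000000000000000000000000000000000000000000000000000000000000000000000000000000000000000000000000000000000000000000000000000000000000000000000000000000000000000000000000000000000000000000000000000000000000000000000000000000000000000000000000000000000000000000000000000000000000000000000000000000000000000000000000000000000000000000000000000000000000000000000000000000000000000000000000000000000000000000000000000000000000000000000000000000000000000000000000000000000000000000000000000000000000000000000000000000000000000000000000000000000000000000000000000000000000000000000000000000000000000000000000000000000000000000000000000000000000000000000000000000000000000000000000000000000000000000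
theorem k102 : loop (f1 (tail O102 (outl outs) (mkE0 68157463 2880) 36 21 37 35 31 42 13 39 9 11 16 38)
    Q2 Q3 Q4 Q5 Q6 Q7 Q8 Q9 Q10 Q11 Q12) S102 = true := by decide +kernel

end Pool.Agent.T2H98.EGZ.K.C02
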