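import Pool.Agent.T2H98.EGZ.C.D02

set_option autoImplicit false
set_option linter.unusedVariables false

namespace Pool.Agent.T2H98.EGZ.K.C02

open K

noncomputable def O8 : Nat → Nat := orc 45405 7 28 0x100020000000e00020000
  0xa300000000000007000184002130021d001ad0003d00000000ff00099001e0001ea000000000a001b7001320013c00000000330000000066000cc00000000d60000000109
  0x2492550d0440088254f8208400a955410411001fcf2a82426fe5967033b43020043008434d00004a00ff249501084007df8cd101180324952a2022002a544040048004921a30008801
noncomputable def S8 : Nat := 0x4000000000000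
theorem k8 : loop (f1 (tail O8 (outl outs) (mkE0 68157463 2880) 36 21 37 35 31 42 13 39 9 11 16 38)
    Q2 Q3 Q4 Q5 Q6 Q7 Q8 Q9 Q10 Q11 Q12) S8 = true := by decide +kernel

end Pool.Agent.T2H98.EGZ.K.C02
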