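import Pool.Agent.T2H98.EGZ.C.D02

set_option autoImplicit false
set_option linter.unusedVariables false

namespace Pool.Agent.T2H98.EGZ.K.C02

open K

noncomputable def O13 : Nat → Nat := orc 57399 56 248 0x1000000000000000000050000000700070000000000000000000800000008000300030000000300000019000200010001000400000007000000080000000200070009000a000a0000003b000000020000000800000002000400010000000c00060000001f00000003001400000000
  0xedf00000006800003300719008ee000000000000cb800000008b1000000043a000a300bb80016500f08000000085500000005be00000000000000000c1e000000000000000008e40000000d700000000000011430000000000009b0010a00000000000000000031c0078900a8600f1200000000000000000000000000000000c6600000000000000000b150000000000009540074c00a490046d0040700cc200198000cc01044010d300a7c0000a0106d0098700c140094a000000038200000003fd0000000132001d500a2000000009e30000001110000000000000657000000092100e4600ed500000008bb0003d001fe0000000000000000013c0000000000002640068a006bd002ca00b7b00fa100c7000d7a0000000da30016f00be100b4800000006f0000000100700000007ef00de0000d600fde000000097d000000000000b52000000020800dad00fd4000000062400aec007bc0054e0026e0009900fab007e5000000046300eac0113900d28007b200e1300ae200e790000000bae00000010110117600f45006e6004d300f780077f00ab90006600359005e7000ff00dd600f6e001cb007560000000b8500000001a200beb00070000000038c005f100ea20064d0000000aaf010aa00818002310032600a1600ceb003d4000000023b0103a00e6f0010900a53010dd0000000f3b000000088800e3c00cf5005060061a00000004fc006b30084b00000002d40082200000000000000000000000000087e00d1e005580107700000004a000917009ed0049600723004c900e090000001106000000000000430002a10116c005b40058b005810000000297009ba00000000000000000b1f0034f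
  0x34d2a6800940192aa80001080155528c08210024927544040017f3a8303090029249da1013004a2921a0822004106a8c0042007e59620308404fe768412108052555000021000106a8c00420034d3e58808c042410400010807fd4a8c0c21002596a5460440054aaa08208800fcb2c10212809555248a025003f924a80842007ed34689088019642c404a962020040012492a955048004f2c8200084022e594000a962020040012490d3407f21a00110001955344001180322a58c0025013f924a8084200020d518008400aa31840410800a2950c2022003fa94104842004aaaa69a08001041aa30010801554a282021001a6aa901042004b2d420008c00924346001100354b2280022002aaa3681042004f3c820208c0250d101001100200154830220024aaa000042005554a30208400555aa410118012555000021003f51434484000a8a3458008c04aaa5141010801fc9254042100248d53460400080054f8c08400fe354d061300322a6880824006a964500044000004ea0c094029543461012003fc92540421000b1040414b2c858010404041aa300108015552caa821003faaa5418440049554000084008e39e418118055551bea026fea546075463080841000411f3410400088254f8208400fe55501a32080208410164aaa00004200552bea0008400514aa50411801fc92540421003fa941048420034d5520208400aa57d40010801fc7192042000c61aa8c004a0048faa68808001555a8100130012493820025009556a900048007f54600108c00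
noncomputable def S13 : Nat := 0x1000000000000000000000
theorem k13 : loop (f1 (tail O13 (outl outs) (mkE0 68157463 2880) 36 21 37 35 31 42 13 39 9 11 16 38)
    Q2 Q3 Q4 Q5 Q6 Q7 Q8 Q9 Q10 Q11 Q12) S13 = true := by decide +kernel
noncomputable def O14 : Nat → Nat := orc 56041 6 31 0x20004000e
  0xa001320000000000000000000000000000d60010900000000a3000000000000000001a20000000000000cc000330006600198000000013c00000000000003d0016f000ff000700016500099
  0x4b21a200088015559e50412805fcea8c0424009556534604400ff52820908400aaa8da04108012ca6820026006492718404a017ed3480d09805
noncomputable def S14 : Nat := 0x2000000000000000000000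
theorem k14 : loop (f1 (tail O14 (outl outs) (mkE0 68157463 2880) 36 21 37 35 31 42 13 39 9 11 16 38)
    Q2 Q3 Q4 Q5 Q6 Q7 Q8 Q9 Q10 Q11 Q12) S14 = true := by decide +kernel

end Pool.Agent.T2H98.EGZ.K.C02
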