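import Pool.Agent.T2H98.EGZ.C.D03

set_option autoImplicit false
set_option linter.unusedVariables false

namespace Pool.Agent.T2H98.EGZ.K.C03

open K

noncomputable def O0 : Nat → Nat := orc 63779 17 72 0x1a0000000000110003001300000005002700090000000200070003000000050007
  0x7000000000330003d004de000d6000a30047800213003b60051100482000cc0028e004ab001d6002090041c0015100544000000000000383000000006600000000000000000000003df00412004b50009900577002cb0018e0011e0058100000000000029800000002650044500000000000000000000000000015b001e000000000000054e002c100000003ac0033100000000000051b0025b0044f002fe002f400184003e90000a004e8003270012800379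
  0x2185c72804a027e71c30308801fce386061100324860c0824008c10400004a0138e2a3080840081c544041080073ae800023007f10438184a00fe2087030940185d384041000271d58802074e10008000c2eaa2020840081c5440410801040e9c0022007fad5100842002aa8c200fc10550221801040e9c0022007f74e1818824a7001180155570400110010c0a8c0821003f74c186fee1820110002feb5440210801fc260c042000bf96180e84000c870c20009801
noncomputable def S0 : Nat := 0x2100
theorem k0 : loop (f1 (tail O0 (outl outs) (mkE0 69256347671 2893) 28 33 32 43 37 21 14 12 20 40 17 27)
    Q2 Q3 Q4 Q5 Q6 Q7 Q8 Q9 Q10 Q11 Q12) S0 = true := by decide +kernel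
noncomputable def O1 : Nat → Nat := orc 49477 10 41 0x20000000400000000000f000f00010002000a
  0x660000000000002f300000001c10000000000001ea002270028d000330021d00000000d6000700025a0003d000000013c0013200099002e9002b6000a300109001840000a000cc00250001f40000000000002c00018e0000000283001b7000ff0000000000
  0x81d5440010801038a880821002badd38004c00b8e2a0800840038eac4001000271d2c80024007f91c38484400ff5c8a0109003feb70e3bf8821c0c45007f38e18184400c0e2a20208400fdd5410212001248e2a3022001c71510004a000001c20208801
noncomputable def S1 : Nat := 0x82000000000
theorem k1 : loop (f1 (tail O1 (outl outs) (mkE0 69256347671 2893) 28 33 32 43 37 21 14 12 20 40 17 27)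
    Q2 Q3 Q4 Q5 Q6 Q7 Q8 Q9 Q10 Q11 Q12) S1 = true := by decide +kernel
noncomputable def O2 : Nat → Nat := orc 55375 5 22 0x50002
  0x109000a300033000ff0013200000000d600099000000000000000000660016f000000003d000700000a000cc001650013c00000
  0x30c91d1812805faaaba0c21002b91d5400420038e2a08008400fd55641a11801248e9830230095861104042002b0c220808400
noncomputable def S2 : Nat := 0x2100000000000
theorem k2 : loop (f1 (tail O2 (outl outs) (mkE0 69256347671 2893) 28 33 32 43 37 21 14 12 20 40 17 27)
    Q2 Q3 Q4 Q5 Q6 Q7 Q8 Q9 Q10 Q11 Q12) S2 = true := by decide +kernel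

end Pool.Agent.T2H98.EGZ.K.C03
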