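import Pool.Agent.T2H98.EGZ.C.D03

set_option autoImplicit false
set_option linter.unusedVariables false

namespace Pool.Agent.T2H98.EGZ.K.C03

open K

noncomputable def O31 : Nat → Nat := orc 42773 19 79 0x11000800000003000800030000000100040000000000050008000000000009000700040000
  0x4d3002080000000411000d6000990044e0056200066001090003d00297001650026e001cb00264003de0000000000004fc0034f00000002fd00000000700048100506000000019800444000330053900000003e8002ca00000000a3002d400382004c900000000000000000000000000038c001fe00231000cc001a200000001d50000a005950056c0052f0016f005d2000000013c004770059f0023b00359005fb0030700000000ff0041b00000000000000000132002a1005c8003b50000000605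
  0x1ca28041040022aac230008800fdc30402100042094400825012075410104201c0eaa20008400041a1c0010809fca88826144604008802992ca00009002fe171506110010c2e1c0022006b860540047faaaca2423003f38e701846009d0c2208ae580e00200020007080822007f04154084600572b870c08c0196575504110012cae180023009556584004c0057238a8208400ae58150010800000eaa2026000410e18004400b8e2a080084008155441011001fbaa820424002b91d5400420038e4060c08402
noncomputable def S31 : Nat := 0x41000000000000000000000000000000000000000000000000000000000000000000000000000000000000000000000000000000000000000000000000000000000000000000000000000000000000000000000000000000000000000000000000000000000000000000000000000000000000000000000000000000000000000000000000000000000000000000000000000000000000000000000000000000000000000000000000000000000000000000000000000000000000000000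
theorem k31 : loop (f1 (tail O31 (outl outs) (mkE0 69256347671 2893) 28 33 32 43 37 21 14 12 20 40 17 27)
    Q2 Q3 Q4 Q5 Q6 Q7 Q8 Q9 Q10 Q11 Q12) S31 = true := by decide +kernel
noncomputable def O32 : Nat → Nat := orc 46877 13 51 0x400000001000000010000000000050015000000070005
  0x231000ff0000000000003b50016500033000cc0036d001090033a00363000000026e002ca00264001d500000000000013c00000001fe00208002fd001cb00307003de0003d00000003e80007000198002a10000000000000a3000000000a00330002d40000000297000660023b00000000d600000001320016f00099001a2
  0x15cb02a0021003f84c10484661903803f70c100880014309860808c02acc1810011805fcb09c2422007f5557418420038e3a70808801fce38606110030c2e1c00220055861104042002b0c220808400feb54402108014512020025011c715040042007e71ce830800171c541001080030d0ba70230061815181042004309c30008c01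
noncomputable def S32 : Nat := 0x1000000100000000000000000000000000000000000000000000000000000000000000000000000000000000000000000000000000000000000000000000000000000000000000000000000000000000000000000000000000000000000000000000000000000000000000000000000000000000000000000000000000000000000000000000000000000000000000000000000000000000000000000000000000000000000000000000000000000000000000000000000000000000000000000000
theorem k32 : loop (f1 (tail O32 (outl outs) (mkE0 69256347671 2893) 28 33 32 43 37 21 14 12 20 40 17 27)
    Q2 Q3 Q4 Q5 Q6 Q7 Q8 Q9 Q10 Q11 Q12) S32 = true := by decide +kernel
noncomputable def O33 : Nat → Nat := orc 45079 1 12 0x0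
  0x33000000000000000000000003d0000a0000000000000000000000000
  0x2075510004200430d6a8208c00
noncomputable def S33 : Nat := 0x4000000000000000000000000000000000000000000000000000000000000000000000000000000000000000000000000000000000000000000000000000000000000000000000000000000000000000000000000000000000000000000000000000000000000000000000000000000000000000000000000000000000000000000000000000000000000000000000000000000000000000000000000000000000000000000000000000000000000000000000000000000000000000000000000000
theorem k33 : loop (f1 (tail O33 (outl outs) (mkE0 69256347671 2893) 28 33 32 43 37 21 14 12 20 40 17 27)
    Q2 Q3 Q4 Q5 Q6 Q7 Q8 Q9 Q10 Q11 Q12) S33 = true := by decide +kernel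

end Pool.Agent.T2H98.EGZ.K.C03
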