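import Pool.Agent.T2H98.EGZ.C.D03

set_option autoImplicit false
set_option linter.unusedVariables false

namespace Pool.Agent.T2H98.EGZ.K.C03

open K

noncomputable def O51 : Nat → Nat := orc 53107 15 61 0x1000100030006000300030002000500030007000b000700140006
  0x2310042600132003fd0000a000660003d0031c00378000d6001fe003ca00463001d500496000cc001cb003c00000000000003f3000000016f0023b0028d002f3001a200165004c90048c004bf0036e00000000000003300000000000000000000002080000000198000ff002e9003260009900000000000000000459002830007000000002b60013c00000001090043000000002c0000a3
  0x20815180042007ea8c20308c00451104041080bfd7218242000bf85d540844002aeba08208400fce39d075c8e9c0040005d75c4467f242881108058605460410801f9c3000425004e75d000046009ceba08281d38400200032cae18002300a0715101042003aeaa20209400fe07150211000abae82082100259617550480040e1c20208001fdd3860613003f820aa042300208155460480038e2a08008400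
noncomputable def S51 : Nat := 0x1080000000000000000000000000000000000000000000000000000000000000000000000000000000000000000000000000000000000000000000000000000000000000000000000000000000000000000000000000000000000000000000000000000000000000000000000000000000000000000000000000000000000000000000000000000000000000000000000000000000000000000000000000000000000000000000000000000000000000000000000000000000000000000000000000000000000000000000000000000000000000000000000000000000000000000000000000000000000000000000000000000000000000000000000000000000000000000000000000000000000000000000000000000000000000000000000000000000000000000000000000000000000000000000000000000000000000000000000000000000000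
theorem k51 : loop (f1 (tail O51 (outl outs) (mkE0 69256347671 2893) 28 33 32 43 37 21 14 12 20 40 17 27)
    Q2 Q3 Q4 Q5 Q6 Q7 Q8 Q9 Q10 Q11 Q12) S51 = true := by decide +kernel
noncomputable def O52 : Nat → Nat := orc 62487 6 28 0x700080000000400000000
  0x1090000000000000a3000000003d00000001650000a000660007000033000cc00000001cb000ff00000000000016f001a2001980000000099000d600132001d50013c
  0x3f84c180840014101c30008001feb5440210801fcae9c0c220041555000046004102a3000840081d446041000b2cb0aa20220028a21100040027ee9c30309801
noncomputable def S52 : Nat := 0x102000000000000000000000000000000000000000000000000000000000000000000000000000000000000000000000000000000000000000000000000000000000000000000000000000000000000000000000000000000000000000000000000000000000000000000000000000000000000000000000000000000000000000000000000000000000000000000000000000000000000000000000000000000000000000000000000000000000000000000000000000000000000000000000000000000000000000000000000000000000000000000000000000000000000000000000000000000000000000000000000000000000000000000000000000000000000000000000000000000000000000000000000000000000000000000000000000000000000000000000000000000000000000000000000000000000000000000000000000000000000000000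
theorem k52 : loop (f1 (tail O52 (outl outs) (mkE0 69256347671 2893) 28 33 32 43 37 21 14 12 20 40 17 27)
    Q2 Q3 Q4 Q5 Q6 Q7 Q8 Q9 Q10 Q11 Q12) S52 = true := by decide +kernel

end Pool.Agent.T2H98.EGZ.K.C03
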