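import Pool.Agent.T2H98.EGZ.C.D03

set_option autoImplicit false
set_option linter.unusedVariables false

namespace Pool.Agent.T2H98.EGZ.K.C03

open K

noncomputable def O6 : Nat → Nat := orc 41431 12 61 0x40000000100010011000000000003000400020010
  0xd6000000003d0000000000003de00000000a3002c000000002f30025000198003d40038c000000028d000000016f00000000000000000000001ea0021d0028300000001650010900227000000000000000000000034f000cc000000007000132001a20025a000000000000000000000000a000ff00033003260035900000002b60013c0031c00382001f400066002e9000000009900000
  0x4ae9c3000940118685d3904070c0843006595d301040017f5aa2010840085c3840011803fbae1c7424004e3ab80004400c924a70008801820546001080124929c0022004000e1017f24270d10801000384041100273ae820820007f5557418420040aaa2080880096474c10118055c8eaa0021003fad504084a004102a30008400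
noncomputable def S6 : Nat := 0x4000000000000000000000000000000000000000000000000000000
theorem k6 : loop (f1 (tail O6 (outl outs) (mkE0 69256347671 2893) 28 33 32 43 37 21 14 12 20 40 17 27)
    Q2 Q3 Q4 Q5 Q6 Q7 Q8 Q9 Q10 Q11 Q12) S6 = true := by decide +kernel
noncomputable def O7 : Nat → Nat := orc 55387 10 42 0x10000000800100005000100060007
  0x2310003d00033000a3002b6001d5001fe0000a000cc00070003120023b001cb0000000000001090013c00000000000000000000000d600000002e900000000000000000000002ac00066000000016f002080031c001a2000ff002df0009900132001980028300165
  0xe38a820021001c715040042002aeba082084005618441010aaeba082feb54402208010c270c00230060555104044007f0b8db708006feb715021300061900c202400bf81c5408440038e2a080084001043860011003faaaba0c21003f7551848480038e2a08008400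
noncomputable def S7 : Nat := 0x2100000000000000000000000000000000000000000000000000000000
theorem k7 : loop (f1 (tail O7 (outl outs) (mkE0 69256347671 2893) 28 33 32 43 37 21 14 12 20 40 17 27)
    Q2 Q3 Q4 Q5 Q6 Q7 Q8 Q9 Q10 Q11 Q12) S7 = true := by decide +kernel
noncomputable def O8 : Nat → Nat := orc 47735 1 6 0x0
  0x330000a0003d0000000000
  0x15861104042001c75708208801
noncomputable def S8 : Nat := 0x1000000000000000000000000000000000000000000000000000000000000000
theorem k8 : loop (f1 (tail O8 (outl outs) (mkE0 69256347671 2893) 28 33 32 43 37 21 14 12 20 40 17 27)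
    Q2 Q3 Q4 Q5 Q6 Q7 Q8 Q9 Q10 Q11 Q12) S8 = true := by decide +kernel

end Pool.Agent.T2H98.EGZ.K.C03
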