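import Pool.Agent.T2H98.EGZ.C.D03

set_option autoImplicit false
set_option linter.unusedVariables false

namespace Pool.Agent.T2H98.EGZ.K.C03

open K

noncomputable def O55 : Nat → Nat := orc 47347 19 77 0x300010002000700000008000100000003000400000000000d000c000300010000000e000a
  0x42f00396000000050f00000000000059e00000003c90053800264000ff001320026e0033000363001a200307001cb000000023b002fd002080013c0003d0009900165000000056b00000002d4000330047600505000cc004a90036d002a1005a800297003d3003fc0033a004d200000004390000a00000002310049f0000000000000a3000d60000000000000660046200406001d50000000575002ca0046c00000001fe0000000198000000007000542000000016f00109003a0004dc
  0x1fbaeaa3422001c715040042005660c08008c029645461011800e38a820021001c72130104a015145720008c04005d75c70e04800fe71ce8108c0139d7400011802e38a8c2021002b960540042004ae9c3000940186074e041100303aa8800210025915184046007e082a8108c00000ad518110010baa8808210021815181042007f0b8a83088008205460010800aab03a2024001556b904044007f0b8a830880082074e0011002aab5c82022003f70c1008400140e2a20208400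
noncomputable def S55 : Nat := 0x44000000000000000000000000000000000000000000000000000000000000000000000000000000000000000000000000000000000000000000000000000000000000000000000000000000000000000000000000000000000000000000000000000000000000000000000000000000000000000000000000000000000000000000000000000000000000000000000000000000000000000000000000000000000000000000000000000000000000000000000000000000000000000000000000000000000000000000000000000000000000000000000000000000000000000000000000000000000000000000000000000000000000000000000000000000000000000000000000000000000000000000000000000000000000000000000000000000000000000000000000000000000000000000000000000000000000000000000000000000000000000000000000000000000000000000000000000000000000000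
theorem k55 : loop (f1 (tail O55 (outl outs) (mkE0 69256347671 2893) 28 33 32 43 37 21 14 12 20 40 17 27)
    Q2 Q3 Q4 Q5 Q6 Q7 Q8 Q9 Q10 Q11 Q12) S55 = true := by decide +kernel
noncomputable def O56 : Nat → Nat := orc 46085 4 21 0x2000500000000
  0x6600000000000009900147000a30015100000000330007000000000000011e000cc00000000000000000000001140003d0000a
  0x3f95d38184400c2eb86000940200038404e38e9c204286150600108070c2a0c002100dd70e04004600ff5c8a0109003
noncomputable def S56 : Nat := 0x40000004000000000000000000000000000000000000000000000000000000000000000000000000000000000000000000000000000000000000000000000000000000000000000000000000000000000000000000000000000000000000000000000000000000000000000000000000000000000000000000000000000000000000000000000000000000000000000000000000000000000000000000000000000000000000000000000000000000000000000000000000000000000000000000000000000000000000000000000000000000000000000000000000000000000000000000000000000000000000000000000000000000000000000000000000000000000000000000000000000000000000000000000000000000000000000000000000000000000000000000000000000000000000000000000000000000000000000000000000000000000000000000000000000000000000000000000000000000000000000000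
theorem k56 : loop (f1 (tail O56 (outl outs) (mkE0 69256347671 2893) 28 33 32 43 37 21 14 12 20 40 17 27)
    Q2 Q3 Q4 Q5 Q6 Q7 Q8 Q9 Q10 Q11 Q12) S56 = true := by decide +kernel

end Pool.Agent.T2H98.EGZ.K.C03
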