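import Pool.Agent.T2H98.EGZ.C.D03

set_option autoImplicit false
set_option linter.unusedVariables false

namespace Pool.Agent.T2H98.EGZ.K.C03

open K

noncomputable def O15 : Nat → Nat := orc 52977 32 131 0xf0000000000000004000100000003000300000003000000000009000f0000000600030001000700000010000c001300020003001900010007000000000000
  0x4bf006fa007f90087e006f0004960005200822008c600595005fb00114005f1007c6007ef009920052f0013d0095f0042600463009690048c000b8004f20056200a17005580082c007890092c00760008d000a210033100000002ac00793003ca00364008740000000000001d60000000147004c900000008f9000000099c000000000000000001a3007560038d0000000000000000010a0058b007bc0000000000001ad003970000000085000000000000525002df004fc00213006940068a002a2000000000000000000000062e006bd0000000936009e4000c2002d500279000000000a0026f0008f005c80000000000003c00072d00000000000017a00000000000000000246001e0009ee0005c005be0023c0062400657003fd0017000903006c7002090032700000000000000000000004300035a0000000661003f3007230045900000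
  0x1c72b94e04400fe082a8108c00fce39d0673ae820840004619d71504a0042eaa20208400feb9205611001faaaba0c21002196538e1ceba00010c0139d74000eb87020043006186038404400b8e2a0800840004194e181300324929c0022005575d0410420038e2a0800840075c381001180273ae80002300461a174e04600d72b8a0c084035551840011800e38a820021000e3ab80004400c302a30208400fe574e061100303aa880021003fad51008420038e1c0800800186170e001100270c3020822006074e10004000aaa8c20008c0075c3810011803fc060c0c2300bf5557418420036dd700800081b182000ce38e9c2022006595c30004601430b8e500940481d5460412800aaae080022003f30c18184201430b87000880155d74104108010b87080023005471c0413ae280801040374c3041012005fc30388c21014412075428eba30c11403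
noncomputable def S15 : Nat := 0x1000000000000000000000000000000004000000000000000000000000000000000000000000000000000000000000000000000000000
theorem k15 : loop (f1 (tail O15 (outl outs) (mkE0 69256347671 2893) 28 33 32 43 37 21 14 12 20 40 17 27)
    Q2 Q3 Q4 Q5 Q6 Q7 Q8 Q9 Q10 Q11 Q12) S15 = true := by decide +kernel
noncomputable def O16 : Nat → Nat := orc 52007 12 57 0x7000000010012000000310000000000000000000f
  0x1cb001980016f0000000000000ff000000000000000002fd000d6000000007000066001d500132003a0001a20000000000000990000000000002d40026400231000000036300297001fe00000002080013c0000000396000a3002a100165002ca000000023b0000a000cc00307000000003d0010900000000000026e00000000000033a0036d003300003300000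
  0x1fc2e2a0c2200217551010420056eaa20209000fd55611210801fd702a2426001c71510004a007eaaae8308400000ad518110010c0a8c0821003fae875d84a0238e2a08008400fe43860612002abae820821000e75d04104000d7238a880940081d5440010800e38a820021003f555741842000c342e2a08400
noncomputable def S16 : Nat := 0x102000000000000000000000000000000000000000000000000000000000000000000000000000000000000000000000000000000000000
theorem k16 : loop (f1 (tail O16 (outl outs) (mkE0 69256347671 2893) 28 33 32 43 37 21 14 12 20 40 17 27)
    Q2 Q3 Q4 Q5 Q6 Q7 Q8 Q9 Q10 Q11 Q12) S16 = true := by decide +kernel

end Pool.Agent.T2H98.EGZ.K.C03
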