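import Pool.Agent.T2H98.EGZ.C.D03

set_option autoImplicit false
set_option linter.unusedVariables false

namespace Pool.Agent.T2H98.EGZ.K.C03

open K

noncomputable def O20 : Nat → Nat := orc 50033 11 55 0x400010000000f000000000001000000000000
  0x1b70003d00000000000028d001f40003300000000000034f00000002b6000cc00000000000031c001c100000000000000a000ff001090015100000000000009900000002500018e0000000000002830000000066002e90000000000001ea0000000184000a300326000000025a00000000d60015b0021d0000000070002c000359002f30000000227
  0x1d86138e04a008821c3000880182074e0011002aaa3080023001c715040042007f2c301d080015558460011001fc8e1c2422007f84c104846017f5d00810980475d451841080aeba61832080c304080017f5c902b0880005554000118010c0e98202500bfad5100842004309860808c02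
noncomputable def S20 : Nat := 0x1000000000000000000000000000000000000000000000000000000000000000000000000000000000000000000000000000000000000000000000000000000
theorem k20 : loop (f1 (tail O20 (outl outs) (mkE0 69256347671 2893) 28 33 32 43 37 21 14 12 20 40 17 27)
    Q2 Q3 Q4 Q5 Q6 Q7 Q8 Q9 Q10 Q11 Q12) S20 = true := by decide +kernel
noncomputable def O21 : Nat → Nat := orc 45405 7 28 0x100010007000a00000000
  0x12800000001cb00070000000013200000000d6000000003d0018e00000000660003300000000000015b0000a001f40007a000ad000e0001fe00000000a30019800165001c1
  0x1ceba00008c0186170e001100230d0b8a821002174e101040008c338a000980310481b04e362020040019556481c04200430d6a0208003005555c1000440038e1c08008001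
noncomputable def S21 : Nat := 0x42000000000000000000000000000000000000000000000000000000000000000000000000000000000000000000000000000000000000000000000000000000
theorem k21 : loop (f1 (tail O21 (outl outs) (mkE0 69256347671 2893) 28 33 32 43 37 21 14 12 20 40 17 27)
    Q2 Q3 Q4 Q5 Q6 Q7 Q8 Q9 Q10 Q11 Q12) S21 = true := by decide +kernel
noncomputable def O22 : Nat → Nat := orc 58989 13 54 0x200030003002e00030008000000120000000d000000000000
  0x232002f4000d60000000000003fd0000000000000cc0035a0038d0033100000002c100000003c00042600397001cc0026500132002cb0003d000700009900066000ff001ff0000a003f30036400000002280003300184002fe00000003ca00000004300025b000a300000003270013c0028e00000002980000000000001090000000000001d6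
  0xfd451c06eb8a02004100e050604004c01ff0aa2010900092480c0410005038a880821002074e10104600c102a3000840085c3840011802e38a820021001c715040042001ce3808208c0100081518132b2ca20808c0038eac405f9c73a0443820386050c270c0043006185c300042017eaaae830840075c38100118035cb0aa08210021815181042004103870208801
noncomputable def S22 : Nat := 0x2000000000000000000000000000000000000000000000000000000000000000000000000000000000000000000000000000000000000000000000000000000000
theorem k22 : loop (f1 (tail O22 (outl outs) (mkE0 69256347671 2893) 28 33 32 43 37 21 14 12 20 40 17 27)
    Q2 Q3 Q4 Q5 Q6 Q7 Q8 Q9 Q10 Q11 Q12) S22 = true := by decide +kernel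

end Pool.Agent.T2H98.EGZ.K.C03
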