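import Pool.Agent.T2H98.EGZ.C.D03

set_option autoImplicit false
set_option linter.unusedVariables false

namespace Pool.Agent.T2H98.EGZ.K.C03

open K

noncomputable def O26 : Nat → Nat := orc 52545 8 33 0x5001200000001000b000100010000
  0x208001d5000d600070000cc001090000a001cb0023100033000000000000000000000009900000000000013c00000001fe000000023b0003d001980000000000000a30016500066001a20016f000ff00132
  0x74e1840012002abae82082100208151800420038e3a70808801ae47150410800e38a820021001c71d38404400b8e2a080084008205460010801040a8c0021000000e10104400ff5aa20108400
noncomputable def S26 : Nat := 0x4000002000000000000000000000000000000000000000000000000000000000000000000000000000000000000000000000000000000000000000000000000000000000000000000000000000000000000000000000000000000000000000000000000000000000000000000000000000000000000000000000000000000000000000000000000000000000000000000000000000000000000000000000000000000000000000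
theorem k26 : loop (f1 (tail O26 (outl outs) (mkE0 69256347671 2893) 28 33 32 43 37 21 14 12 20 40 17 27)
    Q2 Q3 Q4 Q5 Q6 Q7 Q8 Q9 Q10 Q11 Q12) S26 = true := by decide +kernel
noncomputable def O27 : Nat → Nat := orc 42503 15 60 0x20008000800020008000d000100000007000000020007000e
  0xcc00297000000023b004770046d0000000000000000003d0020800459000d6001d5001a2003c000070004aa003ca002f300000000a3001790026e0046300430001090016f00000002a1000000000000000001cb0013c0000a003f300378004260000000000004a00009900326000330031c001650034f0026400000002e900000001fe00000000ff0013200231003fd0006600000
  0x7f5aa20108400521840001280600800e38a8c2021001575d041042007f5b8a810980030cace01fd72980c43fe584e12111c75620008001fce386061100230d0b872b91d38008000ff5aa2010840075dad410100070c2e1c0022007f71400084801ff242aa9093f71575d84600801f820aa0423002074e10004000fe70c00109401ae580e0411803fc27020426004410e18004400c0eaa20008400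
noncomputable def S27 : Nat := 0x1000002100000000000000000000000000000000000000000000000000000000000000000000000000000000000000000000000000000000000000000000000000000000000000000000000000000000000000000000000000000000000000000000000000000000000000000000000000000000000000000000000000000000000000000000000000000000000000000000000000000000000000000000000000000000000000000000000
theorem k27 : loop (f1 (tail O27 (outl outs) (mkE0 69256347671 2893) 28 33 32 43 37 21 14 12 20 40 17 27)
    Q2 Q3 Q4 Q5 Q6 Q7 Q8 Q9 Q10 Q11 Q12) S27 = true := by decide +kernel

end Pool.Agent.T2H98.EGZ.K.C03
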