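import Pool.Agent.T2H98.EGZ.C.D04

set_option autoImplicit false
set_option linter.unusedVariables false

namespace Pool.Agent.T2H98.EGZ.K.C04

open K

noncomputable def O0 : Nat → Nat := orc 51749 1 10 0x0
  0xa00033000000000000000000000000000066000000003d
  0x71c1c50ce3818611c70610138e02080214471c0c304800b838c18008801
noncomputable def S0 : Nat := 0x140
theorem k0 : loop (f1 (tail O0 (outl outs) (mkE0 549755814171 2856) 7 2 5 33 35 30 28 38 32 34 29 31)
    Q2 Q3 Q4 Q5 Q6 Q7 Q8 Q9 Q10 Q11 Q12) S0 = true := by decide +kernel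
noncomputable def O1 : Nat → Nat := orc 47735 1 6 0x0
  0x3d000330000000000000000000a
  0x279e041042000413820008801
noncomputable def S1 : Nat := 0x5000
theorem k1 : loop (f1 (tail O1 (outl outs) (mkE0 549755814171 2856) 7 2 5 33 35 30 28 38 32 34 29 31)
    Q2 Q3 Q4 Q5 Q6 Q7 Q8 Q9 Q10 Q11 Q12) S1 = true := by decide +kernel
noncomputable def O2 : Nat → Nat := orc 60089 7 32 0x11000200000003000000030001
  0x16f0003d00000000000021d00033000000000000165000000019800000000d6000000013c001a2000990007000227001cb0000a000a3001090000000066000ff001d500000000cc0013200000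
  0x1c785e0010801fc43082629e70c30800204f3c082084008e39dc0010003fbc1840421001e78304004200471cef000840009e781041080038f0bc2023003f70204184000fef0e20508400
noncomputable def S2 : Nat := 0x7000000000
theorem k2 : loop (f1 (tail O2 (outl outs) (mkE0 549755814171 2856) 7 2 5 33 35 30 28 38 32 34 29 31)
    Q2 Q3 Q4 Q5 Q6 Q7 Q8 Q9 Q10 Q11 Q12) S2 = true := by decide +kernel

end Pool.Agent.T2H98.EGZ.K.C04
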