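import Pool.Agent.T2H98.EGZ.C.D04

set_option autoImplicit false
set_option linter.unusedVariables false

namespace Pool.Agent.T2H98.EGZ.K.C04

open K

noncomputable def O3 : Nat → Nat := orc 61837 4 20 0x100030000
  0xa3000000000000166000eb0007000000000000011e000000009900000000330003d000000000000066000000000a00114
  0x3f78708088246f0010e186778342f0e304104009e7701001242e0e1829e77010022002e38184002000471e374004c02bcf0c28208400
noncomputable def S3 : Nat := 0xc0000000000
theorem k3 : loop (f1 (tail O3 (outl outs) (mkE0 549755814171 2856) 7 2 5 33 35 30 28 38 32 34 29 31)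
    Q2 Q3 Q4 Q5 Q6 Q7 Q8 Q9 Q10 Q11 Q12) S3 = true := by decide +kernel
noncomputable def O4 : Nat → Nat := orc 44287 9 39 0x2100000003000000000003001e00000000
  0xcc00297001d50023b000000000000000001fe0000a0026e0020800231000ff00000000a3001cb0000000066001650000000109001320003300000002a1001a200099000000013c000d6000000016f00198000000003d00000000700000000264
  0x3f10470084600fee04083080019a68c40c120042090b80823004471c00004600cc28a00008c0209e781041080038f302002100841261c0040017e104f030840079e1850410800f3c2060823001e7871010420038e0208009401
noncomputable def S4 : Nat := 0x3000000000000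
theorem k4 : loop (f1 (tail O4 (outl outs) (mkE0 549755814171 2856) 7 2 5 33 35 30 28 38 32 34 29 31)
    Q2 Q3 Q4 Q5 Q6 Q7 Q8 Q9 Q10 Q11 Q12) S4 = true := by decide +kernel

end Pool.Agent.T2H98.EGZ.K.C04
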