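import Pool.Agent.T2H98.EGZ.C.D04

set_option autoImplicit false
set_option linter.unusedVariables false

namespace Pool.Agent.T2H98.EGZ.K.C04

open K

noncomputable def O21 : Nat → Nat := orc 58803 2 8 0x0
  0x3d00070000330000a00066000000000000000
  0x1fb83040424006185e781044000e3c2f0008400
noncomputable def S21 : Nat := 0x46000000000000000000000000000000000000000000000000000000000000000000000000000000000000000000000000000000000000000000000000000000000000000000000000000000000000000000000000000000000000000000000000000000000000000000000000000000000000000000000000000000000000000000000000000000000000000000000000000000000000000000000000000000000000000000000000000000000000000000000000000000000000000000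
theorem k21 : loop (f1 (tail O21 (outl outs) (mkE0 549755814171 2856) 7 2 5 33 35 30 28 38 32 34 29 31)
    Q2 Q3 Q4 Q5 Q6 Q7 Q8 Q9 Q10 Q11 Q12) S21 = true := by decide +kernel
noncomputable def O22 : Nat → Nat := orc 60789 12 55 0x2000000000003000000010007000a000e
  0x9900000004b80016f000000083000000000660000000208003ea0000000000000000003d0067400231000700035a00000001fe000000016500000000000026e000000000a00000002e9001a200132000330031200000001d5000d6000a3000ff00000004510010900000000cc00264003a200000001cb0023b0013c001980000000297002a100000
  0xa2c2f0c85e143010be28200653461010041030a0830cd0804d11a3809de3440df9018405d75c3407e40e281fe778813f9038815d7603441040c2063471420441018201c77df7880134d1bc4041278884ee102829e120704f3cf901010480c23cf3a402fc82020230d3bc4030c81844cf102021452040018640201cb0c37dd1430cfba0041207820c9fc0f0c24209e1430823c30418830df785061bae0a10c30de70142f8a080117f787102bef86180107f0c37c1841fbe18007f7c6140882033cf0c30408c00fdc1c30e118031c73bc0021003f783080842003cf0c2060840010478700110002090bc1824003f702041840008e3c2f0808c008dc1c10011803fc2f020c22003f78510484c007ef0a20708c00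
noncomputable def S22 : Nat := 0x1080000000000000000000000000000000000000000000000000000000000000000000000000000000000000000000000000000000000000000000000000000000000000000000000000000000000000000000000000000000000000000000000000000000000000000000000000000000000000000000000000000000000000000000000000000000000000000000000000000000000000000000000000000000000000000000000000000000000000000000000000000000000000000000
theorem k22 : loop (f1 (tail O22 (outl outs) (mkE0 549755814171 2856) 7 2 5 33 35 30 28 38 32 34 29 31)
    Q2 Q3 Q4 Q5 Q6 Q7 Q8 Q9 Q10 Q11 Q12) S22 = true := by decide +kernel

end Pool.Agent.T2H98.EGZ.K.C04
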