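import Pool.Agent.T2H98.EGZ.C.D04

set_option autoImplicit false
set_option linter.unusedVariables false

namespace Pool.Agent.T2H98.EGZ.K.C04

open K

noncomputable def O23 : Nat → Nat := orc 63023 4 21 0x30007
  0x66000b8001480017b00000001ae001b800152001850000a00000000000000000000000000010000033000000003d00070
  0x10cd302082000a614510404201471cef00084000009860dfcd30a1c449a68c2010cd30208409840810020930c104000bf85e041844004c20408008002
noncomputable def S23 : Nat := 0x1000000000000000000000000000000000000000000000000000000000000000000000000000000000000000000000000000000000000000000000000000000000000000000000000000000000000000000000000000000000000000000000000000000000000000000000000000000000000000000000000000000000000000000000000000000000000000000000000000000000000000000000000000000000000000000000000000000000000000000000000000000000000000000000000000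
theorem k23 : loop (f1 (tail O23 (outl outs) (mkE0 549755814171 2856) 7 2 5 33 35 30 28 38 32 34 29 31)
    Q2 Q3 Q4 Q5 Q6 Q7 Q8 Q9 Q10 Q11 Q12) S23 = true := by decide +kernel
noncomputable def O24 : Nat → Nat := orc 58723 3 14 0x700000002
  0xa000a3000cc0000000099000d6000700003d000330000000000000000000000066
  0x7ef0e28108400fc411c021180220930c1020009c70204004c00bcf0e20208400
noncomputable def S24 : Nat := 0xc2000000000000000000000000000000000000000000000000000000000000000000000000000000000000000000000000000000000000000000000000000000000000000000000000000000000000000000000000000000000000000000000000000000000000000000000000000000000000000000000000000000000000000000000000000000000000000000000000000000000000000000000000000000000000000000000000000000000000000000000000000000000000000000000000000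
theorem k24 : loop (f1 (tail O24 (outl outs) (mkE0 549755814171 2856) 7 2 5 33 35 30 28 38 32 34 29 31)
    Q2 Q3 Q4 Q5 Q6 Q7 Q8 Q9 Q10 Q11 Q12) S24 = true := by decide +kernel

end Pool.Agent.T2H98.EGZ.K.C04
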