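import Pool.Agent.T2H98.EGZ.C.D04

set_option autoImplicit false
set_option linter.unusedVariables false

namespace Pool.Agent.T2H98.EGZ.K.C04

open K

noncomputable def O25 : Nat → Nat := orc 1 1 1 0x0
  0x0
  0x0
noncomputable def S25 : Nat := 0x2004000000000000000000000000000000006004000002000000000000000000000000000000000000000000000000000000000000000000000000000000000000000000000000000000000000000000000000000000000000000000000000000000000000000000000000000000000000000000000000000000000000000000000000000000000000000000000000000000000000000000000000000000000000000000000000000000000000000000000000000000000000000000000000000000000000000000000000000000000000000000000000000000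
theorem k25 : loop (f1 (tail O25 (outl outs) (mkE0 549755814171 2856) 7 2 5 33 35 30 28 38 32 34 29 31)
    Q2 Q3 Q4 Q5 Q6 Q7 Q8 Q9 Q10 Q11 Q12) S25 = true := by decide +kernel
noncomputable def O26 : Nat → Nat := orc 54053 3 16 0x100000000
  0x33000700000000000000d6000000003d000a30006600000000cc0000a0009900000
  0x38e040800980185e1430410800000f0a0822000516170304600ff34708108402
noncomputable def S26 : Nat := 0x103000004000000000000000000000000000000000000000000000000000000000000000000000000000000000000000000000000000000000000000000000000000000000000000000000000000000000000000000000000000000000000000000000000000000000000000000000000000000000000000000000000000000000000000000000000000000000000000000000000000000000000000000000000000000000000000000000000000000000000000000000000000000000000000000000000000000000000000000000000000000000000000000000000000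
theorem k26 : loop (f1 (tail O26 (outl outs) (mkE0 549755814171 2856) 7 2 5 33 35 30 28 38 32 34 29 31)
    Q2 Q3 Q4 Q5 Q6 Q7 Q8 Q9 Q10 Q11 Q12) S26 = true := by decide +kernel

end Pool.Agent.T2H98.EGZ.K.C04
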