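import Pool.Agent.T2H98.EGZ.C.D04

set_option autoImplicit false
set_option linter.unusedVariables false

namespace Pool.Agent.T2H98.EGZ.K.C04

open K

noncomputable def O30 : Nat → Nat := orc 57881 9 40 0x500060001000900010003000000030000
  0x1fe000000003d000000016f00165001d50007000033002df001320000000000002ac0000000109002500000a001980006600000001a20009900000001cb00000000000000000000002a20013c0025a000cc00000002d500208000a3000ff000d600000
  0xfe69850211805fbc2881c2300071e1784471cef0810c00fdc1c30f3cee06084300430e6180046014100e206090031c77061011002f0e3861822003f082781842007ef0e281084001047860811000238e000023004105c14304400fef0610108400
noncomputable def S30 : Nat := 0x6080000000000000000000000000000000000000000000000000000000000000000000000000000000000000000000000000000000000000000000000000000000000000000000000000000000000000000000000000000000000000000000000000000000000000000000000000000000000000000000000000000000000000000000000000000000000000000000000000000000000000000000000000000000000000000000000000000000000000000000000000000000000000000000000000000000000000000000000000000000000000000000000000000000000000000000000000000000000000000000000000000000000000000000000000000000000000000000000000000000000000000000000000000000000000000000000000000000000000000000000000000000000000000000000000000000000000000000000000000000000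
theorem k30 : loop (f1 (tail O30 (outl outs) (mkE0 549755814171 2856) 7 2 5 33 35 30 28 38 32 34 29 31)
    Q2 Q3 Q4 Q5 Q6 Q7 Q8 Q9 Q10 Q11 Q12) S30 = true := by decide +kernel
noncomputable def O31 : Nat → Nat := orc 47735 1 6 0x0
  0x330003d000000000a0000000000
  0x3f85c0c084400fef0610108400
noncomputable def S31 : Nat := 0x3000000000000000000000000000000000000000000000000000000000000000000000000000000000000000000000000000000000000000000000000000000000000000000000000000000000000000000000000000000000000000000000000000000000000000000000000000000000000000000000000000000000000000000000000000000000000000000000000000000000000000000000000000000000000000000000000000000000000000000000000000000000000000000000000000000000000000000000000000000000000000000000000000000000000000000000000000000000000000000000000000000000000000000000000000000000000000000000000000000000000000000000000000000000000000000000000000000000000000000000000000000000000000000000000000000000000000000000000000000000000000000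
theorem k31 : loop (f1 (tail O31 (outl outs) (mkE0 549755814171 2856) 7 2 5 33 35 30 28 38 32 34 29 31)
    Q2 Q3 Q4 Q5 Q6 Q7 Q8 Q9 Q10 Q11 Q12) S31 = true := by decide +kernel

end Pool.Agent.T2H98.EGZ.K.C04
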