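import Pool.Agent.T2H98.EGZ.C.D04

set_option autoImplicit false
set_option linter.unusedVariables false

namespace Pool.Agent.T2H98.EGZ.K.C04

open K

noncomputable def O32 : Nat → Nat := orc 47951 7 30 0x2000100070002000400000000
  0x25b000ae000b80000000000001ea000850003300000001840017a00151000000021300147002650011e001ad001e0000eb00000000e100114001b70003d0000a0000000000
  0x3f80504184001b8e0e3868dc1c10021c6e0c10208c0114585c0012002f3c1820021001c1c608104400fe208e0108c019841020811805f8a2b81423004579e041046f3c30c13f787080886007f1bc10108800
noncomputable def S32 : Nat := 0x44000000000000000000000000000000000000000000000000000000000000000000000000000000000000000000000000000000000000000000000000000000000000000000000000000000000000000000000000000000000000000000000000000000000000000000000000000000000000000000000000000000000000000000000000000000000000000000000000000000000000000000000000000000000000000000000000000000000000000000000000000000000000000000000000000000000000000000000000000000000000000000000000000000000000000000000000000000000000000000000000000000000000000000000000000000000000000000000000000000000000000000000000000000000000000000000000000000000000000000000000000000000000000000000000000000000000000000000000000000000000000000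
theorem k32 : loop (f1 (tail O32 (outl outs) (mkE0 549755814171 2856) 7 2 5 33 35 30 28 38 32 34 29 31)
    Q2 Q3 Q4 Q5 Q6 Q7 Q8 Q9 Q10 Q11 Q12) S32 = true := by decide +kernel
noncomputable def O33 : Nat → Nat := orc 59815 3 23 0x0
  0xa00000000a30000000000000660007000000000000003d000000000000000000000003300000000eb000990000000000
  0x61a6143061cc3009870c10031ff3cc381fe6985122080410530a1820008412370104800bcf0c20608400
noncomputable def S33 : Nat := 0x2000000000000000000000000000000000000000000000000000000000000000000000000000000000000000000000000000000000000000000000000000000000000000000000000000000000000000000000000000000000000000000000000000000000000000000000000000000000000000000000000000000000000000000000000000000000000000000000000000000000000000000000000000000000000000000000000000000000000000000000000000000000000000000000000000000000000000000000000000000000000000000000000000000000000000000000000000000000000000000000000000000000000000000000000000000000000000000000000000000000000000000000000000000000000000000000000000000000000000000000000000000000000000000000000000000000000000000000000000000000000000000000000000000000000000000000000000000000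
theorem k33 : loop (f1 (tail O33 (outl outs) (mkE0 549755814171 2856) 7 2 5 33 35 30 28 38 32 34 29 31)
    Q2 Q3 Q4 Q5 Q6 Q7 Q8 Q9 Q10 Q11 Q12) S33 = true := by decide +kernel
noncomputable def O34 : Nat → Nat := orc 54053 3 16 0x800010000
  0x7000000000cc00066000d60003d000000000a00099000330000000000000a3
  0x7ef061010840079e1430812000f3c1020025000209e143044007ef0e28108400
noncomputable def S34 : Nat := 0x1000000000000000000000000000000000000000000000000000000000000000000000000000000000000000000000000000000000000000000000000000000000000000000000000000000000000000000000000000000000000000000000000000000000000000000000000000000000000000000000000000000000000000000000000000000000000000000000000000000000000000000000000000000000000000000000000000000000000000000000000000000000000000000000000000000000000000000000000000000000000000000000000000000000000000000000000000000000000000000000000000000000000000000000000000000000000000000000000000000000000000000000000000000000000000000000000000000000000000000000000000000000000000000000000000000000000000000000000000000000000000000000000000000000000000000000000000000000000000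
theorem k34 : loop (f1 (tail O34 (outl outs) (mkE0 549755814171 2856) 7 2 5 33 35 30 28 38 32 34 29 31)
    Q2 Q3 Q4 Q5 Q6 Q7 Q8 Q9 Q10 Q11 Q12) S34 = true := by decide +kernel

end Pool.Agent.T2H98.EGZ.K.C04
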