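import Pool.Agent.T2H98.EGZ.C.D04

set_option autoImplicit false
set_option linter.unusedVariables false

namespace Pool.Agent.T2H98.EGZ.K.C04

open K

noncomputable def O39 : Nat → Nat := orc 64325 9 38 0x40006000100080000000c000200050002
  0xa002c0000d600000001cb0023b001980000000109001650013c0023100099001fe0016f002b6000000028d0000000000000000000000000001d5001320003300066000ff0000000283002080003d00070001a2000a3000cc
  0x38f0bc0021003f787102842000a2cc3841869830420005fbc38a0421002288410204a023cf0c20608400fe080502110060831bc3023001e7871800460004f3c082084001c770100110021871bc3823003f7871028420042e0e30408001
noncomputable def S39 : Nat := 0x144000000000000000000000000000000000000000000000000000000000000000000000000000000000000000000000000000000000000000000000000000000000000000000000000000000000000000000000000000000000000000000000000000000000000000000000000000000000000000000000000000000000000000000000000000000000000000000000000000000000000000000000000000000000000000000000000000000000000000000000000000000000000000000000000000000000000000000000000000000000000000000000000000000000000000000000000000000000000000000000000000000000000000000000000000000000000000000000000000000000000000000000000000000000000000000000000000000000000000000000000000000000000000000000000000000000000000000000000000000000000000000000000000000000000000000000000000000000000000000000000000000000000000000000000000000000000000000000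
theorem k39 : loop (f1 (tail O39 (outl outs) (mkE0 549755814171 2856) 7 2 5 33 35 30 28 38 32 34 29 31)
    Q2 Q3 Q4 Q5 Q6 Q7 Q8 Q9 Q10 Q11 Q12) S39 = true := by decide +kernel
noncomputable def O40 : Nat → Nat := orc 46329 2 15 0x0
  0x8500000000b800000000000008f000000005c00000000000000a00000000c20005200000
  0x7ef0610108400fe17030211003fc430a242601217c71807ef8600110406
noncomputable def S40 : Nat := 0x1000004000000000000000000000000000000000000000000000000000000000000000000000000000000000000000000000000000000000000000000000000000000000000000000000000000000000000000000000000000000000000000000000000000000000000000000000000000000000000000000000000000000000000000000000000000000000000000000000000000000000000000000000000000000000000000000000000000000000000000000000000000000000000000000000000000000000000000000000000000000000000000000000000000000000000000000000000000000000000000000000000000000000000000000000000000000000000000000000000000000000000000000000000000000000000000000000000000000000000000000000000000000000000000000000000000000000000000000000000000000000000000000000000000000000000000000000000000000000000000000000000000000000000000000000000000000000000000000000000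
theorem k40 : loop (f1 (tail O40 (outl outs) (mkE0 549755814171 2856) 7 2 5 33 35 30 28 38 32 34 29 31)
    Q2 Q3 Q4 Q5 Q6 Q7 Q8 Q9 Q10 Q11 Q12) S40 = true := by decide +kernel
noncomputable def O41 : Nat → Nat := orc 63633 1 9 0x0
  0x330000000000000000003d000000000a
  0x3f80300084801c100a20608003
noncomputable def S41 : Nat := 0x4180000000000000000000000000000000000000000000000000000000000000000000000000000000000000000000000000000000000000000000000000000000000000000000000000000000000000000000000000000000000000000000000000000000000000000000000000000000000000000000000000000000000000000000000000000000000000000000000000000000000000000000000000000000000000000000000000000000000000000000000000000000000000000000000000000000000000000000000000000000000000000000000000000000000000000000000000000000000000000000000000000000000000000000000000000000000000000000000000000000000000000000000000000000000000000000000000000000000000000000000000000000000000000000000000000000000000000000000000000000000000000000000000000000000000000000000000000000000000000000000000000000000000000000000000000000000000000000000000000000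
theorem k41 : loop (f1 (tail O41 (outl outs) (mkE0 549755814171 2856) 7 2 5 33 35 30 28 38 32 34 29 31)
    Q2 Q3 Q4 Q5 Q6 Q7 Q8 Q9 Q10 Q11 Q12) S41 = true := by decide +kernel

end Pool.Agent.T2H98.EGZ.K.C04
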