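import Pool.Agent.T2H98.EGZ.C.D04

set_option autoImplicit false
set_option linter.unusedVariables false

namespace Pool.Agent.T2H98.EGZ.K.C04

open K

noncomputable def O5 : Nat → Nat := orc 52191 32 131 0x30002000f00070000000d001a0001002300010000000e00070005000b0012000000100000002d0000001100100000000e0000000000010000000000000001
  0x4d2001650016f0087d000000084000000003fc0080d000000000000000003c9000000056b007da0000a0003d00000001fe00505007180013c00231002d4000990046c000a3009af006e50056100070000d60074b0043900642008b0007b1001a2000cc0036d0084a00396006a8006db0010900000000330077e009160026e0067f0049f00264002a1007e4000000036300208009a50000000000003d300000000ff008e300000000000090c00000000000093f006b200538000000064c00817000000023b0000000000001d50060f00000004fb00132003300042f006190040600495002fd005dc00000005e60033a00675005b3004c80077400066000000000000000007410097c001980070e00000000000000000000003a00000000000007a7000000052e00000009490030700873008a6008d9004620029700000001cb0000000972002ca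
  0x8e39de001080130a286182400bf70700084800c30cef060840085d183081200bf8413c0c2100071e614204801471c100e0880379e1840c10800f3c3081821001e783040042004f3b808009001fe21430a10008f0c288002200238e7780042003cf06080084000008a11c10009f88238042300471dc04004400bcf0e30008c00fdc0c206130c342e028dc141002280230d1bc0821000411e182044004710e080098041c785e0010801f8413c0c21000411e182044000823c30408800041787181100134d18a082400871e17800420042f0c1000900079e1840c108002bcf020823003f70614184000bcf0608008400fde0c20210800f3c182002100237870c0048000e3c2f000840079e1840c108010bc3860023003f7070c3846008413e2820880685c1430410002f3c1820021003f9a6102846013838c10208801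
noncomputable def S5 : Nat := 0x1000000000000000000
theorem k5 : loop (f1 (tail O5 (outl outs) (mkE0 549755814171 2856) 7 2 5 33 35 30 28 38 32 34 29 31)
    Q2 Q3 Q4 Q5 Q6 Q7 Q8 Q9 Q10 Q11 Q12) S5 = true := by decide +kernel

end Pool.Agent.T2H98.EGZ.K.C04
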