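import Pool.Agent.T2H98.EGZ.C.D04

set_option autoImplicit false
set_option linter.unusedVariables false

namespace Pool.Agent.T2H98.EGZ.K.C04

open K

noncomputable def O6 : Nat → Nat := orc 49939 1 7 0x0
  0x3d000330000a00000
  0x3f0827818420042f0e30408400
noncomputable def S6 : Nat := 0x6082000000000000000000000000000000000000000000000000000000
theorem k6 : loop (f1 (tail O6 (outl outs) (mkE0 549755814171 2856) 7 2 5 33 35 30 28 38 32 34 29 31)
    Q2 Q3 Q4 Q5 Q6 Q7 Q8 Q9 Q10 Q11 Q12) S6 = true := by decide +kernel
noncomputable def O7 : Nat → Nat := orc 60181 4 20 0x11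
  0xa30000a0006600000000ff00033000700000000000000000003d000990010900132000000013c000cc000d600000
  0x30cf060822001e783040042007f00e201090031c77061011003fb81820420007f8de080844003cf0608008400
noncomputable def S7 : Nat := 0x7000000000000000000000000000000000000000000000000000000000000000
theorem k7 : loop (f1 (tail O7 (outl outs) (mkE0 549755814171 2856) 7 2 5 33 35 30 28 38 32 34 29 31)
    Q2 Q3 Q4 Q5 Q6 Q7 Q8 Q9 Q10 Q11 Q12) S7 = true := by decide +kernel

end Pool.Agent.T2H98.EGZ.K.C04
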