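import Pool.Agent.T2H98.EGZ.C.D04

set_option autoImplicit false
set_option linter.unusedVariables false

namespace Pool.Agent.T2H98.EGZ.K.C04

open K

noncomputable def O8 : Nat → Nat := orc 49939 1 7 0x0
  0x33000000003d0000a00000
  0x1e783040042003cf0608008400
noncomputable def S8 : Nat := 0x1c0000000000000000000000000000000000000000000000000000000000000000
theorem k8 : loop (f1 (tail O8 (outl outs) (mkE0 549755814171 2856) 7 2 5 33 35 30 28 38 32 34 29 31)
    Q2 Q3 Q4 Q5 Q6 Q7 Q8 Q9 Q10 Q11 Q12) S8 = true := by decide +kernel
noncomputable def O9 : Nat → Nat := orc 61673 6 26 0x200000002000000070003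
  0xa0000000000000330003d001c100132000a300000000000018e00109000990000000066001b70000000000000ff0013c000cc00184000d600070
  0x1e7861410420046e0e08008c01fdf1c2071be3040844018279e041042000824c3040800271c08204100031b838c2023005e7830400420008246e0209001
noncomputable def S9 : Nat := 0x41000000000000000000000000000000000000000000000000000000000000000000000000
theorem k9 : loop (f1 (tail O9 (outl outs) (mkE0 549755814171 2856) 7 2 5 33 35 30 28 38 32 34 29 31)
    Q2 Q3 Q4 Q5 Q6 Q7 Q8 Q9 Q10 Q11 Q12) S9 = true := by decide +kernel
noncomputable def O10 : Nat → Nat := orc 63095 2 16 0x20000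
  0x9900000000000000a000000003d000a30000000000000000006600000000700003300000
  0xfde1c40a10801fbc1840421000279e041042004d34220009002
noncomputable def S10 : Nat := 0x1000000000000000000000000000000000000000000000000000000000000000000000000000
theorem k10 : loop (f1 (tail O10 (outl outs) (mkE0 549755814171 2856) 7 2 5 33 35 30 28 38 32 34 29 31)
    Q2 Q3 Q4 Q5 Q6 Q7 Q8 Q9 Q10 Q11 Q12) S10 = true := by decide +kernel

end Pool.Agent.T2H98.EGZ.K.C04
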