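import Pool.Agent.T2H98.EGZ.C.D04

set_option autoImplicit false
set_option linter.unusedVariables false

namespace Pool.Agent.T2H98.EGZ.K.C04

open K

noncomputable def O11 : Nat → Nat := orc 61367 4 23 0x300000009
  0xff0000000066000000003d0007000000001320010900000000cc00000000000000000033000d60013c0000a00099000a300000
  0x38f0bc0021003f783080842007ef0e28108400082985041300438f0bc0021001c70308004000bcf0608008400
noncomputable def S11 : Nat := 0x5000000000000000000000000000000000000000000000000000000000000000000000000000000000000000000000000000000000000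
theorem k11 : loop (f1 (tail O11 (outl outs) (mkE0 549755814171 2856) 7 2 5 33 35 30 28 38 32 34 29 31)
    Q2 Q3 Q4 Q5 Q6 Q7 Q8 Q9 Q10 Q11 Q12) S11 = true := by decide +kernel
noncomputable def O12 : Nat → Nat := orc 43001 1 4 0x0
  0xa0000000000
  0x7ef0610108400
noncomputable def S12 : Nat := 0x140000000000000000000000000000000000000000000000000000000000000000000000000000000000000000000000000000000000000
theorem k12 : loop (f1 (tail O12 (outl outs) (mkE0 549755814171 2856) 7 2 5 33 35 30 28 38 32 34 29 31)
    Q2 Q3 Q4 Q5 Q6 Q7 Q8 Q9 Q10 Q11 Q12) S12 = true := by decide +kernel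

end Pool.Agent.T2H98.EGZ.K.C04
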