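import Pool.Agent.T2H98.EGZ.C.D04

set_option autoImplicit false
set_option linter.unusedVariables false

namespace Pool.Agent.T2H98.EGZ.K.C04

open K

noncomputable def O13 : Nat → Nat := orc 49527 4 18 0x1000000050001
  0x3d00070001cd0000a00000000330000000000000c2001c3000b800000000660017b001330010a0000000000
  0x3f783080842000c33c1829de70604217ee0c2831c785c002038e0408009bf703040b8e0e280100019e79a61530e3861840009e1c70c3044000a2bc38408800
noncomputable def S13 : Nat := 0x4000003000000000000000000000000000000000000000000000000000000000000000000000000000000000000000000000000000000000000000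
theorem k13 : loop (f1 (tail O13 (outl outs) (mkE0 549755814171 2856) 7 2 5 33 35 30 28 38 32 34 29 31)
    Q2 Q3 Q4 Q5 Q6 Q7 Q8 Q9 Q10 Q11 Q12) S13 = true := by decide +kernel
noncomputable def O14 : Nat → Nat := orc 49527 4 18 0x2000000000008
  0xf500151000850000a000000005c000c200052000b80008f0000000000000eb0011e00000000000000000128
  0x1fcd308166104082087fc6e061c22007f8a1100844023cf0e2020840085e1c6081080013cf020821003f79e1c38003c28210800
noncomputable def S14 : Nat := 0x4140000000000000000000000000000000000000000000000000000000000000000000000000000000000000000000000000000000000000000000000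
theorem k14 : loop (f1 (tail O14 (outl outs) (mkE0 549755814171 2856) 7 2 5 33 35 30 28 38 32 34 29 31)
    Q2 Q3 Q4 Q5 Q6 Q7 Q8 Q9 Q10 Q11 Q12) S14 = true := by decide +kernel

end Pool.Agent.T2H98.EGZ.K.C04
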