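import Pool.Agent.T2H98.EGZ.C.D04

set_option autoImplicit false
set_option linter.unusedVariables false

namespace Pool.Agent.T2H98.EGZ.K.C04

open K

noncomputable def O15 : Nat → Nat := orc 48815 4 17 0x4000000020006
  0x3d0000000000000d60000000099000a3000660000a0000000109000ff000cc000000007000033
  0x411e182044000823c30408800fdc1840e10003fb83800424005e786103042003cf0e20208400
noncomputable def S15 : Nat := 0x1c0000000000000000000000000000000000000000000000000000000000000000000000000000000000000000000000000000000000000000000000000000000
theorem k15 : loop (f1 (tail O15 (outl outs) (mkE0 549755814171 2856) 7 2 5 33 35 30 28 38 32 34 29 31)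
    Q2 Q3 Q4 Q5 Q6 Q7 Q8 Q9 Q10 Q11 Q12) S15 = true := by decide +kernel
noncomputable def O16 : Nat → Nat := orc 55813 3 17 0x10000
  0xa300099000330003d00066000d60000a00000000000000000000000cc0007000000
  0x3cf0c20608400fde1c50210801f8413c0c21001e78204004a000c33c18208800
noncomputable def S16 : Nat := 0x40000006080000000000000000000000000000000000000000000000000000000000000000000000000000000000000000000000000000000000000000000000000000000000000000000000000000000000000000000000000000000000000000000000000000000000000000000000000000000000000000000000000000000000000000000000000000000000000000000000000000000000000000000000000000000000000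
theorem k16 : loop (f1 (tail O16 (outl outs) (mkE0 549755814171 2856) 7 2 5 33 35 30 28 38 32 34 29 31)
    Q2 Q3 Q4 Q5 Q6 Q7 Q8 Q9 Q10 Q11 Q12) S16 = true := by decide +kernel

end Pool.Agent.T2H98.EGZ.K.C04
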