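import Pool.Agent.T2H98.EGZ.C.D04

set_option autoImplicit false
set_option linter.unusedVariables false

namespace Pool.Agent.T2H98.EGZ.K.C04

open K

noncomputable def O17 : Nat → Nat := orc 46329 2 15 0x0
  0x3d0009900000000000000a0007000000000a3000660000000000000330000000000
  0x828de1410801fc6f040422001e787101042003cf0608008400
noncomputable def S17 : Nat := 0x3180000000000000000000000000000000000000000000000000000000000000000000000000000000000000000000000000000000000000000000000000000000000000000000000000000000000000000000000000000000000000000000000000000000000000000000000000000000000000000000000000000000000000000000000000000000000000000000000000000000000000000000000000000000000000000000000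
theorem k17 : loop (f1 (tail O17 (outl outs) (mkE0 549755814171 2856) 7 2 5 33 35 30 28 38 32 34 29 31)
    Q2 Q3 Q4 Q5 Q6 Q7 Q8 Q9 Q10 Q11 Q12) S17 = true := by decide +kernel
noncomputable def O18 : Nat → Nat := orc 63685 6 27 0x2000000070006000e0000
  0x2700010000085001f5000000000a0010a0013300000001850003d00000001c2000330000000228000000018f000d70000000000001b8000000013d001eb0021e000cd
  0x9850808330a1841fe69850330a2040043009c70610204c008824c18209002fde1c50210801fbe3081df7c714008a037ef0e2050840079e1c404108013bcf0a28209e14308430d0bc0bf78718688c003cf0c30408c00
noncomputable def S18 : Nat := 0x1000004000000000000000000000000000000000000000000000000000000000000000000000000000000000000000000000000000000000000000000000000000000000000000000000000000000000000000000000000000000000000000000000000000000000000000000000000000000000000000000000000000000000000000000000000000000000000000000000000000000000000000000000000000000000000000000000000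
theorem k18 : loop (f1 (tail O18 (outl outs) (mkE0 549755814171 2856) 7 2 5 33 35 30 28 38 32 34 29 31)
    Q2 Q3 Q4 Q5 Q6 Q7 Q8 Q9 Q10 Q11 Q12) S18 = true := by decide +kernel

end Pool.Agent.T2H98.EGZ.K.C04
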