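import Pool.Agent.T2H98.EGZ.C.D04

set_option autoImplicit false
set_option linter.unusedVariables false

namespace Pool.Agent.T2H98.EGZ.K.C04

open K

noncomputable def O19 : Nat → Nat := orc 45551 8 39 0x100030001000c0000000400010000
  0xa30013c0003d00070001f400033000000000000113000cc00000001a200000000000016f001ac000d60000a001090025a002270006600179000000009900000000000021d0000000000000ff000000014600000002500000000000
  0x4700e284090031c785c0010002e3838e002418670308186e080842007f787080846000e3c2f0008400104983041200400c2e0a1820800109e7810410801fbc30a1421003f7871028420004146f0a08400
noncomputable def S19 : Nat := 0x46000000000000000000000000000000000000000000000000000000000000000000000000000000000000000000000000000000000000000000000000000000000000000000000000000000000000000000000000000000000000000000000000000000000000000000000000000000000000000000000000000000000000000000000000000000000000000000000000000000000000000000000000000000000000000000000000000000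
theorem k19 : loop (f1 (tail O19 (outl outs) (mkE0 549755814171 2856) 7 2 5 33 35 30 28 38 32 34 29 31)
    Q2 Q3 Q4 Q5 Q6 Q7 Q8 Q9 Q10 Q11 Q12) S19 = true := by decide +kernel
noncomputable def O20 : Nat → Nat := orc 43381 1 8 0x0
  0xa0003300000000000003d
  0x71e1780042007ef0e20508400
noncomputable def S20 : Nat := 0x1000000000000000000000000000000000000000000000000000000000000000000000000000000000000000000000000000000000000000000000000000000000000000000000000000000000000000000000000000000000000000000000000000000000000000000000000000000000000000000000000000000000000000000000000000000000000000000000000000000000000000000000000000000000000000000000000000000000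
theorem k20 : loop (f1 (tail O20 (outl outs) (mkE0 549755814171 2856) 7 2 5 33 35 30 28 38 32 34 29 31)
    Q2 Q3 Q4 Q5 Q6 Q7 Q8 Q9 Q10 Q11 Q12) S20 = true := by decide +kernel

end Pool.Agent.T2H98.EGZ.K.C04
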