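import Pool.Agent.T2H98.EGZ.C.D05

set_option autoImplicit false
set_option linter.unusedVariables false

namespace Pool.Agent.T2H98.EGZ.K.C05

open K

noncomputable def O30 : Nat → Nat := orc 52827 31 139 0x4000000130001000d00060000000100030005000000010008000200060000000200000002000600060000000300000000000000020006000000030003
  0x5aa0079e00000002b6004b5000000099c00000000000000a000000028d0087400676004820044f0031c0013200445007db000d6000000086a004ab0090d00936000000013c000000000000000003f300000000a3000000010900000000000054400198001cb00000001d50090300000009a600000000000047800841003fd00940001a20025a0060600165001fe00742002830016f003b6005d30000000837008da003830080400000007a80051b00000002f3004e80000000643000ff00610006d2005580070f00066008a7003c0009730073800000005dd00000005a0004de0054e00511006a900000000000063900033007050000000070002080000000099006dc00000002c0000000003d000000038d0076b000000000000000008d000969000cc002e90069f00000002500080e00000000000089d000000000000000000000066c0000000775007d1003e90000000000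
  0x1f9042c34865910432b103081900120810404110024082000023007f7df6448420230c50bac0840059664a00118051c75d00821003f286000842017e41020108c012086171012802c3142c302500195ca1800480114b2c00009002fe86170212001fd744e0c230028a185c6046000c33078209803000a181010801450c2e3023000620800004400d0b0c0800840000060a04208b90084000801a191010010800cb2b2d4021003fae8618842007f446c09094005d7a19581100051430c0279e828408201000310400002200565a8617044007f5d0b2da1918405fd0f880462fd65a81212000410c8c0026006b7d9181040027ecad45108400fc810107f8c310044200638e66160420351430202090009e8a010411000c10408202600488e300004a00820d118008c006c6180001000b59e308002400ffa23180844002cc3041008801
noncomputable def S30 : Nat := 0x1102000000000000000000000000000000000000000000000000000000000000000000000000000000000000000000000000000000000000000000000000000000000000000000000000000000000000000000000000000000000000000000000000000000000000000000000000000000000000000000000000000000000000000000000000000000000000000000000000000000000000000000000000000000000000000000000000000000000000000000000000000000000000000000000000000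
theorem k30 : loop (f1 (tail O30 (outl outs) (mkE0 549789368343 3036) 24 23 22 43 35 40 8 10 15 31 27 38)
    Q2 Q3 Q4 Q5 Q6 Q7 Q8 Q9 Q10 Q11 Q12) S30 = true := by decide +kernel
noncomputable def O31 : Nat → Nat := orc 46461 19 78 0x400000003000300000002000000050003000d000600020000000500000005000100070000
  0x59f00000000cc00000000ff004dd00000004070003d002f300477002e9000000015100000000330000000227000000000000000005d200543004d3000000000000326002830053900109003b5005a9000700021d0018e0043a0025a000000050600000000d60000000000001f4000000056c00099002500035900444001b7000660028d0046d002c0001ea0018400411002b600382000a300000003bf0015b0034f005100000a004aa0031c000000000000576004a0000000038c005dc001c100000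
  0x1432202002100000285c6042007f3ac40908c01a285d6001180000143008220028a27101042002cb50c8209400000a171810801f90446042500461a8581044003345030cfe86570622001fd0c2c0c2400061a8581044007f430b0309000668a06181200144f1b0002100289e36000420032b1030809001fd95a8a210801faeb100426007f596608844009045620209001fe37d70610809fbeb8c0df7d85c0080027ecad45108400fd62861212804310400002200596565a8042000c33040208001
noncomputable def S31 : Nat := 0x2000000000000000000000000000000000000000002000000000000000000000000000000000000000000000000000000000000000000000000000000000000000000000000000000000000000000000000000000000000000000000000000000000000000000000000000000000000000000000000000000000000000000000000000000000000000000000000000000000000000000000000000000000000000000000000000000000000000000000000000000000000000000000000000000000000000000000000000000000000000000000000000000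
theorem k31 : loop (f1 (tail O31 (outl outs) (mkE0 549789368343 3036) 24 23 22 43 35 40 8 10 15 31 27 38)
    Q2 Q3 Q4 Q5 Q6 Q7 Q8 Q9 Q10 Q11 Q12) S31 = true := by decide +kernel

end Pool.Agent.T2H98.EGZ.K.C05
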