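import Pool.Agent.T2H98.EGZ.C.D05

set_option autoImplicit false
set_option linter.unusedVariables false

namespace Pool.Agent.T2H98.EGZ.K.C05

open K

noncomputable def O5 : Nat → Nat := orc 48037 13 57 0x140015000000010000000b000400000019001400010000
  0x99000000000000000001650003d0036300231002a100000001980016f000000023b0000000033003a0000000026400297003960013c00000003d3001cb001d50000a000ff000000000000000001090036d001a20033a00000002d40026e000700000000000001320000000000000d6002fd00330000000030700066000a30020800000001fe003c9000cc002ca
  0xa1910100108014513880821003f656a28842000c33040208001a2860404120015d138c0021002ba27180042005142cb0208c00659596a01080145138808210004128646042000c350c0208400596a06001300144f1b0002100061a8584042005142eb0008c005d62040412002310400002200461a8584042007ecad45108400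
noncomputable def S5 : Nat := 0x6000004000000000000
theorem k5 : loop (f1 (tail O5 (outl outs) (mkE0 549789368343 3036) 24 23 22 43 35 40 8 10 15 31 27 38)
    Q2 Q3 Q4 Q5 Q6 Q7 Q8 Q9 Q10 Q11 Q12) S5 = true := by decide +kernel
noncomputable def O6 : Nat → Nat := orc 42503 15 60 0x10027000100010006000f000500020003000e000c0006000b0000001b
  0x33100463000a300283004e8000cc003a1000d60003d002e9001d6000330000a0026f003d400099002090000000246004de001e00023c002ac0013c00066002790013200213002b60036e00000002df0000000165000ff004590000000397001ad0000000000000000007000000000000000000000003ca00000001090000000000004ab0033b003de003640042600000004b500430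
  0x142c3020021002ba195800460057432c0cfe858106218014513aeb025003f9a6a16cd450b2c1140600061a8601042007e41020108c011882000011003fd140c05862858608a0050c88080084006182060012002005142eb0008c00a161810010800bac40808240068a17181049fd0c8c07f6569a68871c75d0b0260019616286046017f5ac7830880318660804100035d6cb2502100abae8a180420000050c0808400
noncomputable def S6 : Nat := 0xc0000000000000000000
theorem k6 : loop (f1 (tail O6 (outl outs) (mkE0 549789368343 3036) 24 23 22 43 35 40 8 10 15 31 27 38)
    Q2 Q3 Q4 Q5 Q6 Q7 Q8 Q9 Q10 Q11 Q12) S6 = true := by decide +kernel
noncomputable def O7 : Nat → Nat := orc 57427 31 126 0x600010025000a0006000900110000000c00140002000900040000000100000003000700050005000c000100120004000700000002000100000003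
  0x638007420042500940000ff0000000481009d900000004f1008040044e0018e006b3002e9001c10003d0000000326001320056200874008410056c0062e00000000d60099c001b7004580038c002f3000000090d000000000000000000330089d0021d00000000000000000000009cf00837003bf0090300066009360000a008a7006bd000cc005c80059f00184007a8006f00000000382002270086a006e600000004e7000000010900738000700048b00000004be000000000000000002c0005fb00000007db0096900775001ea008d0000a3002b6003e80034f006800079e003b5000990028d009730031c001f4009a60076b003f20000000000008da0000000000002830035900250000000041b007d1006050013c00000004b40068a0025a0059500000005d20000000000000000080e000000053900000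
  0x16a2810404800313ce41009001fdb586021300acb040c0824007f65620884000d0b0c08008400104a1918108011ae78c002400e85860400420050b0c080084009e3286101180451518c002000aba27180042004f3cd308090069a6ad811fcd330044001bfadf101842022d45020809000000adf59fbec080c40013f656a288420050c88080084006595880411802baf432b02200041285d604cb5140823fa18581888003efcec8009404fc821912120031c75900820007fa19180846007efbeb0d084040416c4001000bfd0b8c2423003f20810084600b2b1008009001fe88c60211001451388082100238eb201040008823e300098043cf9d610108074323080822000820410104400d144e20208400a191840544f1ac004200041285c1042007e410c8909001a191010010800cb040c082400461a85840420032c2c40008c01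
noncomputable def S7 : Nat := 0x100000000000000000000
theorem k7 : loop (f1 (tail O7 (outl outs) (mkE0 549789368343 3036) 24 23 22 43 35 40 8 10 15 31 27 38)
    Q2 Q3 Q4 Q5 Q6 Q7 Q8 Q9 Q10 Q11 Q12) S7 = true := by decide +kernel

end Pool.Agent.T2H98.EGZ.K.C05
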