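import Pool.Agent.T2H98.EGZ.C.D05

set_option autoImplicit false
set_option linter.unusedVariables false

namespace Pool.Agent.T2H98.EGZ.K.C05

open K

noncomputable def O54 : Nat → Nat := orc 57333 11 45 0x1001000060000001500000002000e000400000002
  0xff0000a00000000a300000001cb00000001fe000d60000000132002fd003070003d002ca002a1002970016f002d40007000033002640006600208001a20013c001650023b0000000198001d500000000000026e00000000cc0009900000000000033a0000000231003300000000109
  0x2ebd0cb008400041a171011000432c88202400685860400420032cb050808c02a289c404108011c6b100822007f2040418440090408202088015d764f041100600142c2022000104818004600fe30c40108801ae865600118004111b230240068644040042007f44630108800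
noncomputable def S54 : Nat := 0x1000000000000000000000000000000000000000000000000000000000000000000000000000000000000000000000000000000000000000000000000000000000000000000000000000000000000000000000000000000000000000000000000000000000000000000000000000000000000000000000000000000000000000000000000000000000000000000000000000000000000000000000000000000000000000000000000000000000000000000000000000000000000000000000000000000000000000000000000000000000000000000000000000000000000000000000000000000000000000000000000000000000000000000000000000000000000000000000000000000000000000000000000000000000000000000000000000000000000000000000000000000000000000000000000000000000000000000000000000000000000000000000000000000000000000000000000000000000000000000000000000000000000000000000000000000000000000000000000000000000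
theorem k54 : loop (f1 (tail O54 (outl outs) (mkE0 549789368343 3036) 24 23 22 43 35 40 8 10 15 31 27 38)
    Q2 Q3 Q4 Q5 Q6 Q7 Q8 Q9 Q10 Q11 Q12) S54 = true := by decide +kernel

end Pool.Agent.T2H98.EGZ.K.C05
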