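import Pool.Agent.T2H98.EGZ.C.D05

set_option autoImplicit false
set_option linter.unusedVariables false

namespace Pool.Agent.T2H98.EGZ.K.C05

open K

noncomputable def O14 : Nat → Nat := orc 53797 30 120 0x6000000000001000500050000000000110006000300090000000900000000001a0000000c0004000700000007000400020002001800090007000e
  0x4ca000000061100842004260058c001c10035900000001b7009890000000000003260008500430006aa000000060700644007dc00923004fd009f9007d2004a1002e90022700677007430080f00507002c00000000000000000012800993006e7000000011e000000092d0000000000000000000000000002500034f000b8002f3005de008050008f0021d0054f009c600497006b40003300000005d400838000c200000000000000a0087500184002b600382001510074d0015b0028d0063a006dd001ea0025a0086b0089e001f4003b50003d0018e0071a0055900681000000078000000008fa0000000956000eb000000096000000005820078a0038c0064e00000002830031c009bc008f0003bf0071000000004d4008a80077600000009ef0000000000000f500000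
  0x28586040042007f44630d08400fe88c61a108015cec900024007fa231868420050b0c080084008e3588044102080842007f656a28842007f1c640d08001a288e318108000014302021001964f3c01e7d640c1100300596565a8042007ecad45108400a289c40410800cb2b2d402100061a8601042007e51030908c02006bae8a18042007f44630d084006185c80430c408084300586288c00480030c2e4021862040421802410cb0b822004821961704400fecad451fe88c61b42c30200610028a16581020d1180a28617183180030d4300821003fa2864184c0000050b8c084007d61840412808cb2c3140220028a27101042007ec1008109401186a18581300144f1b2082100186285d60420000050c0808400a1618100108014511c63021003f9c810184000b2c2c40008c01a1910100108004111b231960818108800ac40c08008001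
noncomputable def S14 : Nat := 0x144000000000000000000000000000000000000000000000000000000000000000000000000
theorem k14 : loop (f1 (tail O14 (outl outs) (mkE0 549789368343 3036) 24 23 22 43 35 40 8 10 15 31 27 38)
    Q2 Q3 Q4 Q5 Q6 Q7 Q8 Q9 Q10 Q11 Q12) S14 = true := by decide +kernel
noncomputable def O15 : Nat → Nat := orc 52401 27 116 0x7000a00000001000100050020000b000500050001000000030001000000000008001700010000000600070000000800030000000a
  0xff000000089d00458006940076b0079e000000023b000000041b00000000000056c00000001ac002d4004250013c0000000704000000000000000000000044e000000033a00000000000000000179006fa00307008a7002fd0023100000000000000000562007a8004e7005d200000005fb00113007db001a2000000000000000004810051a0059f000d6003a000000004b400605001df001460069e00837000000086a00396004f1005950036d00109002ca0003300363000660066b000cc0080e005c8001e9006d1008740033000000000000062e00638007750048b0026e004be0003d006c700297003e8000a3001d50000000264008040000a00070003f200099006610016f0000000841007d1000000000000000002a1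
  0xfc8219121200230d430082100289e3641042002eb1020209001a19101001080030d42c2021001961620004600fefb13cfae77d710fb2b02006101175df040044020c41000008801fd86272212002c3040c0024004820410104400ff43230108c009e78d920110024102080822004002860408250b82107fa160418460010457382098015d728a0012805450c080824003fadf104844027eb2cc11088015d620404c3040c0044007f18620084400b0c2e40208c018d93c40412006b2d432082500238eba0104200513ce30c08c005d7a180412801fccb8207f104281882030051c7590082000686440400420032c2c50c08c02fd93c0021200600ff390203080012088d7041200220942e082100286440400420056c3041008001
noncomputable def S15 : Nat := 0x2000000000000000000000000000000001000000000000000000000000000000000000000000000000000000000000000000000000000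
theorem k15 : loop (f1 (tail O15 (outl outs) (mkE0 549789368343 3036) 24 23 22 43 35 40 8 10 15 31 27 38)
    Q2 Q3 Q4 Q5 Q6 Q7 Q8 Q9 Q10 Q11 Q12) S15 = true := by decide +kernel

end Pool.Agent.T2H98.EGZ.K.C05
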