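import Pool.Agent.T2H98.EGZ.C.D05

set_option autoImplicit false
set_option linter.unusedVariables false

namespace Pool.Agent.T2H98.EGZ.K.C05

open K

noncomputable def O21 : Nat → Nat := orc 54383 18 73 0xe00020001000200080001000100050000000a00070000000000000003000100030004
  0x42600000004f2003ca004fc003f30035a0043000327001ad0000000184000ae003fd0017a002fe000000000a0000000232000000000000331004590029800000000000059500151004bf00525002cb003c00048c0058b00562000000046300558004c90025b00000001b700000000eb0007b00000000000011e00147000b8000000000000397002f4000e10028e0000000052002c10052f0000000364001e0000000000000228000850038d001140049600265
  0x3f18620084400d142e302090007df6170010009fd118c042200000285c6042007f42c08308c00aeba286010800fae308002501061a86010420032cceb90094015d765820100034303080022003f65928084c0130c36b0c08005000a181010800c2c782002500e8a27101042007f446301088006481010030cc1008406582060412003fd0b020c230028a271010420008250c8c08400a1910100108015d138c002100286440400420050b0c080084002860450b0c08010400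
noncomputable def S21 : Nat := 0x5000000000000000000000000000000000000000000000000000000000000000000000000000000000000000000000000000000000000000000000000000000000000000000000000000000000000000000000000000000000000000000000000000000000000000000000000000000000000000000000000000000000000000000000000000000000000000000000000000000000000000000000000000000000000
theorem k21 : loop (f1 (tail O21 (outl outs) (mkE0 549789368343 3036) 24 23 22 43 35 40 8 10 15 31 27 38)
    Q2 Q3 Q4 Q5 Q6 Q7 Q8 Q9 Q10 Q11 Q12) S21 = true := by decide +kernel
noncomputable def O22 : Nat → Nat := orc 51679 32 128 0x6000100010019001f000600140000000100100009000200120003000c0000000000050009000000000010000000030000000200000002000500060000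
  0xa3008350023b00538003d30036d0085e00561006f90086800594003c90089b000000079200000000700062d00000000000029700693002ca000cc0000000000000000000000198000000003d000d600000000000026e00000004fb003a0006600099000000002a10000000231005c7009670000000637000660066a008ce001650000000462004c8001cb00000004950010900000008c40016f000000040600000002d400000008f7005fa0046c0000000000006c600891007cf00439000000000000736002640042f0056b001fe004d2003070069d0092a0052e007030000a0095d000ff007f8005d100934003fc0072c00330007c5001d5000000099a000000075f002fd00802005050076900033001320000000000000000049f0059e00000006040082b0020800396001a200099009010013c006d0003630079c0033a
  0x50c8808008400a278d90410800cac402002400686440400420010432c2e08801aeb8c8001200241020808220068646101044007eb1e203090037df58404118094513880821003f5cf10084801fefbec8908404fe33c41212806c14308002000a8644040042007f5d6c11080017d71840012808b2cb94202300a7a280410440050c8c20208800a191840411001fcf3d00c2200233c610104001c71d730208c06a19101001080030d42c2021003fadf104844020c350b0808400a191840411001fd7430c4210028a27101042000c350c0208400104a191810801fd118c342100238eb20104000d0c8808008400feba1862108011c6b100822006764810004400d0c0c20008800186a180410800410208082200596565a8042000c350c0208400186588101000230d430082100196162860460132c2c40008c01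
noncomputable def S22 : Nat := 0x40000000000000000000000000000000000000000000000000000000000000000000000000000000000000000000000000000000000000000000000000000000000000000000000000000000000000000000000000000000000000000000000000000000000000000000000000000000000000000000000000000000000000000000000000000000000000000000000000000000000000000000000000000000000000
theorem k22 : loop (f1 (tail O22 (outl outs) (mkE0 549789368343 3036) 24 23 22 43 35 40 8 10 15 31 27 38)
    Q2 Q3 Q4 Q5 Q6 Q7 Q8 Q9 Q10 Q11 Q12) S22 = true := by decide +kernel

end Pool.Agent.T2H98.EGZ.K.C05
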