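import Pool.Agent.T2H98.EGZ.C.D06

set_option autoImplicit false
set_option linter.unusedVariables false

namespace Pool.Agent.T2H98.EGZ.K.C06

open K

noncomputable def O0 : Nat → Nat := orc 51079 27 110 0x1000000050005000000010003000100010000000700150004000000060009000500010004000000040009000300000001000a
  0x1a300780007e600596000000011e0000000000000000000000000000000087f008a80036e003fd0077600530002fe00364003a1007dc001d600265007a900875005f20074d00000001cc000330003d0023200000006dd00662004fd006580058c007b30062f004450044f001ff00397008b20084c001700026f00000006250071a00000004f300000005bf0023c000850019900819000b80000000000000eb006e7002cb000000008f0080f002a2003ca00000004ab00000003d40068b00563002980055900000000000047800710004820033100842000f50000000000001660000000526005fc00000005c90000000000000000030800000007430033b000c200695000000000000209002d5000000000a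
  0x7f1c6201090030418c600120071c731e302600ff5d76c684000b2c9030808c00aeb6481010800082db20023007f8c610484a01d75b6c8808001fd62040210800fbf32c20411f60008202acb1e7b608001fd620402108015d6c9020210019648040046007eb1e41108400208ac6041180020932c4022003f20860184600573324085d7206002190430b9e08c002086580010800bae40c026aeb6db0875d6db22020007f6081848420000032c1008c009e76571810008310400002200061a62040420032c9008008c00aeb5881810800bae408002500082185cf046002eb9030008c006d81840011802000f9e3026017f286000acb14530100f65928a046010c336b8008c013cf2010011000c311ae0a310400008801b240808009800
noncomputable def S0 : Nat := 0x80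
theorem k0 : loop (f1 (tail O0 (outl outs) (mkE0 274911461399 3108) 22 23 24 43 15 8 27 10 35 39 31 40)
    Q2 Q3 Q4 Q5 Q6 Q7 Q8 Q9 Q10 Q11 Q12) S0 = true := by decide +kernel
noncomputable def O1 : Nat → Nat := orc 49477 10 41 0x100030001000100000002000600040000
  0x16f0003d001cb001fe0000000000002080003300132000000007000099002a10000000000000a300000000d6000ff000000000000297000000023b0013c00066000000010900264001a20000a0026e001d50000000231001980016500000002ca002d4000cc
  0x1fb2b903424001b6d618404400aeb9030008c005d76d95811802baedb2b023004619b5c004600fec10081084005d76d95811803fb24020c21003f58f208842007f332b9108c001865881013000bac40c0823003f608040842007ec1008108400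
noncomputable def S1 : Nat := 0x2000000100
theorem k1 : loop (f1 (tail O1 (outl outs) (mkE0 274911461399 3108) 22 23 24 43 15 8 27 10 35 39 31 40)
    Q2 Q3 Q4 Q5 Q6 Q7 Q8 Q9 Q10 Q11 Q12) S1 = true := by decide +kernel
noncomputable def O2 : Nat → Nat := orc 55375 5 22 0x300000005
  0x132000000000000000000cc00099000660013c000ff001090016f00000001650000000033000a30003d0000a00070000d6
  0xfd63db6e10002db6c0200200048219600042003ecae300088059982040411001fceb880c22013f6480418420032c9008008c00
noncomputable def S2 : Nat := 0x40000000000
theorem k2 : loop (f1 (tail O2 (outl outs) (mkE0 274911461399 3108) 22 23 24 43 15 8 27 10 35 39 31 40)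
    Q2 Q3 Q4 Q5 Q6 Q7 Q8 Q9 Q10 Q11 Q12) S2 = true := by decide +kernel

end Pool.Agent.T2H98.EGZ.K.C06
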