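import Pool.Agent.T2H98.EGZ.C.D06

set_option autoImplicit false
set_option linter.unusedVariables false

namespace Pool.Agent.T2H98.EGZ.K.C06

open K

noncomputable def O56 : Nat → Nat := orc 40773 7 31 0x30012000400010000
  0x16f001a2000000000000070000000003d0000a001fe001650010900066000cc000a30009900208000d6000ff000000000000000001d500132001cb0000000000000330013c001980000000000
  0x1fb04020421003f6596c184000aeb9040c08400fd62040210800db6b080020007f186200844002eb1030208c006592061011801fd6c90442200176db00004400feb1020108400
noncomputable def S56 : Nat := 0x2000000000000000000000000000000002000000000000000000000000000000000000000000000000000000000000000000000000000000000000000000000000000000000000000000000000000000000000000000000000000000000000000000000000000000000000000000000000000000000000000000000000000000000000000000000000000000000000000000000000000000000000000000000000000000000000000000000000000000000000000000000000000000000000000000000000000000000000000000000000000000000000000000000000000000000000000000000000000000000000000000000000000000000000000000000000000000000000000000000000000000000000000000000000000000000000000000000000000000000000000000000000000000000000000000000000000000000000000000000000000000000000000000000000000000000000000000000000000000000000000000000000000000000000000000000000000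
theorem k56 : loop (f1 (tail O56 (outl outs) (mkE0 274911461399 3108) 22 23 24 43 15 8 27 10 35 39 31 40)
    Q2 Q3 Q4 Q5 Q6 Q7 Q8 Q9 Q10 Q11 Q12) S56 = true := by decide +kernel
noncomputable def O57 : Nat → Nat := orc 51847 5 21 0x30000000700000000
  0x16f00000000cc000000013c000000003d0000a001650000000000000330007000109000a30013200099000ff0006600000000d6
  0xfd83db6e11002b2cdb0b823004619620404c007e79ed8908c010418d90010806db6b2c2024007f6596c4844009045630208c00
noncomputable def S57 : Nat := 0x84000000000000000000000000000000000000000000000000000000000000000000000000000000000000000000000000000000000000000000000000000000000000000000000000000000000000000000000000000000000000000000000000000000000000000000000000000000000000000000000000000000000000000000000000000000000000000000000000000000000000000000000000000000000000000000000000000000000000000000000000000000000000000000000000000000000000000000000000000000000000000000000000000000000000000000000000000000000000000000000000000000000000000000000000000000000000000000000000000000000000000000000000000000000000000000000000000000000000000000000000000000000000000000000000000000000000000000000000000000000000000000000000000000000000000000000000000000000000000000000000000000000000000000000000000000000000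
theorem k57 : loop (f1 (tail O57 (outl outs) (mkE0 274911461399 3108) 22 23 24 43 15 8 27 10 35 39 31 40)
    Q2 Q3 Q4 Q5 Q6 Q7 Q8 Q9 Q10 Q11 Q12) S57 = true := by decide +kernel

end Pool.Agent.T2H98.EGZ.K.C06
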