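import Pool.Agent.T2H98.EGZ.C.D06

set_option autoImplicit false
set_option linter.unusedVariables false

namespace Pool.Agent.T2H98.EGZ.K.C06

open K

noncomputable def O63 : Nat → Nat := orc 62421 23 90 0x1000400000008000200000003000500170000000b000d000000020008000400060001000a0021000700010000
  0xcc005e700000005f100506001fe00000002de002780054e004c9001cb0006600000003f20069f0003d0079f00198000000066c00000006950000a0058b0031100033004d3001320078b001a20009900000000000072400000000ff000d60016f004fc00000000a3002a1001d50046d00000002d40048100581006a90026e0043a006fb003aa0023b00307007950034400109002080066200165003a0005580000000000005be00000006f1002ab0000000231005fb0024500000000000037700000000000036d00000004440013c0007000000000000033a0047700000005b4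
  0x2088d91812806007ec30faffc619f1242cb0820636182060012801fcf30c37f9e73c8886020015d640c20240001067206575ac40cfe79cf0230808007eb102010840018698f2011801f9042c3425003f8e3584c6b2c20810003aeb2061012000baf1ac32bac818408801801fb6dd6c42400586270404ecb200011bf9d95c1fecb338d10404fd65982211000432c8820250006199588046007eb2cc1108800aeb5881810800db6b0c202200638c604004a01805fd7594242500bf6081848420036dac30808801aeb5881810801fae40c3421001b6d604004400d75ac40c08400aeb588181080134cc9e4021003f6db65884600b2cd679009000
noncomputable def S63 : Nat := 0x100000000000000000000000000000000000000000000000000000000000000000000000000000000000000000000000000000000000000000000000000000000000000000000000000000000000000000000000000000000000000000000000000000000000000000000000000000000000000000000000000000000000000000000000000000000000000000000000000000000000000000000000000000000000000000000000000000000000000000000000000000000000000000000000000000000000000000000000000000000000000000000000000000000000000000000000000000000000000000000000000000000000000000000000000000000000000000000000000000000000000000000000000000000000000000000000000000000000000000000000000000000000000000000000000000000000000000000000000000000000000000000000000000000000000000000000000000000000000000000000000000000000000000000000000000000000000000000000000000000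
theorem k63 : loop (f1 (tail O63 (outl outs) (mkE0 274911461399 3108) 22 23 24 43 15 8 27 10 35 39 31 40)
    Q2 Q3 Q4 Q5 Q6 Q7 Q8 Q9 Q10 Q11 Q12) S63 = true := by decide +kernel

end Pool.Agent.T2H98.EGZ.K.C06
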