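import Pool.Agent.T2H98.EGZ.C.D06

set_option autoImplicit false
set_option linter.unusedVariables false

namespace Pool.Agent.T2H98.EGZ.K.C06

open K

noncomputable def O9 : Nat → Nat := orc 63037 23 96 0x400030000000000050001000000000005000a000c0000001400000003000700080008001d0002000400060002
  0x36e000000078000576003d40046d0016f004aa000000047700000006b4004a0001980041100312001cb0013c00407000660028d002830071a004d300757001fe006f10043a005100072400033005a90000a003ab00099000000056c001a20000000539000d60000000000006e70062f000000078a0033b001d50074d00000000a300000000000068b002c000506003a10010900681000ff006be0034500000002b6003780025a00000000000000000000000000030800000000000044400000000000003d00000000000054300000001320000000165003de000700020800000004dd0025000639000cc0059f00000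
  0x32c9040208400fc61880211001fb24020c21003f608040842007eb1020108400fd82061210800410c2e219648201082002cb1e790aeb64810cb24100bf608040902004cbac40209000fdb65802100035d6b103021003f208584846007ecb0409090007d6586181000bfb04020421001b6eb64604600b0c10300094006592080410801f904322425003f656284848011045630208c0020810405facb304442003f588100842000002e40c09800fd72061bfac4080441003f588100842007eb1020108400fd62040210801fac4080421000f6db10404600feb9030d084005d79880012001fb040c2421003f20864484a007e410c0308c00
noncomputable def S9 : Nat := 0x44000000000000000000000000000000000000000000000000000000
theorem k9 : loop (f1 (tail O9 (outl outs) (mkE0 274911461399 3108) 22 23 24 43 15 8 27 10 35 39 31 40)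
    Q2 Q3 Q4 Q5 Q6 Q7 Q8 Q9 Q10 Q11 Q12) S9 = true := by decide +kernel
noncomputable def O10 : Nat → Nat := orc 42961 18 72 0x400000001000f000100050004000f0001000100070000000d0001000b000000030004
  0x56f005d5001f4002460066e0016500066001090016f000000053c005790061200000002cb003f4000000009900678003130045a001cb000a3003c1001320013c00384000d6002c10031d00000005a2003ea004c100450004270000000000000ff006080000000000000700000000000001c10000a0000000000005ac000000003d0000000198000000028e0063b000cc0038e00033000000050900645002980054600000001fe00000005df0041d00513003b7
  0x15d6dac3020004002b6cf04400d75ac40c084009881810010800cb240c20230004126588044001e7d640c094005963cf2010801fac79045658f3c808331e40c20822b1012eb9020019400aeb5881810801fac408042100196482010420032db6082080019a66db59fb6c9e7ff99b5968cc00c6cae2026598c10020007fbe78c3421014105f5803eb8c200105f6591047f5be203100057d9644101000bfb6cb004206db5961012003f8c3100422000105b58004a00fe40808308800fd62040210801fac40804210016618208044007eb1408108402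
noncomputable def S10 : Nat := 0x1100000000000000000000000000000000000000000000000000000000
theorem k10 : loop (f1 (tail O10 (outl outs) (mkE0 274911461399 3108) 22 23 24 43 15 8 27 10 35 39 31 40)
    Q2 Q3 Q4 Q5 Q6 Q7 Q8 Q9 Q10 Q11 Q12) S10 = true := by decide +kernel

end Pool.Agent.T2H98.EGZ.K.C06
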