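import Pool.Agent.T2H98.EGZ.C.D06

set_option autoImplicit false
set_option linter.unusedVariables false

namespace Pool.Agent.T2H98.EGZ.K.C06

open K

noncomputable def O17 : Nat → Nat := orc 53387 14 58 0x160001000500060004000300020000000100010007001c00000004
  0x2ca00363003c90013c002a1003a00000a0039600033000cc000000009900264000000030700330002d4000000023b002fd0000000000000000040600439001a20042f0016500000003d3001d50000000109000ff00070001fe003fc000a30033a0016f0036d0013200198002310000000297000000000000066000000003d00208000d6000000000000000001cb0026e
  0x105b64004600b6b0c20209401aeb648101080051558c202300bf186200844002ebb6b08098012086580010801fae40c3421003f8d604084c01b2cc63080800361620404118013304080822000105b58004a0090408202088005d62060411801f902020c2200265c8181044000823240c09800fe75c4061100830d3102021000822b10104a004cb9030208800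
noncomputable def S17 : Nat := 0x2006000000000000000000000000000000000000000000000000000000000000000000000000000000000000000000000000000000000000000000000
theorem k17 : loop (f1 (tail O17 (outl outs) (mkE0 274911461399 3108) 22 23 24 43 15 8 27 10 35 39 31 40)
    Q2 Q3 Q4 Q5 Q6 Q7 Q8 Q9 Q10 Q11 Q12) S17 = true := by decide +kernel
noncomputable def O18 : Nat → Nat := orc 60965 47 194 0x14000100030003000000020003000000020000000100020002000e002300200001000f00070003000100010000000d00000000000000020004000c00010003000100010000000c0005000c000700060004001f00120008000600000007
  0xa300edb0000000b10000000000000000000cc00000011600000000e18006120076e000000000000b1a00d410000000000005df002a30000000797006d50048e0009900000006fe000000000000000008640000000c190007000000004460051300ae700e6a0000000f6a00e0e00000003a300d18010db0091200ca800fe50000000e9300299001cc00a4e0061c009e800add00dbc009de00c7500579000f500c7f01104004e00017a0000a008df00ab400000002d6010a800c4c008310021400f60005460094500128009ab000660035b00b80005b600f3700764004130000000be6005e900000009b50115600000001320000000bdc00a7700a1b0021e00d8900184003ad00d93002cc00a11006cb0103700bb300000004980000000aaa000000000000000003e000000000000000000a440083b00000000000003300f930102d00b4d00000009780094f007310091c00f9d000ff007a100000010d100000008e90073b0051d0086e0089700cdb00583004ea005ac00b43006a20110e0026600ce50003d00dc6007e900c0f00351003d600328000000031e0000000f2d00c420000000b7600000000000043c000000070800d0e00ba900550000000000000ee500a810000000000002700000000982000000109e0000000e6000cb20040900000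
  0x410cb00021003fae8040820d020010406fc61880211001fcc79044260028a161845078c202fd75e8023180dfd718c0d75e3180081fc71ac26359610408001c71b2c88098032086580010801fb2cb60d96db04108000fec900839881810020b2c9040208400fd62040334cc9e4041003f5c8186aeb9040c104009e760404108095d6dac33f6596c18807b6d88202300596482010420030c36cac09401fc82180611801fac4080421003f588100842002eb1020209400fe38d96210806bae410302100263c818404a002eb10202094002086585c11000bb6d800022006bad9204042002eb10202094002165841011801fac4080421002bad92040420010c3008208c002186010411801310302002100196482010420032c900801866562021fe410c8909400fd63c8221080134cdb27bf6d85c48815d6db221b6d610008000b6db2c8c090015963cf20108013103020021003f3cf5c884a007e410c8909585881012eb9030061720400430c0208830019648040046007ec9008308400feb64822110011c6cac302600ff64804184200575ac40c08400fca2971abac508004300975e85845132c782104061882000011000410cb00021000619b5c004600fedb2c016db5840020003f9e7b62423004f3ca1844cb943021000265999b5810003fb0794542100996db0414cd8c0801000165728600cb05080045fd83db6edb6b020042005658f3c87eb1e411104006d81840011803fc71b00c20fe69a31a12006c3040c0025001659b60004c0090432c0008400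
noncomputable def S18 : Nat := 0x41000000000000000000000000000000000000000000000000000000000000000000000000000000000000000000000000000000000000000000000000000000
theorem k18 : loop (f1 (tail O18 (outl outs) (mkE0 274911461399 3108) 22 23 24 43 15 8 27 10 35 39 31 40)
    Q2 Q3 Q4 Q5 Q6 Q7 Q8 Q9 Q10 Q11 Q12) S18 = true := by decide +kernel

end Pool.Agent.T2H98.EGZ.K.C06
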