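import Pool.Agent.T2H98.EGZ.C.D06

set_option autoImplicit false
set_option linter.unusedVariables false

namespace Pool.Agent.T2H98.EGZ.K.C06

open K

noncomputable def O19 : Nat → Nat := orc 61423 35 183 0x300060000000d0000000000010007000900030000000100000002000200010007000e000800030004000400000001000200040000000100000003000400010001
  0x250008ef0000000000003c00038d00511007e60000000acf0051b0045900b3f0061b000000028d00000004630000000227000000000000000000000000000000005e800000002d500000007b30035a000000003d0000000066009d0001320074d009a7007800003300000000000000000000000000000000856000000000000625009da0018400b35006be00000000000099d0000000000004de0000000000003640078a00aa6000000000000000000000000000b02008230072400000006f1005f200a360087f0000000000006b4000000068b00327004b5003ca004e800000000d600000000000007000a400021d00922000cc0000000a6900ad90025a000a30064e003970084c0000000000003f3002fe00596006e70018e00000000ff00000004ab000000071a0013c00918004300000000000008890000000a0300658005440033100283001c1001ea001b70000000000000000000000000001090000000000000990000000000005a000426003fd007bd0054e00000008e500000007f00068100000000000000000000001f400000000000000000000000000096a00a0d0000000000008bc0075700b0c00974008b20000a0000000000000000000000a9c0081900a73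
  0x6db5810011002000f9e3026014859618604a002c41000009000fd75c80612000cb24020023003f5881008420010432c000840099960a0012004082db20023007f596200d7590080110008e3659581280732e40c0822003f608184842002ebbec0209005fd63c82210800baf3100024000105b10004c008c34c408084005963cf20108015d640c2024000411720104c00575ac40c084009975880412000b2d3b000250106208000044007eb14c31080027df3cf5dfbefb2244001572080417ecae40d110008d75860410006cb24020023000412718104a02471ccb821868d70020806bae410302100061a6648044003ebac20208005fd965b121100333e782002001596482010420036b0c20209461a6204042410cb00196482010820010408202088006592010011800b30c104022002bad62060420036dac080088017df3cf5cfaeb080840017f60f28a842014c40c080084001866d60411802410c2e2021000619b5c0046009043230209000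
noncomputable def S19 : Nat := 0x3000000000000000000000000000000000000000000000000000000000000000000000000000000000000000000000000000000000000000000000000000000000
theorem k19 : loop (f1 (tail O19 (outl outs) (mkE0 274911461399 3108) 22 23 24 43 15 8 27 10 35 39 31 40)
    Q2 Q3 Q4 Q5 Q6 Q7 Q8 Q9 Q10 Q11 Q12) S19 = true := by decide +kernel
noncomputable def O20 : Nat → Nat := orc 56203 20 80 0x13000a000000030000000100010005001000000007000600000003000d0000001200020000000f
  0x5ab00582004300043a006440064e002ca00000004960000000000005b5000d6000000010900000000000000000000000000000000363000000000000000002fd002f3000000067700545001fe00165000000054f00578001cb0028d00000002640015b00099002310029700198006b40038c0046d00066003960040700000001f400359003300018e006aa002c0002270061b005e800033000a3001320007000326004630025a0000000611005de000ff000cc000000000000681003fd0003d004fd0000a001c1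
  0x831b0b02200e6206040042004c40c08008400fc81010611000410cb00021000001f64604202ff336b8308c012086060012000b2d3b20a79d93c608b3ceb8c0a79971804f32c302186765610104c027edb2c0108001fc81010611000b2cdb0b8001b5840c336b8018c01ae66c40411803310302002100082185c40420032c90402084006592080410800db75820026007f588100842007ec90083084001869881010800db6c2e0024006b8d710004c01c678c20209bf8e365884201b2b103080940059628a6010004db75820026007f5d76c684000cc40c08008400
noncomputable def S20 : Nat := 0x6000000000000000000000000000000000000000000000000000000000000000000000000000000000000000000000000000000000000000000000000000000000000000000000000000000000000000000000000000000000000000000000000000000000000000000000000000000000000000000000000000000000000000000000000000000000000000000000000000000000000000000000000000000000000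
theorem k20 : loop (f1 (tail O20 (outl outs) (mkE0 274911461399 3108) 22 23 24 43 15 8 27 10 35 39 31 40)
    Q2 Q3 Q4 Q5 Q6 Q7 Q8 Q9 Q10 Q11 Q12) S20 = true := by decide +kernel

end Pool.Agent.T2H98.EGZ.K.C06
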