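import Pool.Agent.T2H98.EGZ.C.D07

set_option autoImplicit false
set_option linter.unusedVariables false

namespace Pool.Agent.T2H98.EGZ.K.C07

open K

noncomputable def O25 : Nat → Nat := orc 54651 7 33 0x2000000010000000000080000
  0x1cb001980003d0000a001d5000a3000000013200066000cc00099000ff00000000000000000000000000013c00000000000003300000000d6000700000000109001a200000002080016f001fe00165
  0x80e28818220040011142044002268e1000840014544d0410801fa238a04210011443040042002230a0800980010424304118042228861823001144c1c104c000619228008402
noncomputable def S25 : Nat := 0xc0000000000000000000000000000000000000000000000000000000000000000000000000000000000000000000000000000000000000000000000000000000000000000000000000000000000000000000000000000000000000000000000000000000000000000000000000000000000000000000000000000000000000000000000000000000000000000000000000000000000000000000000000000000000000000000000000000000000000000000000000000000000000000000000000000000000000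
theorem k25 : loop (f1 (tail O25 (outl outs) (mkE0 264243 290) 3 7 2 13 12 17 16 9 15 14 8 10)
    Q2 Q3 Q4 Q5 Q6 Q7 Q8 Q9 Q10 Q11 Q12) S25 = true := by decide +kernel
noncomputable def O26 : Nat → Nat := orc 55603 21 84 0x800000008000100000002000a00040005000100010000000400000004000100040003000100110002
  0x4dc000a300505000660013c000330000000410002ab0050f003440030700538001d5005b2000000057f00146000000054c004d200179002a1003dd0026e005e50033a001a20054200070002de00245005a80049f001df0027800377000ad0060e0023b001ac003a0006180000a0040600000001090036d0046c000d60000000000003d3000e00009900000004a900208000000000000000000000016f005db0011300000000000003d0057500000002d40000000000004430000000000003110000000000003aa004390021200476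
  0x88e3060022000d351300042007e80a20508c010c3404081100249280e20230080104140400110021868880822000f3c608004001a288e38008c00fc5150021180288e3060022000924614204a010412220008800fd11c5021080071c69a1022010f3cb0c204401a259618608400410303001100271a30200230111447101042002288e202084000914410410801f9a692142400bf40610384000fe78e10109003fc209106108001868080825007f24914484001003f9e78a1c2200d144710104200061a220208800
noncomputable def S26 : Nat := 0x3000000000000000000000000000000000000000000000000000000000000000000000000000000000000000000000000000000000000000000000000000000000000000000000000000000000000000000000000000000000000000000000000000000000000000000000000000000000000000000000000000000000000000000000000000000000000000000000000000000000000000000000000000000000000000000000000000000000000000000000000000000000000000000000000000000000000000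
theorem k26 : loop (f1 (tail O26 (outl outs) (mkE0 264243 290) 3 7 2 13 12 17 16 9 15 14 8 10)
    Q2 Q3 Q4 Q5 Q6 Q7 Q8 Q9 Q10 Q11 Q12) S26 = true := by decide +kernel

end Pool.Agent.T2H98.EGZ.K.C07
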