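import Pool.Agent.T2H98.EGZ.C.D08

set_option autoImplicit false
set_option linter.unusedVariables false

namespace Pool.Agent.T2H98.EGZ.K.C08

open K

noncomputable def O37 : Nat → Nat := orc 63733 12 54 0x10005000700000005000d000400110000000000060002
  0x3d00000001cb00000000000013c0000000000003bf000000000000000001320000000000003820016f002e90010900000000d6002640000a001a2000a3002f3000cc0034f0026e0006600297003b50031c002310038c001fe002080035900099001980000000000000ff00165001d50023b000000000000326000000003300070002a100000
  0xfd11430e10801fa22020c21003f444041842001e78c1000800244d102001080079e30c13f1453c1882010e3a20800900014544d04118001228820823001144b102048007e30c78708c0200044d041100089a30800220005151341046002268810008400191440001080089a30800220011346100044002268c20008800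
noncomputable def S37 : Nat := 0x5000000000000000000000000000000000000000000000000000000000000000000000000000000000000000000000000000000000000000000000000000000000000000000000000000000000000000000000000000000000000000000000000000000000000000000000000000000000000000000000000000000000000000000000000000000000000000000000000000000000000000000000000000000000000000000000000000000000000000000000000000000000000000000000000000000000000000000000000000000000000000000000000000000000000000000000000000000000000000000000000000000000000000000000000000000000000000000000000000000000000000000000000000000000000000000000000000000000000000000000000000000000000000000000000000000000000000000000000000000000000000000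
theorem k37 : loop (f1 (tail O37 (outl outs) (mkE0 270387 505) 7 3 2 11 12 17 14 15 16 9 8 10)
    Q2 Q3 Q4 Q5 Q6 Q7 Q8 Q9 Q10 Q11 Q12) S37 = true := by decide +kernel
noncomputable def O38 : Nat → Nat := orc 63205 26 111 0x1700000006001a00000000000000010002000000030014000100160016000100040000000d0000000400000000000300060036
  0x7c5000330062d0056100594001980059e00165000a300297005c70072c0042f003fc0036d000700056b0070300066007cf0069d00505000000063700330002a10079c003c900000000000076900604001d5006f900208003a0005fa006c60013c0033a001a200000006d000000004d2000000052e004fb000000000000495000000075f002310023b00000000000016f000000009900736001cb0069300000000cc004c800000002fd000000066a000000000000000003960000000000003d3000000026e002640000000000001fe005d1000ff0040600462000d60043900363001320046c00660002d4007920003d0000a000000000000000000000049f00307002ca0000000000005380010900000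
  0x30c38610100028a22080821000e38708004400fe89a60f084000003c4041300438e70c0824007f4450c3842000411c080090012cb446081080078e308002400820901c6048018a2a03060900338b2c00011003fa22880c22000e38d300044009c69820009001fc618e0a1100230c78a0024008618f10204801165a2380084004511c7001100061870a10220051344080042000a29848e0940444d1020010801f9c7060c24004f3c6080040010411c080090012081840c1200a208486082201114471c0044002289a60408400fcf3cb02108043228800021000b2ce182040008411e386090020c324404100083228800021001144b10104a00088a218608800
noncomputable def S38 : Nat := 0x140000000000000000000000000000000000000000000000000000000000000000000000000000000000000000000000000000000000000000000000000000000000000000000000000000000000000000000000000000000000000000000000000000000000000000000000000000000000000000000000000000000000000000000000000000000000000000000000000000000000000000000000000000000000000000000000000000000000000000000000000000000000000000000000000000000000000000000000000000000000000000000000000000000000000000000000000000000000000000000000000000000000000000000000000000000000000000000000000000000000000000000000000000000000000000000000000000000000000000000000000000000000000000000000000000000000000000000000000000000000000000000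
theorem k38 : loop (f1 (tail O38 (outl outs) (mkE0 270387 505) 7 3 2 11 12 17 14 15 16 9 8 10)
    Q2 Q3 Q4 Q5 Q6 Q7 Q8 Q9 Q10 Q11 Q12) S38 = true := by decide +kernel

end Pool.Agent.T2H98.EGZ.K.C08
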