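import Pool.Agent.T2H98.EGZ.C.D11

set_option autoImplicit false
set_option linter.unusedVariables false

namespace Pool.Agent.T2H98.EGZ.K.C11

open K

noncomputable def O5 : Nat → Nat := orc 48037 13 57 0x20001000000000003000c0008000000000002000a0004
  0x397000cc001090000000000000000000000000001b7000000000000430000000007000033002270003d0000000165003f30000000000003ca001c1000000013c000660021d002df003c00016f003fd0036400308001ea00000000a3000ff000000000a0025000000000d60028d0035a0025a0013200283003120038d001f40000000099000000042600000002d5
  0x1f9a3820423000434d00004c007e38e6830880034d14400110006041020822007f4440c2a2708100100034511c61010007fa27140d1447040080019818408008801fcc3030211002884100002500cc10400004600fe88818545118300200060006121025007f347040846000c31a1000840040e1c50c1100c60e2060022004618d080042001a68a18008c00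
noncomputable def S5 : Nat := 0x3000000000000000000000000000000000000000000000000000000000000000000000000000
theorem k5 : loop (f1 (tail O5 (outl outs) (mkE0 263219 2894) 7 3 2 14 9 13 12 15 17 8 11 16)
    Q2 Q3 Q4 Q5 Q6 Q7 Q8 Q9 Q10 Q11 Q12) S5 = true := by decide +kernel
noncomputable def O6 : Nat → Nat := orc 47095 23 116 0x60002000000040000000000070008001500000007000000000000000000020000000800010000000f00010004
  0x6c10000000000002ea00000000000073c00000008640000000000004d500000002830021d0076f0033c000000018e003fe00000000000011e00765000000061d0025a005ea000000025000000007a2003cb0012800798000000000000000000000061300000001ea00000002270045000713000000003d0036500000000700083b000000018400000005ad0015b0000000000008a10000000897005b7000d6004a20000000000003d5007cb00000000000000000000007fe00808000cc00831006500000a001b7001c1001f4004df0000000000001510009900709005e0003a200679000a300546004ac00398000000000000332006460045a007d500408000000000000000000000086e000000036f000000000000033000000006600000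
  0xe349100042001a30a2020840030c381001180220868c1821000208f380046017e68e30908c001cd341041100069a48a0821041344081080018660e00e30a14008660e30a18e30a1400866182880824004208f380046011451e28008c02fc71cf021180459620810924e2c17e38e583184410b1831c5960002c40c1003100a71a2040023003f3c5100fe79c48d100024512860df924a2144100cf3c6080046012289220409403104445081280620888a102500cc1850811838818010bf3c5100fe79c6073cf14200301838818008801041345001080060c2840822004e346040044000a29810008c014512440812807f9860c2c2200430cc1827e61820110c01fcc287061180249268e0022003f44308084c019a51220008800
noncomputable def S6 : Nat := 0x1000000000000000000000000000000004000000000000000000000000000000000000000000000000000000000000000000000000000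
theorem k6 : loop (f1 (tail O6 (outl outs) (mkE0 263219 2894) 7 3 2 14 9 13 12 15 17 8 11 16)
    Q2 Q3 Q4 Q5 Q6 Q7 Q8 Q9 Q10 Q11 Q12) S6 = true := by decide +kernel

end Pool.Agent.T2H98.EGZ.K.C11
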