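import Pool.Agent.T2H98.EGZ.Main
import Pool.Agent.T2H98.EGZ.C.GOk
import Pool.Agent.T2H98.EGZ.C.D00
import Pool.Agent.T2H98.EGZ.C.K00_0
import Pool.Agent.T2H98.EGZ.C.K00_1
import Pool.Agent.T2H98.EGZ.C.K00_2
import Pool.Agent.T2H98.EGZ.C.K00_3
import Pool.Agent.T2H98.EGZ.C.K00_4
import Pool.Agent.T2H98.EGZ.C.K00_5
import Pool.Agent.T2H98.EGZ.C.K00_6
import Pool.Agent.T2H98.EGZ.C.K00_7
import Pool.Agent.T2H98.EGZ.C.K00_8
import Pool.Agent.T2H98.EGZ.C.K00_9
import Pool.Agent.T2H98.EGZ.C.K00_10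
import Pool.Agent.T2H98.EGZ.C.K00_11
import Pool.Agent.T2H98.EGZ.C.K00_12
import Pool.Agent.T2H98.EGZ.C.K00_13
import Pool.Agent.T2H98.EGZ.C.K00_14
import Pool.Agent.T2H98.EGZ.C.D01
import Pool.Agent.T2H98.EGZ.C.K01_0
import Pool.Agent.T2H98.EGZ.C.K01_1
import Pool.Agent.T2H98.EGZ.C.K01_2
import Pool.Agent.T2H98.EGZ.C.K01_3
import Pool.Agent.T2H98.EGZ.C.K01_4
import Pool.Agent.T2H98.EGZ.C.K01_5
import Pool.Agent.T2H98.EGZ.C.K01_6
import Pool.Agent.T2H98.EGZ.C.K01_7
import Pool.Agent.T2H98.EGZ.C.K01_8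
import Pool.Agent.T2H98.EGZ.C.K01_9
import Pool.Agent.T2H98.EGZ.C.K01_10
import Pool.Agent.T2H98.EGZ.C.K01_11
import Pool.Agent.T2H98.EGZ.C.K01_12
import Pool.Agent.T2H98.EGZ.C.K01_13
import Pool.Agent.T2H98.EGZ.C.K01_14
import Pool.Agent.T2H98.EGZ.C.K01_15
import Pool.Agent.T2H98.EGZ.C.K01_16
import Pool.Agent.T2H98.EGZ.C.K01_17
import Pool.Agent.T2H98.EGZ.C.K01_18
import Pool.Agent.T2H98.EGZ.C.K01_19
import Pool.Agent.T2H98.EGZ.C.K01_20
import Pool.Agent.T2H98.EGZ.C.D02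
import Pool.Agent.T2H98.EGZ.C.K02_0
import Pool.Agent.T2H98.EGZ.C.K02_1
import Pool.Agent.T2H98.EGZ.C.K02_2
import Pool.Agent.T2H98.EGZ.C.K02_3
import Pool.Agent.T2H98.EGZ.C.K02_4
import Pool.Agent.T2H98.EGZ.C.K02_5
import Pool.Agent.T2H98.EGZ.C.K02_6
import Pool.Agent.T2H98.EGZ.C.K02_7
import Pool.Agent.T2H98.EGZ.C.K02_8
import Pool.Agent.T2H98.EGZ.C.K02_9
import Pool.Agent.T2H98.EGZ.C.K02_10
import Pool.Agent.T2H98.EGZ.C.K02_11
import Pool.Agent.T2H98.EGZ.C.K02_12
import Pool.Agent.T2H98.EGZ.C.K02_13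
import Pool.Agent.T2H98.EGZ.C.K02_14
import Pool.Agent.T2H98.EGZ.C.K02_15
import Pool.Agent.T2H98.EGZ.C.K02_16
import Pool.Agent.T2H98.EGZ.C.K02_17
import Pool.Agent.T2H98.EGZ.C.K02_18
import Pool.Agent.T2H98.EGZ.C.K02_19
import Pool.Agent.T2H98.EGZ.C.K02_20
import Pool.Agent.T2H98.EGZ.C.K02_21
import Pool.Agent.T2H98.EGZ.C.K02_22
import Pool.Agent.T2H98.EGZ.C.K02_23
import Pool.Agent.T2H98.EGZ.C.K02_24
import Pool.Agent.T2H98.EGZ.C.K02_25
import Pool.Agent.T2H98.EGZ.C.K02_26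
import Pool.Agent.T2H98.EGZ.C.K02_27
import Pool.Agent.T2H98.EGZ.C.K02_28
import Pool.Agent.T2H98.EGZ.C.K02_29
import Pool.Agent.T2H98.EGZ.C.K02_30
import Pool.Agent.T2H98.EGZ.C.K02_31
import Pool.Agent.T2H98.EGZ.C.K02_32
import Pool.Agent.T2H98.EGZ.C.K02_33
import Pool.Agent.T2H98.EGZ.C.K02_34
import Pool.Agent.T2H98.EGZ.C.K02_35
import Pool.Agent.T2H98.EGZ.C.K02_36
import Pool.Agent.T2H98.EGZ.C.K02_37
import Pool.Agent.T2H98.EGZ.C.K02_38
import Pool.Agent.T2H98.EGZ.C.K02_39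
import Pool.Agent.T2H98.EGZ.C.K02_40
import Pool.Agent.T2H98.EGZ.C.K02_41
import Pool.Agent.T2H98.EGZ.C.K02_42
import Pool.Agent.T2H98.EGZ.C.K02_43
import Pool.Agent.T2H98.EGZ.C.K02_44
import Pool.Agent.T2H98.EGZ.C.K02_45
import Pool.Agent.T2H98.EGZ.C.K02_46
import Pool.Agent.T2H98.EGZ.C.K02_47
import Pool.Agent.T2H98.EGZ.C.K02_48
import Pool.Agent.T2H98.EGZ.C.K02_49
import Pool.Agent.T2H98.EGZ.C.K02_50
import Pool.Agent.T2H98.EGZ.C.K02_51
import Pool.Agent.T2H98.EGZ.C.K02_52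
import Pool.Agent.T2H98.EGZ.C.K02_53
import Pool.Agent.T2H98.EGZ.C.K02_54
import Pool.Agent.T2H98.EGZ.C.K02_55
import Pool.Agent.T2H98.EGZ.C.K02_56
import Pool.Agent.T2H98.EGZ.C.K02_57
import Pool.Agent.T2H98.EGZ.C.K02_58
import Pool.Agent.T2H98.EGZ.C.K02_59
import Pool.Agent.T2H98.EGZ.C.K02_60
import Pool.Agent.T2H98.EGZ.C.K02_61
import Pool.Agent.T2H98.EGZ.C.D03
import Pool.Agent.T2H98.EGZ.C.K03_0
import Pool.Agent.T2H98.EGZ.C.K03_1
import Pool.Agent.T2H98.EGZ.C.K03_2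
import Pool.Agent.T2H98.EGZ.C.K03_3
import Pool.Agent.T2H98.EGZ.C.K03_4
import Pool.Agent.T2H98.EGZ.C.K03_5
import Pool.Agent.T2H98.EGZ.C.K03_6
import Pool.Agent.T2H98.EGZ.C.K03_7
import Pool.Agent.T2H98.EGZ.C.K03_8
import Pool.Agent.T2H98.EGZ.C.K03_9
import Pool.Agent.T2H98.EGZ.C.K03_10
import Pool.Agent.T2H98.EGZ.C.K03_11
import Pool.Agent.T2H98.EGZ.C.K03_12
import Pool.Agent.T2H98.EGZ.C.K03_13
import Pool.Agent.T2H98.EGZ.C.K03_14
import Pool.Agent.T2H98.EGZ.C.K03_15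
import Pool.Agent.T2H98.EGZ.C.K03_16
import Pool.Agent.T2H98.EGZ.C.K03_17
import Pool.Agent.T2H98.EGZ.C.K03_18
import Pool.Agent.T2H98.EGZ.C.K03_19
import Pool.Agent.T2H98.EGZ.C.K03_20
import Pool.Agent.T2H98.EGZ.C.K03_21
import Pool.Agent.T2H98.EGZ.C.K03_22
import Pool.Agent.T2H98.EGZ.C.K03_23
import Pool.Agent.T2H98.EGZ.C.K03_24
import Pool.Agent.T2H98.EGZ.C.D04
import Pool.Agent.T2H98.EGZ.C.K04_0
import Pool.Agent.T2H98.EGZ.C.K04_1
import Pool.Agent.T2H98.EGZ.C.K04_2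
import Pool.Agent.T2H98.EGZ.C.K04_3
import Pool.Agent.T2H98.EGZ.C.K04_4
import Pool.Agent.T2H98.EGZ.C.K04_5
import Pool.Agent.T2H98.EGZ.C.K04_6
import Pool.Agent.T2H98.EGZ.C.K04_7
import Pool.Agent.T2H98.EGZ.C.K04_8
import Pool.Agent.T2H98.EGZ.C.K04_9
import Pool.Agent.T2H98.EGZ.C.K04_10
import Pool.Agent.T2H98.EGZ.C.K04_11
import Pool.Agent.T2H98.EGZ.C.K04_12
import Pool.Agent.T2H98.EGZ.C.K04_13
import Pool.Agent.T2H98.EGZ.C.K04_14
import Pool.Agent.T2H98.EGZ.C.K04_15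
import Pool.Agent.T2H98.EGZ.C.K04_16
import Pool.Agent.T2H98.EGZ.C.K04_17
import Pool.Agent.T2H98.EGZ.C.K04_18
import Pool.Agent.T2H98.EGZ.C.D05
import Pool.Agent.T2H98.EGZ.C.K05_0
import Pool.Agent.T2H98.EGZ.C.K05_1
import Pool.Agent.T2H98.EGZ.C.K05_2
import Pool.Agent.T2H98.EGZ.C.K05_3
import Pool.Agent.T2H98.EGZ.C.K05_4
import Pool.Agent.T2H98.EGZ.C.K05_5
import Pool.Agent.T2H98.EGZ.C.K05_6
import Pool.Agent.T2H98.EGZ.C.K05_7
import Pool.Agent.T2H98.EGZ.C.K05_8
import Pool.Agent.T2H98.EGZ.C.K05_9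
import Pool.Agent.T2H98.EGZ.C.K05_10
import Pool.Agent.T2H98.EGZ.C.K05_11
import Pool.Agent.T2H98.EGZ.C.K05_12
import Pool.Agent.T2H98.EGZ.C.K05_13
import Pool.Agent.T2H98.EGZ.C.K05_14
import Pool.Agent.T2H98.EGZ.C.K05_15
import Pool.Agent.T2H98.EGZ.C.K05_16
import Pool.Agent.T2H98.EGZ.C.K05_17
import Pool.Agent.T2H98.EGZ.C.K05_18
import Pool.Agent.T2H98.EGZ.C.K05_19
import Pool.Agent.T2H98.EGZ.C.K05_20
import Pool.Agent.T2H98.EGZ.C.K05_21
import Pool.Agent.T2H98.EGZ.C.D06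
import Pool.Agent.T2H98.EGZ.C.K06_0
import Pool.Agent.T2H98.EGZ.C.K06_1
import Pool.Agent.T2H98.EGZ.C.K06_2
import Pool.Agent.T2H98.EGZ.C.K06_3
import Pool.Agent.T2H98.EGZ.C.K06_4
import Pool.Agent.T2H98.EGZ.C.K06_5
import Pool.Agent.T2H98.EGZ.C.K06_6
import Pool.Agent.T2H98.EGZ.C.K06_7
import Pool.Agent.T2H98.EGZ.C.K06_8
import Pool.Agent.T2H98.EGZ.C.K06_9
import Pool.Agent.T2H98.EGZ.C.K06_10
import Pool.Agent.T2H98.EGZ.C.K06_11
import Pool.Agent.T2H98.EGZ.C.K06_12
import Pool.Agent.T2H98.EGZ.C.K06_13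
import Pool.Agent.T2H98.EGZ.C.K06_14
import Pool.Agent.T2H98.EGZ.C.K06_15
import Pool.Agent.T2H98.EGZ.C.K06_16
import Pool.Agent.T2H98.EGZ.C.K06_17
import Pool.Agent.T2H98.EGZ.C.K06_18
import Pool.Agent.T2H98.EGZ.C.K06_19
import Pool.Agent.T2H98.EGZ.C.K06_20
import Pool.Agent.T2H98.EGZ.C.K06_21
import Pool.Agent.T2H98.EGZ.C.K06_22

set_option autoImplicit false
set_option linter.unusedVariables false

namespace Pool.Agent.T2H98.EGZ

open K

section
open K.C00
noncomputable def K.C00.CK : List ((ℕ → ℕ) × ℕ) :=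
  [(O0, S0),
   (O1, S1),
   (O2, S2),
   (O3, S3),
   (O4, S4),
   (O5, S5),
   (O6, S6),
   (O7, S7),
   (O8, S8),
   (O9, S9),
   (O10, S10),
   (O11, S11),
   (O12, S12),
   (O13, S13),
   (O14, S14),
   (O15, S15),
   (O16, S16),
   (O17, S17),
   (O18, S18),
   (O19, S19),
   (O20, S20),
   (O21, S21),
   (O22, S22),
   (O23, S23),
   (O24, S24),
   (O25, S25),
   (O26, S26),
   (O27, S27),
   (O28, S28),
   (O29, S29),
   (O30, S30),
   (O31, S31),
   (O32, S32),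
   (O33, S33),
   (O34, S34),
   (O35, S35)]

theorem step00 (h : ∀ x ∈ K.C00.done, Excl L0 (pt 5 x)) : Excl L0 (pt 5 108) := by
  refine class_main Gs5 gs5_ok K.C00.done h 108 235 (by decide +kernel) 0x202020001 3097 (by decide +kernel)
    (by decide +kernel) 35 37 2 ![0x1, 0x100000000, 0x100, 0x102020102, 0x202000201]
    (by decide) (by decide +kernel)
    0x10202 0x100010201 0x200010101 0x100010102 0x1020200 0x2020202 0x1020002 0x101020001 0x202020200 0x202010201 0x101010002 0x201010202 0x102020000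
    20 36 21 38 31 39 9 16 13 11 26 42
    Q1 Q2 Q3 Q4 Q5 Q6 Q7 Q8 Q9 Q10 Q11 Q12
    D1 D2 D3 D4 D5 D6 D7 D8 D9 D10 D11 D12
    (by decide +kernel) (by decide +kernel) (by decide +kernel) (by decide +kernel) (by decide +kernel) (by decide +kernel) (by decide +kernel) (by decide +kernel) (by decide +kernel) (by decide +kernel) (by decide +kernel) (by decide +kernel)
    h1 h2 h3 h4 h5 h6 h7 h8 h9 h10 h11 h12
    outs (by decide +kernel) 171798691863 (by decide +kernel) (by decide +kernel) (by decide +kernel)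
    K.C00.CK ?_ (by decide +kernel)
  exact List.forall_iff_forall_mem.1 ⟨k0, k1, k2, k3, k4, k5, k6, k7, k8, k9, k10, k11, k12, k13, k14, k15, k16, k17, k18, k19, k20, k21, k22, k23, k24, k25, k26, k27, k28, k29, k30, k31, k32, k33, k34, k35⟩
end

section
open K.C01
noncomputable def K.C01.CK : List ((ℕ → ℕ) × ℕ) :=
  [(O0, S0),
   (O1, S1),
   (O2, S2),
   (O3, S3),
   (O4, S4),
   (O5, S5),
   (O6, S6),
   (O7, S7),
   (O8, S8),
   (O9, S9),
   (O10, S10),
   (O11, S11),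
   (O12, S12),
   (O13, S13),
   (O14, S14),
   (O15, S15),
   (O16, S16),
   (O17, S17),
   (O18, S18),
   (O19, S19),
   (O20, S20),
   (O21, S21),
   (O22, S22),
   (O23, S23),
   (O24, S24),
   (O25, S25),
   (O26, S26),
   (O27, S27),
   (O28, S28),
   (O29, S29),
   (O30, S30),
   (O31, S31),
   (O32, S32),
   (O33, S33),
   (O34, S34),
   (O35, S35),
   (O36, S36),
   (O37, S37),
   (O38, S38),
   (O39, S39),
   (O40, S40),
   (O41, S41),
   (O42, S42),
   (O43, S43),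
   (O44, S44),
   (O45, S45),
   (O46, S46),
   (O47, S47),
   (O48, S48),
   (O49, S49),
   (O50, S50),
   (O51, S51),
   (O52, S52)]

theorem step01 (h : ∀ x ∈ K.C01.done, Excl L0 (pt 5 x)) : Excl L0 (pt 5 92) := by
  refine class_main Gs1 gs1_ok K.C01.done h 92 173 (by decide +kernel) 0x200010002 2630 (by decide +kernel)
    (by decide +kernel) 5 11 18 ![0x1, 0x10200, 0x100, 0x1010102, 0x100000000]
    (by decide) (by decide +kernel)
    0x10202 0x2020202 0x2010002 0x2010200 0x102010001 0x202010201 0x100000202 0x100020200 0x202020101 0x201010001 0x101000201 0x200010002 0x102000101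
    7 2 3 17 10 16 13 8 12 15 9 14
    Q1 Q2 Q3 Q4 Q5 Q6 Q7 Q8 Q9 Q10 Q11 Q12
    D1 D2 D3 D4 D5 D6 D7 D8 D9 D10 D11 D12
    (by decide +kernel) (by decide +kernel) (by decide +kernel) (by decide +kernel) (by decide +kernel) (by decide +kernel) (by decide +kernel) (by decide +kernel) (by decide +kernel) (by decide +kernel) (by decide +kernel) (by decide +kernel)
    h1 h2 h3 h4 h5 h6 h7 h8 h9 h10 h11 h12
    outs (by decide +kernel) 264243 (by decide +kernel) (by decide +kernel) (by decide +kernel)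
    K.C01.CK ?_ (by decide +kernel)
  exact List.forall_iff_forall_mem.1 ⟨k0, k1, k2, k3, k4, k5, k6, k7, k8, k9, k10, k11, k12, k13, k14, k15, k16, k17, k18, k19, k20, k21, k22, k23, k24, k25, k26, k27, k28, k29, k30, k31, k32, k33, k34, k35, k36, k37, k38, k39, k40, k41, k42, k43, k44, k45, k46, k47, k48, k49, k50, k51, k52⟩
end

section
open K.C02
noncomputable def K.C02.CK : List ((ℕ → ℕ) × ℕ) :=
  [(O0, S0),
   (O1, S1),
   (O2, S2),
   (O3, S3),
   (O4, S4),
   (O5, S5),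
   (O6, S6),
   (O7, S7),
   (O8, S8),
   (O9, S9),
   (O10, S10),
   (O11, S11),
   (O12, S12),
   (O13, S13),
   (O14, S14),
   (O15, S15),
   (O16, S16),
   (O17, S17),
   (O18, S18),
   (O19, S19),
   (O20, S20),
   (O21, S21),
   (O22, S22),
   (O23, S23),
   (O24, S24),
   (O25, S25),
   (O26, S26),
   (O27, S27),
   (O28, S28),
   (O29, S29),
   (O30, S30),
   (O31, S31),
   (O32, S32),
   (O33, S33),
   (O34, S34),
   (O35, S35),
   (O36, S36),
   (O37, S37),
   (O38, S38),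
   (O39, S39),
   (O40, S40),
   (O41, S41),
   (O42, S42),
   (O43, S43),
   (O44, S44),
   (O45, S45),
   (O46, S46),
   (O47, S47),
   (O48, S48),
   (O49, S49),
   (O50, S50),
   (O51, S51),
   (O52, S52),
   (O53, S53),
   (O54, S54),
   (O55, S55),
   (O56, S56),
   (O57, S57),
   (O58, S58),
   (O59, S59),
   (O60, S60),
   (O61, S61),
   (O62, S62),
   (O63, S63),
   (O64, S64),
   (O65, S65),
   (O66, S66),
   (O67, S67),
   (O68, S68),
   (O69, S69),
   (O70, S70),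
   (O71, S71),
   (O72, S72),
   (O73, S73),
   (O74, S74),
   (O75, S75),
   (O76, S76),
   (O77, S77),
   (O78, S78),
   (O79, S79),
   (O80, S80),
   (O81, S81),
   (O82, S82),
   (O83, S83),
   (O84, S84),
   (O85, S85),
   (O86, S86),
   (O87, S87),
   (O88, S88),
   (O89, S89),
   (O90, S90),
   (O91, S91),
   (O92, S92),
   (O93, S93),
   (O94, S94),
   (O95, S95),
   (O96, S96),
   (O97, S97),
   (O98, S98),
   (O99, S99),
   (O100, S100),
   (O101, S101),
   (O102, S102),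
   (O103, S103),
   (O104, S104),
   (O105, S105),
   (O106, S106),
   (O107, S107),
   (O108, S108),
   (O109, S109)]

theorem step02 (h : ∀ x ∈ K.C02.done, Excl L0 (pt 5 x)) : Excl L0 (pt 5 136) := by
  refine class_main Gs5 gs5_ok K.C02.done h 136 207 (by decide +kernel) 0x201020000 2880 (by decide +kernel)
    (by decide +kernel) 20 26 2 ![0x1, 0x100000000, 0x100, 0x101020102, 0x200010000]
    (by decide) (by decide +kernel)
    0x10202 0x1020002 0x2000201 0x1010201 0x101020100 0x101010002 0x100000202 0x102010202 0x202000202 0x201020000 0x201010001 0x102020201 0x202000100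
    36 21 37 35 31 42 13 39 9 11 16 38
    Q1 Q2 Q3 Q4 Q5 Q6 Q7 Q8 Q9 Q10 Q11 Q12
    D1 D2 D3 D4 D5 D6 D7 D8 D9 D10 D11 D12
    (by decide +kernel) (by decide +kernel) (by decide +kernel) (by decide +kernel) (by decide +kernel) (by decide +kernel) (by decide +kernel) (by decide +kernel) (by decide +kernel) (by decide +kernel) (by decide +kernel) (by decide +kernel)
    h1 h2 h3 h4 h5 h6 h7 h8 h9 h10 h11 h12
    outs (by decide +kernel) 68157463 (by decide +kernel) (by decide +kernel) (by decide +kernel)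
    K.C02.CK ?_ (by decide +kernel)
  exact List.forall_iff_forall_mem.1 ⟨k0, k1, k2, k3, k4, k5, k6, k7, k8, k9, k10, k11, k12, k13, k14, k15, k16, k17, k18, k19, k20, k21, k22, k23, k24, k25, k26, k27, k28, k29, k30, k31, k32, k33, k34, k35, k36, k37, k38, k39, k40, k41, k42, k43, k44, k45, k46, k47, k48, k49, k50, k51, k52, k53, k54, k55, k56, k57, k58, k59, k60, k61, k62, k63, k64, k65, k66, k67, k68, k69, k70, k71, k72, k73, k74, k75, k76, k77, k78, k79, k80, k81, k82, k83, k84, k85, k86, k87, k88, k89, k90, k91, k92, k93, k94, k95, k96, k97, k98, k99, k100, k101, k102, k103, k104, k105, k106, k107, k108, k109⟩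
end

section
open K.C03
noncomputable def K.C03.CK : List ((ℕ → ℕ) × ℕ) :=
  [(O0, S0),
   (O1, S1),
   (O2, S2),
   (O3, S3),
   (O4, S4),
   (O5, S5),
   (O6, S6),
   (O7, S7),
   (O8, S8),
   (O9, S9),
   (O10, S10),
   (O11, S11),
   (O12, S12),
   (O13, S13),
   (O14, S14),
   (O15, S15),
   (O16, S16),
   (O17, S17),
   (O18, S18),
   (O19, S19),
   (O20, S20),
   (O21, S21),
   (O22, S22),
   (O23, S23),
   (O24, S24),
   (O25, S25),
   (O26, S26),
   (O27, S27),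
   (O28, S28),
   (O29, S29),
   (O30, S30),
   (O31, S31),
   (O32, S32),
   (O33, S33),
   (O34, S34),
   (O35, S35),
   (O36, S36),
   (O37, S37),
   (O38, S38),
   (O39, S39),
   (O40, S40),
   (O41, S41),
   (O42, S42),
   (O43, S43),
   (O44, S44),
   (O45, S45),
   (O46, S46),
   (O47, S47),
   (O48, S48),
   (O49, S49),
   (O50, S50),
   (O51, S51),
   (O52, S52),
   (O53, S53),
   (O54, S54),
   (O55, S55),
   (O56, S56),
   (O57, S57),
   (O58, S58),
   (O59, S59),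
   (O60, S60),
   (O61, S61),
   (O62, S62),
   (O63, S63),
   (O64, S64),
   (O65, S65),
   (O66, S66)]

theorem step03 (h : ∀ x ∈ K.C03.done, Excl L0 (pt 5 x)) : Excl L0 (pt 5 138) := by
  refine class_main Gs6 gs6_ok K.C03.done h 138 214 (by decide +kernel) 0x201020201 2893 (by decide +kernel)
    (by decide +kernel) 29 36 2 ![0x1, 0x100000000, 0x100, 0x202020101, 0x202000100]
    (by decide) (by decide +kernel)
    0x10202 0x2000102 0x2010200 0x2010101 0x102000101 0x200020202 0x100020200 0x202010000 0x101000102 0x100020002 0x102020102 0x202020200 0x201020102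
    28 33 32 43 37 21 14 12 20 40 17 27
    Q1 Q2 Q3 Q4 Q5 Q6 Q7 Q8 Q9 Q10 Q11 Q12
    D1 D2 D3 D4 D5 D6 D7 D8 D9 D10 D11 D12
    (by decide +kernel) (by decide +kernel) (by decide +kernel) (by decide +kernel) (by decide +kernel) (by decide +kernel) (by decide +kernel) (by decide +kernel) (by decide +kernel) (by decide +kernel) (by decide +kernel) (by decide +kernel)
    h1 h2 h3 h4 h5 h6 h7 h8 h9 h10 h11 h12
    outs (by decide +kernel) 69256347671 (by decide +kernel) (by decide +kernel) (by decide +kernel)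
    K.C03.CK ?_ (by decide +kernel)
  exact List.forall_iff_forall_mem.1 ⟨k0, k1, k2, k3, k4, k5, k6, k7, k8, k9, k10, k11, k12, k13, k14, k15, k16, k17, k18, k19, k20, k21, k22, k23, k24, k25, k26, k27, k28, k29, k30, k31, k32, k33, k34, k35, k36, k37, k38, k39, k40, k41, k42, k43, k44, k45, k46, k47, k48, k49, k50, k51, k52, k53, k54, k55, k56, k57, k58, k59, k60, k61, k62, k63, k64, k65, k66⟩
end

section
open K.C04
noncomputable def K.C04.CK : List ((ℕ → ℕ) × ℕ) :=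
  [(O0, S0),
   (O1, S1),
   (O2, S2),
   (O3, S3),
   (O4, S4),
   (O5, S5),
   (O6, S6),
   (O7, S7),
   (O8, S8),
   (O9, S9),
   (O10, S10),
   (O11, S11),
   (O12, S12),
   (O13, S13),
   (O14, S14),
   (O15, S15),
   (O16, S16),
   (O17, S17),
   (O18, S18),
   (O19, S19),
   (O20, S20),
   (O21, S21),
   (O22, S22),
   (O23, S23),
   (O24, S24),
   (O25, S25),
   (O26, S26),
   (O27, S27),
   (O28, S28),
   (O29, S29),
   (O30, S30),
   (O31, S31),
   (O32, S32),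
   (O33, S33),
   (O34, S34),
   (O35, S35),
   (O36, S36),
   (O37, S37),
   (O38, S38),
   (O39, S39),
   (O40, S40),
   (O41, S41)]

theorem step04 (h : ∀ x ∈ K.C04.done, Excl L0 (pt 5 x)) : Excl L0 (pt 5 148) := by
  refine class_main Gs3 gs3_ok K.C04.done h 148 204 (by decide +kernel) 0x201010200 2856 (by decide +kernel)
    (by decide +kernel) 3 39 8 ![0x1, 0x10002, 0x100, 0x100000000, 0x102010201]
    (by decide) (by decide +kernel)
    0x10202 0x2010002 0x2000102 0x2020100 0x102020000 0x100020002 0x101010101 0x102010202 0x200000201 0x102020201 0x101020202 0x102010100 0x100010201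
    7 2 5 33 35 30 28 38 32 34 29 31
    Q1 Q2 Q3 Q4 Q5 Q6 Q7 Q8 Q9 Q10 Q11 Q12
    D1 D2 D3 D4 D5 D6 D7 D8 D9 D10 D11 D12
    (by decide +kernel) (by decide +kernel) (by decide +kernel) (by decide +kernel) (by decide +kernel) (by decide +kernel) (by decide +kernel) (by decide +kernel) (by decide +kernel) (by decide +kernel) (by decide +kernel) (by decide +kernel)
    h1 h2 h3 h4 h5 h6 h7 h8 h9 h10 h11 h12
    outs (by decide +kernel) 549755814171 (by decide +kernel) (by decide +kernel) (by decide +kernel)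
    K.C04.CK ?_ (by decide +kernel)
  exact List.forall_iff_forall_mem.1 ⟨k0, k1, k2, k3, k4, k5, k6, k7, k8, k9, k10, k11, k12, k13, k14, k15, k16, k17, k18, k19, k20, k21, k22, k23, k24, k25, k26, k27, k28, k29, k30, k31, k32, k33, k34, k35, k36, k37, k38, k39, k40, k41⟩
end

section
open K.C05
noncomputable def K.C05.CK : List ((ℕ → ℕ) × ℕ) :=
  [(O0, S0),
   (O1, S1),
   (O2, S2),
   (O3, S3),
   (O4, S4),
   (O5, S5),
   (O6, S6),
   (O7, S7),
   (O8, S8),
   (O9, S9),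
   (O10, S10),
   (O11, S11),
   (O12, S12),
   (O13, S13),
   (O14, S14),
   (O15, S15),
   (O16, S16),
   (O17, S17),
   (O18, S18),
   (O19, S19),
   (O20, S20),
   (O21, S21),
   (O22, S22),
   (O23, S23),
   (O24, S24),
   (O25, S25),
   (O26, S26),
   (O27, S27),
   (O28, S28),
   (O29, S29),
   (O30, S30),
   (O31, S31),
   (O32, S32),
   (O33, S33),
   (O34, S34),
   (O35, S35),
   (O36, S36),
   (O37, S37),
   (O38, S38),
   (O39, S39),
   (O40, S40),
   (O41, S41),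
   (O42, S42),
   (O43, S43),
   (O44, S44),
   (O45, S45),
   (O46, S46),
   (O47, S47),
   (O48, S48),
   (O49, S49),
   (O50, S50),
   (O51, S51),
   (O52, S52),
   (O53, S53),
   (O54, S54)]

theorem step05 (h : ∀ x ∈ K.C05.done, Excl L0 (pt 5 x)) : Excl L0 (pt 5 130) := by
  refine class_main Gs2 gs2_ok K.C05.done h 130 222 (by decide +kernel) 0x202000200 3036 (by decide +kernel)
    (by decide +kernel) 25 39 2 ![0x1, 0x100000000, 0x100, 0x1010202, 0x100010101]
    (by decide) (by decide +kernel)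
    0x10202 0x2000201 0x2010002 0x2010101 0x102010001 0x100020002 0x102000002 0x202010102 0x202000202 0x101010200 0x100010201 0x201010202 0x200000201
    24 23 22 43 35 40 8 10 15 31 27 38
    Q1 Q2 Q3 Q4 Q5 Q6 Q7 Q8 Q9 Q10 Q11 Q12
    D1 D2 D3 D4 D5 D6 D7 D8 D9 D10 D11 D12
    (by decide +kernel) (by decide +kernel) (by decide +kernel) (by decide +kernel) (by decide +kernel) (by decide +kernel) (by decide +kernel) (by decide +kernel) (by decide +kernel) (by decide +kernel) (by decide +kernel) (by decide +kernel)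
    h1 h2 h3 h4 h5 h6 h7 h8 h9 h10 h11 h12
    outs (by decide +kernel) 549789368343 (by decide +kernel) (by decide +kernel) (by decide +kernel)
    K.C05.CK ?_ (by decide +kernel)
  exact List.forall_iff_forall_mem.1 ⟨k0, k1, k2, k3, k4, k5, k6, k7, k8, k9, k10, k11, k12, k13, k14, k15, k16, k17, k18, k19, k20, k21, k22, k23, k24, k25, k26, k27, k28, k29, k30, k31, k32, k33, k34, k35, k36, k37, k38, k39, k40, k41, k42, k43, k44, k45, k46, k47, k48, k49, k50, k51, k52, k53, k54⟩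
end

section
open K.C06
noncomputable def K.C06.CK : List ((ℕ → ℕ) × ℕ) :=
  [(O0, S0),
   (O1, S1),
   (O2, S2),
   (O3, S3),
   (O4, S4),
   (O5, S5),
   (O6, S6),
   (O7, S7),
   (O8, S8),
   (O9, S9),
   (O10, S10),
   (O11, S11),
   (O12, S12),
   (O13, S13),
   (O14, S14),
   (O15, S15),
   (O16, S16),
   (O17, S17),
   (O18, S18),
   (O19, S19),
   (O20, S20),
   (O21, S21),
   (O22, S22),
   (O23, S23),
   (O24, S24),
   (O25, S25),
   (O26, S26),
   (O27, S27),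
   (O28, S28),
   (O29, S29),
   (O30, S30),
   (O31, S31),
   (O32, S32),
   (O33, S33),
   (O34, S34),
   (O35, S35),
   (O36, S36),
   (O37, S37),
   (O38, S38),
   (O39, S39),
   (O40, S40),
   (O41, S41),
   (O42, S42),
   (O43, S43),
   (O44, S44),
   (O45, S45),
   (O46, S46),
   (O47, S47),
   (O48, S48),
   (O49, S49),
   (O50, S50),
   (O51, S51),
   (O52, S52),
   (O53, S53),
   (O54, S54),
   (O55, S55),
   (O56, S56),
   (O57, S57),
   (O58, S58),
   (O59, S59),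
   (O60, S60),
   (O61, S61),
   (O62, S62),
   (O63, S63)]

theorem step06 (h : ∀ x ∈ K.C06.done, Excl L0 (pt 5 x)) : Excl L0 (pt 5 112) := by
  refine class_main Gs2 gs2_ok K.C06.done h 112 240 (by decide +kernel) 0x202020200 3108 (by decide +kernel)
    (by decide +kernel) 25 38 2 ![0x1, 0x100000000, 0x100, 0x1010201, 0x100010101]
    (by decide) (by decide +kernel)
    0x10202 0x2010101 0x2010002 0x2000201 0x102010202 0x101010101 0x202010201 0x201010001 0x202000001 0x100020200 0x200000102 0x100010102 0x102000200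
    22 23 24 43 15 8 27 10 35 39 31 40
    Q1 Q2 Q3 Q4 Q5 Q6 Q7 Q8 Q9 Q10 Q11 Q12
    D1 D2 D3 D4 D5 D6 D7 D8 D9 D10 D11 D12
    (by decide +kernel) (by decide +kernel) (by decide +kernel) (by decide +kernel) (by decide +kernel) (by decide +kernel) (by decide +kernel) (by decide +kernel) (by decide +kernel) (by decide +kernel) (by decide +kernel) (by decide +kernel)
    h1 h2 h3 h4 h5 h6 h7 h8 h9 h10 h11 h12
    outs (by decide +kernel) 274911461399 (by decide +kernel) (by decide +kernel) (by decide +kernel)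
    K.C06.CK ?_ (by decide +kernel)
  exact List.forall_iff_forall_mem.1 ⟨k0, k1, k2, k3, k4, k5, k6, k7, k8, k9, k10, k11, k12, k13, k14, k15, k16, k17, k18, k19, k20, k21, k22, k23, k24, k25, k26, k27, k28, k29, k30, k31, k32, k33, k34, k35, k36, k37, k38, k39, k40, k41, k42, k43, k44, k45, k46, k47, k48, k49, k50, k51, k52, k53, k54, k55, k56, k57, k58, k59, k60, k61, k62, k63⟩
end

end Pool.Agent.T2H98.EGZ
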